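import Pool.Agent.Lib.TU.Defs
import Pool.Agent.Lib.TC.Defs

/-!
# Local uniformization over quasi-excellent local domains of characteristic p, transcendence defect
one: definitions

`W` is a normed field (ultrametric). Completions of noetherian local subrings of `W` inside complete
subfields of `W`, the completed version of the ring `HO`.
-/

namespace Pool.Agent.Lib.TQ

open Pool.Agent.Lib.MP_3029eb_ag Pool.Agent.Lib.MP_3029eb_ag.Abh Pool.Agent.Lib.TDO
  Pool.Agent.Lib.TU

/-- The ideal of `B` generated by the elements of norm less than one. -/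
def mI {W : Type} [NormedField W] (B : Subring W) : Ideal B := Ideal.span {b : B | ‖(b : W)‖ < 1}

/-- The elements of the `n`-th power of the ideal `mI B`. -/
def mP {W : Type} [NormedField W] (B : Subring W) (n : ℕ) : Set W :=
  {z | ∃ t ∈ mI B ^ n, (t : W) = z}

/-- The completion of `B` inside `W`: the limits of the sequences in `B` which are Cauchy for the
powers of `mI B` (see `mem_Cp_iff`). -/
def Cp {W : Type} [NormedField W] (B : Subring W) : Subring W :=
  Subring.closure {z | ∃ b : ℕ → W, (∀ n, b n ∈ B) ∧ (∀ n, b (n + 1) - b n ∈ mP B n) ∧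
    Filter.Tendsto b Filter.atTop (nhds z)}

/-- `B` is a noetherian local subring of the complete field `X`, dominated by the unit ball. -/
structure Nl {W : Type} [NormedField W] (X : Subfield W) (B : Subring W) : Prop where
  comp : IsComplete (X : Set W)
  nt : ∃ z ∈ X, z ≠ 0 ∧ ‖z‖ < 1
  le : ∀ z ∈ B, z ∈ X
  one : ∀ z ∈ B, ‖z‖ ≤ 1
  inv : ∀ z ∈ B, ‖z‖ = 1 → z⁻¹ ∈ B
  noeth : IsNoetherianRing B

variable {k W : Type} [Field k] [NormedField W] [Algebra k W] {r : ℕ}

variable [IsUltrametricDist W]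

/-- The union of the completions of the models of `c` (see `mem_HC_iff`). -/
def HC (M : IntermediateField k W) (c : Tri k W r) : Subring W :=
  Subring.closure {z | ∃ (x' : Fin r → W) (G : Finset W), Mdl M c x' G ∧ z ∈ Cp (Bu c x' G)}

/-- `z` is a monomial in `x` times a unit of `HC M c`. -/
def MoC (M : IntermediateField k W) (c : Tri k W r) (z : W) : Prop := Mo (HC M c) c.x z

/-- The ideal of `HC M c` generated by the monomials of norm less than one. -/
def QC (M : IntermediateField k W) (c : Tri k W r) : Set W :=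
  {z | ∃ a : Fin r → ℤ, ‖mon c.x a‖ < 1 ∧ ∃ h ∈ HC M c, z = mon c.x a * h}

/-- `HC M c [1/x]` -/
def HLC (M : IntermediateField k W) (c : Tri k W r) : Set W :=
  {z | ∃ a : Fin r → ℤ, ∃ h ∈ HC M c, z = mon c.x a * h}

/-- The fractions `n / d` with `n, d ∈ A` and `d` monomial for the triple `c`
(see `mem_AfC_iff`). -/
def AfC (M : IntermediateField k W) (c : Tri k W r) (A : Subring W) : Subring W :=
  Subring.closure {z | ∃ n ∈ A, ∃ d ∈ A, MoC M c d ∧ z * d = n}

/-- The elements of `HL M c` in the closure of `AfC M c A` for the monomial topology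
(see `mem_AD_iff`). -/
def AD (M : IntermediateField k W) (c : Tri k W r) (A : Subring W) : Subring W :=
  Subring.closure {z | z ∈ HL M c ∧ ∀ N : Fin r → ℤ, ∃ a ∈ AfC M c A, ∃ h ∈ HC M c,
    z = a + mon c.x N * h}

/-- The localization of `C0[t]` at the centre of the norm. -/
def Pt (C0 : IntermediateField k W) {n : ℕ} (t : Fin n → W) : Subring W :=
  locV (ball W) (Subring.closure ((C0 : Set W) ∪ Set.range t))

/-- Approximation data for the local ring `A`: a field of representatives `C0`, elements `t i` of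
the completion of `A`, generators `w j` of the maximal ideal of `A`, which are simple roots of the
polynomials `F j` with coefficients in the completion of `C0[t]`, approximations `F' j` of `F j` with
coefficients in the localization of `C0[t]`, and simple roots `w' j` of `F' j` close to `w j`. -/
structure Dat (m : ℕ) (S L : IntermediateField k W) (A : Subring W)
    (C0 : IntermediateField k W) {n q : ℕ} (t : Fin n → W) (w w' : Fin q → W)
    (F F' : Fin q → Polynomial W) (N : ℕ) : Prop where
  nl : Nl L.toSubfield A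
  cst : Cst m C0
  CM : C0 ≤ S ⊓ L
  CD : ∀ e ∈ C0, e ∈ Cp A
  res : ∀ z ∈ Cp A, ∃ e ∈ C0, ‖z - e‖ < 1
  tD : ∀ i, t i ∈ Cp A ∧ ‖t i‖ < 1
  tM : ∀ i, t i ∈ S ⊓ L ∧ t i ≠ 0
  wA : ∀ j, w j ∈ A ∧ ‖w j‖ < 1
  gen : ∀ z ∈ A, ‖z‖ < 1 → z ∈ Submodule.span A (Set.range w)
  FP : ∀ j i, (F j).coeff i ∈ Cp (Pt C0 t)
  FP' : ∀ j i, (F' j).coeff i ∈ Pt C0 t
  close : ∀ j i, (F j).coeff i - (F' j).coeff i ∈ mP (Cp (Pt C0 t)) N
  root : ∀ j, (F j).eval (w j) = 0
  root' : ∀ j, (F' j).eval (w' j) = 0
  wM' : ∀ j, w' j ∈ S ⊓ L ∧ ‖w' j‖ ≤ 1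
  der0 : ∀ j, (F' j).derivative.eval (w' j) ≠ 0
  der : ∀ j, ‖(F j).derivative.eval (w j)‖ = ‖(F' j).derivative.eval (w' j)‖
  ww' : ∀ j, ‖w j - w' j‖ < ‖(F' j).derivative.eval (w' j)‖
  tN : ∀ j, ∀ α : Fin n → ℕ, ∑ i, α i = N →
    ‖monN t α‖ < ‖(F' j).derivative.eval (w' j)‖ ^ 2

/-- The ring `A` and the model `(x', G)` of the triple `c` have the same completion. -/
structure Syn (M : IntermediateField k W) (c : Tri k W r) (A : Subring W) (x' : Fin r → W)
    (G : Finset W) : Prop where
  mdl : Mdl M c x' G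
  eq : Cp A = Cp (Bu c x' G)

/-- Every element of `A` has a denominator in `A0` which is a product of elements of `Δ` times a
unit of `A`. -/
def DenD {K : Type} [NormedField K] (A0 A : Subring K) (Δ : Finset K) : Prop :=
  ∀ z ∈ A, ∃ D ∈ A0, (∃ δ ∈ Submonoid.closure (Δ : Set K), ∃ b ∈ A, ‖b‖ = 1 ∧ D = δ * b) ∧
    D * z ∈ A0

end Pool.Agent.Lib.TQ
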