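import Pool.Agent.Lib.TU.ChartU
import Pool.Agent.Lib.TQ.Defs

/-!
# Module ChartIn: a chart of the closure of a given subfield
PROOF. Adapt the proof of `TU.main_chartU` (`TU/ChartU.lean`), which constructs `W` by `exists_ambW` for a field `F`, and then a chart
of `cl ι.fieldRange`.  Here `W` and `F0` are given: take `F := ↥F0` (a normed field, `NontriviallyNormedField` not needed for
`exists_startU`; `Algebra.EssFiniteType k F0` from `hfg`: `IntermediateField.fg_top_iff`, `IntermediateField.essFiniteType_iff` or similar), `ι := F0.val`,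
`ι.fieldRange = F0` (`IntermediateField.fieldRange_val`), `hι := fun _ => rfl`, `S := main_S F0` (`main_mem_S`, `main_S_closed`, `TDO/Main.lean`), `hcomp`,
`halg` are hypotheses.  The elements `x, z` are in `F0`: `Indep` and `hzi` for the corresponding elements of `↥F0`
(`MvPolynomial.aeval` and `F0.val`: `MvPolynomial.comp_aeval_apply` as in `ChartU`; `‖z i‖ = 1` from `hzi` for `X i`).  From the part
on finite generation the proof is unchanged.
-/

namespace Pool.Agent.Lib.TQ

open Pool.Agent.Lib.MP_3029eb_ag Pool.Agent.Lib.MP_3029eb_ag.Abh Pool.Agent.Lib.TDO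
  Pool.Agent.Lib.TU

/-- the elements of the field generated by residually independent elements -/
private theorem cin_unit {k W : Type} [Field k] [NormedField W] [IsUltrametricDist W]
    [Algebra k W] {m : ℕ} (z : Fin m → W)
    (hz : ∀ P : MvPolynomial (Fin m) k, P ≠ 0 → ‖MvPolynomial.aeval z P‖ = 1) :
    ∀ e ∈ IntermediateField.adjoin k (Set.range z), e ≠ 0 → ‖e‖ = 1 := by
  intro e he h0
  rw [IntermediateField.mem_adjoin_range_iff] at he
  obtain ⟨P, Q, rfl⟩ := he
  have hP : P ≠ 0 := by
    rintro rfl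
    apply h0
    rw [map_zero, zero_div]
  have hQ : Q ≠ 0 := by
    rintro rfl
    apply h0
    rw [map_zero, div_zero]
  rw [norm_div, hz P hP, hz Q hQ, div_one]

open scoped IntermediateField.algebraAdjoinAdjoin in
private theorem cin_trdeg {k W : Type} [Field k] [Field W] [Algebra k W] {m : ℕ} (Z : Fin m → W)
    (hZ : AlgebraicIndependent k Z) (C : IntermediateField k W) (hZC : ∀ i, Z i ∈ C)
    (halg : ∀ e ∈ C, IsAlgebraic (IntermediateField.adjoin k (Set.range Z)) e) :
    Algebra.trdeg k C = (m : Cardinal) := by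
  set Z' : Fin m → C := fun i => ⟨Z i, hZC i⟩ with hZ'
  have hind : AlgebraicIndependent k Z' := by
    have h1 : AlgebraicIndependent k (C.val ∘ Z') := hZ
    exact AlgebraicIndependent.of_comp C.val h1
  have hb : IsTranscendenceBasis k Z' := by
    rw [hind.isTranscendenceBasis_iff_isAlgebraic]
    set R := Algebra.adjoin k (Set.range Z') with hR
    set S := Algebra.adjoin k (Set.range Z) with hS
    have hmap : R.map C.val = S := by
      rw [hR, AlgHom.map_adjoin, ← Set.range_comp]
      rfl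
    let f : R →ₐ[k] S := (C.val.comp R.val).codRestrict S (fun x => by
      rw [← hmap]
      exact ⟨x.1, x.2, rfl⟩)
    constructor
    intro a
    have h1 : IsAlgebraic S (C.val a) := by
      have h2 := halg a.1 a.2
      exact (IsFractionRing.isAlgebraic_iff S (IntermediateField.adjoin k (Set.range Z)) W).2 h2
    refine h1.of_ringHom_of_comp_eq f.toRingHom C.val.toRingHom ?_ ?_ ?_
    · rintro ⟨s, hs⟩
      have hs2 := hs
      rw [← hmap] at hs2
      obtain ⟨r, hr, hrs⟩ := hs2
      exact ⟨⟨r, hr⟩, Subtype.ext hrs⟩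
    · exact C.val.toRingHom.injective
    · ext x
      rfl
  rw [← hb.cardinalMk_eq_trdeg]
  simp

/-- transcendence of the parameters over the field of constants -/
private theorem cin_tr {k W : Type} [Field k] [Field W] [Algebra k W] {r m : ℕ} (z : Fin m → W)
    (x : Fin r → W) (y : W)
    (h : AlgebraicIndependent k (Sum.elim (fun o : Option (Fin r) => o.elim y x) z)) :
    AlgebraicIndependent (IntermediateField.adjoin k (Set.range z))
      (fun o : Option (Fin r) => o.elim y x) := by
  have h4 := (AlgebraicIndependent.sumElim_iff.1 h).2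
  have hle : Algebra.adjoin k (Set.range z) ≤
      (IntermediateField.adjoin k (Set.range z)).toSubalgebra :=
    IntermediateField.algebra_adjoin_le_adjoin k _
  let _ : Algebra (Algebra.adjoin k (Set.range z)) (IntermediateField.adjoin k (Set.range z)) :=
    (Subalgebra.inclusion hle).toRingHom.toAlgebra
  have : IsScalarTower (Algebra.adjoin k (Set.range z))
    (IntermediateField.adjoin k (Set.range z)) W := .of_algebraMap_eq fun _ => rfl
  have : Algebra.IsAlgebraic (Algebra.adjoin k (Set.range z))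
      (IntermediateField.adjoin k (Set.range z)) := ⟨fun e => by
    have h1 : IsAlgebraic (IntermediateField.adjoin k (Set.range z)) (e : W) :=
      isAlgebraic_algebraMap e
    have h2 : IsAlgebraic (Algebra.adjoin k (Set.range z)) (e : W) :=
      IntermediateField.isAlgebraic_adjoin_iff.1 h1
    exact (isAlgebraic_algebraMap_iff
      (algebraMap (IntermediateField.adjoin k (Set.range z)) W).injective).1 h2⟩
  exact h4.extendScalars _

private theorem cin_core {k F W : Type} [Field k] [PerfectField k] [NormedField F]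
    [IsUltrametricDist F] [Algebra k F] [Algebra.EssFiniteType k F] [NontriviallyNormedField W]
    [IsUltrametricDist W] [Algebra k W] [IsAlgClosed W] {r m : ℕ} (hr : 0 < r)
    (hA : AmbG r m k W) (p : ℕ) [Fact p.Prime] [CharP k p] (ι : F →ₐ[k] W)
    (hι : ∀ z, ‖ι z‖ = ‖z‖)
    (hcomp : IsComplete ((cl ι.fieldRange : IntermediateField k W) : Set W))
    (halg : ∀ z : W, IsAlgebraic (cl ι.fieldRange : IntermediateField k W) z)
    (htr : Algebra.trdeg k F = (r + m + 1 : ℕ)) (x : Fin r → F) (hx : Indep x) (z : Fin m → F)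
    (hz : ∀ i, ‖z i‖ ≤ 1)
    (hzi : ∀ P : MvPolynomial (Fin m) k, P ≠ 0 → ‖MvPolynomial.aeval z P‖ = 1) :
    ∃ S : IntermediateField k W, (∀ z : W, z ∈ S ↔ IsSeparable ι.fieldRange z) ∧
      (∀ z : W, IsSeparable S z → z ∈ S) ∧ HasCh m S r (cl ι.fieldRange) := by
  classical
  have hu : ∀ c : k, c ≠ 0 → ‖algebraMap k F c‖ = 1 := fun c hc => by
    rw [← hι, AlgHom.commutes]
    exact hA.unit c hc
  set F0 : IntermediateField k W := ι.fieldRange with hF0
  set S : IntermediateField k W := main_S F0 with hSdef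
  have hS : ∀ z : W, IsSeparable S z → z ∈ S := main_S_closed F0
  have hSF : ∀ z : W, z ∈ S ↔ IsSeparable F0 z := fun z => main_mem_S
  have hle : F0 ≤ S := fun z hz =>
    main_mem_S.2 (isSeparable_algebraMap (F := F0) (K := W) (⟨z, hz⟩ : F0))
  have hmemF : ∀ z : F, ι z ∈ F0 := fun z => ⟨z, rfl⟩
  -- finite generation
  obtain ⟨G0, hG0⟩ : (⊤ : IntermediateField k F).FG :=
    IntermediateField.fg_top_iff.2 ‹Algebra.EssFiniteType k F›
  set G : Finset W := G0.image ι with hG
  have hadj : IntermediateField.adjoin k (G : Set W) = F0 := by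
    rw [hG, Finset.coe_image]
    have h1 := IntermediateField.adjoin_map k (G0 : Set F) ι
    rw [hG0] at h1
    rw [← AlgHom.fieldRange_eq_map] at h1
    exact h1.symm
  -- start
  obtain ⟨x1, z1, y1, hx1, hz1, hzi1, hy1, hsep1⟩ := exists_startU p hr hu htr x hx z hz hzi
  set x2 : Fin r → W := fun i => ι (x1 i) with hx2
  set z2 : Fin m → W := fun i => ι (z1 i) with hz2
  set y2 : W := ι y1 with hy2
  have hmon : ∀ a : Fin r → ℤ, mon x2 a = ι (mon x1 a) := by
    intro a
    unfold mon
    rw [map_prod]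
    exact Finset.prod_congr rfl fun i _ => (map_zpow₀ ι _ _).symm
  have hx2I : Indep x2 := by
    refine ⟨fun i => (map_ne_zero ι).2 (hx1.ne i), fun i => ?_, fun δ hδ => ?_⟩
    · show ‖ι (x1 i)‖ < 1
      rw [hι]; exact hx1.lt i
    · apply hx1.indep
      rw [hmon, hι] at hδ
      exact hδ
  have hzi2 : ∀ P : MvPolynomial (Fin m) k, P ≠ 0 → ‖MvPolynomial.aeval z2 P‖ = 1 := by
    intro P hP
    have h1 : ι (MvPolynomial.aeval z1 P) = MvPolynomial.aeval z2 P :=
      MvPolynomial.comp_aeval_apply (φ := ι) (f := z1) P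
    rw [← h1, hι]
    exact hzi1 P hP
  set C0 : IntermediateField k W := IntermediateField.adjoin k (Set.range z2) with hC0
  have hz2C : ∀ i, z2 i ∈ C0 := fun i => IntermediateField.subset_adjoin k _ ⟨i, rfl⟩
  -- the big family is algebraically independent
  set v : Option (Fin r) ⊕ Fin m → F := Sum.elim (fun o : Option (Fin r) => o.elim y1 x1) z1
    with hv
  have hrange : Set.range v = (Set.range z1 ∪ Set.range x1) ∪ {y1} := by
    ext t
    constructor
    · rintro ⟨o | j, rfl⟩
      · cases o with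
        | none => exact Or.inr rfl
        | some i => exact Or.inl (Or.inr ⟨i, rfl⟩)
      · exact Or.inl (Or.inl ⟨j, rfl⟩)
    · rintro ((⟨j, rfl⟩ | ⟨i, rfl⟩) | ht)
      · exact ⟨Sum.inr j, rfl⟩
      · exact ⟨Sum.inl (some i), rfl⟩
      · rw [Set.mem_singleton_iff] at ht
        subst ht
        exact ⟨Sum.inl none, rfl⟩
  have halgv : Algebra.IsAlgebraic (Algebra.adjoin k (Set.range v)) F := by
    refine ⟨fun t => ?_⟩
    have h3 : IsAlgebraic (IntermediateField.adjoin k (Set.range v)) t := by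
      rw [hrange]
      exact (hsep1 t).isIntegral.isAlgebraic
    exact IntermediateField.isAlgebraic_adjoin_iff.1 h3
  have hcard : Cardinal.mk (Option (Fin r) ⊕ Fin m) ≤ Algebra.trdeg k F := by
    rw [htr, Cardinal.mk_fintype, Fintype.card_sum, Fintype.card_option, Fintype.card_fin,
      Fintype.card_fin, Nat.cast_le]
    omega
  have hvi : AlgebraicIndependent k v :=
    (Algebra.IsAlgebraic.isTranscendenceBasis_of_le_trdeg_of_finite k v hcard).1
  have hvi2 : AlgebraicIndependent k (Sum.elim (fun o : Option (Fin r) => o.elim y2 x2) z2) := by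
    have h1 : AlgebraicIndependent k (ι ∘ v) := hvi.map' ι.toRingHom.injective
    have h2 : ι ∘ v = Sum.elim (fun o : Option (Fin r) => o.elim y2 x2) z2 := by
      funext t
      rcases t with (_ | i) | j <;> rfl
    rwa [h2] at h1
  have hP2 : Par C0 x2 y2 := by
    refine ⟨hx2I, ?_, ?_⟩
    · rw [hy2, hι]; exact hy1
    · rw [tr_iff x2 y2 hx2I.ne]
      exact cin_tr z2 x2 y2 hvi2
  have hCst : Cst m C0 := by
    refine ⟨cin_unit z2 hzi2, ?_, ?_⟩
    · refine ⟨Finset.univ.image z2, ?_⟩
      rw [Finset.coe_image, Finset.coe_univ, Set.image_univ]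
    · have h1 : AlgebraicIndependent k z2 := (AlgebraicIndependent.sumElim_iff.1 hvi2).1
      exact cin_trdeg z2 h1 C0 hz2C fun e he => isAlgebraic_algebraMap (⟨e, he⟩ : C0)
  set E : IntermediateField k W :=
    IntermediateField.adjoin k ((Set.range z2 ∪ Set.range x2) ∪ {y2}) with hE
  have hmemE : ∀ w : W, w ∈ E → w ∈ Kxy C0 x2 y2 := by
    intro w hw
    have h1 : (Kxy C0 x2 y2).restrictScalars k =
        IntermediateField.adjoin k ((Set.range z2) ∪ (Set.range x2 ∪ {y2})) := by
      unfold Kxy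
      rw [hC0]
      exact IntermediateField.adjoin_adjoin_left k _ _
    rw [← Set.union_assoc] at h1
    rw [hE, ← h1] at hw
    exact hw
  have hEmap : E = (IntermediateField.adjoin k ((Set.range z1 ∪ Set.range x1) ∪ {y1})).map ι := by
    rw [hE, IntermediateField.adjoin_map, Set.image_union, Set.image_union, Set.image_singleton,
      ← Set.range_comp, ← Set.range_comp]
    rfl
  have hEF : E ≤ F0 := by
    rw [hEmap]
    rintro _ ⟨z, _, rfl⟩
    exact hmemF z
  have hsepF : ∀ z ∈ F0, IsSeparable E z := by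
    rintro _ ⟨z, rfl⟩
    rw [hEmap]
    exact main_sep ι _ z (hsep1 z)
  have hsepS : ∀ z ∈ S, IsSeparable E z := fun z hz =>
    main_sep_trans hEF hsepF (main_mem_S.1 hz)
  have hsepK : ∀ z ∈ S, IsSeparable (Kxy C0 x2 y2) z := by
    intro z hz
    let _ : Algebra E (Kxy C0 x2 y2) :=
      { smul := fun a b => ⟨a * b, mul_mem (hmemE a a.2) b.2⟩
        algebraMap :=
          { toFun := fun a => ⟨a, hmemE a a.2⟩
            map_one' := rfl
            map_mul' := fun _ _ => rfl
            map_zero' := rfl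
            map_add' := fun _ _ => rfl }
        commutes' := fun _ _ => mul_comm _ _
        smul_def' := fun _ _ => rfl }
    have _ : IsScalarTower E (Kxy C0 x2 y2) W := IsScalarTower.of_algebraMap_eq fun _ => rfl
    exact (hsepS z hz).tower_top (Kxy C0 x2 y2)
  set L0 : IntermediateField k W := cl E with hL0
  have hL0c : IsComplete (L0 : Set W) := isComplete_cl hcomp (hEF.trans (le_cl F0))
  have hz2E : ∀ i, z2 i ∈ E := fun i =>
    IntermediateField.subset_adjoin k _ (Or.inl (Or.inl ⟨i, rfl⟩))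
  have hx2E : ∀ i, x2 i ∈ E := fun i =>
    IntermediateField.subset_adjoin k _ (Or.inl (Or.inr ⟨i, rfl⟩))
  have hy2E : y2 ∈ E := IntermediateField.subset_adjoin k _ (Or.inr rfl)
  have hC0E : C0 ≤ E := by
    rw [hC0, IntermediateField.adjoin_le_iff]
    rintro _ ⟨i, rfl⟩
    exact hz2E i
  have hch : Ch m S L0 ⟨C0, x2, y2⟩ := by
    refine ⟨⟨hCst, hP2, ?_, fun i => ?_, ?_⟩, fun z hz => ?_, hsepK⟩
    · exact le_inf (hC0E.trans (hEF.trans hle)) (hC0E.trans (le_cl E))
    · exact IntermediateField.mem_inf.2 ⟨hle (hEF (hx2E i)), le_cl E (hx2E i)⟩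
    · exact IntermediateField.mem_inf.2 ⟨hle (hEF hy2E), le_cl E hy2E⟩
    · rw [mem_cl_iff]
      intro ε hε
      obtain ⟨w, hw, h⟩ := (mem_cl_iff E z).1 hz ε hε
      exact ⟨w, hmemE w hw, h⟩
  have hntE : ∃ z ∈ E, z ≠ 0 ∧ ‖z‖ < 1 :=
    ⟨x2 ⟨0, hr⟩, hx2E _, hx2I.ne _, hx2I.lt _⟩
  have hGsep : ∀ θ ∈ G, IsSeparable L0 θ := by
    intro θ hθ
    have hθF : θ ∈ F0 := by
      rw [← hadj]; exact IntermediateField.subset_adjoin k _ hθ
    exact main_sep_le (le_cl E) (hsepF θ hθF)
  have hT := towerU hr hA p S L0 hS hL0c ⟨_, hch⟩ G hGsep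
  have hcl : L0 ⊔ IntermediateField.adjoin k (G : Set W) = cl F0 := by
    apply le_antisymm
    · refine sup_le ?_ ?_
      · exact cl_mono hEF
      · rw [hadj]; exact le_cl F0
    · refine cl_le_of_isComplete (isComplete_sup_finset hL0c ?_ G fun θ hθ =>
        (hGsep θ hθ).isIntegral.isAlgebraic) ?_
      · obtain ⟨z, hz, h⟩ := hntE
        exact ⟨z, le_cl E hz, h⟩
      · rw [← hadj]; exact le_sup_right
  rw [hcl] at hT
  have hntF : ∃ z ∈ cl F0, z ≠ 0 ∧ ‖z‖ < 1 := by
    obtain ⟨z, hz, h⟩ := hntE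
    exact ⟨z, le_cl F0 (hEF hz), h⟩
  exact ⟨S, hSF, hS, desc_all hr hA p S F0 (cl F0) hSF hS (le_cl F0) hcomp hntF halg hT⟩

private theorem cin_core2 {k F W : Type} [Field k] [PerfectField k] [Field F]
    [Algebra k F] [Algebra.EssFiniteType k F] [NontriviallyNormedField W]
    [IsUltrametricDist W] [Algebra k W] [IsAlgClosed W] {r m : ℕ} (hr : 0 < r)
    (hA : AmbG r m k W) (p : ℕ) [Fact p.Prime] [CharP k p] (ι : F →ₐ[k] W)
    (hcomp : IsComplete ((cl ι.fieldRange : IntermediateField k W) : Set W))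
    (halg : ∀ z : W, IsAlgebraic (cl ι.fieldRange : IntermediateField k W) z)
    (htr : Algebra.trdeg k F = (r + m + 1 : ℕ)) (x : Fin r → F) (hx : Indep fun i => ι (x i))
    (z : Fin m → F)
    (hzi : ∀ P : MvPolynomial (Fin m) k, P ≠ 0 →
      ‖MvPolynomial.aeval (fun i => ι (z i)) P‖ = 1) :
    ∃ S : IntermediateField k W, (∀ z : W, z ∈ S ↔ IsSeparable ι.fieldRange z) ∧
      (∀ z : W, IsSeparable S z → z ∈ S) ∧ HasCh m S r (cl ι.fieldRange) := by
  let _ : NormedField F := NormedField.induced F W ι ι.toRingHom.injective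
  have hn : ∀ z : F, ‖ι z‖ = ‖z‖ := fun _ => rfl
  have _ : IsUltrametricDist F := ⟨fun a b c => by
    have := IsUltrametricDist.dist_triangle_max (ι a) (ι b) (ι c)
    rw [dist_eq_norm, dist_eq_norm, dist_eq_norm, ← map_sub, ← map_sub, ← map_sub] at this
    rw [dist_eq_norm, dist_eq_norm, dist_eq_norm]
    exact this⟩
  have hmon : ∀ a : Fin r → ℤ, mon (fun i => ι (x i)) a = ι (mon x a) := by
    intro a
    unfold mon
    rw [map_prod]
    exact Finset.prod_congr rfl fun i _ => (map_zpow₀ ι _ _).symm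
  have hx' : Indep x := by
    refine ⟨fun i => (map_ne_zero ι).1 (hx.ne i), fun i => hx.lt i, fun δ hδ => ?_⟩
    apply hx.indep
    rw [hmon, hn]
    exact hδ
  have hX : ∀ i, ‖z i‖ = 1 := fun i => by
    have := hzi (MvPolynomial.X i) (MvPolynomial.X_ne_zero i)
    rwa [MvPolynomial.aeval_X] at this
  refine cin_core hr hA p ι hn hcomp halg htr x hx' z (fun i => (hX i).le) fun P hP => ?_
  have h1 : ι (MvPolynomial.aeval z P) = MvPolynomial.aeval (fun i => ι (z i)) P :=
    MvPolynomial.comp_aeval_apply (φ := ι) (f := z) P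
  rw [← hn, h1]
  exact hzi P hP

theorem chart_in {k W : Type} [Field k] [PerfectField k] [NontriviallyNormedField W]
    [IsUltrametricDist W] [Algebra k W] [IsAlgClosed W] {r m : ℕ} (hr : 0 < r)
    (hA : AmbG r m k W) (p : ℕ) [Fact p.Prime] [CharP k p] (F0 : IntermediateField k W)
    (hfg : F0.FG) (htr : Algebra.trdeg k F0 = ((r + m + 1 : ℕ) : Cardinal)) (x : Fin r → W)
    (hx : Indep x) (hxF : ∀ i, x i ∈ F0) (z : Fin m → W) (hzF : ∀ i, z i ∈ F0)
    (hzi : ∀ P : MvPolynomial (Fin m) k, P ≠ 0 → ‖MvPolynomial.aeval z P‖ = 1)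
    (hcomp : IsComplete ((cl F0 : IntermediateField k W) : Set W))
    (halg : ∀ z : W, IsAlgebraic (cl F0 : IntermediateField k W) z) :
    ∃ S : IntermediateField k W, (∀ z : W, z ∈ S ↔ IsSeparable F0 z) ∧
      (∀ z : W, IsSeparable S z → z ∈ S) ∧ HasCh m S r (cl F0) := by
  have _ : Algebra.EssFiniteType k F0 := IntermediateField.essFiniteType_iff.2 hfg
  have hr0 : F0.val.fieldRange = F0 := IntermediateField.fieldRange_val F0
  have h := cin_core2 hr hA p F0.val (by rw [hr0]; exact hcomp)
    (by rw [hr0]; exact halg) (by rw [htr]) (fun i => (⟨x i, hxF i⟩ : F0))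
    hx (fun i => (⟨z i, hzF i⟩ : F0)) hzi
  rw [hr0] at h
  exact h

end Pool.Agent.Lib.TQ
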