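import Pool.Agent.Lib.TQ.ApxA
import Pool.Agent.Lib.TQ.ChartIn

/-!
# Module ApxB: the chart and the approximation data
PROOF. `trdeg_F2`: `F2` is algebraic over `adjoin k (C0 ∪ t)` (the `w' j` are roots of the `F' j ≠ 0` with coefficients in `Pt C0 t`, which is contained
in `adjoin k (C0 ∪ t)`); `trdeg k (adjoin k (C0 ∪ t)) = m + n` (`Algebra.trdeg k C0 = m`, `t` algebraically independent over `C0`:
tower `k ≤ C0 ≤ C0(t)`, `Algebra.trdeg_add_eq`, `IsTranscendenceBasis`; compare the lemmas on transcendence degrees in `TU/CstX.lean`, `TU/DimU.lean`, and `chu_trdeg` in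
`TU/ChartU.lean`).
`fg_F2`: `C0` is finitely generated.
`cst_z`: a transcendence basis of `C0` over `k` (`Algebra.trdeg k C0 = m`); a nonzero polynomial in it is a nonzero element of `C0`, so of norm one.
`start_W`: the hypotheses for `D := Cp A` of `cohen_gabber` (`Cp_idem`, `Nl.cp`; elements of `Cp A` are congruent to elements of `A`, `Cp_dens` with `n := 1`,
`(Nl.cp _).mP_one_iff`), `ρ := r + 1`.  `exists_dat`, `F2`.  `chart_in` for `F0 := F2`: `x' i ∈ F2` with `‖x' i - x i‖ < ‖x i‖` (`L = cl F2`, `mem_cl_iff`), so `‖x' i‖ = ‖x i‖`,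
`Indep x'`; `z` from `cst_z`.
-/

namespace Pool.Agent.Lib.TQ

open Pool.Agent.Lib.MP_3029eb_ag Pool.Agent.Lib.MP_3029eb_ag.Abh Pool.Agent.Lib.TDO
  Pool.Agent.Lib.TU

private theorem apb_basis {k W : Type} [Field k] [Field W] [Algebra k W] {m : ℕ}
    (C : IntermediateField k W) (h : Algebra.trdeg k C = (m : Cardinal)) :
    ∃ Z : Fin m → W, (∀ i, Z i ∈ C) ∧ AlgebraicIndependent k Z ∧
      ∀ e ∈ C, IsAlgebraic (IntermediateField.adjoin k (Set.range Z)) e := by
  obtain ⟨s, hs⟩ := exists_isTranscendenceBasis k C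
  have h1 : Cardinal.mk s = (m : Cardinal) := by
    rw [hs.cardinalMk_eq_trdeg, h]
  obtain ⟨e⟩ : Nonempty (Fin m ≃ s) := by
    rw [← Cardinal.eq, h1, Cardinal.mk_fin]
  have hb : IsTranscendenceBasis k (fun i : Fin m => ((e i : s) : C)) := hs.comp_equiv e
  set x : Fin m → C := fun i => ((e i : s) : C) with hx
  refine ⟨fun i => (x i : W), fun i => (x i).2, ?_, ?_⟩
  · have h1 : AlgebraicIndependent k (C.val ∘ x) :=
      hb.1.map' (f := C.val) C.val.toRingHom.injective
    exact h1
  · intro z hz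
    have h2 : IsAlgebraic (Algebra.adjoin k (Set.range x)) (⟨z, hz⟩ : C) :=
      hb.isAlgebraic.isAlgebraic _
    let f : Algebra.adjoin k (Set.range x) →+*
        IntermediateField.adjoin k (Set.range fun i => (x i : W)) :=
      (C.val.toRingHom.comp (Algebra.adjoin k (Set.range x)).val.toRingHom).codRestrict
        (IntermediateField.adjoin k (Set.range fun i => (x i : W))) (fun y => by
          have h3 : (Algebra.adjoin k (Set.range x)).map C.val ≤
              (IntermediateField.adjoin k (Set.range fun i => (x i : W))).toSubalgebra := by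
            rw [AlgHom.map_adjoin, ← Set.range_comp]
            exact IntermediateField.algebra_adjoin_le_adjoin k _
          exact h3 ⟨y.1, y.2, rfl⟩)
    exact h2.ringHom_of_comp_eq f C.val.toRingHom (by
      intro a b hab
      have h4 : ((a : C) : W) = ((b : C) : W) := congrArg
        (fun t : IntermediateField.adjoin k (Set.range fun i => (x i : W)) => (t : W)) hab
      exact Subtype.ext (Subtype.ext h4)) (by ext; rfl)

open scoped IntermediateField.algebraAdjoinAdjoin in
private theorem apb_trdeg {k W ι : Type} [Field k] [Field W] [Algebra k W] [Fintype ι] (Z : ι → W)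
    (hZ : AlgebraicIndependent k Z) (C : IntermediateField k W) (hZC : ∀ i, Z i ∈ C)
    (halg : ∀ e ∈ C, IsAlgebraic (IntermediateField.adjoin k (Set.range Z)) e) :
    Algebra.trdeg k C = (Fintype.card ι : Cardinal) := by
  set Z' : ι → C := fun i => ⟨Z i, hZC i⟩ with hZ'
  have hind : AlgebraicIndependent k Z' := by
    have h1 : AlgebraicIndependent k (C.val ∘ Z') := hZ
    exact AlgebraicIndependent.of_comp C.val h1
  have hb : IsTranscendenceBasis k Z' := by
    rw [hind.isTranscendenceBasis_iff_isAlgebraic]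
    set R := Algebra.adjoin k (Set.range Z') with hR
    set S := Algebra.adjoin k (Set.range Z) with hS
    have hmap : R.map C.val = S := by
      rw [hR, AlgHom.map_adjoin, ← Set.range_comp]
      rfl
    let f : R →ₐ[k] S := (C.val.comp R.val).codRestrict S (fun x => by
      rw [← hmap]
      exact ⟨x.1, x.2, rfl⟩)
    constructor
    intro a
    have h1 : IsAlgebraic S (C.val a) := by
      have h2 := halg a.1 a.2
      exact (IsFractionRing.isAlgebraic_iff S (IntermediateField.adjoin k (Set.range Z)) W).2 h2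
    refine h1.of_ringHom_of_comp_eq f.toRingHom C.val.toRingHom ?_ ?_ ?_
    · rintro ⟨s, hs⟩
      have hs2 := hs
      rw [← hmap] at hs2
      obtain ⟨r, hr, hrs⟩ := hs2
      exact ⟨⟨r, hr⟩, Subtype.ext hrs⟩
    · exact C.val.toRingHom.injective
    · ext x
      rfl
  rw [← hb.cardinalMk_eq_trdeg]
  simp

theorem trdeg_F2 {k W : Type} [Field k] [NormedField W] [IsUltrametricDist W] [Algebra k W]
    {m n q : ℕ} (C0 : IntermediateField k W) (hC0 : Cst m C0) (t : Fin n → W)
    (ht : AlgebraicIndependent C0 t) (w' : Fin q → W)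
    (F' : Fin q → Polynomial W) (hF' : ∀ j i, (F' j).coeff i ∈ Pt C0 t)
    (h0 : ∀ j, (F' j).eval (w' j) = 0) (h1 : ∀ j, F' j ≠ 0) :
    Algebra.trdeg k (IntermediateField.adjoin k
      ((C0 : Set W) ∪ (Set.range t ∪ Set.range w'))) = ((m + n : ℕ) : Cardinal) := by
  obtain ⟨Z, hZC, hZi, hZalg⟩ := apb_basis C0 hC0.trd
  set v : Fin n ⊕ Fin m → W := Sum.elim t Z with hv
  have hvi : AlgebraicIndependent k v := by
    rw [hv, AlgebraicIndependent.sumElim_iff]
    refine ⟨hZi, ?_⟩
    have hle : Algebra.adjoin k (Set.range Z) ≤ C0.toSubalgebra := by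
      rw [Algebra.adjoin_le_iff]
      rintro _ ⟨i, rfl⟩
      exact hZC i
    let _ : Algebra (Algebra.adjoin k (Set.range Z)) C0 :=
      (Subalgebra.inclusion hle).toRingHom.toAlgebra
    have : IsScalarTower (Algebra.adjoin k (Set.range Z)) C0 W := .of_algebraMap_eq fun _ => rfl
    refine ht.restrictScalars ?_
    intro a b hab
    exact Subtype.ext (congrArg (fun t : C0 => (t : W)) hab)
  have hcard := apb_trdeg v hvi (IntermediateField.adjoin k
      ((C0 : Set W) ∪ (Set.range t ∪ Set.range w'))) (by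
    rintro (i | i)
    · exact IntermediateField.subset_adjoin k _ (Or.inr (Or.inl ⟨i, rfl⟩))
    · exact IntermediateField.subset_adjoin k _ (Or.inl (hZC i))) ?_
  · rw [hcard, Fintype.card_sum, Fintype.card_fin, Fintype.card_fin, add_comm]
  · set K1 := IntermediateField.adjoin k (Set.range v) with hK1
    set A1 : IntermediateField k W := (algebraicClosure K1 W).restrictScalars k with hA1
    have hmem : ∀ z : W, z ∈ A1 ↔ IsAlgebraic K1 z := fun z => mem_algebraicClosure_iff
    have hCA : ∀ z ∈ C0, z ∈ A1 := by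
      intro z hz
      rw [hmem]
      have h2 := hZalg z hz
      have h3 : IntermediateField.adjoin k (Set.range Z) ≤ K1 := by
        refine IntermediateField.adjoin.mono k _ _ ?_
        rintro _ ⟨i, rfl⟩
        exact ⟨Sum.inr i, rfl⟩
      let _ : Algebra (IntermediateField.adjoin k (Set.range Z)) K1 :=
        (IntermediateField.inclusion h3).toRingHom.toAlgebra
      have : IsScalarTower (IntermediateField.adjoin k (Set.range Z)) K1 W :=
        .of_algebraMap_eq fun _ => rfl
      exact h2.tower_top K1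
    have htA : ∀ i, t i ∈ A1 := by
      intro i
      rw [hmem]
      exact isAlgebraic_algebraMap (⟨t i, IntermediateField.subset_adjoin k _
        ⟨Sum.inl i, rfl⟩⟩ : K1)
    have hPA : ∀ z ∈ Pt C0 t, z ∈ A1 := by
      rintro z ⟨a, ha, b, hb, hb1, hab⟩
      have h4 : Subring.closure ((C0 : Set W) ∪ Set.range t) ≤ A1.toSubfield.toSubring := by
        rw [Subring.closure_le]
        rintro y (hy | ⟨i, rfl⟩)
        · exact hCA y hy
        · exact htA i
      have hb0 : b ≠ 0 := by
        rintro rfl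
        rw [map_zero] at hb1
        exact zero_ne_one hb1
      rw [eq_div_of_mul_eq hb0 hab]
      exact div_mem (h4 ha) (h4 hb)
    have hwA : ∀ j, w' j ∈ A1 := by
      intro j
      rw [hmem]
      have h5 : IsAlgebraic (algebraicClosure K1 W) (w' j) := by
        have h6 : F' j ∈ Polynomial.lifts (algebraMap (algebraicClosure K1 W) W) := by
          rw [Polynomial.lifts_iff_coeff_lifts]
          intro i
          exact ⟨⟨(F' j).coeff i, hPA _ (hF' j i)⟩, rfl⟩
        obtain ⟨Q, hQ⟩ := (Polynomial.mem_lifts _).1 h6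
        refine ⟨Q, ?_, ?_⟩
        · rintro rfl
          exact h1 j (by rw [← hQ, Polynomial.map_zero])
        · rw [Polynomial.aeval_def, ← Polynomial.eval_map, hQ]
          exact h0 j
      exact h5.restrictScalars K1
    have hle : IntermediateField.adjoin k ((C0 : Set W) ∪ (Set.range t ∪ Set.range w')) ≤ A1 := by
      rw [IntermediateField.adjoin_le_iff]
      rintro y (hy | ⟨i, rfl⟩ | ⟨j, rfl⟩)
      · exact hCA y hy
      · exact htA i
      · exact hwA j
    intro e he
    exact (hmem e).1 (hle he)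

theorem fg_F2 {k W : Type} [Field k] [Field W] [Algebra k W] {n q : ℕ}
    (C0 : IntermediateField k W) (hC0 : C0.FG) (t : Fin n → W) (w' : Fin q → W) :
    (IntermediateField.adjoin k ((C0 : Set W) ∪ (Set.range t ∪ Set.range w'))).FG := by
  classical
  obtain ⟨G, rfl⟩ := hC0
  refine ⟨G ∪ (Finset.univ.image t ∪ Finset.univ.image w'), ?_⟩
  apply le_antisymm
  · refine IntermediateField.adjoin.mono k _ _ ?_
    intro x hx
    simp only [Finset.coe_union, Finset.coe_image, Finset.coe_univ, Set.image_univ] at hx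
    rcases hx with hx | hx | hx
    · exact Or.inl (IntermediateField.subset_adjoin k _ hx)
    · exact Or.inr (Or.inl hx)
    · exact Or.inr (Or.inr hx)
  · rw [IntermediateField.adjoin_le_iff]
    rintro x (hx | hx | hx)
    · refine IntermediateField.adjoin.mono k _ _ ?_ hx
      intro y hy
      exact Finset.mem_union_left _ hy
    · refine IntermediateField.subset_adjoin k _ ?_
      obtain ⟨i, rfl⟩ := hx
      simp
    · refine IntermediateField.subset_adjoin k _ ?_
      obtain ⟨i, rfl⟩ := hx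
      simp

theorem cst_z {k W : Type} [Field k] [NormedField W] [Algebra k W] {m : ℕ}
    (C0 : IntermediateField k W) (hC0 : Cst m C0) :
    ∃ z : Fin m → W, (∀ i, z i ∈ C0) ∧
      ∀ P : MvPolynomial (Fin m) k, P ≠ 0 → ‖MvPolynomial.aeval z P‖ = 1 := by
  obtain ⟨Z, hZC, hZi, -⟩ := apb_basis C0 hC0.trd
  refine ⟨Z, hZC, fun P hP => hC0.unit _ ?_ ?_⟩
  · have h1 : MvPolynomial.aeval Z P = C0.val (MvPolynomial.aeval (fun i => (⟨Z i, hZC i⟩ : C0)) P) :=
      (MvPolynomial.comp_aeval_apply (φ := C0.val) (f := fun i => (⟨Z i, hZC i⟩ : C0)) P).symm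
    rw [h1]
    exact (MvPolynomial.aeval (fun i => (⟨Z i, hZC i⟩ : C0)) P).2
  · intro h
    exact hP (hZi (by rw [h, map_zero]))

private theorem apb_indep {W : Type} [NormedField W] [IsUltrametricDist W] {r : ℕ}
    {x x' : Fin r → W} (hx : Indep x) (h : ∀ i, ‖x i - x' i‖ < ‖x i‖) : Indep x' := by
  have hn : ∀ i, ‖x' i‖ = ‖x i‖ := by
    intro i
    have h1 : x' i = x i + (x' i - x i) := by ring
    have h2 : ‖x' i - x i‖ < ‖x i‖ := by rw [norm_sub_rev]; exact h i
    rw [h1, IsUltrametricDist.norm_add_eq_max_of_norm_ne_norm h2.ne', max_eq_left h2.le]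
  have hm : ∀ a : Fin r → ℤ, ‖mon x' a‖ = ‖mon x a‖ := by
    intro a
    unfold mon
    rw [norm_prod, norm_prod]
    refine Finset.prod_congr rfl fun i _ => ?_
    rw [norm_zpow, norm_zpow, hn]
  refine ⟨fun i h0 => hx.ne i ?_, fun i => ?_, fun δ hδ => ?_⟩
  · rw [← norm_eq_zero, ← hn, h0, norm_zero]
  · rw [hn]
    exact hx.lt i
  · apply hx.indep
    rw [← hm]
    exact hδ

theorem start_W {k W : Type} [Field k] [PerfectField k] [NontriviallyNormedField W]
    [IsUltrametricDist W] [Algebra k W] [IsAlgClosed W] (p : ℕ) [Fact p.Prime] [CharP k p]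
    {r m : ℕ} (hr : 0 < r) (hA : AmbG r m k W) (L : IntermediateField k W)
    (halg : ∀ z : W, IsAlgebraic L z) (A : Subring W) (hN : Nl L.toSubfield A)
    (hdens : ∀ z ∈ L, ∀ ε : ℝ, 0 < ε → ∃ a ∈ A, ∃ b ∈ A, b ≠ 0 ∧ ‖z - a / b‖ < ε)
    (hk : ∀ b : k, algebraMap k W b ∈ Cp A) (G : Finset W) (hG : ∀ g ∈ G, g ∈ A)
    (hres : ∀ z ∈ A, ∃ a ∈ locV (ball W) (Subring.closure (Set.range (algebraMap k W) ∪
      (G : Set W))), ‖z - a‖ < 1)
    (v : Fin m → W) (hv : ∀ i, v i ∈ A)
    (hvi : ∀ P : MvPolynomial (Fin m) k, P ≠ 0 → ‖MvPolynomial.aeval v P‖ = 1)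
    (x : Fin r → W) (hx : Indep x) (hxL : ∀ i, x i ∈ L)
    (hdim : ringKrullDim (Cp A) = (((r + 1 : ℕ) : ℕ∞) : WithBot ℕ∞)) :
    ∃ (S C0 : IntermediateField k W) (q : ℕ) (t : Fin (r + 1) → W) (w w' : Fin q → W)
      (F F' : Fin q → Polynomial W) (N : ℕ), (∀ z : W, IsSeparable S z → z ∈ S) ∧
      HasCh m S r L ∧ Dat m S L A C0 t w w' F F' N ∧
      (∀ z : W, z ∈ S ↔ IsSeparable (IntermediateField.adjoin k
        ((C0 : Set W) ∪ (Set.range t ∪ Set.range w'))) z) ∧
      L = cl (IntermediateField.adjoin k ((C0 : Set W) ∪ (Set.range t ∪ Set.range w'))) := by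
  obtain ⟨C0, t, hC0, hC0D, hC0r, ht, hP, hPD, -, hind, hsep⟩ := cohen_gabber p hA L (Cp A) hN.cp
    (Cp_idem hN) hk G (fun g hg => le_Cp (hG g hg)) (by
      intro z hz
      obtain ⟨b, hb, hb1⟩ := Cp_dens hN hz 1
      have h1 : ‖z - b‖ < 1 := ((hN.cp.mP_one_iff).1 hb1).2
      obtain ⟨a, ha, ha1⟩ := hres b hb
      refine ⟨a, ha, ?_⟩
      have h2 : z - a = (z - b) + (b - a) := by ring
      rw [h2]
      exact lt_of_le_of_lt (IsUltrametricDist.norm_add_le_max _ _) (max_lt h1 ha1))
    v (fun i => le_Cp (hv i)) hvi (Nat.succ_pos r) hdim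
  obtain ⟨q, w, w', F, F', N, hL, hdat⟩ := exists_dat (Nat.succ_pos r) L A hN hdens C0 t hC0 hC0D
    hC0r ht hP hPD hsep
  set F2 : IntermediateField k W :=
    IntermediateField.adjoin k ((C0 : Set W) ∪ (Set.range t ∪ Set.range w')) with hF2
  have hD0 := hdat (main_S F2) (fun z => main_mem_S)
  have htr : Algebra.trdeg k F2 = ((r + m + 1 : ℕ) : Cardinal) := by
    have h1 := trdeg_F2 C0 hC0 t hind w' F' hD0.FP' hD0.root' (fun j h0 => hD0.der0 j (by
      rw [h0, Polynomial.derivative_zero, Polynomial.eval_zero]))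
    rw [← hF2] at h1
    rw [h1]
    congr 1
    omega
  have hx' : ∀ i, ∃ y ∈ F2, ‖x i - y‖ < ‖x i‖ := by
    intro i
    have h1 : x i ∈ cl F2 := by rw [← hL]; exact hxL i
    exact (mem_cl_iff F2 (x i)).1 h1 _ (norm_pos_iff.2 (hx.ne i))
  choose x' hx'F hx'n using hx'
  obtain ⟨z, hzC, hzi⟩ := cst_z C0 hC0
  have hCF : C0 ≤ F2 := fun y hy => IntermediateField.subset_adjoin k _ (Or.inl hy)
  obtain ⟨S, hSm, hSc, hch⟩ := chart_in hr hA p F2 (fg_F2 C0 hC0.fg t w') htr x'
    (apb_indep hx hx'n) hx'F z (fun i => hCF (hzC i)) hzi (by rw [← hL]; exact hN.comp)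
    (by rw [← hL]; exact halg)
  rw [← hL] at hch
  exact ⟨S, C0, q, t, w, w', F, F', N, hSc, hch, hdat S hSm, hSm, hL⟩

end Pool.Agent.Lib.TQ
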