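import Pool.Agent.Lib.TQ.CpB
import Pool.Agent.Lib.MP_1a953e_ag.GP2

/-!
# Module CpH: Newton's method
`cp_hensel`: put `F (b + δ * T) = F b + F' b * δ * T + δ ^ 2 * T ^ 2 * (...)`, divide by `δ ^ 2`:
`G T = ε + u * T + T ^ 2 * (...)` with coefficients in `Cp B`, `‖ε‖ < 1`, `‖u‖ = 1`; Newton / fixed point
iteration `η ↦ - u⁻¹ * (ε + η ^ 2 * (...))` in `Cp B` (`Cp_exists_lim`; `u⁻¹ ∈ Cp B` by `(Nl.cp h).inv`), or
Hensel's lemma for the adically complete ring (Mathlib `IsAdicComplete.henselianRing`) and `exists_phiB`.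
`root_unique`: `F b - F a = F' a * (b - a) + (b - a) ^ 2 * s`, `‖s‖ ≤ 1`.
`newton_X`: Newton's method in the complete field `X` (apply `cp_hensel`-like iteration with norms, or scale:
`F (b + F' b * T) / (F' b) ^ 2` and use `TU.henselU`).
-/

namespace Pool.Agent.Lib.TQ

open Pool.Agent.Lib.MP_3029eb_ag Pool.Agent.Lib.MP_3029eb_ag.Abh Pool.Agent.Lib.TDO
  Pool.Agent.Lib.TU

variable {W : Type} [NormedField W] [IsUltrametricDist W] {X : Subfield W} {B : Subring W}

omit [IsUltrametricDist W] in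
private theorem cph_lift (R : Subring W) (F : Polynomial W) (hF : ∀ j, F.coeff j ∈ R) :
    ∃ G : Polynomial R, G.map R.subtype = F := by
  have h : F ∈ Polynomial.lifts R.subtype := by
    rw [Polynomial.lifts_iff_coeff_lifts]
    intro n
    exact ⟨⟨_, hF n⟩, rfl⟩
  exact (Polynomial.mem_lifts F).1 h

omit [IsUltrametricDist W] in
private theorem cph_eval (R : Subring W) (G : Polynomial R) (x : R) :
    (G.map R.subtype).eval (x : W) = ((G.eval x : R) : W) := by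
  rw [Polynomial.eval_map]
  exact Polynomial.eval₂_at_apply R.subtype x

omit [IsUltrametricDist W] in
private theorem cph_eval_mem (R : Subring W) (F : Polynomial W) (hF : ∀ j, F.coeff j ∈ R) {x : W}
    (hx : x ∈ R) : F.eval x ∈ R := by
  obtain ⟨G, rfl⟩ := cph_lift R F hF
  rw [cph_eval R G ⟨x, hx⟩]
  exact (G.eval ⟨x, hx⟩).2

omit [IsUltrametricDist W] in
private theorem cph_dvd (R : Subring W) (F : Polynomial W) (hF : ∀ j, F.coeff j ∈ R) {x y : W}
    (hx : x ∈ R) (hy : y ∈ R) : ∃ s ∈ R, F.eval x - F.eval y = (x - y) * s := by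
  obtain ⟨G, rfl⟩ := cph_lift R F hF
  obtain ⟨s, hs⟩ := Polynomial.sub_dvd_eval_sub (⟨x, hx⟩ : R) ⟨y, hy⟩ G
  refine ⟨s, s.2, ?_⟩
  rw [cph_eval R G ⟨x, hx⟩, cph_eval R G ⟨y, hy⟩]
  exact congrArg Subtype.val hs

omit [IsUltrametricDist W] in
private theorem cph_scale (R : Subring W) (F : Polynomial W) (hF : ∀ j, F.coeff j ∈ R)
    {b δ u ε : W} (hb : b ∈ R) (hd : F.derivative.eval b = δ * u) (h0 : F.eval b = δ ^ 2 * ε) :
    ∃ Q : Polynomial W, (∀ j, Q.coeff j ∈ R) ∧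
      ∀ t, F.eval (b + δ * t) = δ ^ 2 * (Q.eval (δ * t) * t ^ 2 + u * t + ε) := by
  refine ⟨(Polynomial.taylor b F).divX.divX, ?_, ?_⟩
  · intro j
    rw [Polynomial.coeff_divX, Polynomial.coeff_divX]
    obtain ⟨G, rfl⟩ := cph_lift R F hF
    have h1 : Polynomial.taylor b (G.map R.subtype) =
        (Polynomial.taylor (⟨b, hb⟩ : R) G).map R.subtype := by
      rw [Polynomial.taylor_apply, Polynomial.taylor_apply, Polynomial.map_comp]
      simp
    rw [h1, Polynomial.coeff_map]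
    exact ((Polynomial.taylor (⟨b, hb⟩ : R) G).coeff (j + 1 + 1)).2
  · intro t
    have h1 : F.eval (b + δ * t) = (Polynomial.taylor b F).eval (δ * t) := by
      rw [Polynomial.taylor_eval, add_comm]
    have h2 := congrArg (Polynomial.eval (δ * t))
      (Polynomial.divX_mul_X_add (Polynomial.taylor b F))
    have h3 := congrArg (Polynomial.eval (δ * t))
      (Polynomial.divX_mul_X_add (Polynomial.taylor b F).divX)
    simp only [Polynomial.eval_add, Polynomial.eval_mul, Polynomial.eval_X,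
      Polynomial.eval_C] at h2 h3
    rw [Polynomial.coeff_divX] at h3
    have h4 : (Polynomial.taylor b F).coeff 0 = δ ^ 2 * ε := by
      rw [Polynomial.taylor_coeff_zero, h0]
    have h5 : (Polynomial.taylor b F).coeff (0 + 1) = δ * u := by
      rw [zero_add, Polynomial.taylor_coeff_one, hd]
    rw [h1, ← h2, ← h3, h4, h5]
    ring

theorem cp_hensel (h : Nl X B) (F : Polynomial W) (hF : ∀ j, F.coeff j ∈ Cp B) {b δ u ε : W}
    (hb : b ∈ Cp B) (hδ : δ ∈ Cp B) (hδ0 : δ ≠ 0) (hu : u ∈ Cp B) (hu1 : ‖u‖ = 1)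
    (hd : F.derivative.eval b = δ * u) (hε : ε ∈ Cp B) (hε1 : ‖ε‖ < 1)
    (h0 : F.eval b = δ ^ 2 * ε) :
    ∃ z ∈ Cp B, F.eval z = 0 ∧ ∃ η ∈ Cp B, ‖η‖ < 1 ∧ z = b + δ * η := by
  have _ := hδ0
  obtain ⟨Q, hQ, hFQ⟩ := cph_scale (Cp B) F hF hb hd h0
  have hC : Nl X (Cp B) := h.cp
  have hui : u⁻¹ ∈ Cp B := hC.inv u hu hu1
  have hu0 : u ≠ 0 := by
    rintro rfl
    rw [norm_zero] at hu1
    exact zero_ne_one hu1
  let Φ : W → W := fun x => -(u⁻¹ * (Q.eval (δ * x) * x ^ 2 + ε))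
  have hΦC : ∀ x ∈ Cp B, Φ x ∈ Cp B := fun x hx =>
    neg_mem (mul_mem hui (add_mem (mul_mem (cph_eval_mem _ Q hQ (mul_mem hδ hx))
      (pow_mem hx 2)) hε))
  have hΦ1 : ∀ x ∈ mP (Cp B) 1, Φ x ∈ mP (Cp B) 1 := by
    intro x hx
    have hxC := mP_mem hx
    refine mP_neg (mP_smul hui (mP_add (mP_smul (cph_eval_mem _ Q hQ (mul_mem hδ hxC)) ?_)
      (hC.mP_one_iff.2 ⟨hε, hε1⟩)))
    rw [pow_two]
    exact mP_smul hxC hx
  have hΦd : ∀ n x y, x ∈ mP (Cp B) 1 → y ∈ mP (Cp B) 1 → x - y ∈ mP (Cp B) n →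
      Φ x - Φ y ∈ mP (Cp B) (n + 1) := by
    intro n x y hx hy hxy
    have hxC := mP_mem hx
    have hyC := mP_mem hy
    obtain ⟨s, hs, hse⟩ := cph_dvd (Cp B) Q hQ (mul_mem hδ hxC) (mul_mem hδ hyC)
    have h1 : Φ x - Φ y = (x - y) * (-(u⁻¹ * ((Q.eval (δ * x) * (x + y) + (δ * s * y) * y)))) := by
      have h2 : Φ x - Φ y = -(u⁻¹ * (Q.eval (δ * x) * (x - y) * (x + y) +
          (Q.eval (δ * x) - Q.eval (δ * y)) * y ^ 2)) := by
        simp only [Φ]
        ring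
      rw [h2, hse]
      ring
    rw [h1]
    refine mP_mul hxy (mP_neg (mP_smul hui (mP_add (mP_smul
      (cph_eval_mem _ Q hQ (mul_mem hδ hxC)) (mP_add hx hy)) ?_)))
    exact mP_smul (mul_mem (mul_mem hδ hs) hyC) hy
  let x : ℕ → W := fun n => Φ^[n] 0
  have hxs : ∀ n, x (n + 1) = Φ (x n) := fun n => Function.iterate_succ_apply' Φ n 0
  have hx0 : x 0 = 0 := rfl
  have hx1 : ∀ n, x n ∈ mP (Cp B) 1 := by
    intro n
    induction n with
    | zero => rw [hx0]; exact mP_zero_mem 1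
    | succ n ih => rw [hxs]; exact hΦ1 _ ih
  have hxd : ∀ n, x (n + 1) - x n ∈ mP (Cp B) (n + 1) := by
    intro n
    induction n with
    | zero => rw [hx0, sub_zero]; exact hx1 1
    | succ n ih =>
      have h1 := hΦd _ _ _ (hx1 (n + 1)) (hx1 n) ih
      rw [← hxs (n + 1), ← hxs n] at h1
      exact h1
  obtain ⟨z, hzC, hlim, hzt⟩ := Cp_exists_lim h x (fun n => mP_mem (hx1 n))
    (fun n => mP_anti (Nat.le_succ n) (hxd n))
  have hz1 : z ∈ mP (Cp B) 1 := by
    have h1 := mP_add (hzt 1) (hx1 1)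
    rwa [sub_add_cancel] at h1
  have hfix : z = Φ z := by
    have hc : Continuous Φ := by
      simp only [Φ]
      have h1 : Continuous fun x : W => Q.eval (δ * x) :=
        Q.continuous.comp (continuous_const.mul continuous_id)
      exact ((continuous_const.mul ((h1.mul (continuous_pow 2)).add continuous_const))).neg
    have h1 : Filter.Tendsto (fun n => x (n + 1)) Filter.atTop (nhds z) :=
      hlim.comp (Filter.tendsto_add_atTop_nat 1)
    have h2 : Filter.Tendsto (fun n => Φ (x n)) Filter.atTop (nhds (Φ z)) :=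
      (hc.tendsto z).comp hlim
    refine tendsto_nhds_unique h1 (h2.congr fun n => (hxs n).symm)
  refine ⟨b + δ * z, add_mem hb (mul_mem hδ hzC), ?_, z, hzC, (hC.mP_one_iff.1 hz1).2, rfl⟩
  have h3 : Q.eval (δ * z) * z ^ 2 + u * z + ε = 0 := by
    have h4 : u * z = -(Q.eval (δ * z) * z ^ 2 + ε) := by
      conv_lhs => rw [hfix]
      simp only [Φ]
      rw [mul_neg, mul_inv_cancel_left₀ hu0]
    rw [add_right_comm, add_comm _ (u * z), h4]
    ring
  rw [hFQ, h3, mul_zero]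

omit [IsUltrametricDist W] in
/-- Taylor expansion in a subring -/
theorem taylor_mem (R : Subring W) (F : Polynomial W) (hF : ∀ j, F.coeff j ∈ R) {a b : W}
    (ha : a ∈ R) (hb : b ∈ R) :
    ∃ s ∈ R, F.eval b = F.eval a + F.derivative.eval a * (b - a) + s * (b - a) ^ 2 := by
  obtain ⟨G, rfl⟩ := cph_lift R F hF
  obtain ⟨k, hk⟩ := G.binomExpansion (⟨a, ha⟩ : R) (⟨b, hb⟩ - ⟨a, ha⟩)
  rw [add_sub_cancel] at hk
  refine ⟨k, k.2, ?_⟩
  rw [Polynomial.derivative_map, cph_eval R G ⟨a, ha⟩, cph_eval R G ⟨b, hb⟩,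
    cph_eval R G.derivative ⟨a, ha⟩]
  exact congrArg Subtype.val hk

theorem root_unique (F : Polynomial W) (hF : ∀ j, ‖F.coeff j‖ ≤ 1) {a b : W} (ha : ‖a‖ ≤ 1)
    (hb : ‖b‖ ≤ 1) (hfa : F.eval a = 0) (hfb : F.eval b = 0)
    (hab : ‖a - b‖ < ‖F.derivative.eval a‖) : a = b := by
  obtain ⟨s, hs, he⟩ := taylor_mem (ball W).toSubring F hF ha hb
  have hs1 : ‖s‖ ≤ 1 := hs
  rw [hfa, hfb, zero_add] at he
  by_contra hne
  have hne' : b - a ≠ 0 := sub_ne_zero.2 (Ne.symm hne)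
  have h1 : (F.derivative.eval a + s * (b - a)) * (b - a) = 0 := by
    rw [add_mul, mul_assoc, ← pow_two]
    exact he.symm
  have h2 : F.derivative.eval a = -(s * (b - a)) :=
    eq_neg_of_add_eq_zero_left ((mul_eq_zero.1 h1).resolve_right hne')
  rw [h2, norm_neg, norm_mul, norm_sub_rev a b] at hab
  have h3 : ‖s‖ * ‖b - a‖ ≤ 1 * ‖b - a‖ := mul_le_mul_of_nonneg_right hs1 (norm_nonneg _)
  rw [one_mul] at h3
  exact absurd hab (not_lt.2 h3)

theorem newton_X (hX : IsComplete (X : Set W)) (F : Polynomial W)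
    (hF : ∀ j, F.coeff j ∈ X ∧ ‖F.coeff j‖ ≤ 1) {b : W} (hb : b ∈ X) (hb1 : ‖b‖ ≤ 1)
    (h : ‖F.eval b‖ < ‖F.derivative.eval b‖ ^ 2) :
    ∃ z ∈ X, F.eval z = 0 ∧ ‖z - b‖ * ‖F.derivative.eval b‖ ≤ ‖F.eval b‖ := by
  set δ := F.derivative.eval b with hδ
  have hδ0 : δ ≠ 0 := by
    intro h0
    rw [h0, norm_zero, zero_pow two_ne_zero] at h
    exact absurd h (not_lt.2 (norm_nonneg _))
  have hδp : 0 < ‖δ‖ := norm_pos_iff.2 hδ0
  let R : Subring W := X.toSubring ⊓ (ball W).toSubring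
  have hFR : ∀ j, F.coeff j ∈ R := fun j => ⟨(hF j).1, (hF j).2⟩
  have hbR : b ∈ R := ⟨hb, hb1⟩
  have hFdR : ∀ j, F.derivative.coeff j ∈ R := by
    intro j
    rw [Polynomial.coeff_derivative]
    refine mul_mem (hFR _) ?_
    exact_mod_cast natCast_mem R (j + 1)
  have hδR : δ ∈ R := cph_eval_mem R F.derivative hFdR hbR
  obtain ⟨Q, hQ, hFQ⟩ := cph_scale R F hFR (b := b) (δ := δ) (u := 1) (ε := F.eval b / δ ^ 2) hbR
    (by rw [mul_one]) (by field_simp)
  set ε := F.eval b / δ ^ 2 with hε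
  have hε1 : ‖ε‖ < 1 := by
    rw [hε, norm_div, norm_pow, div_lt_one (pow_pos hδp 2)]
    exact h
  have hεR : ε ∈ R := by
    refine ⟨?_, hε1.le⟩
    exact X.div_mem (cph_eval_mem R F hFR hbR).1 (X.pow_mem hδR.1 2)
  let P : Polynomial W := Q.comp (Polynomial.C δ * Polynomial.X) * Polynomial.X ^ 2 +
    Polynomial.X + Polynomial.C ε
  have hP : ∀ j, P.coeff j ∈ R := by
    intro j
    simp only [P, Polynomial.coeff_add]
    refine add_mem (add_mem ?_ ?_) ?_
    · rw [Polynomial.coeff_mul_X_pow']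
      split_ifs
      · rw [Polynomial.comp_C_mul_X_coeff]
        exact mul_mem (hQ _) (pow_mem hδR _)
      · exact zero_mem _
    · rw [Polynomial.coeff_X]
      split_ifs
      · exact one_mem _
      · exact zero_mem _
    · rw [Polynomial.coeff_C]
      split_ifs
      · exact hεR
      · exact zero_mem _
  have hPe : ∀ t, P.eval t = Q.eval (δ * t) * t ^ 2 + 1 * t + ε := by
    intro t
    simp only [P, Polynomial.eval_add, Polynomial.eval_mul, Polynomial.eval_comp,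
      Polynomial.eval_C, Polynomial.eval_X, Polynomial.eval_pow, one_mul]
  have hPd : P.derivative.eval 0 = 1 := by
    simp only [P, Polynomial.derivative_add, Polynomial.derivative_mul, Polynomial.derivative_X,
      Polynomial.derivative_C, Polynomial.derivative_X_pow, Polynomial.eval_add,
      Polynomial.eval_mul, Polynomial.eval_pow, Polynomial.eval_X, Polynomial.eval_one,
      Polynomial.eval_zero]
    simp
  obtain ⟨c, hcX, hc0, hc1⟩ := MP1a953e.hensel (Q := X) hX (f := P) (fun j => (hP j).1)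
    (fun j => (hP j).2) (x := 0) X.zero_mem (by rw [norm_zero]; exact zero_le_one)
    (by rw [hPe]; simpa using hε1) (by rw [hPd, norm_one])
  rw [zero_sub, norm_neg] at hc1
  rw [hPe] at hc0
  refine ⟨b + δ * c, X.add_mem hb (X.mul_mem hδR.1 hcX), by rw [hFQ, hc0, mul_zero], ?_⟩
  have hcR : c ∈ R := ⟨hcX, hc1.le⟩
  have hq1 : ‖Q.eval (δ * c)‖ ≤ 1 := (cph_eval_mem R Q hQ (mul_mem hδR hcR)).2
  have hcε : ‖c‖ ≤ ‖ε‖ := by
    have h1 : c * (1 + Q.eval (δ * c) * c) = -ε := by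
      have h2 : c * (1 + Q.eval (δ * c) * c) + ε = 0 := by
        rw [← hc0]
        ring
      exact eq_neg_of_add_eq_zero_left h2
    have h3 : ‖Q.eval (δ * c) * c‖ < 1 := by
      rw [norm_mul]
      exact lt_of_le_of_lt (mul_le_of_le_one_left (norm_nonneg _) hq1) hc1
    have h4 : ‖1 + Q.eval (δ * c) * c‖ = 1 := by
      have h5 : ‖(1 : W)‖ ≠ ‖Q.eval (δ * c) * c‖ := by
        rw [norm_one]
        exact ne_of_gt h3
      rw [IsUltrametricDist.norm_add_eq_max_of_norm_ne_norm h5, norm_one]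
      exact max_eq_left h3.le
    have h6 := congrArg norm h1
    rw [norm_mul, h4, mul_one, norm_neg] at h6
    exact h6.le
  have h7 : b + δ * c - b = δ * c := by ring
  rw [h7, norm_mul]
  have h8 : ‖F.eval b‖ = ‖δ‖ * ‖ε‖ * ‖δ‖ := by
    rw [hε, norm_div, norm_pow]
    field_simp
  rw [h8]
  exact mul_le_mul_of_nonneg_right (mul_le_mul_of_nonneg_left hcε (norm_nonneg _))
    (norm_nonneg _)

/-- values at close points, close polynomials -/
theorem norm_eval_close (F G : Polynomial W) (hF : ∀ j, ‖F.coeff j‖ ≤ 1) {ε : ℝ}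
    (hFG : ∀ j, ‖F.coeff j - G.coeff j‖ ≤ ε) {a b : W} (ha : ‖a‖ ≤ 1) (hb : ‖b‖ ≤ 1) :
    ‖F.eval a - G.eval b‖ ≤ max ‖a - b‖ ε ∧
      ‖F.derivative.eval a - G.derivative.eval b‖ ≤ max ‖a - b‖ ε := by
  have hε0 : 0 ≤ ε := (norm_nonneg _).trans (hFG 0)
  have key : ∀ F G : Polynomial W, (∀ j, ‖F.coeff j‖ ≤ 1) →
      (∀ j, ‖F.coeff j - G.coeff j‖ ≤ ε) → ‖F.eval a - G.eval b‖ ≤ max ‖a - b‖ ε := by
    intro F G hF hFG
    obtain ⟨s, hs, he⟩ := cph_dvd (ball W).toSubring F hF ha hb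
    have hs1 : ‖s‖ ≤ 1 := hs
    have h1 : ‖F.eval a - F.eval b‖ ≤ ‖a - b‖ := by
      rw [he, norm_mul]
      exact mul_le_of_le_one_right (norm_nonneg _) hs1
    have h2 : ‖F.eval b - G.eval b‖ ≤ ε := by
      rw [← Polynomial.eval_sub, Polynomial.eval_eq_sum_range]
      refine IsUltrametricDist.norm_sum_le_of_forall_le_of_nonneg hε0 fun j _ => ?_
      rw [norm_mul, norm_pow, Polynomial.coeff_sub]
      calc ‖F.coeff j - G.coeff j‖ * ‖b‖ ^ j ≤ ε * 1 :=
            mul_le_mul (hFG j) (pow_le_one₀ (norm_nonneg _) hb) (by positivity) hε0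
        _ = ε := mul_one _
    have h3 : F.eval a - G.eval b = (F.eval a - F.eval b) + (F.eval b - G.eval b) := by ring
    rw [h3]
    exact (IsUltrametricDist.norm_add_le_max _ _).trans (max_le_max h1 h2)
  refine ⟨key F G hF hFG, key _ _ ?_ ?_⟩
  · intro j
    rw [Polynomial.coeff_derivative, norm_mul]
    have h1 : ‖((j : W) + 1)‖ ≤ 1 := by
      exact_mod_cast IsUltrametricDist.norm_natCast_le_one W (j + 1)
    exact mul_le_one₀ (hF _) (norm_nonneg _) h1
  · intro j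
    rw [Polynomial.coeff_derivative, Polynomial.coeff_derivative, ← sub_mul, norm_mul]
    have h1 : ‖((j : W) + 1)‖ ≤ 1 := by
      exact_mod_cast IsUltrametricDist.norm_natCast_le_one W (j + 1)
    calc ‖F.coeff (j + 1) - G.coeff (j + 1)‖ * ‖((j : W) + 1)‖ ≤ ε * 1 :=
          mul_le_mul (hFG _) h1 (norm_nonneg _) hε0
      _ = ε := mul_one _

end Pool.Agent.Lib.TQ
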