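import Pool.Agent.Lib.TQ.HCst
import Pool.Agent.Lib.TQ.CpH
import Pool.Agent.Lib.TU.AppD

/-!
# Module ADb: approximation of elements of `HL` by fractions of elements of `A`
`A` is a subring of `HC M c`.  `AfC M c A`: fractions `n / d`, `n, d ∈ A`, `d` monomial (`MoC`).
`AD M c A`: elements of `HL M c` which are congruent to elements of `AfC M c A` modulo all `mon c.x N * HC M c`.
Compare `TU/AppD.lean` (same statements for `Dcl`, `Afr`, `HO` instead of `AD`, `AfC`, `HC`).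

PROOFS. `mem_AfC_iff`: the set is a subring (`MoC.mul`, common denominators).
`AfC_HLC`: `n / d`, `MoC.inv`, `MoC.mem_HLC`, `HLC_mul`.
`mem_AD_iff`: the set is a subring: for products, `z = a + mon c.x N * h`, `z' = a' + mon c.x N' * h'`, all of
`a, a', z, z'` are in `HLC`, i.e. `mon c.x e * HC`; choose `N, N'` with `‖mon c.x N‖` small enough.
Note: if `‖mon c.x N'‖ ≤ ‖mon c.x N‖` then `mon c.x N' * HC ⊆ mon c.x N * HC` (`mon_mem_HC`), and for every `N`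
and every bound there is `N'` with `‖mon c.x N'‖` smaller (powers of `x`).
`AD_inv`: `z = mon c.x e * u`, `u` a unit of `HO`; `a := z - mon c.x N * h` with `N` small: `a = z * (1 - q)`,
`q ∈ QC`, so `MoC a` (`MoC.perturb`), `a⁻¹ ∈ AfC`, and `z⁻¹ - a⁻¹ = (a - z) / (z * a)`.  `z⁻¹ ∈ HL`: `MoH.inv`.
`AD_Dcl`: `z = d + mon c.x N * h`, `d = a + mon c.x N * h'`.
`AD_newton`: put `δ := P'(z)`.  By induction on `n`: for every exponent `E` with `‖mon c.x E‖ < 1`, there is `b ∈ AfC`,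
`b ∈ HC` with `z - b = δ * q`, `q ∈ mon c.x E * HC`; the set of possible `E` is improved by Newton steps: given `b`
and `q`, and `N` with `mon c.x N` in `δ ^ 2 * QC`, replace the (finitely many) coefficients of `P` by elements of
`AfC ∩ HC` congruent modulo `mon c.x N * HC`: `P1`; `P1'(b) = δ * unit` is monomial, `b1 := b - P1(b) / P1'(b)`
is in `AfC` (`AfC_inv`); Taylor (`taylor_mem`): `0 = P(z) = P(b) + P'(b) (z - b) + s (z - b)^2`, so
`z - b1 = δ * q1` with `q1 ∈ q^2 * HC + (mon c.x N / δ^2) * HC`.  As `N` is arbitrary and `q ∈ QC`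
(`q = mon c.x a * h`, `q^(2^i)`), every precision is reached.
`AD_refine`: `RfS.HL_le`, `RfS.moC`, `RfS.HC_le`, and `mon c.x N0` is `MoH` for `c'`, of small norm.
`AD_of_D`: `Cp_dens` for `A` (`z - a ∈ mP (Cp A) n ⊆ mP (Cp (Bu c x' G)) n`), `mP_tiny`.
-/

namespace Pool.Agent.Lib.TQ

open Pool.Agent.Lib.MP_3029eb_ag Pool.Agent.Lib.MP_3029eb_ag.Abh Pool.Agent.Lib.TDO
  Pool.Agent.Lib.TU

variable {k W : Type} [Field k] [NormedField W] [IsUltrametricDist W] [Algebra k W] {r m : ℕ}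
  {M L : IntermediateField k W} {c : Tri k W r} {A : Subring W}

/-- comparison of monomial neighbourhoods -/
private theorem adb_mono (hr : 0 < r) (hL : IsComplete (L : Set W)) (hML : M ≤ L)
    (hok : Ok m M c) {a b : Fin r → ℤ} (h : ‖mon c.x b‖ ≤ ‖mon c.x a‖)
    {u : W} (hu : u ∈ HC M c) : ∃ v ∈ HC M c, mon c.x b * u = mon c.x a * v := by
  have ha : mon c.x a ≠ 0 := mon_ne c.x hok.par.ind.ne a
  have hpos : 0 < ‖mon c.x a‖ := norm_pos_iff.2 ha
  refine ⟨mon c.x (b - a) * u, mul_mem (mon_mem_HC hr hL hML hok ?_) hu, ?_⟩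
  · rw [sub_eq_add_neg, TDO.mon_add c.x hok.par.ind.ne, TDO.mon_neg, norm_mul, norm_inv,
      ← div_eq_mul_inv, div_le_one hpos]
    exact h
  · rw [← mul_assoc, ← TDO.mon_add c.x hok.par.ind.ne, add_sub_cancel]

omit [IsUltrametricDist W] in
private theorem adb_pow_small (hok : Ok m M c) {a : Fin r → ℤ}
    (ha : ‖mon c.x a‖ < 1) (N : Fin r → ℤ) : ∃ n : ℕ, ‖mon c.x ((n + 1) • a)‖ ≤ ‖mon c.x N‖ := by
  have hpos : 0 < ‖mon c.x N‖ := norm_pos_iff.2 (mon_ne c.x hok.par.ind.ne N)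
  obtain ⟨n, hn⟩ := exists_pow_lt_of_lt_one hpos ha
  refine ⟨n, ?_⟩
  rw [mon_nsmul, norm_pow]
  exact (pow_le_pow_of_le_one (norm_nonneg _) ha.le (Nat.le_succ n)).trans hn.le

omit [IsUltrametricDist W] in
private theorem adb_eval_mem {R : Subring W} {P : Polynomial W} (hP : ∀ j, P.coeff j ∈ R) {b : W}
    (hb : b ∈ R) : P.eval b ∈ R := by
  rw [Polynomial.eval_eq_sum_range]
  exact sum_mem fun j _ => mul_mem (hP j) (pow_mem hb _)

omit [IsUltrametricDist W] in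
private theorem adb_der {R : Subring W} {P : Polynomial W} (hP : ∀ j, P.coeff j ∈ R) :
    ∀ j, (Polynomial.derivative P).coeff j ∈ R := by
  intro j
  rw [Polynomial.coeff_derivative]
  exact mul_mem (hP _) (add_mem (natCast_mem R j) (one_mem _))

omit [IsUltrametricDist W] in
private theorem adb_sum_coeff {R : Subring W} (s : Finset ℕ) (a : ℕ → W) (ha : ∀ j, a j ∈ R)
    (j : ℕ) : (∑ i ∈ s, Polynomial.monomial i (a i)).coeff j ∈ R := by
  rw [Polynomial.finsetSum_coeff]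
  refine sum_mem fun i _ => ?_
  rw [Polynomial.coeff_monomial]
  split_ifs
  · exact ha i
  · exact zero_mem _

omit [IsUltrametricDist W] in
private theorem adb_split {R R' : Subring W} (P : Polynomial W) (t : W)
    (h : ∀ j, ∃ a ∈ R, ∃ h ∈ R', P.coeff j = a + t * h) :
    ∃ P1 P2 : Polynomial W, (∀ j, P1.coeff j ∈ R) ∧ (∀ j, P2.coeff j ∈ R') ∧
      P = P1 + Polynomial.C t * P2 := by
  choose a ha g hg e using h
  refine ⟨∑ i ∈ Finset.range (P.natDegree + 1), Polynomial.monomial i (a i),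
    ∑ i ∈ Finset.range (P.natDegree + 1), Polynomial.monomial i (g i),
    adb_sum_coeff _ a ha, adb_sum_coeff _ g hg, ?_⟩
  conv_lhs => rw [P.as_sum_range]
  rw [Finset.mul_sum, ← Finset.sum_add_distrib]
  refine Finset.sum_congr rfl fun i _ => ?_
  rw [e i, map_add, Polynomial.C_mul_monomial]

theorem mem_AfC_iff (hok : Ok m M c) (z : W) :
    z ∈ AfC M c A ↔ ∃ n ∈ A, ∃ d ∈ A, MoC M c d ∧ z * d = n := by
  constructor
  · intro hz
    unfold AfC at hz
    induction hz using Subring.closure_induction with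
    | mem x hx => exact hx
    | zero =>
      exact ⟨0, zero_mem _, 1, one_mem _, MoC.of_unit (one_mem _) norm_one, by rw [zero_mul]⟩
    | one =>
      exact ⟨1, one_mem _, 1, one_mem _, MoC.of_unit (one_mem _) norm_one, by rw [one_mul]⟩
    | add x y _ _ hx hy =>
      obtain ⟨n, hn, d, hd, hdM, e⟩ := hx
      obtain ⟨n', hn', d', hd', hdM', e'⟩ := hy
      refine ⟨n * d' + n' * d, add_mem (mul_mem hn hd') (mul_mem hn' hd), d * d',
        mul_mem hd hd', MoC.mul hok hdM hdM', ?_⟩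
      rw [← e, ← e']; ring
    | neg x _ hx =>
      obtain ⟨n, hn, d, hd, hdM, e⟩ := hx
      exact ⟨-n, neg_mem hn, d, hd, hdM, by rw [← e]; ring⟩
    | mul x y _ _ hx hy =>
      obtain ⟨n, hn, d, hd, hdM, e⟩ := hx
      obtain ⟨n', hn', d', hd', hdM', e'⟩ := hy
      refine ⟨n * n', mul_mem hn hn', d * d', mul_mem hd hd', MoC.mul hok hdM hdM', ?_⟩
      rw [← e, ← e']; ring
  · intro hz
    exact Subring.subset_closure hz

theorem AfC_le (hr : 0 < r) (hL : IsComplete (L : Set W)) (hML : M ≤ L) (hok : Ok m M c) :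
    A ≤ AfC M c A := by
  intro a ha
  exact (mem_AfC_iff hok a).2 ⟨a, ha, 1, one_mem _, MoC.of_unit (one_mem _) norm_one,
    by rw [mul_one]⟩

theorem AfC_inv (hok : Ok m M c) {a : W} (ha : a ∈ AfC M c A) (h : MoC M c a) :
    a⁻¹ ∈ AfC M c A := by
  obtain ⟨n, hn, d, hd, hdM, e⟩ := (mem_AfC_iff hok a).1 ha
  refine (mem_AfC_iff hok _).2 ⟨d, hd, n, hn, ?_, ?_⟩
  · rw [← e]
    exact MoC.mul hok h hdM
  · rw [← e, ← mul_assoc, inv_mul_cancel₀ (MoC.ne hok h), one_mul]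

theorem AfC_HLC (hr : 0 < r) (hL : IsComplete (L : Set W)) (hML : M ≤ L) (hok : Ok m M c)
    (hA : ∀ a ∈ A, a ∈ HC M c) {a : W} (ha : a ∈ AfC M c A) : a ∈ HLC M c := by
  obtain ⟨n, hn, d, hd, hdM, e⟩ := (mem_AfC_iff hok a).1 ha
  have h1 : a = n * d⁻¹ := by
    rw [← e, mul_assoc, mul_inv_cancel₀ (MoC.ne hok hdM), mul_one]
  rw [h1]
  exact HLC_mul hok (HC_le_HLC (hA n hn)) (MoC.mem_HLC hok (MoC.inv hr hL hML hok hdM))

/-- the set which defines `AD` is a subring -/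
private theorem adb_sub (hr : 0 < r) (hL : IsComplete (L : Set W)) (hML : M ≤ L)
    (hok : Ok m M c) : ∃ D : Subring W, ∀ z, z ∈ D ↔ (z ∈ HL M c ∧
      ∀ N : Fin r → ℤ, ∃ a ∈ AfC M c A, ∃ h ∈ HC M c, z = a + mon c.x N * h) := by
  have hx := hok.par.ind.ne
  refine ⟨{ carrier := {z | z ∈ HL M c ∧
              ∀ N : Fin r → ℤ, ∃ a ∈ AfC M c A, ∃ h ∈ HC M c, z = a + mon c.x N * h}
            mul_mem' := ?_
            one_mem' := ⟨one_mem _, fun N => ⟨1, one_mem _, 0, zero_mem _,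
              by rw [mul_zero, add_zero]⟩⟩
            add_mem' := ?_
            zero_mem' := ⟨zero_mem _, fun N => ⟨0, zero_mem _, 0, zero_mem _,
              by rw [mul_zero, add_zero]⟩⟩
            neg_mem' := ?_ }, fun z => Iff.rfl⟩
  · rintro z z' ⟨hz, h⟩ ⟨hz', h'⟩
    refine ⟨mul_mem hz hz', fun N => ?_⟩
    obtain ⟨b, u, hu, hzu⟩ := HL_le_HLC hr hL hML hok hz
    obtain ⟨b', u', hu', hzu'⟩ := HL_le_HLC hr hL hML hok hz'
    obtain ⟨a', ha', g', hg', e'⟩ := h' (N - b)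
    obtain ⟨N2, h1, h2⟩ : ∃ N2 : Fin r → ℤ, ‖mon c.x (b' + N2)‖ ≤ ‖mon c.x N‖ ∧
        ‖mon c.x (N - b + N2)‖ ≤ ‖mon c.x N‖ := by
      rcases le_total ‖mon c.x b'‖ ‖mon c.x (N - b)‖ with hle | hle
      · refine ⟨N - (N - b), ?_, ?_⟩
        · have e1 : N = (N - b) + (N - (N - b)) := by abel
          conv_rhs => rw [e1]
          rw [TDO.mon_add c.x hx, TDO.mon_add c.x hx, norm_mul, norm_mul]
          exact mul_le_mul_of_nonneg_right hle (norm_nonneg _)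
        · rw [add_sub_cancel]
      · refine ⟨N - b', ?_, ?_⟩
        · rw [add_sub_cancel]
        · have e1 : N = b' + (N - b') := by abel
          conv_rhs => rw [e1]
          rw [TDO.mon_add c.x hx, TDO.mon_add c.x hx, norm_mul, norm_mul]
          exact mul_le_mul_of_nonneg_right hle (norm_nonneg _)
    obtain ⟨a, ha, g, hg, e⟩ := h N2
    obtain ⟨v1, hv1, f1⟩ := adb_mono hr hL hML hok h1 (mul_mem hu' hg)
    obtain ⟨v2, hv2, f2⟩ := adb_mono hr hL hML hok h2 (mul_mem hg' hg)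
    refine ⟨a * a', mul_mem ha ha', u * g' + v1 - v2,
      sub_mem (add_mem (mul_mem hu hg') hv1) hv2, ?_⟩
    have f3 : mon c.x b * mon c.x (N - b) = mon c.x N := by
      rw [← TDO.mon_add c.x hx, add_sub_cancel]
    have f4 : mon c.x N * (u * g' + v1 - v2) = mon c.x b * mon c.x (N - b) * (u * g') +
        mon c.x (b' + N2) * (u' * g) - mon c.x (N - b + N2) * (g' * g) := by
      rw [f1, f2, f3]; ring
    have f5 : a' = z' - mon c.x (N - b) * g' := by rw [e']; ring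
    have f6 : z * z' = a * a' + (z * (z' - a') + a' * (z - a)) := by ring
    rw [f6]
    congr 1
    rw [f4, TDO.mon_add c.x hx, TDO.mon_add c.x hx]
    have f7 : z' - a' = mon c.x (N - b) * g' := by rw [f5]; ring
    have f8 : z - a = mon c.x N2 * g := by rw [e]; ring
    rw [f7, f8, f5, hzu']
    conv_lhs => rw [hzu]
    ring
  · rintro z z' ⟨hz, h⟩ ⟨hz', h'⟩
    refine ⟨add_mem hz hz', fun N => ?_⟩
    obtain ⟨a, ha, g, hg, e⟩ := h N
    obtain ⟨a', ha', g', hg', e'⟩ := h' N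
    refine ⟨a + a', add_mem ha ha', g + g', add_mem hg hg', ?_⟩
    rw [e, e']; ring
  · rintro z ⟨hz, h⟩
    refine ⟨neg_mem hz, fun N => ?_⟩
    obtain ⟨a, ha, g, hg, e⟩ := h N
    refine ⟨-a, neg_mem ha, -g, neg_mem hg, ?_⟩
    rw [e]; ring

theorem mem_AD_iff (hr : 0 < r) (hL : IsComplete (L : Set W)) (hML : M ≤ L) (hok : Ok m M c)
    (hA : ∀ a ∈ A, a ∈ HC M c) (z : W) : z ∈ AD M c A ↔ z ∈ HL M c ∧
      ∀ N : Fin r → ℤ, ∃ a ∈ AfC M c A, ∃ h ∈ HC M c, z = a + mon c.x N * h := by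
  obtain ⟨D, hD⟩ := adb_sub (A := A) hr hL hML hok
  refine ⟨fun hz => ?_, fun hz => Subring.subset_closure hz⟩
  have h1 : AD M c A ≤ D := Subring.closure_le.2 fun w hw => (hD w).2 hw
  exact (hD z).1 (h1 hz)

theorem AD_inv (hr : 0 < r) (hL : IsComplete (L : Set W)) (hML : M ≤ L) (hok : Ok m M c)
    (hA : ∀ a ∈ A, a ∈ HC M c) {z : W} (hz : z ∈ AD M c A) (h : MoH M c z) : z⁻¹ ∈ AD M c A := by
  have hx := hok.par.ind.ne
  obtain ⟨-, hzN⟩ := (mem_AD_iff hr hL hML hok hA z).1 hz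
  refine (mem_AD_iff hr hL hML hok hA _).2 ⟨(h.inv hok).mem_HL hok, fun N => ?_⟩
  obtain ⟨b, u, hu, hu1, hzu⟩ := MoC.of_MoH hr hL hML hok h
  have hpb : 0 < ‖mon c.x b‖ := norm_pos_iff.2 (mon_ne c.x hx b)
  have hpN : 0 < ‖mon c.x (N + (b + b))‖ := norm_pos_iff.2 (mon_ne c.x hx _)
  obtain ⟨N1, -, hN1⟩ := exists_mon_lt hr hok.par.ind (min ‖mon c.x b‖ ‖mon c.x (N + (b + b))‖)
    (lt_min hpb hpN)
  obtain ⟨a, ha, g, hg, e⟩ := hzN N1
  have hN1b : ‖mon c.x (N1 - b)‖ < 1 := by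
    rw [sub_eq_add_neg, TDO.mon_add c.x hx, TDO.mon_neg, norm_mul, norm_inv, ← div_eq_mul_inv,
      div_lt_one hpb]
    exact hN1.trans_le (min_le_left _ _)
  have hu0 : u ≠ 0 := norm_pos_iff.1 (by rw [hu1]; exact one_pos)
  obtain ⟨u', hu'⟩ : ∃ u' : W, u' = u - mon c.x (N1 - b) * g := ⟨_, rfl⟩
  have hsm : ‖mon c.x (N1 - b) * g‖ < 1 := by
    rw [norm_mul]
    exact lt_of_le_of_lt (mul_le_of_le_one_right (norm_nonneg _)
      (HC_norm_le hr hL hML hok hg)) hN1b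
  have hu'O : u' ∈ HC M c := by
    rw [hu']
    exact sub_mem hu (mul_mem (mon_mem_HC hr hL hML hok hN1b.le) hg)
  have hu'1 : ‖u'‖ = 1 := by
    rw [hu', sub_eq_add_neg, IsUltrametricDist.norm_add_eq_max_of_norm_ne_norm, norm_neg, hu1,
      max_eq_left hsm.le]
    rw [norm_neg, hu1]
    exact hsm.ne'
  have hu'0 : u' ≠ 0 := norm_pos_iff.1 (by rw [hu'1]; exact one_pos)
  have hau : a = mon c.x b * u' := by
    have e1 : a = z - mon c.x N1 * g := by rw [e]; ring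
    have e2 : mon c.x N1 = mon c.x b * mon c.x (N1 - b) := by
      rw [← TDO.mon_add c.x hx, add_sub_cancel]
    rw [e1, hu', e2, hzu]; ring
  have haM : MoC M c a := ⟨b, u', hu'O, hu'1, hau⟩
  have hmb : mon c.x b ≠ 0 := mon_ne c.x hx b
  have hle : ‖mon c.x (N1 - (b + b))‖ ≤ ‖mon c.x N‖ := by
    have hpos : 0 < ‖mon c.x (b + b)‖ := norm_pos_iff.2 (mon_ne c.x hx _)
    rw [sub_eq_add_neg, TDO.mon_add c.x hx, TDO.mon_neg, norm_mul, norm_inv, ← div_eq_mul_inv,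
      div_le_iff₀ hpos, ← norm_mul, ← TDO.mon_add c.x hx]
    exact hN1.le.trans (min_le_right _ _)
  obtain ⟨v, hv, f1⟩ := adb_mono hr hL hML hok hle (neg_mem (mul_mem (mul_mem hg
    (inv_mem_HC hr hL hML hok hu hu1)) (inv_mem_HC hr hL hML hok hu'O hu'1)))
  refine ⟨a⁻¹, AfC_inv hok ha haM, v, hv, ?_⟩
  rw [← f1]
  have e3 : mon c.x N1 = mon c.x b * mon c.x b * mon c.x (N1 - (b + b)) := by
    rw [← TDO.mon_add c.x hx, ← TDO.mon_add c.x hx, add_sub_cancel]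
  have e4 : mon c.x (N1 - (b + b)) * g = (u - u') * (mon c.x b)⁻¹ := by
    have e5 : mon c.x (N1 - b) = mon c.x b * mon c.x (N1 - (b + b)) := by
      rw [← TDO.mon_add c.x hx]
      congr 1
      abel
    rw [hu', e5]
    field_simp
    ring
  have e6 : mon c.x (N1 - (b + b)) * -(g * u⁻¹ * u'⁻¹) =
      -((mon c.x (N1 - (b + b)) * g) * u⁻¹ * u'⁻¹) := by ring
  rw [e6, e4, hau, hzu]
  field_simp
  ring

theorem AD_Dcl (hr : 0 < r) (hL : IsComplete (L : Set W)) (hML : M ≤ L) (hok : Ok m M c)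
    (hA : ∀ a ∈ A, a ∈ HC M c) {z : W} (hz : z ∈ Dcl M c (AD M c A)) : z ∈ AD M c A := by
  refine (mem_AD_iff hr hL hML hok hA z).2 ⟨hz.1, fun N => ?_⟩
  obtain ⟨d, hd, g, hg, e⟩ := hz.2 N
  obtain ⟨a, ha, g', hg', e'⟩ := ((mem_AD_iff hr hL hML hok hA d).1 hd).2 N
  refine ⟨a, ha, g' + g, add_mem hg' (HO_le_HC hr hL hML hok hg), ?_⟩
  rw [e, e']; ring

theorem AD_newton (hr : 0 < r) (hL : IsComplete (L : Set W)) (hML : M ≤ L) (hok : Ok m M c)
    (hA : ∀ a ∈ A, a ∈ HC M c) (P : Polynomial W)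
    (hP : ∀ j, P.coeff j ∈ AD M c A ∧ P.coeff j ∈ HO M c) {z b q : W} (hz : z ∈ HO M c)
    (h0 : P.eval z = 0) (hd : MoC M c (P.derivative.eval z)) (hb : b ∈ AfC M c A)
    (hbH : b ∈ HC M c) (hq : q ∈ QC M c) (hbz : z - b = P.derivative.eval z * q) :
    z ∈ AD M c A := by
  have hx := hok.par.ind.ne
  have hPC : ∀ j, P.coeff j ∈ HC M c := fun j => HO_le_HC hr hL hML hok (hP j).2
  have hPA : ∀ (N : Fin r → ℤ) (j : ℕ), ∃ a ∈ AfC M c A, ∃ h ∈ HC M c,
      P.coeff j = a + mon c.x N * h :=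
    fun N j => ((mem_AD_iff hr hL hML hok hA _).1 (hP j).1).2 N
  have hzC : z ∈ HC M c := HO_le_HC hr hL hML hok hz
  obtain ⟨δ, hδ⟩ : ∃ δ, δ = P.derivative.eval z := ⟨_, rfl⟩
  rw [← hδ] at hd hbz
  have hδC : δ ∈ HC M c := by
    rw [hδ]
    exact adb_eval_mem (adb_der hPC) hzC
  have hδ0 : δ ≠ 0 := MoC.ne hok hd
  obtain ⟨a0, ha0, g0, hg0, hq0⟩ := hq
  have hdM : MoC M c δ := hd
  obtain ⟨D, v, hv, hv1, hδv⟩ := hd
  have hv0 : v ≠ 0 := norm_pos_iff.1 (by rw [hv1]; exact one_pos)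
  have hviC : v⁻¹ ∈ HC M c := inv_mem_HC hr hL hML hok hv hv1
  -- one Newton step doubles the precision
  have hstep : ∀ E : Fin r → ℤ, ‖mon c.x E‖ < 1 → ∀ b ∈ AfC M c A, b ∈ HC M c →
      ∀ g ∈ HC M c, z - b = δ * (mon c.x E * g) →
      ∃ b' ∈ AfC M c A, b' ∈ HC M c ∧ ∃ g' ∈ HC M c, z - b' = δ * (mon c.x (E + E) * g') := by
    intro E hE b hb hbC g hg e
    have hEC : mon c.x E ∈ HC M c := mon_mem_HC hr hL hML hok hE.le
    have hEE : mon c.x (E + E) = mon c.x E * mon c.x E := TDO.mon_add c.x hx _ _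
    have hpN : 0 < ‖mon c.x (D + D + (E + E))‖ := norm_pos_iff.2 (mon_ne c.x hx _)
    obtain ⟨N, -, hN⟩ := exists_mon_lt hr hok.par.ind _ hpN
    have hN' : ∀ h ∈ HC M c, ∃ h' ∈ HC M c,
        mon c.x N * h = δ * δ * (mon c.x (E + E) * h') := by
      intro h hh
      have hle : ‖mon c.x (N - (D + D))‖ ≤ ‖mon c.x (E + E)‖ := by
        have hpos : 0 < ‖mon c.x (D + D)‖ := norm_pos_iff.2 (mon_ne c.x hx _)
        rw [sub_eq_add_neg, TDO.mon_add c.x hx, TDO.mon_neg, norm_mul, norm_inv, ← div_eq_mul_inv,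
          div_le_iff₀ hpos, mul_comm ‖mon c.x (E + E)‖, ← norm_mul, ← TDO.mon_add c.x hx]
        exact hN.le
      obtain ⟨w, hw, f⟩ := adb_mono hr hL hML hok hle (mul_mem (mul_mem hviC hviC) hh)
      refine ⟨w, hw, ?_⟩
      rw [← f, hδv]
      have e1 : mon c.x N = mon c.x D * mon c.x D * mon c.x (N - (D + D)) := by
        rw [← TDO.mon_add c.x hx, ← TDO.mon_add c.x hx, add_sub_cancel]
      rw [e1]
      field_simp
    obtain ⟨P1, P2, hP1, hP2, hPe⟩ := adb_split P (mon c.x N) (hPA N)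
    obtain ⟨y1, hy1⟩ : ∃ y1, y1 = P1.eval b := ⟨_, rfl⟩
    obtain ⟨d1, hd1⟩ : ∃ d1, d1 = P1.derivative.eval b := ⟨_, rfl⟩
    have hy1A : y1 ∈ AfC M c A := by rw [hy1]; exact adb_eval_mem hP1 hb
    have hd1A : d1 ∈ AfC M c A := by rw [hd1]; exact adb_eval_mem (adb_der hP1) hb
    obtain ⟨h1, hh1, f1⟩ := hN' (P2.derivative.eval b) (adb_eval_mem (adb_der hP2) hbC)
    obtain ⟨h2, hh2, f2⟩ := hN' (P2.eval b) (adb_eval_mem hP2 hbC)
    have e1 : P.derivative.eval b = d1 + δ * δ * (mon c.x (E + E) * h1) := by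
      rw [← f1, hd1]
      conv_lhs => rw [hPe]
      rw [Polynomial.derivative_add, Polynomial.derivative_C_mul, Polynomial.eval_add,
        Polynomial.eval_mul, Polynomial.eval_C]
    have e2 : P.eval b = y1 + δ * δ * (mon c.x (E + E) * h2) := by
      rw [← f2, hy1]
      conv_lhs => rw [hPe]
      rw [Polynomial.eval_add, Polynomial.eval_mul, Polynomial.eval_C]
    obtain ⟨s, hs, hT1⟩ := taylor_mem (HC M c) P hPC hbC hzC
    obtain ⟨t, ht, hT2⟩ := taylor_mem (HC M c) P.derivative (adb_der hPC) hzC hbC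
    have hP''C : P.derivative.derivative.eval z ∈ HC M c :=
      adb_eval_mem (adb_der (adb_der hPC)) hzC
    obtain ⟨t', ht'⟩ : ∃ t', t' = P.derivative.derivative.eval z + t * (b - z) := ⟨_, rfl⟩
    have ht'C : t' ∈ HC M c := by
      rw [ht']
      exact add_mem hP''C (mul_mem ht (sub_mem hbC hzC))
    have e3 : P.derivative.eval b = δ * (1 - t' * (mon c.x E * g)) := by
      have h3 : b - z = -(δ * (mon c.x E * g)) := by rw [← e]; ring
      have h4 : P.derivative.eval b = δ + t' * (b - z) := by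
        rw [hT2, ht', hδ]; ring
      rw [h4, h3]; ring
    obtain ⟨q1, hq1⟩ : ∃ q1, q1 = mon c.x E * (-(t' * g) - δ * (mon c.x E * h1)) := ⟨_, rfl⟩
    have hq1Q : q1 ∈ QC M c := ⟨E, hE, _, sub_mem (neg_mem (mul_mem ht'C hg))
      (mul_mem hδC (mul_mem hEC hh1)), hq1⟩
    have e4 : d1 = δ * (1 + q1) := by
      have h3 : d1 = P.derivative.eval b - δ * δ * (mon c.x (E + E) * h1) := by rw [e1]; ring
      rw [h3, e3, hq1, hEE]; ring
    have hd1M : MoC M c d1 := by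
      rw [e4]
      exact (MoC.perturb hr hL hML hok hdM hq1Q).1
    have hd10 : d1 ≠ 0 := MoC.ne hok hd1M
    have hq1n : ‖q1‖ < 1 := QC_norm hr hL hML hok hq1Q
    have hwn : ‖1 + q1‖ = 1 := by
      rw [IsUltrametricDist.norm_add_eq_max_of_norm_ne_norm, norm_one, max_eq_left hq1n.le]
      rw [norm_one]
      exact hq1n.ne'
    have hw0 : 1 + q1 ≠ 0 := norm_pos_iff.1 (by rw [hwn]; exact one_pos)
    have hwiC : (1 + q1)⁻¹ ∈ HC M c := inv_mem_HC hr hL hML hok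
      (add_mem (one_mem _) (QC_mem_HC hr hL hML hok hq1Q)) hwn
    obtain ⟨g', hg'⟩ : ∃ g', g' = (-(h1 * (z - b)) - s * g ^ 2 - h2) * (1 + q1)⁻¹ := ⟨_, rfl⟩
    have hg'C : g' ∈ HC M c := by
      rw [hg']
      exact mul_mem (sub_mem (sub_mem (neg_mem (mul_mem hh1 (sub_mem hzC hbC)))
        (mul_mem hs (pow_mem hg 2))) hh2) hwiC
    have hfin : z - (b - y1 * d1⁻¹) = δ * (mon c.x (E + E) * g') := by
      have h3 : y1 = -(P.derivative.eval b * (z - b)) - s * (z - b) ^ 2 -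
          δ * δ * (mon c.x (E + E) * h2) := by
        have h4 : y1 = P.eval b - δ * δ * (mon c.x (E + E) * h2) := by rw [e2]; ring
        rw [h4]
        have h5 : P.eval b = -(P.derivative.eval b * (z - b)) - s * (z - b) ^ 2 := by
          rw [h0] at hT1
          linear_combination -hT1
        rw [h5]
      have h6 : (z - (b - y1 * d1⁻¹)) * d1 = δ * (mon c.x (E + E) * g') * d1 := by
        have h7 : (z - (b - y1 * d1⁻¹)) * d1 = (z - b) * d1 + y1 := by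
          field_simp
          ring
        rw [h7, h3, e1]
        have h8 : δ * (mon c.x (E + E) * g') * d1 =
            δ * δ * mon c.x (E + E) * (-(h1 * (z - b)) - s * g ^ 2 - h2) := by
          rw [e4, hg']
          field_simp
        rw [h8]
        have h9 : s * (z - b) ^ 2 = δ * δ * mon c.x (E + E) * (s * g ^ 2) := by
          rw [e, hEE]; ring
        rw [h9]
        ring
      exact mul_right_cancel₀ hd10 h6
    refine ⟨b - y1 * d1⁻¹, sub_mem hb (mul_mem hy1A (AfC_inv hok hd1A hd1M)), ?_, g', hg'C,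
      hfin⟩
    have h3 : b - y1 * d1⁻¹ = z - δ * (mon c.x (E + E) * g') := by rw [← hfin]; ring
    rw [h3, hEE]
    exact sub_mem hzC (mul_mem hδC (mul_mem (mul_mem hEC hEC) hg'C))
  have hseq : ∀ n : ℕ, ∃ b' ∈ AfC M c A, b' ∈ HC M c ∧ ∃ g ∈ HC M c,
      z - b' = δ * (mon c.x ((n + 1) • a0) * g) := by
    intro n
    induction n with
    | zero =>
      exact ⟨b, hb, hbH, g0, hg0, by rw [zero_add, one_smul, ← hq0]; exact hbz⟩
    | succ n ih =>
      obtain ⟨b', hb'A, hb'C, g, hg, e⟩ := ih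
      have hsm : ‖mon c.x ((n + 1) • a0)‖ < 1 := by
        rw [mon_nsmul, norm_pow]
        exact pow_lt_one₀ (norm_nonneg _) ha0 (by omega)
      obtain ⟨b2, hb2A, hb2C, g2, hg2, e2⟩ := hstep _ hsm b' hb'A hb'C g hg e
      have hle : ‖mon c.x ((n + 1) • a0 + (n + 1) • a0)‖ ≤ ‖mon c.x ((n + 1 + 1) • a0)‖ := by
        rw [← add_smul, mon_nsmul, mon_nsmul, norm_pow, norm_pow]
        exact pow_le_pow_of_le_one (norm_nonneg _) ha0.le (by omega)
      obtain ⟨v3, hv3, f3⟩ := adb_mono hr hL hML hok hle hg2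
      exact ⟨b2, hb2A, hb2C, v3, hv3, by rw [e2, f3]⟩
  refine (mem_AD_iff hr hL hML hok hA z).2 ⟨HO_le_HL hz, fun N => ?_⟩
  obtain ⟨n, hn⟩ := adb_pow_small hok ha0 N
  obtain ⟨b', hb'A, -, g, hg, e⟩ := hseq n
  obtain ⟨v3, hv3, f3⟩ := adb_mono hr hL hML hok hn (mul_mem hδC hg)
  refine ⟨b', hb'A, v3, hv3, ?_⟩
  rw [← f3]
  linear_combination e

theorem AfC_refine (hr : 0 < r) {S L : IntermediateField k W} (hL : IsComplete (L : Set W))
    {c c' : Tri k W r} (hc : Ch m S L c) (h : RfS m S L c c') {z : W}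
    (hz : z ∈ AfC (S ⊓ L) c A) : z ∈ AfC (S ⊓ L) c' A := by
  obtain ⟨n, hn, d, hd, hdM, e⟩ := (mem_AfC_iff hc.ok z).1 hz
  exact (mem_AfC_iff (RfS.ch hc h).ok z).2 ⟨n, hn, d, hd, RfS.moC hr hL hc h hdM, e⟩

theorem AD_refine (hr : 0 < r) {S L : IntermediateField k W} (hL : IsComplete (L : Set W))
    {c c' : Tri k W r} (hc : Ch m S L c) (hA : ∀ a ∈ A, a ∈ HC (S ⊓ L) c)
    (h : RfS m S L c c') {z : W} (hz : z ∈ AD (S ⊓ L) c A) : z ∈ AD (S ⊓ L) c' A := by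
  have hok := hc.ok
  have hok' := (RfS.ch hc h).ok
  have hML : S ⊓ L ≤ L := inf_le_right
  obtain ⟨hz1, hz2⟩ := (mem_AD_iff hr hL hML hok hA z).1 hz
  refine (mem_AD_iff hr hL hML hok' (fun a ha => RfS.HC_le hr hL hc h (hA a ha)) z).2
    ⟨RfS.HL_le hr hc h hz1, fun N => ?_⟩
  have hpos : 0 < ‖mon c'.x N‖ := norm_pos_iff.2 (mon_ne c'.x hok'.par.ind.ne N)
  obtain ⟨N1, -, hN1⟩ := exists_mon_lt hr hok.par.ind _ hpos
  obtain ⟨a, ha, g, hg, e⟩ := hz2 N1
  obtain ⟨b, u, hu, hu1, hbu⟩ := RfS.moC hr hL hc h (MoC.of_mon hok N1)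
  have hle : ‖mon c'.x b‖ ≤ ‖mon c'.x N‖ := by
    have h2 : ‖mon c.x N1‖ = ‖mon c'.x b‖ := by rw [hbu, norm_mul, hu1, mul_one]
    rw [← h2]
    exact hN1.le
  obtain ⟨v, hv, f1⟩ := adb_mono hr hL hML hok' hle (mul_mem hu (RfS.HC_le hr hL hc h hg))
  refine ⟨a, AfC_refine hr hL hc h ha, v, hv, ?_⟩
  rw [← f1, ← mul_assoc, ← hbu]
  exact e

theorem AD_of_D (hr : 0 < r) {S L : IntermediateField k W} (hL : IsComplete (L : Set W))
    {c c' c'' : Tri k W r} (hAN : Nl L.toSubfield A) (h : StR m S L c c')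
    (h' : RfS m S L c' c'') {x' : Fin r → W} {G : Finset W} (hM : Mdl (S ⊓ L) c x' G)
    (hAB : A ≤ Cp (Bu c x' G)) {z : W} (hz : z ∈ Cp A) (hzH : z ∈ HL (S ⊓ L) c'') :
    z ∈ AD (S ⊓ L) c'' A := by
  have hML : S ⊓ L ≤ L := inf_le_right
  have hc : Ch m S L c := by
    obtain ⟨e, B, w, g, T, h⟩ := h
    exact h.ch
  have hcc : RfS m S L c c'' := Relation.ReflTransGen.head h h'
  have hok'' := (RfS.ch hc hcc).ok
  have hAc : ∀ a ∈ A, a ∈ HC (S ⊓ L) c := fun a ha =>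
    (mem_HC_iff hr hL hML hc.ok a).2 ⟨x', G, hM, hAB ha⟩
  have hA'' : ∀ a ∈ A, a ∈ HC (S ⊓ L) c'' := fun a ha => RfS.HC_le hr hL hc hcc (hAc a ha)
  refine (mem_AD_iff hr hL hML hok'' hA'' z).2 ⟨hzH, fun N => ?_⟩
  obtain ⟨n, hn⟩ := mP_tiny hr hL h h' hM N
  obtain ⟨b, hb, hzb⟩ := Cp_dens hAN hz n
  have hle : Cp A ≤ Cp (Bu c x' G) := Cp_mono hAN (Bu_Nl hr hL hML hc.ok hM) hAB
  obtain ⟨g, hg, e⟩ := hn _ (mP_mono hle hzb)
  exact ⟨b, AfC_le hr hL hML hok'' hb, g, hg, by rw [← e]; ring⟩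

end Pool.Agent.Lib.TQ
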