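import Pool.Agent.Lib.TQ.DinH
import Pool.Agent.Lib.TQ.ADb
import Pool.Agent.Lib.TU.DenF
import Pool.Agent.Lib.TU.AppSt

/-!
# Module AppC1: the parameters and constants of large charts are approximable by fractions of `A`
PROOF. `d_in_H`: `c1`, model `(x1, G1)`, `A ≤ Cp (Bu c1 x1 G1)`; `δ j := (F' j)'(w' j)`.  A stage `c1 → c2`
(`TU.exists_stR`).  Put `F2 := adjoin k (C0 ∪ range t ∪ range w')`, `A0 := Subring.closure (C0 ∪ range t ∪ range w')`: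
`A0 ≤ HO c2`, `F2 = Frac A0`.  `TU.den_F` for the chart `c2`, `F0 := F2` (`hSF`, `hLF`), `A0`, and
`Z :=` generators of the field `c2.C` (`cst.fg`), the `c2.x i`, `c2.y`: a refinement `c3` of `c2` with
`Z ⊆ Dcl c3 (Afr c3 A0)`.  A stage `c3 → c` (`exists_stR`); `TU.Dcl_refine`: `Z ⊆ Dcl c (Afr c A0)`.
(a) `C0` and the `t i` are in `Cp A` and in `HO c`, so in `AD c A` (`AD_of_D` with `h : StR c1 c2`).  So
`Pt C0 t ≤ AD c A` (`AD_inv` for units, `MoH.of_unit`).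
(b) `w' j ∈ AD c A`: `AD_newton` with `P := F' j`, `z := w' j`, `b := w j ∈ A ≤ AfC`,
`z - b = δ j * (-η)`, `-η ∈ QC c` (`HC_lt_one` with `StR c1 c2`), `δ j` is `MoH`, so `MoC`.
(c) so `A0 ≤ AD c A`; `Afr c A0 ≤ AD c A` (`mem_Afr_iff`, `AD_inv`); `Dcl c (Afr c A0) ⊆ Dcl c (AD c A) ⊆ AD c A`
(`AD_Dcl`).  So `Z ⊆ AD c A`, and all of `c2.C` (generated by elements of `Z` as a field whose nonzero elements are
units of `HO c`) is in `AD c A`.
(d) `RfS c2 c` contains a stage: it is `StR c2 c2'` followed by `RfS c2' c` (`Relation.ReflTransGen.cases_head`).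
`TU.app_main` with `c0 := c2`, `c1 := c2'`, `A := AD c A` (`hA`: `AD ≤ HL`; `hinv`: `AD_inv`), elements of `AD` are in
`Dcl c (AD c A)` (`Dcl_of_mem`); the conclusion follows with `AD_Dcl`.
-/

namespace Pool.Agent.Lib.TQ

open Pool.Agent.Lib.MP_3029eb_ag Pool.Agent.Lib.MP_3029eb_ag.Abh Pool.Agent.Lib.TDO
  Pool.Agent.Lib.TU

section
variable {k W : Type} [Field k] [NormedField W] [IsUltrametricDist W] [Algebra k W] {r m : ℕ}

omit [IsUltrametricDist W] in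
/-- elements of a trivially normed field generated by elements of a subring closed under inverses
of elements of norm one -/
private theorem ac1_field_mem (C : IntermediateField k W) (hC : ∀ e ∈ C, e ≠ 0 → ‖e‖ = 1)
    (B : Subring W) (hinv : ∀ z ∈ B, z ∈ C → ‖z‖ = 1 → z⁻¹ ∈ B)
    (hk : ∀ c : k, algebraMap k W c ∈ B)
    (gs : Set W) (hgs : IntermediateField.adjoin k gs = C) (hB : ∀ g ∈ gs, g ∈ B) {z : W}
    (hz : z ∈ C) : z ∈ B := by
  subst hgs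
  refine IntermediateField.adjoin_induction k (p := fun z _ => z ∈ B) (fun x hx => hB x hx)
    hk (fun x y _ _ h1 h2 => B.add_mem h1 h2) (fun x hx h1 => ?_)
    (fun x y _ _ h1 h2 => B.mul_mem h1 h2) hz
  by_cases h0 : x = 0
  · rw [h0, inv_zero]; exact B.zero_mem
  · exact hinv x h1 hx (hC x hx h0)

omit [NormedField W] [IsUltrametricDist W] [Algebra k W] in
/-- fractions -/
private theorem ac1_frac [Field W] [Algebra k W] (C0 : IntermediateField k W) (T : Set W) {z : W}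
    (hz : z ∈ IntermediateField.adjoin k ((C0 : Set W) ∪ T)) :
    ∃ a ∈ Subring.closure ((C0 : Set W) ∪ T), ∃ b ∈ Subring.closure ((C0 : Set W) ∪ T),
      b ≠ 0 ∧ z * b = a := by
  refine IntermediateField.adjoin_induction k
    (p := fun z _ => ∃ a ∈ Subring.closure ((C0 : Set W) ∪ T),
      ∃ b ∈ Subring.closure ((C0 : Set W) ∪ T), b ≠ 0 ∧ z * b = a)
    (fun x hx => ⟨x, Subring.subset_closure hx, 1, one_mem _, one_ne_zero, mul_one x⟩)
    (fun c => ⟨algebraMap k W c, Subring.subset_closure (Or.inl (C0.algebraMap_mem c)), 1,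
      one_mem _, one_ne_zero, mul_one _⟩) ?_ ?_ ?_ hz
  · rintro x y _ _ ⟨a, ha, b, hb, hb0, e⟩ ⟨a', ha', b', hb', hb0', e'⟩
    refine ⟨a * b' + a' * b, add_mem (mul_mem ha hb') (mul_mem ha' hb), b * b', mul_mem hb hb',
      mul_ne_zero hb0 hb0', ?_⟩
    rw [← e, ← e']; ring
  · rintro x _ ⟨a, ha, b, hb, hb0, e⟩
    by_cases hx : x = 0
    · exact ⟨0, zero_mem _, 1, one_mem _, one_ne_zero, by rw [hx, inv_zero, zero_mul]⟩
    · refine ⟨b, hb, a, ha, ?_, ?_⟩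
      · rw [← e]; exact mul_ne_zero hx hb0
      · rw [← e, ← mul_assoc, inv_mul_cancel₀ hx, one_mul]
  · rintro x y _ _ ⟨a, ha, b, hb, hb0, e⟩ ⟨a', ha', b', hb', hb0', e'⟩
    refine ⟨a * a', mul_mem ha ha', b * b', mul_mem hb hb', mul_ne_zero hb0 hb0', ?_⟩
    rw [← e, ← e']; ring

/-- every model of `c` is contained in a model of a refinement -/
private theorem ac1_model (hr : 0 < r) {S L : IntermediateField k W} {c c' : Tri k W r}
    (hc : Ch m S L c) (h : RfS m S L c c') {x' : Fin r → W} {G : Finset W}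
    (hM : Mdl (S ⊓ L) c x' G) : ∃ (x'' : Fin r → W) (G'' : Finset W),
      Mdl (S ⊓ L) c' x'' G'' ∧ Bu c x' G ≤ Bu c' x'' G'' := by
  classical
  have hok := hc.ok
  have hok' := (RfS.ch hc h).ok
  obtain ⟨gs, hgs⟩ := hok.cst.fg
  have hGn : ∀ g ∈ G, ‖g‖ ≤ 1 := fun g hg => (hM.gM g hg).2
  have hB : ∀ z ∈ Bu c x' G, z ∈ HO (S ⊓ L) c := fun z hz => (mem_HO_iff hok z).2 ⟨x', G, hM, hz⟩
  obtain ⟨x'', G'', hM'', h1, -⟩ := exists_model hok' (gs ∪ Finset.univ.image x' ∪ {c.y} ∪ G) (by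
    intro z hz
    refine RfS.HO_le hr hc h ?_
    rcases Finset.mem_union.1 hz with hz | hz
    · rcases Finset.mem_union.1 hz with hz | hz
      · rcases Finset.mem_union.1 hz with hz | hz
        · exact C_mem_HO hok (hgs ▸ IntermediateField.subset_adjoin k _ hz)
        · obtain ⟨i, -, rfl⟩ := Finset.mem_image.1 hz
          exact hB _ (x_mem_Bu hok hM.mt.ind hGn i)
      · rw [Finset.mem_singleton.1 hz]
        exact y_mem_HO hok
    · exact hB _ (G_mem_Bu hok hM.mt.ind hGn hz)) ∅ (fun a ha => absurd ha (Finset.notMem_empty a))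
  have hGn'' : ∀ g ∈ G'', ‖g‖ ≤ 1 := fun g hg => (hM''.gM g hg).2
  refine ⟨x'', G'', hM'', fun z hz => ?_⟩
  refine Bu_le (Bu c' x'' G'') (fun w hw => ?_) (fun i => ?_) ?_ (fun g hg => ?_)
    (fun z hz h1 => inv_mem_Bu hz h1) hz
  · refine ac1_field_mem c.C hok.cst.unit _ (fun z hz _ h1 => inv_mem_Bu hz h1) (fun a => ?_)
      (gs : Set W) hgs (fun g hg => h1 g ?_) hw
    · exact C_mem_Bu hok' hM''.mt.ind hGn'' (c'.C.algebraMap_mem a)
    · simp only [Finset.mem_union]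
      exact Or.inl (Or.inl (Or.inl hg))
  · refine h1 _ ?_
    simp only [Finset.mem_union]
    exact Or.inl (Or.inl (Or.inr (Finset.mem_image_of_mem _ (Finset.mem_univ i))))
  · refine h1 _ ?_
    simp only [Finset.mem_union]
    exact Or.inl (Or.inr (Finset.mem_singleton_self _))
  · refine h1 _ ?_
    simp only [Finset.mem_union]
    exact Or.inr hg

end

theorem app_AD {k W : Type} [Field k] [PerfectField k] [NormedField W] [IsUltrametricDist W]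
    [Algebra k W] {r m : ℕ} (hr : 0 < r) (hA : AmbG r m k W) (S L : IntermediateField k W)
    (hS : ∀ z : W, IsSeparable S z → z ∈ S) (hL : IsComplete (L : Set W)) {c : Tri k W r}
    (hc : Ch m S L c) (A : Subring W) (C0 : IntermediateField k W) {n q : ℕ} (t : Fin n → W)
    (w w' : Fin q → W) (F F' : Fin q → Polynomial W) (N : ℕ)
    (hD : Dat m S L A C0 t w w' F F' N)
    (hSF : ∀ z : W, z ∈ S ↔ IsSeparable (IntermediateField.adjoin k
      ((C0 : Set W) ∪ (Set.range t ∪ Set.range w'))) z)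
    (hLF : L = cl (IntermediateField.adjoin k ((C0 : Set W) ∪ (Set.range t ∪ Set.range w')))) :
    ∃ (c' : Tri k W r) (x' : Fin r → W) (G : Finset W), RfS m S L c c' ∧ Mdl (S ⊓ L) c' x' G ∧
      A ≤ Cp (Bu c' x' G) ∧ (∀ i, c'.x i ∈ AD (S ⊓ L) c' A) ∧ c'.y ∈ AD (S ⊓ L) c' A ∧
      ∀ e ∈ c'.C, ∃ a ∈ AD (S ⊓ L) c' A, a ∈ HO (S ⊓ L) c' ∧ ‖e - a‖ < 1 := by
  classical
  have hML : S ⊓ L ≤ L := inf_le_right
  obtain ⟨c1, x1, G1, hcc1, hM1, hAB, hC0B, htB, hw'B, hδM, hη⟩ :=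
    d_in_H hr hA S L hS hL hc A C0 t w w' F F' N hD
  have hch1 : Ch m S L c1 := RfS.ch hc hcc1
  obtain ⟨c2, h12⟩ := exists_stR hr hA S L hS hL hch1
  have hr12 : RfS m S L c1 c2 := Relation.ReflTransGen.single h12
  have hch2 : Ch m S L c2 := RfS.ch hch1 hr12
  have hB1 : ∀ z ∈ Bu c1 x1 G1, z ∈ HO (S ⊓ L) c1 := fun z hz =>
    (mem_HO_iff hch1.ok z).2 ⟨x1, G1, hM1, hz⟩
  set T : Set W := Set.range t ∪ Set.range w' with hT
  set A0 : Subring W := Subring.closure ((C0 : Set W) ∪ T) with hA0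
  have hA01 : ∀ a ∈ A0, a ∈ HO (S ⊓ L) c1 := by
    have h1 : A0 ≤ HO (S ⊓ L) c1 := by
      rw [hA0, Subring.closure_le]
      rintro z (hz | ⟨i, rfl⟩ | ⟨j, rfl⟩)
      · exact hB1 z (hC0B z hz)
      · exact hB1 _ (htB i)
      · exact hB1 _ (hw'B j)
    exact fun a ha => h1 ha
  obtain ⟨gs, hgs⟩ := hch2.ok.cst.fg
  obtain ⟨c3, h23, hZ3⟩ := den_F hr hA S (IntermediateField.adjoin k ((C0 : Set W) ∪ T)) L hSF hS
    hLF hL hch2 A0 (fun a ha => RfS.HO_le hr hch1 hr12 (hA01 a ha))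
    (fun z hz => ac1_frac C0 T hz) (gs ∪ Finset.univ.image c2.x ∪ {c2.y}) (by
      intro z hz
      rcases Finset.mem_union.1 hz with hz | hz
      · rcases Finset.mem_union.1 hz with hz | hz
        · exact hch2.ok.CM (hgs ▸ IntermediateField.subset_adjoin k _ hz)
        · obtain ⟨i, -, rfl⟩ := Finset.mem_image.1 hz
          exact hch2.ok.xM i
      · rw [Finset.mem_singleton.1 hz]
        exact hch2.ok.yM)
  have hch3 : Ch m S L c3 := RfS.ch hch2 h23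
  obtain ⟨c4, h34⟩ := exists_stR hr hA S L hS hL hch3
  have hr34 : RfS m S L c3 c4 := Relation.ReflTransGen.single h34
  have hr24 : RfS m S L c2 c4 := h23.trans hr34
  have hr14 : RfS m S L c1 c4 := Relation.ReflTransGen.head h12 hr24
  have hch4 : Ch m S L c4 := RfS.ch hch1 hr14
  have hok4 := hch4.ok
  have hAfr : Afr (S ⊓ L) c3 A0 ≤ Afr (S ⊓ L) c4 A0 := by
    intro z hz
    obtain ⟨n', hn', d, hd, hdM, e⟩ := (mem_Afr_iff hch3.ok z).1 hz
    exact (mem_Afr_iff hok4 z).2 ⟨n', hn', d, hd, RfS.moH hr hch3 hr34 hdM, e⟩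
  have hZ4 : ∀ z ∈ gs ∪ Finset.univ.image c2.x ∪ {c2.y},
      z ∈ Dcl (S ⊓ L) c4 (Afr (S ⊓ L) c4 A0) := fun z hz =>
    Dcl_refine hr hch3 hr34 hAfr (hZ3 z hz)
  -- the elements of `A` are in `HC`
  have hA4 : ∀ a ∈ A, a ∈ HC (S ⊓ L) c4 := fun a ha =>
    RfS.HC_le hr hL hch1 hr14 ((mem_HC_iff hr hL hML hch1.ok a).2 ⟨x1, G1, hM1, hAB ha⟩)
  have hADiff := fun z => mem_AD_iff (c := c4) hr hL hML hok4 hA4 z
  have hADinv : ∀ a ∈ AD (S ⊓ L) c4 A, MoH (S ⊓ L) c4 a → a⁻¹ ∈ AD (S ⊓ L) c4 A :=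
    fun a ha h => AD_inv hr hL hML hok4 hA4 ha h
  have hADun : ∀ a ∈ AD (S ⊓ L) c4 A, a ∈ HO (S ⊓ L) c4 → ‖a‖ = 1 → a⁻¹ ∈ AD (S ⊓ L) c4 A :=
    fun a ha h h1 => hADinv a ha (MoH.of_unit h h1)
  have hB4 : ∀ z ∈ Bu c1 x1 G1, z ∈ HO (S ⊓ L) c4 := fun z hz =>
    RfS.HO_le hr hch1 hr14 (hB1 z hz)
  have hfromD : ∀ z ∈ Cp A, z ∈ Bu c1 x1 G1 → z ∈ AD (S ⊓ L) c4 A := fun z hz hzB =>
    AD_of_D hr hL hD.nl h12 hr24 hM1 hAB hz (HO_le_HL (hB4 z hzB))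
  have hC0A : ∀ e ∈ C0, e ∈ AD (S ⊓ L) c4 A := fun e he => hfromD e (hD.CD e he) (hC0B e he)
  have htA : ∀ i, t i ∈ AD (S ⊓ L) c4 A := fun i => hfromD _ (hD.tD i).1 (htB i)
  have hcl : Subring.closure ((C0 : Set W) ∪ Set.range t) ≤ AD (S ⊓ L) c4 A := by
    rw [Subring.closure_le]
    rintro z (hz | ⟨i, rfl⟩)
    · exact hC0A z hz
    · exact htA i
  have hclO : Subring.closure ((C0 : Set W) ∪ Set.range t) ≤ HO (S ⊓ L) c4 := by
    rw [Subring.closure_le]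
    rintro z (hz | ⟨i, rfl⟩)
    · exact hB4 z (hC0B z hz)
    · exact hB4 _ (htB i)
  have hPt : ∀ z ∈ Pt C0 t, z ∈ AD (S ⊓ L) c4 A ∧ z ∈ HO (S ⊓ L) c4 := by
    rintro z ⟨a, ha, b, hb, hb1, e⟩
    have h1 : ‖b‖ = 1 := (ball_val_eq_one b).1 hb1
    have hb0 : b ≠ 0 := norm_pos_iff.1 (by rw [h1]; exact one_pos)
    have h2 : z = a * b⁻¹ := by rw [← e, mul_assoc, mul_inv_cancel₀ hb0, mul_one]
    rw [h2]
    exact ⟨mul_mem (hcl ha) (hADun b (hcl hb) (hclO hb) h1),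
      mul_mem (hclO ha) (inv_mem_HO hok4 (hclO hb) h1)⟩
  have hw'A : ∀ j, w' j ∈ AD (S ⊓ L) c4 A := by
    intro j
    obtain ⟨η, hηB, hη1, hηe⟩ := hη j
    have hηQ : η ∈ QC (S ⊓ L) c4 := HC_lt_one hr hL h12 hr24
      ((mem_HC_iff hr hL hML hch1.ok η).2 ⟨x1, G1, hM1, hηB⟩) hη1
    refine AD_newton (q := -η) (b := w j) hr hL hML hok4 hA4 (F' j) (fun i => hPt _ (hD.FP' j i))
      (hB4 _ (hw'B j)) (hD.root' j) (MoC.of_MoH hr hL hML hok4 (RfS.moH hr hch1 hr14 (hδM j)))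
      (AfC_le hr hL hML hok4 (hD.wA j).1) (hA4 _ (hD.wA j).1) (QC_neg hηQ) ?_
    rw [hηe]; ring
  have hA0A : A0 ≤ AD (S ⊓ L) c4 A := by
    rw [hA0, Subring.closure_le]
    rintro z (hz | ⟨i, rfl⟩ | ⟨j, rfl⟩)
    · exact hC0A z hz
    · exact htA i
    · exact hw'A j
  have hAfrA : Afr (S ⊓ L) c4 A0 ≤ AD (S ⊓ L) c4 A := by
    intro z hz
    obtain ⟨n', hn', d, hd, hdM, e⟩ := (mem_Afr_iff hok4 z).1 hz
    have h1 : z = n' * d⁻¹ := by
      rw [← e, mul_assoc, mul_inv_cancel₀ (hdM.ne hok4), mul_one]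
    rw [h1]
    exact mul_mem (hA0A hn') (hADinv d (hA0A hd) hdM)
  have hZA : ∀ z ∈ gs ∪ Finset.univ.image c2.x ∪ {c2.y}, z ∈ AD (S ⊓ L) c4 A := by
    intro z hz
    obtain ⟨h1, h2⟩ := hZ4 z hz
    refine AD_Dcl hr hL hML hok4 hA4 ⟨h1, fun N' => ?_⟩
    obtain ⟨a, ha, g, hg, e⟩ := h2 N'
    exact ⟨a, hAfrA ha, g, hg, e⟩
  have hC2 : ∀ e ∈ c2.C, e ∈ AD (S ⊓ L) c4 A := by
    intro e he
    refine ac1_field_mem c2.C hch2.ok.cst.unit _ (fun z hz hzC h1 => ?_) (fun a => ?_)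
      (gs : Set W) hgs (fun g hg => hZA g ?_) he
    · exact hADun z hz (RfS.HO_le hr hch2 hr24 (C_mem_HO hch2.ok hzC)) h1
    · exact hC0A _ (C0.algebraMap_mem a)
    · simp only [Finset.mem_union]
      exact Or.inl (Or.inl hg)
  have hADL : ∀ a ∈ AD (S ⊓ L) c4 A, a ∈ HL (S ⊓ L) c4 := fun a ha => ((hADiff a).1 ha).1
  have hsub : ∀ a ∈ AD (S ⊓ L) c4 A, a ∈ Dcl (S ⊓ L) c4 (AD (S ⊓ L) c4 A) := fun a ha =>
    Dcl_of_mem hr hok4 hADL ha
  obtain ⟨c2', hst, hrf⟩ : ∃ c2', StR m S L c2 c2' ∧ RfS m S L c2' c4 := by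
    rcases Relation.ReflTransGen.cases_head h23 with h | ⟨c2', h1, h2⟩
    · rw [h]
      exact ⟨c4, h34, Relation.ReflTransGen.refl⟩
    · exact ⟨c2', h1, Relation.ReflTransGen.trans h2 hr34⟩
  obtain ⟨hx, hy, hCe⟩ := app_main hr hch2 hst hrf (AD (S ⊓ L) c4 A) hADL hADinv
    (fun e he => hsub e (hC2 e he))
    (fun i => hsub _ (hZA _ (by
      simp only [Finset.mem_union]
      exact Or.inl (Or.inr (Finset.mem_image_of_mem _ (Finset.mem_univ i))))))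
    (hsub _ (hZA _ (by
      simp only [Finset.mem_union]
      exact Or.inr (Finset.mem_singleton_self _))))
  obtain ⟨x4, G4, hM4, hle4⟩ := ac1_model hr hch1 hr14 hM1
  refine ⟨c4, x4, G4, hcc1.trans hr14, hM4, ?_, fun i => AD_Dcl hr hL hML hok4 hA4 (hx i),
    AD_Dcl hr hL hML hok4 hA4 hy, hCe⟩
  exact hAB.trans (Cp_mono (Bu_Nl hr hL hML hch1.ok hM1) (Bu_Nl hr hL hML hok4 hM4)
    (hle4.trans le_Cp))

end Pool.Agent.Lib.TQ
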