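import Pool.Agent.Lib.TQ.CpB

/-!
# Module CpC: generation of completions
`cp_nak` (complete Nakayama lemma): `R` a complete noetherian local subring (`Cp R = R`) of a noetherian
local subring `D`; elements `v i` of `D` generating `D` over `R` modulo `m_R D` generate `D` over `R`.
PROOF: let `b_j` generate `m_R` (`Nl.exists_gens`).  For `z ∈ D` construct by recursion, for every `n`,
coefficients `c_n i ∈ mP R n` and a remainder: every element of `m_R^n D` (finite sums of `monN b α * z_α`,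
`|α| = n`, `z_α ∈ D`) is `∑ i, c i * v i` + an element of `m_R^(n+1) D` with `c i ∈ mP R n`.  The sums of the
`c_n i` converge in `R` (`Cp_exists_lim`, `Cp R = R`), the remainders tend to `0` (`Nl.exists_tau`).
`cp_eq_of_surj`: by `cp_nak`-like induction every `z ∈ Cp B'` is `b 0 + b 1 + ...`, `b n ∈ mP B n` : from
`hres` and `hmax` (`Cp B' = B + m_B Cp B'`): this is `cp_nak` with `R := Cp B`, `D := Cp B'`, `v := 1`.
`cp_fin`: `R := Cp P`; `D / m_P D` is generated over `P` by finitely many monomials in generators of `m_D`: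
by `hres` `D = P + m_D`, so `D = ∑ P monN w α + m_D ^ N` (`|α| < N`), and `m_D ^ N ≤ m_P D`.
`cp_field`: `B := locV (closure (C0 ∪ w))` is noetherian (localization of a finitely generated algebra over the
field `C0`), `cp_eq_of_surj` applies to `B ≤ D = Cp D`.
-/

namespace Pool.Agent.Lib.TQ

open Pool.Agent.Lib.MP_3029eb_ag Pool.Agent.Lib.MP_3029eb_ag.Abh Pool.Agent.Lib.TDO
  Pool.Agent.Lib.TU

variable {W : Type} [NormedField W] [IsUltrametricDist W] {X : Subfield W} {B B' D P R : Subring W}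

/-- `m_R ^ n D` -/
private def cnS (D R : Subring W) (n : ℕ) : Submodule D W := Submodule.span D (mP R n)

omit [IsUltrametricDist W] in
private theorem cn_smul {D : Subring W} (d : D) (z : W) : d • z = (d : W) * z := rfl

private theorem cn_mul (hR : Nl X R) {n : ℕ} {m s : W} (hm : m ∈ mP R n)
    (hs : s ∈ Submodule.span D {b : W | b ∈ R ∧ ‖b‖ < 1}) : m * s ∈ cnS D R (n + 1) := by
  induction hs using Submodule.span_induction with
  | mem x hx =>
    exact Submodule.subset_span (mP_mul hm (hR.mP_one_iff.2 hx))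
  | zero => rw [mul_zero]; exact zero_mem _
  | add x y _ _ hx hy => rw [mul_add]; exact add_mem hx hy
  | smul d x _ hx =>
    have : m * (d • x) = d • (m * x) := by
      rw [cn_smul, cn_smul]; ring
    rw [this]
    exact Submodule.smul_mem _ _ hx

private theorem cn_step (hR : Nl X R) {l : ℕ} (v : Fin l → W)
    (h : ∀ z ∈ D, ∃ c : Fin l → W, (∀ i, c i ∈ R) ∧
      z - ∑ i, c i * v i ∈ Submodule.span D {b : W | b ∈ R ∧ ‖b‖ < 1}) (n : ℕ) {z : W}
    (hz : z ∈ cnS D R n) :
    ∃ c : Fin l → W, (∀ i, c i ∈ mP R n) ∧ z - ∑ i, c i * v i ∈ cnS D R (n + 1) := by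
  have key : ∀ d ∈ D, ∃ c : Fin l → W, (∀ i, c i ∈ mP R n) ∧
      d * z - ∑ i, c i * v i ∈ cnS D R (n + 1) := by
    unfold cnS at hz
    induction hz using Submodule.span_induction with
    | mem x hx =>
      intro d hd
      obtain ⟨c, hc, hs⟩ := h d hd
      refine ⟨fun i => c i * x, fun i => mP_smul (hc i) hx, ?_⟩
      have e : d * x - ∑ i, c i * x * v i = x * (d - ∑ i, c i * v i) := by
        rw [mul_sub, Finset.mul_sum, mul_comm d x]
        congr 1
        exact Finset.sum_congr rfl fun i _ => by ring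
      rw [e]
      exact cn_mul hR hx hs
    | zero =>
      intro d _
      refine ⟨fun _ => 0, fun _ => mP_zero_mem n, ?_⟩
      simp only [mul_zero, zero_mul, Finset.sum_const_zero, sub_zero]
      exact zero_mem _
    | add x y _ _ hx hy =>
      intro d hd
      obtain ⟨c, hc, h1⟩ := hx d hd
      obtain ⟨c', hc', h2⟩ := hy d hd
      refine ⟨fun i => c i + c' i, fun i => mP_add (hc i) (hc' i), ?_⟩
      have e : d * (x + y) - ∑ i, (c i + c' i) * v i =
          (d * x - ∑ i, c i * v i) + (d * y - ∑ i, c' i * v i) := by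
        simp only [add_mul, Finset.sum_add_distrib]
        ring
      rw [e]
      exact add_mem h1 h2
    | smul a x _ hx =>
      intro d hd
      obtain ⟨c, hc, h1⟩ := hx (d * a) (mul_mem hd a.2)
      refine ⟨c, hc, ?_⟩
      rw [cn_smul, ← mul_assoc]
      exact h1
  obtain ⟨c, hc, h1⟩ := key 1 (one_mem D)
  rw [one_mul] at h1
  exact ⟨c, hc, h1⟩

private theorem cn_norm (hD : Nl X D) {n : ℕ} {t : ℝ} (ht : 0 ≤ t)
    (hR : ∀ z ∈ mP R n, ‖z‖ ≤ t) {z : W} (hz : z ∈ cnS D R n) : ‖z‖ ≤ t := by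
  unfold cnS at hz
  induction hz using Submodule.span_induction with
  | mem x hx => exact hR x hx
  | zero => rw [norm_zero]; exact ht
  | add x y _ _ hx hy =>
    exact (IsUltrametricDist.norm_add_le_max x y).trans (max_le hx hy)
  | smul a x _ hx =>
    rw [cn_smul, norm_mul]
    calc ‖(a : W)‖ * ‖x‖ ≤ 1 * t := mul_le_mul (hD.one a a.2) hx (norm_nonneg _) zero_le_one
      _ = t := one_mul t

theorem cp_nak (hR : Nl X R) (hRc : Cp R = R) (hD : Nl X D) (hRD : R ≤ D) {l : ℕ} (v : Fin l → W)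
    (hv : ∀ i, v i ∈ D)
    (h : ∀ z ∈ D, ∃ c : Fin l → W, (∀ i, c i ∈ R) ∧
      z - ∑ i, c i * v i ∈ Submodule.span D {b : W | b ∈ R ∧ ‖b‖ < 1}) :
    ∀ z ∈ D, ∃ c : Fin l → W, (∀ i, c i ∈ R) ∧ z = ∑ i, c i * v i := by
  intro z hz
  obtain ⟨τ, hτ0, hτ1, hτ⟩ := hR.exists_tau
  have hstep := fun n (w : cnS D R n) => cn_step hR v h n w.2
  choose c hc hc' using hstep
  have hz0 : z ∈ cnS D R 0 := by
    have h1 : (1 : W) ∈ mP R 0 := mP_zero_iff.2 (one_mem R)
    have h2 : (⟨z, hz⟩ : D) • (1 : W) ∈ cnS D R 0 :=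
      Submodule.smul_mem _ _ (Submodule.subset_span h1)
    rwa [cn_smul, mul_one] at h2
  let s : (n : ℕ) → cnS D R n := fun n => Nat.rec (motive := fun n => cnS D R n)
    ⟨z, hz0⟩ (fun n w => ⟨_, hc' n w⟩) n
  have hs0 : (s 0 : W) = z := rfl
  have hs1 : ∀ n, (s (n + 1) : W) = s n - ∑ i, c n (s n) i * v i := fun n => rfl
  let C : ℕ → Fin l → W := fun n i => ∑ m ∈ Finset.range n, c m (s m) i
  have hCR : ∀ i n, C n i ∈ R := fun i n => sum_mem fun m _ => mP_mem (hc m (s m) i)
  have hCs : ∀ n, z - ∑ i, C n i * v i = s n := by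
    intro n
    induction n with
    | zero =>
      rw [hs0]
      simp only [C, Finset.range_zero, Finset.sum_empty, zero_mul, Finset.sum_const_zero, sub_zero]
    | succ n ih =>
      rw [hs1, ← ih]
      simp only [C, Finset.sum_range_succ, add_mul, Finset.sum_add_distrib]
      ring
  have hlim : ∀ i, ∃ y ∈ Cp R, Filter.Tendsto (fun n => C n i) Filter.atTop (nhds y) := by
    intro i
    obtain ⟨y, hy, hy1, _⟩ := Cp_exists_lim hR (fun n => C n i) (by
      intro n; rw [hRc]; exact hCR i n) (by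
      intro n
      rw [hRc]
      simp only [C, Finset.sum_range_succ, add_sub_cancel_left]
      exact hc n (s n) i)
    exact ⟨y, hy, hy1⟩
  choose y hy hy1 using hlim
  refine ⟨y, fun i => by rw [← hRc]; exact hy i, ?_⟩
  have t1 : Filter.Tendsto (fun n => z - ∑ i, C n i * v i) Filter.atTop
      (nhds (z - ∑ i, y i * v i)) :=
    tendsto_const_nhds.sub (tendsto_finsetSum _ fun i _ => (hy1 i).mul_const (v i))
  have t2 : Filter.Tendsto (fun n => z - ∑ i, C n i * v i) Filter.atTop (nhds 0) := by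
    apply squeeze_zero_norm (a := fun n => τ ^ n)
    · intro n
      rw [hCs n]
      exact cn_norm hD (pow_nonneg hτ0 n) (fun w hw => hτ n w hw) (s n).2
    · exact tendsto_pow_atTop_nhds_zero_of_lt_one hτ0 hτ1
  exact sub_eq_zero.1 (tendsto_nhds_unique t1 t2)

theorem cp_eq_of_surj (h : Nl X B) (h' : Nl X B') (hle : B ≤ Cp B')
    (hres : ∀ z ∈ Cp B', ∃ b ∈ B, ‖z - b‖ < 1)
    (hmax : ∀ z ∈ Cp B', ‖z‖ < 1 → z ∈ Submodule.span (Cp B') {b : W | b ∈ B ∧ ‖b‖ < 1}) :
    Cp B = Cp B' := by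
  have hle' : Cp B ≤ Cp B' := Cp_mono h h' hle
  refine le_antisymm hle' ?_
  intro z hz
  obtain ⟨c, hc, hz1⟩ := cp_nak (R := Cp B) (D := Cp B') h.cp (Cp_idem h) h'.cp hle'
    (l := 1) (fun _ => 1) (fun _ => one_mem _) (by
      intro z hz
      obtain ⟨b, hb, hzb⟩ := hres z hz
      refine ⟨fun _ => b, fun _ => le_Cp hb, ?_⟩
      have h1 := hmax (z - b) (sub_mem hz (hle hb)) hzb
      have h2 : z - ∑ _i : Fin 1, b * 1 = z - b := by
        rw [Finset.univ_unique, Finset.sum_singleton, mul_one]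
      rw [h2]
      refine Submodule.span_mono ?_ h1
      rintro b ⟨hb1, hb2⟩
      exact ⟨le_Cp hb1, hb2⟩) z hz
  rw [hz1, Finset.univ_unique, Finset.sum_singleton, mul_one]
  exact hc _

omit [IsUltrametricDist W] in
private theorem cn_mon {q : ℕ} (w : Fin q → W) (hw : ∀ j, w j ∈ mP D 1) (α : Fin q → ℕ) :
    monN w α ∈ mP D (∑ i, α i) := by
  have hpow : ∀ j (a : ℕ), w j ^ a ∈ mP D a := by
    intro j a
    induction a with
    | zero => rw [pow_zero]; exact mP_zero_iff.2 (one_mem D)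
    | succ a ih => rw [pow_succ]; exact mP_mul ih (hw j)
  unfold monN
  have : ∀ s : Finset (Fin q), ∏ i ∈ s, w i ^ α i ∈ mP D (∑ i ∈ s, α i) := by
    intro s
    induction s using Finset.induction_on with
    | empty => rw [Finset.prod_empty, Finset.sum_empty]; exact mP_zero_iff.2 (one_mem D)
    | insert a s ha ih =>
      rw [Finset.prod_insert ha, Finset.sum_insert ha]
      exact mP_mul (hpow a _) ih
  exact this Finset.univ

/-- monomials of degree less than `n` -/
private def cnV {q : ℕ} (w : Fin q → W) (n : ℕ) : Set W :=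
  {v | ∃ α : Fin q → ℕ, ∑ i, α i < n ∧ v = monN w α}

omit [IsUltrametricDist W] in
private theorem cnV_finite {q : ℕ} (w : Fin q → W) (n : ℕ) : (cnV w n).Finite := by
  refine ((Fintype.piFinset (fun _ : Fin q => Finset.range n)).finite_toSet.image
    (monN w)).subset ?_
  rintro v ⟨α, hα, rfl⟩
  refine ⟨α, ?_, rfl⟩
  rw [Finset.mem_coe, Fintype.mem_piFinset]
  intro i
  rw [Finset.mem_range]
  exact lt_of_le_of_lt (Finset.single_le_sum (f := α) (fun j _ => Nat.zero_le _)
    (Finset.mem_univ i)) hα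

private theorem cn_app (hD : Nl X D) (hres : ∀ z ∈ D, ∃ b ∈ P, ‖z - b‖ < 1) (hle : P ≤ D)
    {q : ℕ} (w : Fin q → W) (hw : ∀ j, w j ∈ D ∧ ‖w j‖ < 1)
    (hgen : ∀ z ∈ D, ‖z‖ < 1 → z ∈ Submodule.span D (Set.range w)) (n : ℕ) :
    ∀ z ∈ D, ∃ p ∈ Submodule.span P (cnV w n), z - p ∈ mP D n := by
  have hw1 : ∀ j, w j ∈ mP D 1 := fun j => hD.mP_one_iff.2 (hw j)
  induction n with
  | zero =>
    intro z hz
    refine ⟨0, zero_mem _, ?_⟩
    rw [sub_zero]
    exact mP_zero_iff.2 hz
  | succ n ih =>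
    intro z hz
    obtain ⟨p, hp, hzp⟩ := ih z hz
    have key : ∀ y ∈ Submodule.span D {v : W | ∃ α : Fin q → ℕ, ∑ i, α i = n ∧ v = monN w α},
        ∀ d ∈ D, ∃ p' ∈ Submodule.span P (cnV w (n + 1)), d * y - p' ∈ mP D (n + 1) := by
      intro y hy
      induction hy using Submodule.span_induction with
      | mem x hx =>
        intro d hd
        obtain ⟨α, hα, rfl⟩ := hx
        obtain ⟨b, hb, hdb⟩ := hres d hd
        refine ⟨(⟨b, hb⟩ : P) • monN w α, Submodule.smul_mem _ _ (Submodule.subset_span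
          ⟨α, by omega, rfl⟩), ?_⟩
        have e : d * monN w α - (⟨b, hb⟩ : P) • monN w α = (d - b) * monN w α := by
          rw [cn_smul]; ring
        rw [e, add_comm n 1]
        refine mP_mul (hD.mP_one_iff.2 ⟨sub_mem hd (hle hb), hdb⟩) ?_
        have h3 := cn_mon (D := D) w hw1 α
        rwa [hα] at h3
      | zero =>
        intro d _
        refine ⟨0, zero_mem _, ?_⟩
        rw [mul_zero, sub_zero]
        exact mP_zero_mem _
      | add x y _ _ hx hy =>
        intro d hd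
        obtain ⟨p1, hp1, h1⟩ := hx d hd
        obtain ⟨p2, hp2, h2⟩ := hy d hd
        refine ⟨p1 + p2, add_mem hp1 hp2, ?_⟩
        have e : d * (x + y) - (p1 + p2) = (d * x - p1) + (d * y - p2) := by ring
        rw [e]
        exact mP_add h1 h2
      | smul a x _ hx =>
        intro d hd
        obtain ⟨p1, hp1, h1⟩ := hx (d * a) (mul_mem hd a.2)
        refine ⟨p1, hp1, ?_⟩
        rw [cn_smul, ← mul_assoc]
        exact h1
    obtain ⟨p', hp', h1⟩ := key (z - p) (hD.mP_gen w hw hgen hzp) 1 (one_mem D)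
    refine ⟨p + p', add_mem (Submodule.span_mono ?_ hp) hp', ?_⟩
    · rintro v ⟨α, hα, rfl⟩
      exact ⟨α, by omega, rfl⟩
    · rw [one_mul] at h1
      rw [← sub_sub]
      exact h1

theorem cp_fin (hP : Nl X P) (hD : Nl X D) (hDc : Cp D = D) (hle : P ≤ D)
    (hres : ∀ z ∈ D, ∃ b ∈ P, ‖z - b‖ < 1) (N : ℕ)
    (hN : ∀ z ∈ mP D N, z ∈ Submodule.span D {b : W | b ∈ P ∧ ‖b‖ < 1}) :
    ∃ (l : ℕ) (v : Fin l → W), (∀ i, v i ∈ D) ∧
      ∀ z ∈ D, ∃ c : Fin l → W, (∀ i, c i ∈ Cp P) ∧ z = ∑ i, c i * v i := by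
  have hPD : Cp P ≤ D := by
    have h1 : Cp P ≤ Cp D := Cp_mono hP hD (by rw [hDc]; exact hle)
    rwa [hDc] at h1
  obtain ⟨q, w, hw, hgen⟩ := hD.exists_gens
  have hw1 : ∀ j, w j ∈ mP D 1 := fun j => hD.mP_one_iff.2 (hw j)
  obtain ⟨l, v, _, hv⟩ := (cnV_finite w N).fin_param
  have hvD : ∀ i, v i ∈ D := by
    intro i
    have h1 : v i ∈ cnV w N := hv ▸ Set.mem_range_self i
    obtain ⟨α, _, h2⟩ := h1
    rw [h2]
    exact mP_mem (cn_mon (D := D) w hw1 α)
  refine ⟨l, v, hvD, cp_nak (R := Cp P) hP.cp (Cp_idem hP) hD hPD v hvD ?_⟩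
  intro z hz
  obtain ⟨p, hp, hzp⟩ := cn_app hD hres hle w hw hgen N z hz
  rw [← hv, Submodule.mem_span_range_iff_exists_fun] at hp
  obtain ⟨c, hc⟩ := hp
  refine ⟨fun i => (c i : W), fun i => le_Cp (c i).2, ?_⟩
  have h1 : ∑ i, (c i : W) * v i = p := by
    rw [← hc]
    rfl
  rw [h1]
  refine Submodule.span_mono ?_ (hN _ hzp)
  rintro b ⟨hb1, hb2⟩
  exact ⟨le_Cp hb1, hb2⟩

omit [IsUltrametricDist W] in
private theorem cn_noeth {k : Type} [Field k] [Algebra k W] (C0 : IntermediateField k W) {q : ℕ}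
    (w : Fin q → W) :
    IsNoetherianRing (Subring.closure ((C0 : Set W) ∪ Set.range w)) := by
  classical
  have h0 : IsNoetherianRing C0.toSubring := by
    have h1 : IsNoetherianRing C0 := inferInstance
    exact h1
  have h2 := isNoetherianRing_closure (A := C0.toSubring) (Finset.univ.image w)
  rw [Finset.coe_image, Finset.coe_univ, Set.image_univ] at h2
  exact h2

/-- a complete local ring with a field of representatives -/
theorem cp_field {k : Type} [Field k] [Algebra k W] (hD : Nl X D) (hDc : Cp D = D)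
    (C0 : IntermediateField k W) (hC0D : ∀ e ∈ C0, e ∈ D) {q : ℕ} (w : Fin q → W)
    (hw : ∀ j, w j ∈ D ∧ ‖w j‖ < 1) (hres : ∀ z ∈ D, ∃ e ∈ C0, ‖z - e‖ < 1)
    (hgen : ∀ z ∈ D, ‖z‖ < 1 → z ∈ Submodule.span D (Set.range w)) :
    Nl X (locV (ball W) (Subring.closure ((C0 : Set W) ∪ Set.range w))) ∧
      Cp (locV (ball W) (Subring.closure ((C0 : Set W) ∪ Set.range w))) = D := by
  obtain ⟨E, hE⟩ : ∃ E : Subring W, E = Subring.closure ((C0 : Set W) ∪ Set.range w) := ⟨_, rfl⟩
  have hEn : IsNoetherianRing E := by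
    rw [hE]; exact cn_noeth C0 w
  rw [← hE]
  have hED : E ≤ D := by
    rw [hE, Subring.closure_le]
    rintro z (hz | ⟨j, rfl⟩)
    · exact hC0D z hz
    · exact (hw j).1
  have hLD : locV (ball W) E ≤ D := by
    have h1 := locV_mono (ball W) hED
    rwa [hD.locV_eq] at h1
  have hEb : E ≤ (ball W).toSubring := hED.trans hD.le_ball
  have hNl : Nl X (locV (ball W) E) :=
    { comp := hD.comp
      nt := hD.nt
      le := fun z hz => hD.le z (hLD hz)
      one := fun z hz => hD.one z (hLD hz)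
      inv := fun z hz h1 => E5_inv (locV_locV (ball W) E) hz ((ball_val_eq_one z).2 h1)
      noeth := isNoetherianRing_locV (ball W) }
  refine ⟨hNl, ?_⟩
  have hEL : E ≤ locV (ball W) E := le_locV (ball W) E
  have hC0E : ∀ e ∈ C0, e ∈ E := by
    intro e he
    rw [hE]
    exact Subring.subset_closure (Or.inl he)
  have hwE : ∀ j, w j ∈ E := by
    intro j
    rw [hE]
    exact Subring.subset_closure (Or.inr ⟨j, rfl⟩)
  have hfin := cp_eq_of_surj (B := locV (ball W) E) (B' := D) hNl hD (by rw [hDc]; exact hLD)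
    (by
      rw [hDc]
      intro z hz
      obtain ⟨e, he, h1⟩ := hres z hz
      exact ⟨e, hEL (hC0E e he), h1⟩)
    (by
      rw [hDc]
      intro z hz h1
      refine Submodule.span_mono ?_ (hgen z hz h1)
      rintro x ⟨j, rfl⟩
      exact ⟨hEL (hwE j), (hw j).2⟩)
  rw [hfin, hDc]

end Pool.Agent.Lib.TQ
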