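import Pool.Agent.Lib.TQ.ADb
import Pool.Agent.Lib.TQ.CpC

/-!
# Module AppC2: a local blowing up of `A` with the same completion as a model
PROOF. `hxA`: choose `X i ∈ AfC` with `c.x i = X i + mon c.x N * h`, `‖mon c.x N‖ < ‖c.x i‖` for all `i` (`mem_AD_iff`), so
`X i = c.x i * u i`, `u i = 1 - q ∈ HC`, `‖u i‖ = 1`, and `MoC (X i)`.  `Y ∈ AfC` with `c.y = Y + q`, `q = mon c.x a * h`,
`‖mon c.x a‖ < 1`.  Generators `e_1 .. e_l` of the field `c.C` over `k` (`cst.fg`), with norm one; `a_i ∈ AD ∩ HO`,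
`‖e_i - a_i‖ < 1`, `a_i = E i + q_i`, `E i ∈ AfC`, `q_i ∈ QC`, so `E i ∈ HC`, `‖e_i - E i‖ < 1`.
`exists_modelC`: a model `(x', G)` of `c` with `x0 i, G0` in `Bu c x' G` (so `Bu c x0 G0 ≤ Bu c x' G`, `A ≤ Cp (Bu c x' G)`),
`u i, (u i)⁻¹, h, E i, Y ∈ Cp (Bu c x' G)`, and `mon c.x a = monN x' β` with `1 ≤ β i`.  By `Mdl.mt`: `x' i = mon c.x (B i)`;
put `X' i := mon X (B i) = x' i * mon u (B i)`, a unit times `x' i` in `Cp (Bu c x' G)`; `X' i ∈ AfC` (`AfC_inv`).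
`g := {X' i} ∪ {Y} ∪ {E i}`; `A' := locV (closure (A ∪ g)) ≤ Cp (Bu c x' G)`, `Nl.adjoin`.  `cp_eq_of_surj`:
`hres`: every element of `Cp (Bu c x' G)` is congruent to an element of `Bu c x' G`, so (`Mdl.dec_all`) to an element of `c.C`;
the set of the elements of norm at most one of `W` which are congruent to an element of `A'` is a ring containing `k` (`hk`),
the `e_i`, closed under inverses of elements of norm one, so it contains `c.C`.
`hmax`: `Cp_max`, `Mdl.gen`: the maximal ideal of `Cp (Bu c x' G)` is generated by the `x' i` and `c.y`; `x' i` is a unit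
times `X' i`, `c.y = Y + monN x' β * h`.
-/

namespace Pool.Agent.Lib.TQ

open Pool.Agent.Lib.MP_3029eb_ag Pool.Agent.Lib.MP_3029eb_ag.Abh Pool.Agent.Lib.TDO
  Pool.Agent.Lib.TU

section
variable {k W : Type} [Field k] [NormedField W] [IsUltrametricDist W] [Algebra k W] {r m : ℕ}

omit [IsUltrametricDist W] in
/-- elements of a trivially normed field generated by elements of a subring closed under inverses
of elements of norm one -/
private theorem ac2_field_mem (C : IntermediateField k W) (hC : ∀ e ∈ C, e ≠ 0 → ‖e‖ = 1)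
    (B : Subring W) (hinv : ∀ z ∈ B, ‖z‖ = 1 → z⁻¹ ∈ B)
    (hk : ∀ c : k, algebraMap k W c ∈ B)
    (gs : Set W) (hgs : IntermediateField.adjoin k gs = C) (hB : ∀ g ∈ gs, g ∈ B) {z : W}
    (hz : z ∈ C) : z ∈ B := by
  subst hgs
  refine IntermediateField.adjoin_induction k (p := fun z _ => z ∈ B) (fun x hx => hB x hx)
    hk (fun x y _ _ h1 h2 => B.add_mem h1 h2) (fun x hx h1 => ?_)
    (fun x y _ _ h1 h2 => B.mul_mem h1 h2) hz
  by_cases h0 : x = 0
  · rw [h0, inv_zero]; exact B.zero_mem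
  · exact hinv x h1 (hC x hx h0)

private theorem ac2_norm_one {z b : W} (hz : ‖z‖ = 1) (h : ‖z - b‖ < 1) : ‖b‖ = 1 := by
  have h1 : b = z + (b - z) := by ring
  have h2 : ‖b - z‖ < 1 := by rwa [norm_sub_rev]
  rw [h1, IsUltrametricDist.norm_add_eq_max_of_norm_ne_norm (by rw [hz]; exact h2.ne'), hz]
  exact max_eq_left h2.le

/-- the elements of the unit ball which are congruent to an element of `B` -/
private def ac2R (B : Subring W) (hB : ∀ b ∈ B, ‖b‖ ≤ 1) : Subring W where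
  carrier := {z | ‖z‖ ≤ 1 ∧ ∃ b ∈ B, ‖z - b‖ < 1}
  mul_mem' := by
    rintro z z' ⟨hz, b, hb, h⟩ ⟨hz', b', hb', h'⟩
    refine ⟨?_, b * b', mul_mem hb hb', ?_⟩
    · rw [norm_mul]
      exact mul_le_one₀ hz (norm_nonneg _) hz'
    · have e : z * z' - b * b' = z * (z' - b') + (z - b) * b' := by ring
      rw [e]
      refine (IsUltrametricDist.norm_add_le_max _ _).trans_lt (max_lt ?_ ?_)
      · rw [norm_mul]
        exact lt_of_le_of_lt (mul_le_of_le_one_left (norm_nonneg _) hz) h'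
      · rw [norm_mul]
        exact lt_of_le_of_lt (mul_le_of_le_one_right (norm_nonneg _) (hB b' hb')) h
  one_mem' := ⟨norm_one.le, 1, one_mem _, by rw [sub_self, norm_zero]; exact one_pos⟩
  add_mem' := by
    rintro z z' ⟨hz, b, hb, h⟩ ⟨hz', b', hb', h'⟩
    refine ⟨(IsUltrametricDist.norm_add_le_max _ _).trans (max_le hz hz'), b + b',
      add_mem hb hb', ?_⟩
    have e : z + z' - (b + b') = (z - b) + (z' - b') := by ring
    rw [e]
    exact (IsUltrametricDist.norm_add_le_max _ _).trans_lt (max_lt h h')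
  zero_mem' := ⟨by rw [norm_zero]; exact zero_le_one, 0, zero_mem _,
    by rw [sub_self, norm_zero]; exact one_pos⟩
  neg_mem' := by
    rintro z ⟨hz, b, hb, h⟩
    refine ⟨by rwa [norm_neg], -b, neg_mem hb, ?_⟩
    have e : -z - -b = -(z - b) := by ring
    rw [e, norm_neg]
    exact h

private theorem ac2R_inv (B : Subring W) (hB : ∀ b ∈ B, ‖b‖ ≤ 1)
    (hinv : ∀ z ∈ B, ‖z‖ = 1 → z⁻¹ ∈ B) {z : W} (hz : z ∈ ac2R B hB) (h1 : ‖z‖ = 1) :
    z⁻¹ ∈ ac2R B hB := by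
  obtain ⟨-, b, hb, h⟩ := hz
  have hb1 := ac2_norm_one h1 h
  have hz0 : z ≠ 0 := norm_pos_iff.1 (by rw [h1]; exact one_pos)
  have hb0 : b ≠ 0 := norm_pos_iff.1 (by rw [hb1]; exact one_pos)
  refine ⟨by rw [norm_inv, h1, inv_one], b⁻¹, hinv b hb hb1, ?_⟩
  have e : z⁻¹ - b⁻¹ = (b - z) * (z⁻¹ * b⁻¹) := by
    field_simp
  rw [e, norm_mul, norm_mul, norm_inv, norm_inv, h1, hb1, inv_one, mul_one, mul_one,
    norm_sub_rev]
  exact h

omit [IsUltrametricDist W] in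
/-- monomials in units of a ring -/
private theorem ac2_mon (D : Subring W) {u : Fin r → W} (hu : ∀ i, u i ∈ D)
    (hu' : ∀ i, (u i)⁻¹ ∈ D) (a : Fin r → ℤ) : mon u a ∈ D := by
  unfold mon
  refine prod_mem fun i _ => ?_
  cases h : a i with
  | ofNat n => rw [Int.ofNat_eq_natCast, zpow_natCast]; exact pow_mem (hu i) n
  | negSucc n =>
    rw [zpow_negSucc, ← inv_pow]
    exact pow_mem (hu' i) _

omit [IsUltrametricDist W] [Algebra k W] in
private theorem ac2_mon_mul {W : Type} [Field W] (x u : Fin r → W) (a : Fin r → ℤ) :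
    mon (fun i => x i * u i) a = mon x a * mon u a := by
  unfold mon
  rw [← Finset.prod_mul_distrib]
  exact Finset.prod_congr rfl fun i _ => mul_zpow _ _ _

omit [IsUltrametricDist W] in
private theorem ac2_mon_norm {u : Fin r → W} (hu : ∀ i, ‖u i‖ = 1) (a : Fin r → ℤ) :
    ‖mon u a‖ = 1 := by
  unfold mon
  rw [norm_prod]
  exact Finset.prod_eq_one fun i _ => by rw [norm_zpow, hu i, one_zpow]

end

theorem app_syn {k W : Type} [Field k] [NormedField W] [IsUltrametricDist W]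
    [Algebra k W] {r m : ℕ} (hr : 0 < r) (S L : IntermediateField k W)
    (hL : IsComplete (L : Set W)) {c : Tri k W r} (hc : Ch m S L c) (A : Subring W)
    (hAN : Nl L.toSubfield A) {x0 : Fin r → W} {G0 : Finset W} (hM : Mdl (S ⊓ L) c x0 G0)
    (hAB : A ≤ Cp (Bu c x0 G0)) (hk : ∀ b : k, ∃ a ∈ A, ‖algebraMap k W b - a‖ < 1)
    (hxA : ∀ i, c.x i ∈ AD (S ⊓ L) c A) (hyA : c.y ∈ AD (S ⊓ L) c A)
    (hCA : ∀ e ∈ c.C, ∃ a ∈ AD (S ⊓ L) c A, a ∈ HO (S ⊓ L) c ∧ ‖e - a‖ < 1) :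
    ∃ (x' : Fin r → W) (G g : Finset W), (∀ u ∈ g, ‖u‖ ≤ 1 ∧
        ∃ n ∈ A, ∃ d ∈ A, MoC (S ⊓ L) c d ∧ u * d = n) ∧
      Syn (S ⊓ L) c (locV (ball W) (Subring.closure ((A : Set W) ∪ (g : Set W)))) x' G := by
  classical
  have hML : S ⊓ L ≤ L := inf_le_right
  have hok := hc.ok
  have hx := hok.par.ind.ne
  have hBN0 := Bu_Nl hr hL hML hok hM
  have hA : ∀ a ∈ A, a ∈ HC (S ⊓ L) c := fun a ha =>
    (mem_HC_iff hr hL hML hok a).2 ⟨x0, G0, hM, hAB ha⟩
  have hiff := fun z => mem_AD_iff (c := c) hr hL hML hok hA z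
  -- the elements `X i`
  have hX : ∀ i, ∃ X ∈ AfC (S ⊓ L) c A, ∃ u ∈ HC (S ⊓ L) c, ‖u‖ = 1 ∧ X = c.x i * u := by
    intro i
    have hpos : 0 < ‖c.x i‖ := norm_pos_iff.2 (hx i)
    obtain ⟨N, -, hN⟩ := exists_mon_lt hr hok.par.ind _ hpos
    obtain ⟨a, ha, g, hg, e⟩ := ((hiff (c.x i)).1 (hxA i)).2 N
    have hq : mon c.x (N - Pi.single i 1) * g ∈ QC (S ⊓ L) c := by
      refine ⟨N - Pi.single i 1, ?_, g, hg, rfl⟩
      rw [sub_eq_add_neg, TDO.mon_add c.x hx, TDO.mon_neg, mon_single, norm_mul, norm_inv,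
        ← div_eq_mul_inv, div_lt_one hpos]
      exact hN
    have hqn := QC_norm hr hL hML hok hq
    refine ⟨a, ha, 1 - mon c.x (N - Pi.single i 1) * g,
      sub_mem (one_mem _) (QC_mem_HC hr hL hML hok hq), ?_, ?_⟩
    · rw [sub_eq_add_neg, IsUltrametricDist.norm_add_eq_max_of_norm_ne_norm, norm_one, norm_neg,
        max_eq_left hqn.le]
      rw [norm_one, norm_neg]
      exact hqn.ne'
    · have e1 : mon c.x N = c.x i * mon c.x (N - Pi.single i 1) := by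
        conv_rhs => rw [← mon_single c.x i]
        rw [← TDO.mon_add c.x hx, add_sub_cancel]
      have e2 : a = c.x i - mon c.x N * g := by rw [e]; ring
      rw [e2, e1]; ring
  choose X hXA u huC hu1 hXu using hX
  have hu0 : ∀ i, u i ≠ 0 := fun i => norm_pos_iff.1 (by rw [hu1 i]; exact one_pos)
  have hXM : ∀ i, MoC (S ⊓ L) c (X i) := fun i =>
    ⟨Pi.single i 1, u i, huC i, hu1 i, by rw [mon_single]; exact hXu i⟩
  have hXiA : ∀ i, (X i)⁻¹ ∈ AfC (S ⊓ L) c A := fun i => AfC_inv hok (hXA i) (hXM i)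
  -- the element `Y`
  obtain ⟨a, -, ha⟩ := exists_mon_lt hr hok.par.ind 1 one_pos
  obtain ⟨Y, hYA, hY, hYC, hYe⟩ := ((hiff c.y).1 hyA).2 a
  -- the elements `E`
  obtain ⟨gs, hgs⟩ := hok.cst.fg
  have hgsC : ∀ g ∈ gs, g ∈ c.C := fun g hg => hgs ▸ IntermediateField.subset_adjoin k _ hg
  have hE : ∀ g : W, ∃ E : W, g ∈ c.C → (E ∈ AfC (S ⊓ L) c A ∧ E ∈ HC (S ⊓ L) c ∧
      ‖g - E‖ < 1) := by
    intro g
    by_cases hg : g ∈ c.C
    · obtain ⟨b, hb, hbO, hgb⟩ := hCA g hg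
      obtain ⟨E, hEA, h', hh', e⟩ := ((hiff b).1 hb).2 a
      have hq : mon c.x a * h' ∈ QC (S ⊓ L) c := ⟨a, ha, h', hh', rfl⟩
      refine ⟨E, fun _ => ⟨hEA, ?_, ?_⟩⟩
      · have e1 : E = b - mon c.x a * h' := by rw [e]; ring
        rw [e1]
        exact sub_mem (HO_le_HC hr hL hML hok hbO) (QC_mem_HC hr hL hML hok hq)
      · have e1 : g - E = (g - b) + mon c.x a * h' := by rw [e]; ring
        rw [e1]
        exact (IsUltrametricDist.norm_add_le_max _ _).trans_lt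
          (max_lt hgb (QC_norm hr hL hML hok hq))
    · exact ⟨0, fun h => absurd h hg⟩
  choose E hE using hE
  have hYHC : Y ∈ HC (S ⊓ L) c := by
    have e1 : Y = c.y - mon c.x a * hY := by rw [hYe]; ring
    rw [e1]
    exact sub_mem (HO_le_HC hr hL hML hok (y_mem_HO hok))
      (QC_mem_HC hr hL hML hok ⟨a, ha, hY, hYC, rfl⟩)
  -- the model
  have hG0n : ∀ g ∈ G0, ‖g‖ ≤ 1 := fun g hg => (hM.gM g hg).2
  have hB0 : ∀ z ∈ Bu c x0 G0, z ∈ HO (S ⊓ L) c := fun z hz =>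
    (mem_HO_iff hok z).2 ⟨x0, G0, hM, hz⟩
  obtain ⟨x', G, hM', hZO, hZ, hmon⟩ := exists_modelC hr hL hML hok
    (Finset.univ.image x0 ∪ G0) (by
      intro z hz
      rcases Finset.mem_union.1 hz with hz | hz
      · obtain ⟨i, -, rfl⟩ := Finset.mem_image.1 hz
        exact hB0 _ (x_mem_Bu hok hM.mt.ind hG0n i)
      · exact hB0 _ (G_mem_Bu hok hM.mt.ind hG0n hz))
    (Finset.univ.image u ∪ Finset.univ.image (fun i => (u i)⁻¹) ∪ {Y} ∪ {hY} ∪ gs.image E) (by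
      intro z hz
      simp only [Finset.mem_union, Finset.mem_image, Finset.mem_univ, true_and,
        Finset.mem_singleton] at hz
      rcases hz with (((⟨i, rfl⟩ | ⟨i, rfl⟩) | rfl) | rfl) | ⟨g, hg, rfl⟩
      · exact huC i
      · exact inv_mem_HC hr hL hML hok (huC i) (hu1 i)
      · exact hYHC
      · exact hYC
      · exact (hE g (hgsC g hg)).2.1)
    {a} (fun b hb => by rw [Finset.mem_singleton.1 hb]; exact ha.le)
  obtain ⟨β, hβ, hβ1⟩ := hmon a (Finset.mem_singleton_self a)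
  have hβ1 := hβ1 ha
  have hBN := Bu_Nl hr hL hML hok hM'
  have hCN := hBN.cp
  have hGn : ∀ g ∈ G, ‖g‖ ≤ 1 := fun g hg => (hM'.gM g hg).2
  have hBle : Bu c x0 G0 ≤ Bu c x' G := by
    intro z hz
    refine Bu_le (Bu c x' G) (fun w hw => C_mem_Bu hok hM'.mt.ind hGn hw) (fun i => ?_)
      (y_mem_Bu hok hM'.mt.ind hGn) (fun g hg => ?_) (fun z hz h1 => inv_mem_Bu hz h1) hz
    · exact hZO _ (Finset.mem_union_left _ (Finset.mem_image_of_mem _ (Finset.mem_univ i)))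
    · exact hZO _ (Finset.mem_union_right _ hg)
  have hABC : A ≤ Cp (Bu c x' G) := hAB.trans (Cp_mono hBN0 hBN (hBle.trans le_Cp))
  have huB : ∀ i, u i ∈ Cp (Bu c x' G) := fun i => hZ _ (by
    simp only [Finset.mem_union, Finset.mem_image, Finset.mem_univ, true_and,
      Finset.mem_singleton]
    exact Or.inl (Or.inl (Or.inl (Or.inl ⟨i, rfl⟩))))
  have huB' : ∀ i, (u i)⁻¹ ∈ Cp (Bu c x' G) := fun i => hCN.inv _ (huB i) (hu1 i)
  have hYB : Y ∈ Cp (Bu c x' G) := hZ _ (by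
    simp only [Finset.mem_union, Finset.mem_singleton]
    exact Or.inl (Or.inl (Or.inr trivial)))
  have hhYB : hY ∈ Cp (Bu c x' G) := hZ _ (by
    simp only [Finset.mem_union, Finset.mem_singleton]
    exact Or.inl (Or.inr trivial))
  have hEB : ∀ g ∈ gs, E g ∈ Cp (Bu c x' G) := fun g hg => hZ _ (by
    simp only [Finset.mem_union]
    exact Or.inr (Finset.mem_image_of_mem _ hg))
  obtain ⟨MA, MB, -, hMB, -⟩ := hM'.mt.mat
  -- the new parameters
  obtain ⟨X', hX'⟩ : ∃ X' : Fin r → W, X' = fun i => mon X (MB i) := ⟨_, rfl⟩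
  have hX'e : ∀ i, X' i = x' i * mon u (MB i) := by
    intro i
    have e1 : X = fun i => c.x i * u i := funext hXu
    rw [hX', hMB i]
    change mon X (MB i) = _
    rw [e1, ac2_mon_mul]
  have hx'B : ∀ i, x' i ∈ Cp (Bu c x' G) := fun i => le_Cp (x_mem_Bu hok hM'.mt.ind hGn i)
  have hX'B : ∀ i, X' i ∈ Cp (Bu c x' G) := by
    intro i
    rw [hX'e]
    exact mul_mem (hx'B i) (ac2_mon _ huB huB' _)
  have hX'A : ∀ i, X' i ∈ AfC (S ⊓ L) c A := by
    intro i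
    rw [hX']
    exact ac2_mon _ hXA hXiA _
  have hX'n : ∀ i, ‖X' i‖ < 1 := by
    intro i
    rw [hX'e, norm_mul, ac2_mon_norm hu1, mul_one]
    exact hM'.mt.ind.lt i
  have hYn : ‖Y‖ < 1 := by
    have e1 : Y = c.y + -(mon c.x a * hY) := by rw [hYe]; ring
    rw [e1]
    refine (IsUltrametricDist.norm_add_le_max _ _).trans_lt (max_lt hok.par.y1 ?_)
    rw [norm_neg]
    exact QC_norm hr hL hML hok ⟨a, ha, hY, hYC, rfl⟩
  -- the new ring
  obtain ⟨g, hg⟩ : ∃ g : Finset W, g = Finset.univ.image X' ∪ {Y} ∪ gs.image E := ⟨_, rfl⟩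
  have hgall : ∀ z ∈ g, z ∈ AfC (S ⊓ L) c A ∧ z ∈ Cp (Bu c x' G) := by
    intro z hz
    rw [hg] at hz
    simp only [Finset.mem_union, Finset.mem_image, Finset.mem_univ, true_and,
      Finset.mem_singleton] at hz
    rcases hz with (⟨i, rfl⟩ | rfl) | ⟨e, he, rfl⟩
    · exact ⟨hX'A i, hX'B i⟩
    · exact ⟨hYA, hYB⟩
    · exact ⟨(hE e (hgsC e he)).1, hEB e he⟩
  have hgn : ∀ z ∈ g, ‖z‖ ≤ 1 := fun z hz => hCN.one z (hgall z hz).2
  have hNA' : Nl L.toSubfield (locV (ball W) (Subring.closure ((A : Set W) ∪ (g : Set W)))) :=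
    hAN.adjoin g fun z hz => ⟨hCN.le z (hgall z hz).2, hgn z hz⟩
  have hsub : ∀ z ∈ Subring.closure ((A : Set W) ∪ (g : Set W)),
      z ∈ locV (ball W) (Subring.closure ((A : Set W) ∪ (g : Set W))) := fun z hz =>
    ⟨z, hz, 1, one_mem _, map_one _, mul_one z⟩
  have hAA' : ∀ z ∈ A, z ∈ locV (ball W) (Subring.closure ((A : Set W) ∪ (g : Set W))) :=
    fun z hz => hsub z (Subring.subset_closure (Or.inl hz))
  have hgA' : ∀ z ∈ g, z ∈ locV (ball W) (Subring.closure ((A : Set W) ∪ (g : Set W))) :=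
    fun z hz => hsub z (Subring.subset_closure (Or.inr hz))
  obtain ⟨A', hA'⟩ : ∃ A' : Subring W,
      A' = locV (ball W) (Subring.closure ((A : Set W) ∪ (g : Set W))) := ⟨_, rfl⟩
  rw [← hA'] at hNA' hAA' hgA'
  have hA'le : A' ≤ Cp (Bu c x' G) := by
    have hcl : Subring.closure ((A : Set W) ∪ (g : Set W)) ≤ Cp (Bu c x' G) := by
      rw [Subring.closure_le]
      rintro z (hz | hz)
      · exact hABC hz
      · exact (hgall z hz).2
    intro z hz
    rw [hA'] at hz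
    obtain ⟨n, hn, d, hd, hd1, e⟩ := hz
    have h1 : ‖d‖ = 1 := (ball_val_eq_one d).1 hd1
    have hd0 : d ≠ 0 := norm_pos_iff.1 (by rw [h1]; exact one_pos)
    have h2 : z = n * d⁻¹ := by rw [← e, mul_assoc, mul_inv_cancel₀ hd0, mul_one]
    rw [h2]
    exact mul_mem (hcl hn) (hCN.inv d (hcl hd) h1)
  have hX'A' : ∀ i, X' i ∈ A' := fun i => hgA' _ (by
    rw [hg]
    simp only [Finset.mem_union]
    exact Or.inl (Or.inl (Finset.mem_image_of_mem _ (Finset.mem_univ i))))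
  have hYA' : Y ∈ A' := hgA' _ (by
    rw [hg]
    simp only [Finset.mem_union]
    exact Or.inl (Or.inr (Finset.mem_singleton_self _)))
  have hEA' : ∀ e ∈ gs, E e ∈ A' := fun e he => hgA' _ (by
    rw [hg]
    simp only [Finset.mem_union]
    exact Or.inr (Finset.mem_image_of_mem _ he))
  -- residues
  have hCR : ∀ e ∈ c.C, e ∈ ac2R A' hNA'.one := by
    intro e he
    refine ac2_field_mem c.C hok.cst.unit _ (fun z hz h1 => ac2R_inv A' hNA'.one hNA'.inv hz h1)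
      (fun b => ?_) (gs : Set W) hgs (fun e' he' => ?_) he
    · obtain ⟨b', hb', h1⟩ := hk b
      refine ⟨?_, b', hAA' b' hb', h1⟩
      by_cases h0 : algebraMap k W b = 0
      · rw [h0, norm_zero]; exact zero_le_one
      · exact (hok.cst.unit _ (c.C.algebraMap_mem b) h0).le
    · refine ⟨?_, E e', hEA' e' he', (hE e' (hgsC e' he')).2.2⟩
      by_cases h0 : e' = 0
      · rw [h0, norm_zero]; exact zero_le_one
      · exact (hok.cst.unit _ (hgsC e' he') h0).le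
  have hgenn : ∀ (b : Fin r → W) (b0 : W), (∀ i, b i ∈ Bu c x' G) → b0 ∈ Bu c x' G →
      ‖∑ i, b i * x' i + b0 * c.y‖ < 1 := by
    intro b b0 hb hb0
    refine (IsUltrametricDist.norm_add_le_max _ _).trans_lt (max_lt ?_ ?_)
    · refine Finset.sum_induction _ (fun z : W => ‖z‖ < 1)
        (fun x y hx hy => (IsUltrametricDist.norm_add_le_max _ _).trans_lt (max_lt hx hy))
        (by rw [norm_zero]; exact one_pos) (fun i _ => ?_)
      rw [norm_mul]
      exact lt_of_le_of_lt (mul_le_of_le_one_left (norm_nonneg _) (hBN.one _ (hb i)))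
        (hM'.mt.ind.lt i)
    · rw [norm_mul]
      exact lt_of_le_of_lt (mul_le_of_le_one_left (norm_nonneg _) (hBN.one _ hb0)) hok.par.y1
  have hres : ∀ z ∈ Cp (Bu c x' G), ∃ b ∈ A', ‖z - b‖ < 1 := by
    intro z hz
    obtain ⟨b1, hb1, h1⟩ := Cp_dens hBN hz 1
    have h1' : ‖z - b1‖ < 1 := (hCN.mP_one_iff.1 h1).2
    obtain ⟨e, he, b, b0, hb, hb0, h2⟩ := hM'.dec_all hok hb1
    obtain ⟨-, a', ha', h3⟩ := hCR e he
    refine ⟨a', ha', ?_⟩
    have h4 : z - a' = (z - b1) + ((∑ i, b i * x' i + b0 * c.y) + (e - a')) := by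
      rw [h2]; ring
    rw [h4]
    exact (IsUltrametricDist.norm_add_le_max _ _).trans_lt (max_lt h1'
      ((IsUltrametricDist.norm_add_le_max _ _).trans_lt (max_lt (hgenn b b0 hb hb0) h3)))
  -- the maximal ideal
  have hsm : ∀ (d : W) (_ : d ∈ Cp (Bu c x' G)) (z : W)
      (_ : z ∈ Submodule.span (Cp (Bu c x' G)) {b : W | b ∈ A' ∧ ‖b‖ < 1}),
      d * z ∈ Submodule.span (Cp (Bu c x' G)) {b : W | b ∈ A' ∧ ‖b‖ < 1} := by
    intro d hd z hz
    have h1 := Submodule.smul_mem _ (⟨d, hd⟩ : Cp (Bu c x' G)) hz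
    exact h1
  have hx'S : ∀ i, x' i ∈ Submodule.span (Cp (Bu c x' G)) {b : W | b ∈ A' ∧ ‖b‖ < 1} := by
    intro i
    have h1 : x' i = (mon u (MB i))⁻¹ * X' i := by
      have h0 : mon u (MB i) ≠ 0 := norm_pos_iff.1 (by rw [ac2_mon_norm hu1]; exact one_pos)
      rw [hX'e]
      field_simp
    rw [h1]
    refine hsm _ ?_ _ (Submodule.subset_span ⟨hX'A' i, hX'n i⟩)
    exact hCN.inv _ (ac2_mon _ huB huB' _) (ac2_mon_norm hu1 _)
  have hyS : c.y ∈ Submodule.span (Cp (Bu c x' G)) {b : W | b ∈ A' ∧ ‖b‖ < 1} := by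
    have h1 : monN x' β = (x' ⟨0, hr⟩ ^ (β ⟨0, hr⟩ - 1) *
        ∏ i ∈ Finset.univ.erase (⟨0, hr⟩ : Fin r), x' i ^ β i) * x' ⟨0, hr⟩ := by
      unfold monN
      rw [← Finset.mul_prod_erase Finset.univ _ (Finset.mem_univ (⟨0, hr⟩ : Fin r))]
      have h2 : x' ⟨0, hr⟩ ^ β ⟨0, hr⟩ = x' ⟨0, hr⟩ ^ (β ⟨0, hr⟩ - 1) * x' ⟨0, hr⟩ := by
        rw [← pow_succ, Nat.sub_add_cancel (hβ1 _)]
      rw [h2]; ring
    have h3 : mon c.x a * hY = (hY * (x' ⟨0, hr⟩ ^ (β ⟨0, hr⟩ - 1) *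
        ∏ i ∈ Finset.univ.erase (⟨0, hr⟩ : Fin r), x' i ^ β i)) * x' ⟨0, hr⟩ := by
      rw [hβ, h1]; ring
    rw [hYe, h3]
    refine add_mem (Submodule.subset_span ⟨hYA', hYn⟩) (hsm _ ?_ _ (hx'S _))
    exact mul_mem hhYB (mul_mem (pow_mem (hx'B _) _) (prod_mem fun i _ => pow_mem (hx'B i) _))
  have hmax : ∀ z ∈ Cp (Bu c x' G), ‖z‖ < 1 →
      z ∈ Submodule.span (Cp (Bu c x' G)) {b : W | b ∈ A' ∧ ‖b‖ < 1} := by
    intro z hz h1
    have h2 := Cp_max hBN hz h1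
    have h3 : Submodule.span (Cp (Bu c x' G)) {b : W | b ∈ Bu c x' G ∧ ‖b‖ < 1} ≤
        Submodule.span (Cp (Bu c x' G)) {b : W | b ∈ A' ∧ ‖b‖ < 1} := by
      rw [Submodule.span_le]
      rintro w ⟨hw, hw1⟩
      obtain ⟨b, b0, hb, hb0, e⟩ := hM'.gen hok hw hw1
      rw [SetLike.mem_coe, e]
      exact add_mem (sum_mem fun i _ => hsm _ (le_Cp (hb i)) _ (hx'S i))
        (hsm _ (le_Cp hb0) _ hyS)
    exact h3 h2
  refine ⟨x', G, g, fun z hz => ⟨hgn z hz, (mem_AfC_iff hok z).1 (hgall z hz).1⟩, ?_⟩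
  rw [← hA']
  exact ⟨hM', cp_eq_of_surj hNA' hBN hA'le hres hmax⟩

end Pool.Agent.Lib.TQ
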