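import Pool.Agent.Lib.TQ.FinalS
import Pool.Agent.Lib.TQ.AppC1
import Pool.Agent.Lib.TQ.AppC2
import Pool.Agent.Lib.MP_3029eb_ag.CompDefs

/-!
# Module MainW: embedded local uniformization inside the ambient field
PROOF of `main_W`.  `HasCh`: `c0`.  `app_AD`: `c`, `(x0, G0)`.  `app_syn`: `x', G, g0`, `B := locV (closure (A ∪ g0))`, `Syn c B x' G`.  `Nl B`.  `exists_phiB`: `φ`; its kernel is prime, and
its intersection with `B` is zero, so regular by `hreg`; `reg_f`: `H, f, μ`; `h := 1 + H`.  Given `s`, choose `f = a / b`, `a, b ∈ A`; `Δ0 := ` the denominators of the elements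
of `g0` (in `A ≤ B`, nonzero: `MoC.ne`).  `final_step`.  `DenD A A'' (Δ0 ∪ ..)`, `DenD.monV`.  `GoodPar2`: `den` from `DenD.monV`, `gen` from the span.
-/

namespace Pool.Agent.Lib.TQ

open Pool.Agent.Lib.MP_3029eb_ag Pool.Agent.Lib.MP_3029eb_ag.Abh Pool.Agent.Lib.TDO
  Pool.Agent.Lib.TU IsLocalRing

theorem main_W {k W : Type} [Field k] [PerfectField k] [NormedField W] [IsUltrametricDist W]
    [Algebra k W] {r m : ℕ} (hr : 0 < r) (hA : AmbG r m k W) (S L : IntermediateField k W)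
    (hS : ∀ z : W, IsSeparable S z → z ∈ S) (hch : HasCh m S r L) (A : Subring W)
    (C0 : IntermediateField k W) {n q : ℕ} (t : Fin n → W) (w w' : Fin q → W)
    (F F' : Fin q → Polynomial W) (N : ℕ) (hD : Dat m S L A C0 t w w' F F' N)
    (hSF : ∀ z : W, z ∈ S ↔ IsSeparable (IntermediateField.adjoin k
      ((C0 : Set W) ∪ (Set.range t ∪ Set.range w'))) z)
    (hLF : L = cl (IntermediateField.adjoin k ((C0 : Set W) ∪ (Set.range t ∪ Set.range w'))))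
    (hk : ∀ b : k, ∃ a ∈ A, ‖algebraMap k W b - a‖ < 1)
    (hdim : ∀ g : Finset W, (∀ u ∈ g, ‖u‖ ≤ 1 ∧ ∃ n ∈ A, ∃ d ∈ A, d ≠ 0 ∧ u * d = n) →
      ((r + 1 : ℕ) : WithBot ℕ∞) ≤
        ringKrullDim (Cp (locV (ball W) (Subring.closure ((A : Set W) ∪ (g : Set W))))))
    (hreg : ∀ g : Finset W, (∀ u ∈ g, ‖u‖ ≤ 1 ∧ ∃ n ∈ A, ∃ d ∈ A, d ≠ 0 ∧ u * d = n) →
      ∀ A' : Subring W, A' = locV (ball W) (Subring.closure ((A : Set W) ∪ (g : Set W))) →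
      ∀ (_ : IsLocalRing A'), GFR A') :
    ∃ h : ℕ, ∀ s : Finset W,
      (∀ f ∈ s, f ≠ 0 ∧ ‖f‖ ≤ 1 ∧ ∃ a ∈ A, ∃ b ∈ A, b ≠ 0 ∧ f * b = a) →
      ∃ (g : Finset W) (u : Fin r → W) (gs : Finset W),
        (∀ t ∈ g, ‖t‖ ≤ 1 ∧ ∃ n ∈ A, ∃ d ∈ A, d ≠ 0 ∧ t * d = n) ∧ gs.card = h ∧
        Imp.GoodPar2 (ball W) A
          (locV (ball W) (Subring.closure ((A : Set W) ∪ (g : Set W)))) u gs ∧
        ∀ f ∈ s, MonV (ball W)
          (locV (ball W) (Subring.closure ((A : Set W) ∪ (g : Set W)))) u f := by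
  classical
  have hML : S ⊓ L ≤ L := inf_le_right
  have hL : IsComplete (L : Set W) := hD.nl.comp
  obtain ⟨c0, hc0⟩ := hch
  obtain ⟨c, x0, G0, hcc, hM0, hAB, hxA, hyA, hCA⟩ :=
    app_AD hr hA S L hS hL hc0 A C0 t w w' F F' N hD hSF hLF
  have hc : Ch m S L c := RfS.ch hc0 hcc
  obtain ⟨x', G, g0, hg0, hsyn⟩ := app_syn hr S L hL hc A hD.nl hM0 hAB hk hxA hyA hCA
  have hg0' : ∀ u ∈ g0, ‖u‖ ≤ 1 ∧ ∃ n ∈ A, ∃ d ∈ A, d ≠ 0 ∧ u * d = n := by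
    intro u hu
    obtain ⟨h1, n, hn, d, hd, hdM, e⟩ := hg0 u hu
    exact ⟨h1, n, hn, d, hd, MoC.ne hc.ok hdM, e⟩
  have hfrL : ∀ u, (∃ n ∈ A, ∃ d ∈ A, d ≠ 0 ∧ u * d = n) → u ∈ L.toSubfield := by
    rintro u ⟨n, hn, d, hd, hd0, e⟩
    have h1 : u = n * d⁻¹ := by
      rw [← e, mul_assoc, mul_inv_cancel₀ hd0, mul_one]
    rw [h1]
    exact L.toSubfield.mul_mem (hD.nl.le n hn) (L.toSubfield.inv_mem (hD.nl.le d hd))
  have hBN := hD.nl.adjoin g0 fun g hg => ⟨hfrL g (hg0' g hg).2, (hg0' g hg).1⟩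
  obtain ⟨B, hB⟩ : ∃ B : Subring W,
      B = locV (ball W) (Subring.closure ((A : Set W) ∪ (g0 : Set W))) := ⟨_, rfl⟩
  rw [← hB] at hBN hsyn
  have hAleB : ∀ z ∈ A, z ∈ B := by
    intro z hz
    rw [hB]
    exact ⟨z, Subring.subset_closure (Or.inl hz), 1, one_mem _, map_one _, mul_one z⟩
  have iBl : IsLocalRing B := hBN.isLocal
  have iBn : IsNoetherianRing B := hBN.noeth
  obtain ⟨φ, hφ, h1, -⟩ := exists_phiB hBN
  have iTn : IsNoetherianRing (AdicCompletion (maximalIdeal B) B) := noetherian_adicCompletion B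
  have hker : (RingHom.ker φ).IsPrime := RingHom.ker_isPrime φ
  have hcomap : (RingHom.ker φ).comap (algebraMap B (AdicCompletion (maximalIdeal B) B)) = ⊥ := by
    rw [eq_bot_iff]
    intro b hb
    rw [Ideal.mem_comap, RingHom.mem_ker, h1] at hb
    rw [Ideal.mem_bot]
    exact Subtype.ext hb
  have hregB := hreg g0 hg0' B hB iBl (RingHom.ker φ) hcomap
  obtain ⟨H, f, μ, hH, hfI, hμI, hμ⟩ := reg_f (RingHom.ker φ) hregB
  -- fractions of `B` are fractions of `A`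
  have hBA : ∀ u, (∃ n ∈ B, ∃ d ∈ B, d ≠ 0 ∧ u * d = n) → ∃ n ∈ A, ∃ d ∈ A, d ≠ 0 ∧ u * d = n := by
    rintro u ⟨n, hn, d, hd, hd0, e⟩
    obtain ⟨n1, hn1, d1, hd1, hd10, e1⟩ := frac_of_frac g0 (fun u hu => (hg0' u hu).2) B hB n hn
    obtain ⟨n2, hn2, d2, hd2, hd20, e2⟩ := frac_of_frac g0 (fun u hu => (hg0' u hu).2) B hB d hd
    refine ⟨n1 * d2, mul_mem hn1 hd2, n2 * d1, mul_mem hn2 hd1, ?_, ?_⟩
    · rw [← e2]
      exact mul_ne_zero (mul_ne_zero hd0 hd20) hd10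
    · rw [← e2, ← e1, ← e]
      ring
  have hun : ∀ g : Finset W, (∀ u ∈ g, ‖u‖ ≤ 1 ∧ ∃ n ∈ B, ∃ d ∈ B, d ≠ 0 ∧ u * d = n) →
      ∀ u ∈ g0 ∪ g, ‖u‖ ≤ 1 ∧ ∃ n ∈ A, ∃ d ∈ A, d ≠ 0 ∧ u * d = n := by
    intro g hg u hu
    rcases Finset.mem_union.1 hu with hu | hu
    · exact hg0' u hu
    · exact ⟨(hg u hu).1, hBA u (hg u hu).2⟩
  have hdimB : ∀ g : Finset W, (∀ u ∈ g, ‖u‖ ≤ 1 ∧ ∃ n ∈ B, ∃ d ∈ B, d ≠ 0 ∧ u * d = n) →
      ((r + 1 : ℕ) : WithBot ℕ∞) ≤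
        ringKrullDim (Cp (locV (ball W) (Subring.closure ((B : Set W) ∪ (g : Set W))))) := by
    intro g hg
    rw [← Imp.locV_locV_union' (ball W) A B g0 g hB]
    exact hdim (g0 ∪ g) (hun g hg)
  -- denominators
  have hden : ∀ u : W, ∃ d : W, u ∈ g0 → (d ∈ A ∧ d ≠ 0 ∧ u * d ∈ A) := by
    intro u
    by_cases hu : u ∈ g0
    · obtain ⟨-, n, hn, d, hd, hd0, e⟩ := hg0' u hu
      exact ⟨d, fun _ => ⟨hd, hd0, e ▸ hn⟩⟩
    · exact ⟨0, fun h => absurd h hu⟩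
  choose d0 hd0 using hden
  have hDen0 : DenD A B (g0.image d0) := by
    refine DenD.of_frac g0 _ (fun u hu => ?_) B hB
    obtain ⟨h2, h3, h4⟩ := hd0 u hu
    exact ⟨u * d0 u, h4, d0 u, h2, Finset.mem_image_of_mem _ hu, rfl⟩
  refine ⟨1 + H, fun s hs => ?_⟩
  have hs1 : ∀ u : W, ∃ b : W, u ∈ s → (b ∈ A ∧ b ≠ 0 ∧ u * b ∈ A) := by
    intro u
    by_cases hu : u ∈ s
    · obtain ⟨-, -, n, hn, d, hd, hd0, e⟩ := hs u hu
      exact ⟨d, fun _ => ⟨hd, hd0, e ▸ hn⟩⟩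
    · exact ⟨0, fun h => absurd h hu⟩
  choose b hb using hs1
  obtain ⟨g, U, gs, Δ, A'', hA'', hg, hU, hUA, hgs, hcard, hspan, hregA, hdimA, hDen, hΔ, hΔ0,
    hsV⟩ := final_step hr hA S L hS hL hc B hBN hsyn φ hφ h1 hdimB hH f
      (fun i => (RingHom.mem_ker).1 (hfI i)) μ (fun h => hμI ((RingHom.mem_ker).2 h)) hμ
      (s.image fun u => (u * b u, b u)) (by
        intro p hp
        obtain ⟨u, hu, rfl⟩ := Finset.mem_image.1 hp
        obtain ⟨h2, h3, h4⟩ := hb u hu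
        obtain ⟨h5, h6, -⟩ := hs u hu
        refine ⟨hAleB _ h4, hAleB _ h2, mul_ne_zero h5 h3, h3, ?_⟩
        rw [norm_mul]
        exact mul_le_of_le_one_left (norm_nonneg _) h6)
      (g0.image d0) (by
        intro p hp
        obtain ⟨u, hu, rfl⟩ := Finset.mem_image.1 hp
        exact ⟨hAleB _ (hd0 u hu).1, (hd0 u hu).2.1⟩)
  have hA''' : A'' = locV (ball W) (Subring.closure ((A : Set W) ∪ ((g0 ∪ g : Finset W) : Set W))) := by
    rw [Imp.locV_locV_union' (ball W) A B g0 g hB]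
    exact hA''
  have hBA'' : B ≤ A'' := by
    intro z hz
    rw [hA'']
    exact ⟨z, Subring.subset_closure (Or.inl hz), 1, one_mem _, map_one _, mul_one z⟩
  refine ⟨g0 ∪ g, U, gs, hun g hg, hcard, ?_, ?_⟩
  · rw [← hA''']
    refine ⟨E2_IndV hU, hUA, fun i => (ball_val_lt_one _).2 (hU.lt i), fun y hy => (hgs y hy).1,
      fun y hy => (ball_val_lt_one _).2 (hgs y hy).2, ?_, hregA, hdimA, ?_⟩
    · intro z hz hz1
      have h2 := hspan z hz ((ball_val_lt_one _).1 hz1)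
      rw [Submodule.span_union, Submodule.mem_sup] at h2
      obtain ⟨z1, hz1, z2, hz2, e⟩ := h2
      obtain ⟨c1, hc1⟩ := (Submodule.mem_span_range_iff_exists_fun A'').1 hz1
      obtain ⟨c2, -, hc2⟩ := Submodule.mem_span_finset.1 hz2
      refine ⟨fun i => (c1 i : W), fun y => (c2 y : W), fun i => (c1 i).2, fun y => (c2 y).2, ?_⟩
      rw [← e, ← hc1, ← hc2]
      simp only [Subring.smul_def, smul_eq_mul]
    · refine DenD.monV (hDen0.trans hBA'' hDen) U ?_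
      intro δ hδ
      rcases Finset.mem_union.1 hδ with hδ | hδ
      · exact hΔ0 δ hδ
      · exact hΔ δ hδ
  · intro u hu
    rw [← hA''']
    have h2 := hsV _ (Finset.mem_image_of_mem _ hu)
    have h3 : u * b u / b u = u := by
      rw [mul_div_assoc, div_self (hb u hu).2.1, mul_one]
    simp only [h3] at h2
    exact h2

end Pool.Agent.Lib.TQ
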