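import Pool.Agent.Lib.TQ.CpA
import Pool.Agent.Lib.MP_3029eb_ag.ImpRank

/-!
# Module CpB: the completion of a noetherian local subring inside a complete field
`Cp B`: limits of sequences of `B` which are Cauchy for the powers of the maximal ideal.  It is the image of
the adic completion of `B`.

PROOFS. `exists_phiB`: `X` is a complete nontrivially normed field (`h.comp`, `h.nt`; give `↥X` the structure
`NontriviallyNormedField`, `CompleteSpace` from `IsComplete`), `B → ↥X` is dominating (`Dom`), so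
`Abh.exists_lift_ball` gives `φ : AdicCompletion (maximalIdeal B) B → ↥X`; compose with the inclusion.
`φ.range = Cp B`: if `z = lim b n`, `b (n+1) - b n ∈ mP B n`, then the sequence `b` defines an element `t` of
the adic completion (`T` is `IsAdicComplete`, `IsPrecomplete` gives `t` with `t - b n ∈ m ^ n`), and
`‖φ t - b n‖ ≤ τ ^ n` (`Nl.exists_tau` for generators, `Fin_norm_pow`), so `φ t = z`; so the set in the
definition of `Cp` is contained in `φ.range`, a subring.  Conversely for `t` in `T` choose `b n ∈ B` with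
`t - b n ∈ m ^ n T` (`sameCompletion_adicCompletion`, `IR_approx`), then `b (n+1) - b n ∈ m ^ n T ∩ B = m ^ n`
(`SameCompletion.comap_pow`) and `b n → φ t`.
All the other statements are transported from the complete noetherian local ring `T` along `φ` (`φ` maps
`maximalIdeal T ^ n` onto `mP (Cp B) n`, because `φ` is onto `Cp B` and dominating), see `ImpRed.lean`
(`IR_range_le, IR_inv_mem, IR_locV_eq, IR_range_mono`) and `noetherian_adicCompletion`.
`Cp_lim`: `T / ker φ ≃ Cp B` is adically complete (a quotient of a complete noetherian local ring), or lift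
the sequence: `b (n+1) - b n = φ (t_n)`, `t_n ∈ m_T ^ n`, the sums of the `t_n` converge in `T`.
`Cp_mono`: `B ≤ Cp B'` implies `mP B n ⊆ mP (Cp B') n`, use `Cp_lim`.
-/

namespace Pool.Agent.Lib.TQ

open Pool.Agent.Lib.MP_3029eb_ag Pool.Agent.Lib.MP_3029eb_ag.Abh Pool.Agent.Lib.TDO
  Pool.Agent.Lib.TU IsLocalRing

variable {W : Type} [NormedField W] [IsUltrametricDist W] {X : Subfield W} {B B' : Subring W}

private theorem cpb_prec {T : Type} [CommRing T] [IsLocalRing T]
    [IsAdicComplete (maximalIdeal T) T] (f : ℕ → T)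
    (hf : ∀ n, f (n + 1) - f n ∈ maximalIdeal T ^ n) :
    ∃ t, ∀ n, t - f n ∈ maximalIdeal T ^ n := by
  have h1 : ∀ m n, m ≤ n → f n - f m ∈ maximalIdeal T ^ m := by
    intro m n hmn
    induction n, hmn using Nat.le_induction with
    | base => rw [sub_self]; exact zero_mem _
    | succ n hmn ih =>
      have h2 : f (n + 1) - f m = (f (n + 1) - f n) + (f n - f m) := by ring
      rw [h2]
      exact add_mem (Ideal.pow_le_pow_right hmn (hf n)) ih
  obtain ⟨t, ht⟩ := IsPrecomplete.prec' (I := maximalIdeal T) (M := T) f (by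
    intro m n hmn
    rw [SModEq.sub_mem, smul_eq_mul, Ideal.mul_top, ← neg_sub]
    exact neg_mem (h1 m n hmn))
  refine ⟨t, fun n => ?_⟩
  have h2 := ht n
  rw [SModEq.sub_mem, smul_eq_mul, Ideal.mul_top] at h2
  rw [← neg_sub]
  exact neg_mem h2

private theorem cpb_tendsto {T : Type} [CommRing T] [IsLocalRing T] [IsNoetherianRing T]
    (φ : T →+* W) (hφ : Dom φ) {z : W} {b : ℕ → W} (u : ℕ → T)
    (hu : ∀ n, u n ∈ maximalIdeal T ^ n) (hz : ∀ n, z - b n = φ (u n)) :
    Filter.Tendsto b Filter.atTop (nhds z) := by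
  obtain ⟨q, hq0, hq1, hq⟩ := S13_pow_norm φ hφ
  rw [tendsto_iff_norm_sub_tendsto_zero]
  refine squeeze_zero (fun n => norm_nonneg _) (fun n => ?_)
    (tendsto_pow_atTop_nhds_zero_of_lt_one hq0 hq1)
  rw [norm_sub_rev, hz n]
  exact hq n _ (hu n)

omit [IsUltrametricDist W] in
private theorem cpb_mP {T : Type} [CommRing T] [IsLocalRing T] (φ : T →+* W) (hφ : Dom φ)
    {C : Subring W} (hC : φ.range = C) (n : ℕ) (z : W) :
    z ∈ mP C n ↔ ∃ t ∈ maximalIdeal T ^ n, φ t = z := by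
  subst hC
  have h1 : mI φ.range = (maximalIdeal T).map φ.rangeRestrict := by
    unfold mI Ideal.map
    congr 1
    ext b
    constructor
    · intro hb
      obtain ⟨t, ht⟩ := b.2
      refine ⟨t, ((hφ t).2).2 ?_, Subtype.ext ht⟩
      rw [ht]
      exact hb
    · rintro ⟨t, ht, rfl⟩
      exact ((hφ t).2).1 ht
  constructor
  · rintro ⟨s, hs, rfl⟩
    rw [h1, ← Ideal.map_pow] at hs
    obtain ⟨t, ht, hts⟩ := (Ideal.mem_map_iff_of_surjective _ φ.rangeRestrict_surjective).1 hs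
    exact ⟨t, ht, by rw [← hts]; rfl⟩
  · rintro ⟨t, ht, rfl⟩
    refine ⟨φ.rangeRestrict t, ?_, rfl⟩
    rw [h1, ← Ideal.map_pow]
    exact Ideal.mem_map_of_mem _ ht

private theorem cpb_norm {T : Type} [CommRing T] [IsLocalRing T] [IsNoetherianRing T]
    (φ : T →+* W) (hφ : Dom φ) (ι : B →+* T) (hφι : ∀ b : B, φ (ι b) = b)
    (h : Nl X B) [IsLocalRing B] (hι : SameCompletion ι) [IsAdicComplete (maximalIdeal T) T] :
    φ.range = Cp B := by
  have hmP : ∀ (n : ℕ) (b : B), b ∈ maximalIdeal B ^ n ↔ (b : W) ∈ mP B n := by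
    intro n b
    rw [← h.mI_eq]
    constructor
    · exact fun hb => ⟨b, hb, rfl⟩
    · rintro ⟨t, ht, htb⟩
      rwa [← Subtype.ext htb]
  apply le_antisymm
  · rintro _ ⟨t, rfl⟩
    choose b hb using fun n => Imp.IR_approx ι hι t n
    refine Subring.subset_closure ⟨fun n => (b n : W), fun n => (b n).2, fun n => ?_, ?_⟩
    · have h1 : b (n + 1) - b n ∈ maximalIdeal B ^ n := by
        apply hι.comap_pow
        have h2 : ι (b (n + 1) - b n) = (t - ι (b n)) - (t - ι (b (n + 1))) := by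
          rw [map_sub]; ring
        rw [h2]
        exact sub_mem (hb n) (Ideal.pow_le_pow_right (Nat.le_succ n) (hb (n + 1)))
      exact (hmP n _).1 h1
    · refine cpb_tendsto φ hφ (fun n => t - ι (b n)) hb fun n => ?_
      rw [map_sub, hφι]
  · unfold Cp
    rw [Subring.closure_le]
    rintro z ⟨b, hbB, hbd, hbz⟩
    have hmap : ∀ (n : ℕ) (a : B), a ∈ maximalIdeal B ^ n → ι a ∈ maximalIdeal T ^ n := by
      intro n a ha
      have h1 : (maximalIdeal B ^ n).map ι ≤ maximalIdeal T ^ n := by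
        rw [Ideal.map_pow]
        exact Ideal.pow_right_mono (Ideal.map_le_iff_le_comap.2 hι.map_mem) n
      exact h1 (Ideal.mem_map_of_mem _ ha)
    obtain ⟨t, ht⟩ := cpb_prec (T := T) (fun n => ι ⟨b n, hbB n⟩) (by
      intro n
      rw [← map_sub]
      apply hmap
      rw [hmP]
      exact hbd n)
    refine ⟨t, tendsto_nhds_unique (cpb_tendsto φ hφ _ ht fun n => ?_) hbz⟩
    rw [map_sub, hφι]

/-- the completion of `B` maps onto `Cp B` -/
theorem exists_phiB (h : Nl X B) [IsLocalRing B] [IsNoetherianRing B] :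
    ∃ φ : AdicCompletion (maximalIdeal B) B →+* W, Dom φ ∧
      (∀ b : B, φ (algebraMap B (AdicCompletion (maximalIdeal B) B) b) = b) ∧ φ.range = Cp B := by
  let iN : NontriviallyNormedField X :=
    { (inferInstance : NormedField X) with
      non_trivial := by
        obtain ⟨z, hz, hz0, hz1⟩ := h.nt
        refine ⟨⟨z⁻¹, X.inv_mem hz⟩, ?_⟩
        change 1 < ‖z⁻¹‖
        rw [norm_inv]
        exact (one_lt_inv₀ (norm_pos_iff.2 hz0)).2 hz1 }
  have iU : IsUltrametricDist X := ⟨fun x y z => IsUltrametricDist.dist_triangle_max (x : W) y z⟩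
  have iC : CompleteSpace X := h.comp.completeSpace_coe
  obtain ⟨φ0, hφ0, hφ1⟩ := exists_lift_ball B
    (L := X) (RingHom.codRestrict B.subtype X (fun b => h.le b b.2)) (by
      intro b
      refine ⟨h.one b b.2, ?_⟩
      rw [← h.mI_eq, h.mem_mI]
      rfl)
  have hφ : Dom (X.subtype.comp φ0) := fun t => hφ0 t
  have hφι : ∀ b : B, (X.subtype.comp φ0) (algebraMap B (AdicCompletion (maximalIdeal B) B) b) =
      b := by
    intro b
    have h1 := congrArg (fun g => g b) hφ1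
    simp only [RingHom.comp_apply] at h1
    rw [RingHom.comp_apply, h1]
    rfl
  have iTn : IsNoetherianRing (AdicCompletion (maximalIdeal B) B) := noetherian_adicCompletion B
  exact ⟨X.subtype.comp φ0, hφ, hφι, cpb_norm _ hφ _ hφι h (sameCompletion_adicCompletion B)⟩

/-- everything we need about the completion -/
private theorem cpb_pack (h : Nl X B) : ∃ (T : Type) (_ : CommRing T) (_ : IsLocalRing T)
    (_ : IsNoetherianRing T) (ι : B →+* T) (φ : T →+* W), Dom φ ∧ (∀ b : B, φ (ι b) = b) ∧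
    φ.range = Cp B ∧ (∀ f : ℕ → T, (∀ n, f (n + 1) - f n ∈ maximalIdeal T ^ n) →
      ∃ t, ∀ n, t - f n ∈ maximalIdeal T ^ n) ∧
    (∀ t n, ∃ b : B, t - ι b ∈ maximalIdeal T ^ n) ∧
    (∀ n (b : B), ι b ∈ maximalIdeal T ^ n → (b : W) ∈ mP B n) ∧
    maximalIdeal T ≤ Ideal.span (ι '' {b : B | ‖(b : W)‖ < 1}) := by
  have hloc := h.isLocal
  have hno := h.noeth
  obtain ⟨φ, hφ, hφι, hr⟩ := exists_phiB h
  have hι : SameCompletion (algebraMap B (AdicCompletion (maximalIdeal B) B)) :=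
    sameCompletion_adicCompletion B
  have iTn : IsNoetherianRing (AdicCompletion (maximalIdeal B) B) := noetherian_adicCompletion B
  refine ⟨AdicCompletion (maximalIdeal B) B, inferInstance, inferInstance, iTn,
    algebraMap B (AdicCompletion (maximalIdeal B) B), φ, hφ, hφι, hr, cpb_prec,
    fun t n => Imp.IR_approx _ hι t n, ?_, ?_⟩
  · intro n b hb
    have h1 := hι.comap_pow n b hb
    rw [← h.mI_eq] at h1
    exact ⟨b, h1, rfl⟩
  · refine (Imp.ID_max_le _ hι).trans ?_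
    unfold Ideal.map
    apply Ideal.span_mono
    rintro _ ⟨b, hb, rfl⟩
    rw [SetLike.mem_coe, ← h.mI_eq, h.mem_mI] at hb
    exact ⟨b, hb, rfl⟩

private theorem cpb_exists_lim (h : Nl X B) (b : ℕ → W) (hb : ∀ n, b n ∈ Cp B)
    (hd : ∀ n, b (n + 1) - b n ∈ mP (Cp B) n) :
    ∃ z ∈ Cp B, Filter.Tendsto b Filter.atTop (nhds z) ∧
      ∀ n, z - b n ∈ mP (Cp B) n := by
  obtain ⟨T, _, _, _, ι, φ, hφ, hφι, hr, hprec, happ, hcom, -⟩ := cpb_pack h
  have hb0 := hb 0
  rw [← hr] at hb0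
  obtain ⟨s0, hs0⟩ := hb0
  choose s hs hsφ using fun n => (cpb_mP φ hφ hr n _).1 (hd n)
  obtain ⟨t, ht⟩ := hprec (fun n => s0 + ∑ i ∈ Finset.range n, s i) (by
    intro n
    rw [Finset.sum_range_succ]
    have h1 : s0 + (∑ i ∈ Finset.range n, s i + s n) - (s0 + ∑ i ∈ Finset.range n, s i) = s n := by
      ring
    rw [h1]
    exact hs n)
  have hφb : ∀ n, φ (s0 + ∑ i ∈ Finset.range n, s i) = b n := by
    intro n
    induction n with
    | zero => simpa using hs0
    | succ n ih =>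
      rw [Finset.sum_range_succ, ← add_assoc, map_add, ih, hsφ n]
      ring
  have hdiff : ∀ n, φ t - b n = φ (t - (s0 + ∑ i ∈ Finset.range n, s i)) := fun n => by
    rw [map_sub, hφb]
  refine ⟨φ t, by rw [← hr]; exact ⟨t, rfl⟩, cpb_tendsto φ hφ _ ht hdiff, fun n => ?_⟩
  exact (cpb_mP φ hφ hr n _).2 ⟨_, ht n, (hdiff n).symm⟩

theorem mem_Cp_iff (h : Nl X B) {z : W} : z ∈ Cp B ↔ ∃ b : ℕ → W, (∀ n, b n ∈ B) ∧
    (∀ n, b (n + 1) - b n ∈ mP B n) ∧ Filter.Tendsto b Filter.atTop (nhds z) := by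
  refine ⟨fun hz => ?_, fun hz => Subring.subset_closure hz⟩
  obtain ⟨T, _, _, _, ι, φ, hφ, hφι, hr, -, happ, hcom, -⟩ := cpb_pack h
  rw [← hr] at hz
  obtain ⟨t, rfl⟩ := hz
  choose b hb using fun n => happ t n
  refine ⟨fun n => (b n : W), fun n => (b n).2, fun n => ?_, ?_⟩
  · have h1 := hcom n (b (n + 1) - b n) (by
      have h2 : ι (b (n + 1) - b n) = (t - ι (b n)) - (t - ι (b (n + 1))) := by
        rw [map_sub]; ring
      rw [h2]
      exact sub_mem (hb n) (Ideal.pow_le_pow_right (Nat.le_succ n) (hb (n + 1))))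
    exact h1
  · refine cpb_tendsto φ hφ (fun n => t - ι (b n)) hb fun n => ?_
    rw [map_sub, hφι]

theorem le_Cp : B ≤ Cp B := by
  intro z hz
  refine Subring.subset_closure ⟨fun _ => z, fun _ => hz, fun n => ?_, tendsto_const_nhds⟩
  rw [sub_self]
  exact mP_zero_mem n

theorem Nl.cp (h : Nl X B) : Nl X (Cp B) := by
  obtain ⟨T, _, _, _, ι, φ, hφ, hφι, hr, -, happ, hcom, -⟩ := cpb_pack h
  refine ⟨h.comp, h.nt, ?_, ?_, ?_, ?_⟩
  · have h1 : Cp B ≤ X.toSubring := by
      unfold Cp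
      rw [Subring.closure_le]
      rintro z ⟨b, hbB, -, hbz⟩
      exact h.comp.isClosed.mem_of_tendsto hbz (Filter.Eventually.of_forall fun n =>
        h.le _ (hbB n))
    exact fun z hz => h1 hz
  · intro z hz
    rw [← hr] at hz
    obtain ⟨t, rfl⟩ := hz
    exact (hφ t).1
  · intro z hz hz1
    rw [← hr] at hz ⊢
    exact Imp.IR_inv_mem φ hφ hz hz1
  · rw [← hr]
    infer_instance

/-- density -/
theorem Cp_dens (h : Nl X B) {z : W} (hz : z ∈ Cp B) (n : ℕ) :
    ∃ b ∈ B, z - b ∈ mP (Cp B) n := by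
  obtain ⟨T, _, _, _, ι, φ, hφ, hφι, hr, -, happ, hcom, -⟩ := cpb_pack h
  rw [← hr] at hz
  obtain ⟨t, rfl⟩ := hz
  obtain ⟨b, hb⟩ := happ t n
  refine ⟨b, b.2, (cpb_mP φ hφ hr n _).2 ⟨t - ι b, hb, ?_⟩⟩
  rw [map_sub, hφι]

/-- the maximal ideal of the completion -/
theorem Cp_max (h : Nl X B) {z : W} (hz : z ∈ Cp B) (h1 : ‖z‖ < 1) :
    z ∈ Submodule.span (Cp B) {b : W | b ∈ B ∧ ‖b‖ < 1} := by
  obtain ⟨T, _, _, _, ι, φ, hφ, hφι, hr, -, happ, hcom, hmax⟩ := cpb_pack h
  have hz' := hz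
  rw [← hr] at hz'
  obtain ⟨t, rfl⟩ := hz'
  have ht : t ∈ Ideal.span (ι '' {b : B | ‖(b : W)‖ < 1}) := hmax (((hφ t).2).2 h1)
  clear h1 hz
  induction ht using Submodule.span_induction with
  | mem x hx =>
    obtain ⟨b, hb, rfl⟩ := hx
    rw [hφι]
    exact Submodule.subset_span ⟨b.2, hb⟩
  | zero => rw [map_zero]; exact zero_mem _
  | add x y _ _ hx hy => rw [map_add]; exact add_mem hx hy
  | smul a x _ hx =>
    rw [smul_eq_mul, map_mul]
    have ha : φ a ∈ Cp B := by rw [← hr]; exact ⟨a, rfl⟩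
    exact Submodule.smul_mem _ (⟨φ a, ha⟩ : Cp B) hx

theorem Cp_lim (h : Nl X B) {b : ℕ → W} (hb : ∀ n, b n ∈ Cp B)
    (hd : ∀ n, b (n + 1) - b n ∈ mP (Cp B) n) {z : W}
    (hz : Filter.Tendsto b Filter.atTop (nhds z)) : z ∈ Cp B := by
  obtain ⟨z', hz', h1, -⟩ := cpb_exists_lim h b hb hd
  rwa [tendsto_nhds_unique hz h1]

theorem Cp_mono (h : Nl X B) (h' : Nl X B') (hle : B ≤ Cp B') :
    Cp B ≤ Cp B' := by
  intro z hz
  obtain ⟨b, hbB, hbd, hbz⟩ := (mem_Cp_iff h).1 hz
  exact Cp_lim h' (fun n => hle (hbB n)) (fun n => mP_mono hle (hbd n)) hbz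

theorem Cp_idem (h : Nl X B) :
    Cp (Cp B) = Cp B := by
  exact le_antisymm (Cp_mono h.cp h le_rfl) le_Cp

/-- a sequence which is Cauchy for the powers of the maximal ideal of `Cp B` has a limit in `Cp B`
and the tails are in the powers -/
theorem Cp_exists_lim (h : Nl X B) (b : ℕ → W) (hb : ∀ n, b n ∈ Cp B)
    (hd : ∀ n, b (n + 1) - b n ∈ mP (Cp B) n) :
    ∃ z ∈ Cp B, Filter.Tendsto b Filter.atTop (nhds z) ∧
      ∀ n, z - b n ∈ mP (Cp B) n := by
  exact cpb_exists_lim h b hb hd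

end Pool.Agent.Lib.TQ
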