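import Pool.Agent.Lib.TQ.Defs
import Pool.Agent.Lib.MP_3029eb_ag.CompDefs

/-!
# Module ResW: residue data
`A` is a local ring dominated by the field `W` via `ψ`, its residue field `κ` is a finitely generated extension of `k` via `σ`; `k` acts on `W`, compatibly
with `σ` modulo elements of norm less than one.
PROOF. Let `κ := ResidueField A`, with the `k`-algebra structure `σ.toAlgebra` (`EssFiniteType`, so `Algebra.trdeg k κ` is a natural number `m`, finite: see
`TU/CstX.lean`, `TU/DimU.lean` or `IntermediateField.fg_top_iff`).  `κW := ResidueField (ball W)`; `ψ` induces `A → ball W → κW` (a local homomorphism, `hψ`), so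
`ψ' : κ → κW`, and `k → κW` (the residue of `algebraMap k W b`) is `ψ' ∘ σ` by `hσ` (every element of `κ` is a residue).
`unit`: `σ c ≠ 0`; choose `a` with residue `σ c`, a unit, so `‖ψ a‖ = 1`, `‖algebraMap k W c - ψ a‖ < 1`.
`G`: finitely many generators of the field `κ` over `k` (`IntermediateField.fg_top_iff` / `EssFiniteType`), lifted to `A`, `G := ` their images.
An element of `κ` is `P(ḡ) / Q(ḡ)`, `Q(ḡ) ≠ 0`, (`IntermediateField.mem_adjoin_range_iff` or `_root_.IsFractionRing`), `P(ψ g)`, `Q(ψ g)` are in the ring generated by the image of `k` and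
`G`, `‖Q(ψ g)‖ = 1`.
`v`: a transcendence basis of `κ` over `k`, lifted; for `P ≠ 0`, the residue of `P(v)` is `P(v̄) ≠ 0`, so the norm is one (for the residues use `ψ'`, compare `ambW_ev`, `ambW_res_zero` in
`TU/AmbW.lean`).
Last statement: the residues `z̄ i ∈ κW` are algebraic over `ψ' κ`, an extension of `k` of transcendence degree `m`, so `m + 1` of them are algebraically dependent over
`k` (compare `ambW_trd` in `TU/AmbW.lean`): `P(z̄) = 0`, `P ≠ 0`, so `‖P(z)‖ < 1`.
-/

namespace Pool.Agent.Lib.TQ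

open Pool.Agent.Lib.MP_3029eb_ag Pool.Agent.Lib.MP_3029eb_ag.Abh Pool.Agent.Lib.TDO
  Pool.Agent.Lib.TU IsLocalRing

private theorem rw_le_one {k W : Type} [Field k] [NormedField W] [Algebra k W]
    (hu : ∀ c : k, c ≠ 0 → ‖algebraMap k W c‖ = 1) (c : k) : ‖algebraMap k W c‖ ≤ 1 := by
  by_cases hc : c = 0
  · rw [hc, map_zero, norm_zero]; exact zero_le_one
  · exact (hu c hc).le

/-- Transcendence degrees of algebraic extensions. -/
private theorem rw_trd {k κ κ' : Type} [Field k] [Field κ] [Field κ'] [Algebra k κ]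
    [Algebra κ κ'] [Algebra k κ'] [IsScalarTower k κ κ'] [Algebra.IsAlgebraic κ κ'] {m : ℕ}
    (h : ∀ z : Fin (m + 1) → κ, ¬ AlgebraicIndependent k z) (z : Fin (m + 1) → κ') :
    ¬ AlgebraicIndependent k z := by
  intro hz
  have h1 := hz.cardinalMk_le_trdeg
  have h2 : Algebra.trdeg k κ' = Algebra.trdeg k κ := by
    rw [← trdeg_add_eq k κ (A := κ'), trdeg_eq_zero (R := κ) (A := κ'), add_zero]
  rw [h2] at h1
  obtain ⟨ι, x, hx⟩ := exists_isTranscendenceBasis' k κ
  rw [← hx.cardinalMk_eq_trdeg, Cardinal.le_def] at h1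
  obtain ⟨e⟩ := h1
  exact h (x ∘ e) (hx.1.comp e e.injective)

/-- the residue of an element of the ball vanishes iff its norm is less than one -/
private theorem rw_res_zero {K : Type} [NormedField K] [IsUltrametricDist K] (a : ball K) :
    residue (ball K) a = 0 ↔ ‖(a : K)‖ < 1 := by
  rw [residue_eq_zero_iff, ← ball_val_lt_one, (ball K).valuation_lt_one_iff]

/-- the constants -/
private noncomputable def rw_f {k K : Type} [Field k] [NormedField K] [IsUltrametricDist K]
    [Algebra k K] (hu : ∀ c : k, c ≠ 0 → ‖algebraMap k K c‖ = 1) : k →+* ball K :=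
  (algebraMap k K).codRestrict (ball K).toSubring fun c => rw_le_one hu c

private theorem rw_ev {k K : Type} [Field k] [NormedField K] [IsUltrametricDist K]
    [Algebra k K] (hu : ∀ c : k, c ≠ 0 → ‖algebraMap k K c‖ = 1) {n : ℕ} (z : Fin n → ball K)
    (P : MvPolynomial (Fin n) k) :
    ((MvPolynomial.eval₂ (rw_f hu) z P : ball K) : K) =
      MvPolynomial.aeval (fun i => (z i : K)) P := by
  have h := MvPolynomial.eval₂_comp_left (ball K).subtype (rw_f hu) z P
  exact h

/-- A finitely generated field extension has a finite transcendence basis. -/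
private theorem rw_basis {k κ : Type} [Field k] [Field κ] [Algebra k κ] (s : Finset κ)
    (hs : ∀ x : κ, ∃ t ∈ Algebra.adjoin k (s : Set κ), IsUnit t ∧
      x * t ∈ Algebra.adjoin k (s : Set κ)) :
    ∃ (m : ℕ) (v : Fin m → κ), AlgebraicIndependent k v ∧
      ∀ z : Fin (m + 1) → κ, ¬ AlgebraicIndependent k z := by
  have halg : Algebra.IsAlgebraic (Algebra.adjoin k (s : Set κ)) κ := by
    refine ⟨fun x => ?_⟩
    obtain ⟨t, ht, htu, hxt⟩ := hs x
    refine ⟨Polynomial.C (⟨t, ht⟩ : Algebra.adjoin k (s : Set κ)) * Polynomial.X -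
      Polynomial.C ⟨x * t, hxt⟩, ?_, ?_⟩
    · intro h0
      have h1 := congrArg (fun P => Polynomial.coeff P 1) h0
      simp only [Polynomial.coeff_sub, Polynomial.coeff_C_mul, Polynomial.coeff_X_one, mul_one,
        Polynomial.coeff_C_succ, sub_zero, Polynomial.coeff_zero] at h1
      exact htu.ne_zero (congrArg Subtype.val h1)
    · rw [map_sub, map_mul, Polynomial.aeval_C, Polynomial.aeval_X, Polynomial.aeval_C]
      change t * x - x * t = 0
      ring
  obtain ⟨u, hu, hb⟩ := exists_isTranscendenceBasis_subset (R := k) (s : Set κ)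
  have hfin : Finite u := (s.finite_toSet.subset hu).to_subtype
  let e : Fin (Nat.card u) ≃ u := (Finite.equivFin u).symm
  refine ⟨Nat.card u, fun i => (e i : κ), hb.1.comp e e.injective, fun z hz => ?_⟩
  have h1 := hz.cardinalMk_le_trdeg
  rw [← hb.cardinalMk_eq_trdeg, Cardinal.le_def] at h1
  obtain ⟨w⟩ := h1
  have h2 := Nat.card_le_card_of_injective w w.injective
  rw [Nat.card_eq_fintype_card, Fintype.card_fin] at h2
  exact absurd h2 (Nat.not_succ_le_self _)

theorem res_W {k W A : Type} [Field k] [NormedField W] [IsUltrametricDist W] [Algebra k W]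
    [CommRing A] [IsLocalRing A] (ψ : A →+* W) (hψ : Dom ψ) (σ : k →+* ResidueField A)
    (hfg : EFT σ)
    (hσ : ∀ (b : k) (a : A), residue A a = σ b → ‖algebraMap k W b - ψ a‖ < 1) :
    (∀ c : k, c ≠ 0 → ‖algebraMap k W c‖ = 1) ∧
      (∃ G : Finset W, (∀ g ∈ G, g ∈ ψ.range) ∧ ∀ z ∈ ψ.range,
        ∃ a ∈ locV (ball W) (Subring.closure (Set.range (algebraMap k W) ∪ (G : Set W))),
          ‖z - a‖ < 1) ∧
      ∃ (m : ℕ) (v : Fin m → W), (∀ i, v i ∈ ψ.range) ∧
        (∀ P : MvPolynomial (Fin m) k, P ≠ 0 → ‖MvPolynomial.aeval v P‖ = 1) ∧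
        ∀ z : Fin (m + 1) → W, (∀ i, ‖z i‖ ≤ 1) →
          (∀ i, ∃ f : Polynomial A, (∃ n, ‖ψ (f.coeff n)‖ = 1) ∧
            ‖Polynomial.eval₂ ψ (z i) f‖ < 1) →
          ∃ P : MvPolynomial (Fin (m + 1)) k, P ≠ 0 ∧ ‖MvPolynomial.aeval z P‖ < 1 := by
  classical
  have hnu : ∀ a : A, residue A a ≠ 0 → ‖ψ a‖ = 1 := by
    intro a ha
    refine le_antisymm (hψ a).1 (not_lt.1 fun h => ha ?_)
    rw [residue_eq_zero_iff]
    exact (hψ a).2.2 h
  have hunit : ∀ c : k, c ≠ 0 → ‖algebraMap k W c‖ = 1 := by
    intro c hc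
    obtain ⟨a, ha⟩ := residue_surjective (σ c)
    have h1 := hσ c a ha
    have h2 : ‖ψ a‖ = 1 := by
      apply hnu
      rw [ha]
      intro h
      exact hc (σ.injective (h.trans (map_zero σ).symm))
    have h3 : algebraMap k W c = (algebraMap k W c - ψ a) + ψ a := by ring
    rw [h3, IsUltrametricDist.norm_add_eq_max_of_norm_ne_norm (by rw [h2]; exact h1.ne), h2]
    exact max_eq_right h1.le
  -- the residue fields
  let g : A →+* ball W := ψ.codRestrict (ball W).toSubring fun a => (hψ a).1
  have hg : ∀ a : A, ((g a : ball W) : W) = ψ a := fun a => rfl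
  have hloc : IsLocalHom g := by
    refine ⟨fun a ha => ?_⟩
    by_contra hna
    have h1 : a ∈ maximalIdeal A := hna
    have h2 : g a ∈ maximalIdeal (ball W) := by
      rw [← residue_eq_zero_iff, rw_res_zero, hg]
      exact (hψ a).2.1 h1
    exact h2 ha
  let κ := ResidueField A
  let κ' := ResidueField (ball W)
  let ψ' : κ →+* κ' := ResidueField.map g
  have hψ' : ∀ a : A, ψ' (residue A a) = residue (ball W) (g a) := fun a => rfl
  let _ : Algebra k κ := σ.toAlgebra
  let _ : Algebra κ κ' := ψ'.toAlgebra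
  let _ : Algebra k κ' := (ψ'.comp σ).toAlgebra
  have : IsScalarTower k κ κ' := IsScalarTower.of_algebraMap_eq fun _ => rfl
  have hkW : ψ'.comp σ = (residue (ball W)).comp (rw_f hunit) := by
    ext c
    obtain ⟨a, ha⟩ := residue_surjective (σ c)
    change ψ' (σ c) = residue (ball W) (rw_f hunit c)
    rw [← ha, hψ', ← sub_eq_zero, ← map_sub, rw_res_zero]
    change ‖ψ a - algebraMap k W c‖ < 1
    rw [norm_sub_rev]
    exact hσ c a ha
  have hkW' : ∀ c : k, ψ' (σ c) = residue (ball W) (rw_f hunit c) := fun c =>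
    congrArg (fun f : k →+* κ' => f c) hkW
  obtain ⟨s, hs⟩ : ∃ s : Finset κ, ∀ x : κ, ∃ t ∈ Algebra.adjoin k (s : Set κ), IsUnit t ∧
      x * t ∈ Algebra.adjoin k (s : Set κ) := by
    have h : Algebra.EssFiniteType k κ := hfg
    rw [Algebra.essFiniteType_iff] at h
    exact h
  have hlift : ∀ x : κ, ∃ a : A, residue A a = x := residue_surjective
  choose ℓ hℓ using hlift
  refine ⟨hunit, ⟨s.image fun x => ψ (ℓ x), ?_, ?_⟩, ?_⟩
  · intro z hz
    obtain ⟨x, -, rfl⟩ := Finset.mem_image.1 hz
    exact ⟨ℓ x, rfl⟩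
  · set R0 := Subring.closure (Set.range (algebraMap k W) ∪
      ((s.image fun x => ψ (ℓ x) : Finset W) : Set W)) with hR0
    have key : ∀ t ∈ Algebra.adjoin k (s : Set κ), ∃ b : ball W, (b : W) ∈ R0 ∧
        residue (ball W) b = ψ' t := by
      intro t ht
      induction ht using Algebra.adjoin_induction with
      | mem x hx =>
        refine ⟨g (ℓ x), ?_, ?_⟩
        · refine Subring.subset_closure (Or.inr ?_)
          rw [Finset.mem_coe, Finset.mem_image]
          exact ⟨x, hx, rfl⟩
        · rw [← hψ', hℓ]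
      | algebraMap c =>
        refine ⟨rw_f hunit c, Subring.subset_closure (Or.inl ⟨c, rfl⟩), ?_⟩
        exact (hkW' c).symm
      | add x y _ _ hx hy =>
        obtain ⟨b, hb, hb'⟩ := hx
        obtain ⟨b1, hb1, hb1'⟩ := hy
        exact ⟨b + b1, add_mem hb hb1, by rw [map_add, map_add, hb', hb1']⟩
      | mul x y _ _ hx hy =>
        obtain ⟨b, hb, hb'⟩ := hx
        obtain ⟨b1, hb1, hb1'⟩ := hy
        exact ⟨b * b1, mul_mem hb hb1, by rw [map_mul, map_mul, hb', hb1']⟩
    rintro _ ⟨a, rfl⟩
    obtain ⟨t, ht, htu, hxt⟩ := hs (residue A a)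
    obtain ⟨b, hb, hb'⟩ := key t ht
    obtain ⟨b1, hb1, hb1'⟩ := key _ hxt
    have hbn : ‖(b : W)‖ = 1 := by
      refine le_antisymm b.2 (not_lt.1 fun h => ?_)
      rw [← rw_res_zero, hb'] at h
      exact htu.ne_zero (ψ'.injective (h.trans (map_zero ψ').symm))
    have hb0 : (b : W) ≠ 0 := by
      intro h
      rw [h, norm_zero] at hbn
      exact zero_ne_one hbn
    refine ⟨(b1 : W) / b, ⟨(b1 : W), hb1, (b : W), hb, (ball_val_eq_one _).2 hbn,
      div_mul_cancel₀ _ hb0⟩, ?_⟩
    have h1 : ‖((g a * b - b1 : ball W) : W)‖ < 1 := by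
      rw [← rw_res_zero, map_sub, map_mul, hb', hb1', ← hψ', map_mul, sub_self]
    have h2 : ψ a - (b1 : W) / b = (ψ a * b - b1) / b := by
      rw [sub_div, mul_div_cancel_right₀ _ hb0]
    rw [h2, norm_div, hbn, div_one]
    exact h1
  · obtain ⟨m, v, hv, hm⟩ := rw_basis s hs
    refine ⟨m, fun i => ψ (ℓ (v i)), fun i => ⟨ℓ (v i), rfl⟩, fun P hP => ?_, fun z hz hf => ?_⟩
    · have h1 : residue (ball W) (MvPolynomial.eval₂ (rw_f hunit) (fun i => g (ℓ (v i))) P) =
          ψ' (MvPolynomial.aeval v P) := by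
        rw [MvPolynomial.eval₂_comp_left, ← hkW, MvPolynomial.aeval_def,
          MvPolynomial.eval₂_comp_left]
        congr 1
        funext i
        change residue (ball W) (g (ℓ (v i))) = ψ' (v i)
        rw [← hψ', hℓ]
      have h2 : MvPolynomial.aeval v P ≠ 0 := by
        intro h
        rw [algebraicIndependent_iff] at hv
        exact hP (hv P h)
      have h3 : ‖((MvPolynomial.eval₂ (rw_f hunit) (fun i => g (ℓ (v i))) P : ball W) : W)‖
          = 1 := by
        refine le_antisymm
          (MvPolynomial.eval₂ (rw_f hunit) (fun i => g (ℓ (v i))) P : ball W).2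
          (not_lt.1 fun h => ?_)
        rw [← rw_res_zero, h1] at h
        exact h2 (ψ'.injective (h.trans (map_zero ψ').symm))
      rw [rw_ev] at h3
      exact h3
    · let z' : Fin (m + 1) → ball W := fun i => ⟨z i, hz i⟩
      have halg : ∀ i, IsAlgebraic κ (residue (ball W) (z' i)) := by
        intro i
        obtain ⟨f, ⟨n, hn⟩, hf1⟩ := hf i
        refine ⟨f.map (residue A), ?_, ?_⟩
        · intro h0
          have h1 := congrArg (fun P => Polynomial.coeff P n) h0
          simp only [Polynomial.coeff_map, Polynomial.coeff_zero] at h1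
          rw [residue_eq_zero_iff] at h1
          exact ((hψ _).2.1 h1).ne hn
        · have h1 : Polynomial.aeval (residue (ball W) (z' i)) (f.map (residue A)) =
              residue (ball W) (Polynomial.eval₂ g (z' i) f) := by
            rw [Polynomial.aeval_def, Polynomial.eval₂_map, Polynomial.hom_eval₂]
            rfl
          rw [h1, rw_res_zero]
          have h2 : ((Polynomial.eval₂ g (z' i) f : ball W) : W) =
              Polynomial.eval₂ ψ (z i) f := by
            have h3 := Polynomial.hom_eval₂ f g (ball W).subtype (z' i)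
            exact h3
          rw [h2]
          exact hf1
      let E := algebraicClosure κ κ'
      let y : Fin (m + 1) → E := fun i =>
        ⟨residue (ball W) (z' i), mem_algebraicClosure_iff.2 (halg i)⟩
      have : Algebra.IsAlgebraic κ E := algebraicClosure.isAlgebraic κ κ'
      have h1 : ¬ AlgebraicIndependent k y := rw_trd hm y
      rw [algebraicIndependent_iff] at h1
      push Not at h1
      obtain ⟨P, hP, hP0⟩ := h1
      refine ⟨P, hP0, ?_⟩
      have h2 : MvPolynomial.aeval (fun i => residue (ball W) (z' i)) P = 0 := by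
        have h3 := congrArg (fun w : E => (w : κ')) hP
        have h4 : ((MvPolynomial.aeval y P : E) : κ') =
            MvPolynomial.aeval (fun i => residue (ball W) (z' i)) P := by
          have h5 := MvPolynomial.eval₂_comp_left (algebraMap E κ') (algebraMap k E) y P
          rw [MvPolynomial.aeval_def, MvPolynomial.aeval_def]
          exact h5
        rw [← h4]
        exact h3
      have h3 : MvPolynomial.aeval (fun i => residue (ball W) (z' i)) P =
          residue (ball W) (MvPolynomial.eval₂ (rw_f hunit) z' P) := by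
        rw [MvPolynomial.eval₂_comp_left, MvPolynomial.aeval_def, ← hkW]
        rfl
      rw [h3, rw_res_zero, rw_ev] at h2
      exact h2

end Pool.Agent.Lib.TQ
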