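import Pool.Agent.Lib.TQ.KLift
import Pool.Agent.Lib.TQ.ResW
import Pool.Agent.Lib.TQ.CpB
import Pool.Agent.Lib.TU.AmbW

/-!
# Module WK: the ambient field of a local ring `A` of a field `K`
`range_eq_Cp`: the image of the completion of a noetherian local ring `C` in `W` is the completion `Cp B` of the image `B` of `C`: adapt the proof of
`exists_phiB` / `phi_range` (`TQ/CpB.lean`): for `t` in the completion choose `c n ∈ C` with `t - c n ∈ 𝔪 ^ n` (`sameCompletion_adicCompletion`, `IR_approx`), so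
`c (n + 1) - c n ∈ maximalIdeal C ^ n` (`SameCompletion.comap_pow`), `φ` maps `maximalIdeal C ^ n` into `mP B n`, and `φ (c n) → φ t`.  Conversely for `z = lim b n`,
`b (n + 1) - b n ∈ mP B n` is the image of an element of `maximalIdeal C ^ n` (`Dom`, surjectivity of `C → B`), sum the series in the completion.  (Or: the isomorphism of `C` with
`B`, if `C → B` is injective; here injectivity is not assumed.)

PROOF of `exists_WK`. `L0 := UniformSpace.Completion K` with the structures as in the proof of `TU.exists_ambW`, `j : K → L0` isometric with dense range, `L0` complete.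
`T :=` completion of `A`, `Abh.exists_lift_ball` / `Imp.exists_lift_subring`: `φ : T → L0`, `Dom φ`, `φ a = j a`.  `CharP T p` (`p = 0` in `A`, as `A ⊆ K`; `T` nontrivial).
`exists_lift_k` for `σ' : k → ResidueField A → ResidueField T` (`residue` of the local homomorphism `A → T`): `τ : k → T`.  `Algebra k L0 := (φ.comp τ).toAlgebra`.
`hσ` for `ψ := j ∘ A.subtype`: if `residue A a = σ b` then `τ b - a ∈ maximalIdeal T`, so its image has norm less than one.  `res_W` with `W := L0`: `m, v, G`.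
`AmbG r m k L0`: `unit` from `res_W`; `rank`: approximate the `z i` by elements of `K` (dense, nonzero, same norms), `hrank`; `res`: approximate the `z i` by elements `z' i` of `K`
(`‖z i - z' i‖ < 1`), `hres` for the `z' i`; `‖aeval z P - aeval z' P‖ < 1` (`ambW_sub_lt`).
`exists_ambW` for `L0`: `W, ι : L0 →ₐ[k] W` isometric.  `L := ι.fieldRange` is complete (`L0` is), so `cl ι.fieldRange = ι.fieldRange` (`cl_le_of_isComplete`).  `κ := ι ∘ j`.
`Nl L.toSubfield (A.map κ)`: `nt`: `K` is nontrivially normed; `inv`: units of `A`; `noeth`: image of a noetherian ring.  `hdens`: `j` has dense range, `hfrac`.  `algebraMap k W b = ι (φ (τ b))`,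
`range_eq_Cp` for `ι ∘ φ`.  `G`, `v` are mapped by `ι`.
-/

namespace Pool.Agent.Lib.TQ

open Pool.Agent.Lib.MP_3029eb_ag Pool.Agent.Lib.MP_3029eb_ag.Abh Pool.Agent.Lib.TDO
  Pool.Agent.Lib.TU IsLocalRing

private theorem wk_prec {T : Type} [CommRing T] [IsLocalRing T]
    [IsAdicComplete (maximalIdeal T) T] (f : ℕ → T)
    (hf : ∀ n, f (n + 1) - f n ∈ maximalIdeal T ^ n) :
    ∃ t, ∀ n, t - f n ∈ maximalIdeal T ^ n := by
  have h1 : ∀ m n, m ≤ n → f n - f m ∈ maximalIdeal T ^ m := by
    intro m n hmn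
    induction n, hmn using Nat.le_induction with
    | base => rw [sub_self]; exact zero_mem _
    | succ n hmn ih =>
      have h2 : f (n + 1) - f m = (f (n + 1) - f n) + (f n - f m) := by ring
      rw [h2]
      exact add_mem (Ideal.pow_le_pow_right hmn (hf n)) ih
  obtain ⟨t, ht⟩ := IsPrecomplete.prec' (I := maximalIdeal T) (M := T) f (by
    intro m n hmn
    rw [SModEq.sub_mem, smul_eq_mul, Ideal.mul_top, ← neg_sub]
    exact neg_mem (h1 m n hmn))
  refine ⟨t, fun n => ?_⟩
  have h2 := ht n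
  rw [SModEq.sub_mem, smul_eq_mul, Ideal.mul_top] at h2
  rw [← neg_sub]
  exact neg_mem h2

private theorem wk_tendsto {W : Type} [NormedField W] [IsUltrametricDist W] {T : Type}
    [CommRing T] [IsLocalRing T] [IsNoetherianRing T]
    (φ : T →+* W) (hφ : Dom φ) {z : W} {b : ℕ → W} (u : ℕ → T)
    (hu : ∀ n, u n ∈ maximalIdeal T ^ n) (hz : ∀ n, z - b n = φ (u n)) :
    Filter.Tendsto b Filter.atTop (nhds z) := by
  obtain ⟨q, hq0, hq1, hq⟩ := S13_pow_norm φ hφ
  rw [tendsto_iff_norm_sub_tendsto_zero]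
  refine squeeze_zero (fun n => norm_nonneg _) (fun n => ?_)
    (tendsto_pow_atTop_nhds_zero_of_lt_one hq0 hq1)
  rw [norm_sub_rev, hz n]
  exact hq n _ (hu n)

theorem range_eq_Cp {W : Type} [NormedField W] [IsUltrametricDist W] {X : Subfield W}
    {B : Subring W} (hB : Nl X B) {C : Type} [CommRing C] [IsLocalRing C] [IsNoetherianRing C]
    (φ : AdicCompletion (maximalIdeal C) C →+* W) (hφ : Dom φ)
    (h1 : ∀ c : C, φ (algebraMap C (AdicCompletion (maximalIdeal C) C) c) ∈ B)
    (h2 : ∀ b ∈ B, ∃ c : C, φ (algebraMap C (AdicCompletion (maximalIdeal C) C) c) = b) :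
    φ.range = Cp B := by
  have hι : SameCompletion (algebraMap C (AdicCompletion (maximalIdeal C) C)) :=
    sameCompletion_adicCompletion C
  have iTn : IsNoetherianRing (AdicCompletion (maximalIdeal C) C) := noetherian_adicCompletion C
  -- the map from `C` onto `B`
  let g : C →+* B := (φ.comp (algebraMap C (AdicCompletion (maximalIdeal C) C))).codRestrict B h1
  have hg : ∀ c, ((g c : B) : W) = φ (algebraMap C (AdicCompletion (maximalIdeal C) C) c) :=
    fun c => rfl
  have hgs : Function.Surjective g := by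
    rintro ⟨b, hb⟩
    obtain ⟨c, hc⟩ := h2 b hb
    exact ⟨c, Subtype.ext hc⟩
  have hloc : ∀ c : C, c ∈ maximalIdeal C ↔ ‖((g c : B) : W)‖ < 1 := by
    intro c
    rw [hg, ← (hφ _).2]
    refine ⟨hι.map_mem c, fun h => ?_⟩
    have h3 := hι.comap_pow 1 c (by rwa [pow_one])
    rwa [pow_one] at h3
  have hmI : mI B = (maximalIdeal C).map g := by
    unfold mI Ideal.map
    congr 1
    ext b
    constructor
    · intro hb
      obtain ⟨c, rfl⟩ := hgs b
      exact ⟨c, (hloc c).2 hb, rfl⟩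
    · rintro ⟨c, hc, rfl⟩
      exact (hloc c).1 hc
  have hmP : ∀ (n : ℕ) (z : W), z ∈ mP B n ↔ ∃ c ∈ maximalIdeal C ^ n,
      φ (algebraMap C (AdicCompletion (maximalIdeal C) C) c) = z := by
    intro n z
    constructor
    · rintro ⟨b, hb, rfl⟩
      rw [hmI, ← Ideal.map_pow] at hb
      obtain ⟨c, hc, hcb⟩ := (Ideal.mem_map_iff_of_surjective g hgs).1 hb
      exact ⟨c, hc, by rw [← hg, hcb]⟩
    · rintro ⟨c, hc, rfl⟩
      refine ⟨g c, ?_, rfl⟩
      rw [hmI, ← Ideal.map_pow]
      exact Ideal.mem_map_of_mem g hc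
  apply le_antisymm
  · rintro _ ⟨t, rfl⟩
    choose c hc using fun n => Imp.IR_approx _ hι t n
    refine Subring.subset_closure ⟨fun n => φ (algebraMap C _ (c n)), fun n => h1 (c n),
      fun n => ?_, ?_⟩
    · refine (hmP n _).2 ⟨c (n + 1) - c n, ?_, by rw [map_sub, map_sub]⟩
      apply hι.comap_pow
      have h3 : algebraMap C (AdicCompletion (maximalIdeal C) C) (c (n + 1) - c n) =
          (t - algebraMap C _ (c n)) - (t - algebraMap C _ (c (n + 1))) := by
        rw [map_sub]; ring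
      rw [h3]
      exact sub_mem (hc n) (Ideal.pow_le_pow_right (Nat.le_succ n) (hc (n + 1)))
    · refine wk_tendsto φ hφ (fun n => t - algebraMap C _ (c n)) hc fun n => ?_
      rw [map_sub]
  · unfold Cp
    rw [Subring.closure_le]
    rintro z ⟨b, hbB, hbd, hbz⟩
    obtain ⟨c0, hc0⟩ := h2 (b 0) (hbB 0)
    choose s hs hsφ using fun n => (hmP n _).1 (hbd n)
    have hmap : ∀ (n : ℕ) (a : C), a ∈ maximalIdeal C ^ n →
        algebraMap C (AdicCompletion (maximalIdeal C) C) a ∈
          maximalIdeal (AdicCompletion (maximalIdeal C) C) ^ n := by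
      intro n a ha
      have h3 : (maximalIdeal C ^ n).map (algebraMap C (AdicCompletion (maximalIdeal C) C)) ≤
          maximalIdeal (AdicCompletion (maximalIdeal C) C) ^ n := by
        rw [Ideal.map_pow]
        exact Ideal.pow_right_mono (Ideal.map_le_iff_le_comap.2 hι.map_mem) n
      exact h3 (Ideal.mem_map_of_mem _ ha)
    obtain ⟨t, ht⟩ := wk_prec (T := AdicCompletion (maximalIdeal C) C)
      (fun n => algebraMap C _ (c0 + ∑ i ∈ Finset.range n, s i)) (by
        intro n
        rw [← map_sub]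
        apply hmap
        rw [Finset.sum_range_succ]
        have h3 : c0 + (∑ i ∈ Finset.range n, s i + s n) - (c0 + ∑ i ∈ Finset.range n, s i) =
          s n := by ring
        rw [h3]
        exact hs n)
    have hφb : ∀ n, φ (algebraMap C _ (c0 + ∑ i ∈ Finset.range n, s i)) = b n := by
      intro n
      induction n with
      | zero => simpa using hc0
      | succ n ih =>
        rw [Finset.sum_range_succ, ← add_assoc, map_add, map_add, ih, hsφ n]
        ring
    refine ⟨t, tendsto_nhds_unique (wk_tendsto φ hφ _ ht fun n => ?_) hbz⟩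
    rw [map_sub, hφb]

private theorem wk_norm_mon {L : Type} [NormedField L] {r : ℕ} (u : Fin r → L)
    (a : Fin r → ℤ) : ‖mon u a‖ = ∏ i, ‖u i‖ ^ a i := by
  unfold mon
  rw [norm_prod]
  exact Finset.prod_congr rfl fun i _ => norm_zpow _ _

private theorem wk_le_one {k W : Type} [Field k] [NormedField W] [IsUltrametricDist W]
    [Algebra k W] (hu : ∀ c : k, c ≠ 0 → ‖algebraMap k W c‖ = 1) (c : k) :
    ‖algebraMap k W c‖ ≤ 1 := by
  by_cases hc : c = 0
  · rw [hc, map_zero, norm_zero]; exact zero_le_one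
  · exact (hu c hc).le

private theorem wk_sub_lt {k W : Type} [Field k] [NormedField W] [IsUltrametricDist W]
    [Algebra k W] (hu : ∀ c : k, c ≠ 0 → ‖algebraMap k W c‖ = 1) {n : ℕ} (z f : Fin n → W)
    (hz : ∀ i, ‖z i‖ ≤ 1) (hf : ∀ i, ‖f i‖ ≤ 1) (hd : ∀ i, ‖z i - f i‖ < 1)
    (P : MvPolynomial (Fin n) k) : ‖MvPolynomial.aeval f P‖ ≤ 1 ∧
      ‖MvPolynomial.aeval z P - MvPolynomial.aeval f P‖ < 1 := by
  induction P using MvPolynomial.induction_on with
  | C c =>
    rw [MvPolynomial.aeval_C, MvPolynomial.aeval_C, sub_self, norm_zero]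
    exact ⟨wk_le_one hu c, one_pos⟩
  | add p q hp hq =>
    rw [map_add, map_add]
    refine ⟨(IsUltrametricDist.norm_add_le_max _ _).trans (max_le hp.1 hq.1), ?_⟩
    rw [add_sub_add_comm]
    exact (IsUltrametricDist.norm_add_le_max _ _).trans_lt (max_lt hp.2 hq.2)
  | mul_X p i hp =>
    rw [map_mul, map_mul, MvPolynomial.aeval_X, MvPolynomial.aeval_X]
    refine ⟨?_, ?_⟩
    · rw [norm_mul]
      exact mul_le_one₀ hp.1 (norm_nonneg _) (hf i)
    · have h1 : MvPolynomial.aeval z p * z i - MvPolynomial.aeval f p * f i =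
          (MvPolynomial.aeval z p - MvPolynomial.aeval f p) * z i +
            MvPolynomial.aeval f p * (z i - f i) := by ring
      rw [h1]
      refine (IsUltrametricDist.norm_add_le_max _ _).trans_lt (max_lt ?_ ?_)
      · rw [norm_mul]
        exact (mul_le_of_le_one_right (norm_nonneg _) (hz i)).trans_lt hp.2
      · rw [norm_mul]
        exact (mul_le_of_le_one_left (norm_nonneg _) hp.1).trans_lt (hd i)

private theorem wk_ultra {F : Type} [NormedField F] [IsUltrametricDist F] :
    IsUltrametricDist (UniformSpace.Completion F) := by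
  refine IsUltrametricDist.isUltrametricDist_of_forall_norm_add_le_max_norm fun x y => ?_
  refine UniformSpace.Completion.induction_on₂ x y ?_ fun a b => ?_
  · exact isClosed_le ((continuous_fst.add continuous_snd).norm)
      (continuous_fst.norm.max continuous_snd.norm)
  · rw [← UniformSpace.Completion.coe_add, UniformSpace.Completion.norm_coe,
      UniformSpace.Completion.norm_coe, UniformSpace.Completion.norm_coe]
    exact IsUltrametricDist.norm_add_le_max a b

/-- The constants of the completion: everything happens in a complete field `L0` in which `K` is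
dense. -/
private theorem wk_L0 (p : ℕ) [Fact p.Prime] {k : Type} [Field k] [PerfectField k] {K : Type}
    [NontriviallyNormedField K] [CharP K p] (A : Subring K) [IsLocalRing A]
    [IsNoetherianRing A] (hA : Dom A.subtype) (σ : k →+* ResidueField A)
    {L0 : Type} [NontriviallyNormedField L0] [IsUltrametricDist L0] [CompleteSpace L0]
    (j : K →+* L0) (hj : ∀ z, ‖j z‖ = ‖z‖) :
    ∃ (f : k →+* L0) (φ : AdicCompletion (maximalIdeal A) A →+* L0), Dom φ ∧
      (∀ a : A, φ (algebraMap A (AdicCompletion (maximalIdeal A) A) a) = j a) ∧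
      (∀ b, f b ∈ φ.range) ∧
      ∀ (b : k) (a : A), residue A a = σ b → ‖f b - j a‖ < 1 := by
  have hι : SameCompletion (algebraMap A (AdicCompletion (maximalIdeal A) A)) :=
    sameCompletion_adicCompletion A
  obtain ⟨φ, hφ, hφ1⟩ := exists_lift_ball A (L := L0) (j.comp A.subtype) (by
    intro a
    rw [RingHom.comp_apply, hj]
    exact hA a)
  have hφa : ∀ a : A, φ (algebraMap A (AdicCompletion (maximalIdeal A) A) a) = j a := by
    intro a
    have h1 := congrArg (fun g => g a) hφ1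
    simp only [RingHom.comp_apply] at h1
    exact h1
  have hchar : CharP (AdicCompletion (maximalIdeal A) A) p := by
    rw [CharP.charP_iff_prime_eq_zero (Fact.out : p.Prime)]
    have h1 : (p : A) = 0 := by
      apply Subtype.ext
      push_cast
      exact CharP.cast_eq_zero K p
    rw [← map_natCast (algebraMap A (AdicCompletion (maximalIdeal A) A)), h1, map_zero]
  have hloc : IsLocalHom (algebraMap A (AdicCompletion (maximalIdeal A) A)) := by
    refine ⟨fun a ha => ?_⟩
    by_contra hna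
    exact (hι.map_mem a hna) ha
  obtain ⟨τ, hτ⟩ := exists_lift_k p (AdicCompletion (maximalIdeal A) A)
    ((ResidueField.map (algebraMap A (AdicCompletion (maximalIdeal A) A))).comp σ)
  refine ⟨φ.comp τ, φ, hφ, hφa, fun b => ⟨τ b, rfl⟩, fun b a hba => ?_⟩
  rw [RingHom.comp_apply, ← hφa, ← map_sub]
  refine ((hφ _).2).1 ?_
  rw [← residue_eq_zero_iff, map_sub, hτ, RingHom.comp_apply, ← hba, ResidueField.map_residue,
    sub_self]

theorem exists_WK (p : ℕ) [Fact p.Prime] {k : Type} [Field k] [PerfectField k] {K : Type}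
    [NontriviallyNormedField K] [IsUltrametricDist K] [CharP K p] (A : Subring K) [IsLocalRing A]
    [IsNoetherianRing A] (hA : Dom A.subtype)
    (hfrac : ∀ z : K, ∃ a ∈ A, ∃ b ∈ A, b ≠ 0 ∧ z * b = a) (σ : k →+* ResidueField A)
    (hfg : EFT σ) {r : ℕ}
    (hrank : ∀ z : Fin (r + 1) → K, (∀ i, z i ≠ 0) →
      ∃ a : Fin (r + 1) → ℤ, a ≠ 0 ∧ ‖mon z a‖ = 1)
    (hres : ∀ z : K, ‖z‖ ≤ 1 → ∃ f : Polynomial A, (∃ n, ‖((f.coeff n : A) : K)‖ = 1) ∧
      ‖Polynomial.eval₂ A.subtype z f‖ < 1) :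
    ∃ (m : ℕ) (W : Type) (_ : NontriviallyNormedField W) (_ : IsUltrametricDist W)
      (_ : Algebra k W) (_ : IsAlgClosed W) (L : IntermediateField k W) (κ : K →+* W),
      (∀ z, ‖κ z‖ = ‖z‖) ∧ (∀ z, κ z ∈ L) ∧ AmbG r m k W ∧ (∀ z : W, IsAlgebraic L z) ∧
      Nl L.toSubfield (A.map κ) ∧
      (∀ z ∈ L, ∀ ε : ℝ, 0 < ε → ∃ a ∈ A.map κ, ∃ b ∈ A.map κ, b ≠ 0 ∧ ‖z - a / b‖ < ε) ∧
      (∀ b : k, algebraMap k W b ∈ Cp (A.map κ)) ∧
      (∃ G : Finset W, (∀ g ∈ G, g ∈ A.map κ) ∧ ∀ z ∈ A.map κ,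
        ∃ a ∈ locV (ball W) (Subring.closure (Set.range (algebraMap k W) ∪ (G : Set W))),
          ‖z - a‖ < 1) ∧
      ∃ v : Fin m → W, (∀ i, v i ∈ A.map κ) ∧
        ∀ P : MvPolynomial (Fin m) k, P ≠ 0 → ‖MvPolynomial.aeval v P‖ = 1 := by
  let L0 := UniformSpace.Completion K
  let j : K →+* L0 := UniformSpace.Completion.coeRingHom
  have hj : ∀ z, ‖j z‖ = ‖z‖ := fun z => UniformSpace.Completion.norm_coe z
  let nf : NontriviallyNormedField L0 :=
    { (inferInstance : NormedField L0) with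
      non_trivial := by
        obtain ⟨x, hx⟩ := NontriviallyNormedField.non_trivial (α := K)
        exact ⟨j x, by rw [hj]; exact hx⟩ }
  have hu : IsUltrametricDist L0 := wk_ultra
  have hd : ∀ z : L0, ∀ ε : ℝ, 0 < ε → ∃ f : K, ‖z - j f‖ < ε := by
    intro z ε hε
    obtain ⟨f, hf⟩ := (Metric.denseRange_iff.mp
      (UniformSpace.Completion.denseRange_coe (α := K))) z ε hε
    exact ⟨f, by rw [← dist_eq_norm]; exact hf⟩
  obtain ⟨f, φ, hφ, hφa, hfφ, hσ⟩ := wk_L0 p A hA σ (L0 := L0) j hj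
  let alg : Algebra k L0 := f.toAlgebra
  have halg : ∀ b : k, algebraMap k L0 b = f b := fun b => rfl
  have hψ : Dom (j.comp A.subtype) := by
    intro a
    rw [RingHom.comp_apply, hj]
    exact hA a
  obtain ⟨hunit, ⟨G0, hG0, hG0'⟩, m, v0, hv0, hv0', hdep⟩ :=
    res_W (k := k) (W := L0) (j.comp A.subtype) hψ σ hfg (by
      intro b a hba
      exact hσ b a hba)
  have hamb0 : AmbG r m k L0 := by
    refine ⟨hunit, fun z hz => ?_, fun z hz => ?_⟩
    · have h1 : ∀ i, ∃ f : K, ‖z i - j f‖ < ‖z i‖ := fun i => hd (z i) _ (norm_pos_iff.mpr (hz i))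
      choose f' hf' using h1
      have h2 : ∀ i, ‖f' i‖ = ‖z i‖ := by
        intro i
        rw [← hj]
        have h3 : j (f' i) = z i + -(z i - j (f' i)) := by ring
        rw [h3]
        have h4 : ‖-(z i - j (f' i))‖ < ‖z i‖ := by rw [norm_neg]; exact hf' i
        rw [IsUltrametricDist.norm_add_eq_max_of_norm_ne_norm h4.ne']
        exact max_eq_left h4.le
      obtain ⟨a, ha, ha1⟩ := hrank f' fun i => norm_pos_iff.mp (by
        rw [h2]; exact norm_pos_iff.mpr (hz i))
      refine ⟨a, ha, ?_⟩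
      rw [wk_norm_mon] at ha1 ⊢
      rw [← ha1]
      exact Finset.prod_congr rfl fun i _ => by rw [h2]
    · have h1 : ∀ i, ∃ f : K, ‖z i - j f‖ < 1 := fun i => hd (z i) 1 one_pos
      choose f' hf' using h1
      have h2 : ∀ i, ‖f' i‖ ≤ 1 := by
        intro i
        rw [← hj]
        have h3 : j (f' i) = z i + -(z i - j (f' i)) := by ring
        rw [h3]
        exact (IsUltrametricDist.norm_add_le_max _ _).trans
          (max_le (hz i) (by rw [norm_neg]; exact (hf' i).le))
      have h2' : ∀ i, ‖j (f' i)‖ ≤ 1 := fun i => by rw [hj]; exact h2 i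
      obtain ⟨P, hP, hP1⟩ := hdep (fun i => j (f' i)) h2' (by
        intro i
        obtain ⟨g, ⟨n, hn⟩, hg⟩ := hres (f' i) (h2 i)
        refine ⟨g, ⟨n, ?_⟩, ?_⟩
        · rw [RingHom.comp_apply, hj]
          exact hn
        · rw [← Polynomial.hom_eval₂, hj]
          exact hg)
      refine ⟨P, hP, ?_⟩
      have h3 := (wk_sub_lt hunit z (fun i => j (f' i)) hz h2' hf' P).2
      have h5 : MvPolynomial.aeval z P = (MvPolynomial.aeval z P -
          MvPolynomial.aeval (fun i => j (f' i)) P) + MvPolynomial.aeval (fun i => j (f' i)) P := by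
        ring
      rw [h5]
      exact (IsUltrametricDist.norm_add_le_max _ _).trans_lt (max_lt h3 hP1)
  obtain ⟨W, nfW, huW, algW, hac, ι, hι, hamb, hcomp, halgW⟩ := exists_ambW (k := k) (F := L0) hamb0
  have hιL : ∀ z, ι z ∈ (cl ι.fieldRange : IntermediateField k W) := by
    intro z
    rw [mem_cl_iff]
    exact fun ε hε => ⟨ι z, ⟨z, rfl⟩, by rw [sub_self, norm_zero]; exact hε⟩
  let κ : K →+* W := (ι : L0 →+* W).comp j
  have hκ : ∀ z, κ z = ι (j z) := fun z => rfl
  have hκn : ∀ z, ‖κ z‖ = ‖z‖ := fun z => by rw [hκ, hι, hj]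
  have hκL : ∀ z, κ z ∈ (cl ι.fieldRange : IntermediateField k W) := fun z => hιL (j z)
  have hnl : Nl (cl ι.fieldRange : IntermediateField k W).toSubfield (A.map κ) := by
    refine ⟨hcomp, ?_, ?_, ?_, ?_, ?_⟩
    · obtain ⟨z, hz0, hz1⟩ := NormedField.exists_norm_lt_one K
      exact ⟨κ z, hκL z, norm_pos_iff.1 (by rw [hκn]; exact hz0), by rw [hκn]; exact hz1⟩
    · rintro _ ⟨a, -, rfl⟩
      exact hκL a
    · rintro _ ⟨a, ha, rfl⟩
      rw [hκn]
      exact (hA ⟨a, ha⟩).1
    · rintro _ ⟨a, ha, rfl⟩ h1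
      rw [hκn] at h1
      have h2 : IsUnit (⟨a, ha⟩ : A) := by
        by_contra h3
        have h4 := ((hA ⟨a, ha⟩).2).1 h3
        have h5 : ‖a‖ < 1 := h4
        linarith
      obtain ⟨b, hb⟩ := h2.exists_right_inv
      have hb' : a * (b : K) = 1 := congrArg Subtype.val hb
      refine ⟨b, b.2, ?_⟩
      have h6 : κ a * κ b = 1 := by rw [← map_mul, hb', map_one]
      exact eq_inv_of_mul_eq_one_right h6
    · exact isNoetherianRing_of_ringEquiv A (A.equivMapOfInjective κ κ.injective)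
  have hCp : (((ι : L0 →+* W).comp φ)).range = Cp (A.map κ) := by
    refine range_eq_Cp hnl _ (fun t => ?_) (fun a => ?_) ?_
    · rw [RingHom.comp_apply]
      have h1 : ‖(ι : L0 →+* W) (φ t)‖ = ‖φ t‖ := hι (φ t)
      rw [h1]
      exact hφ t
    · rw [RingHom.comp_apply, hφa]
      exact ⟨a, a.2, rfl⟩
    · rintro _ ⟨a, ha, rfl⟩
      refine ⟨⟨a, ha⟩, ?_⟩
      rw [RingHom.comp_apply, hφa]
      rfl
  refine ⟨m, W, nfW, huW, algW, hac, cl ι.fieldRange, κ, hκn, hκL, hamb, halgW, hnl, ?_, ?_, ?_, ?_⟩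
  · intro z hz ε hε
    obtain ⟨w, ⟨w0, hw0⟩, hw⟩ := (mem_cl_iff _ _).1 hz ε hε
    obtain ⟨y, hy⟩ := hd w0 ε hε
    obtain ⟨a, ha, b, hb, hb0, hab⟩ := hfrac y
    refine ⟨κ a, ⟨a, ha, rfl⟩, κ b, ⟨b, hb, rfl⟩, (_root_.map_ne_zero κ).2 hb0, ?_⟩
    have h1 : κ a / κ b = κ y := by
      rw [← hab, map_mul, mul_div_cancel_right₀ _ ((_root_.map_ne_zero κ).2 hb0)]
    rw [h1]
    have hw0' : ι w0 = w := hw0
    have h2 : z - κ y = (z - w) + ι (w0 - j y) := by
      rw [map_sub, hκ, hw0']
      ring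
    rw [h2]
    refine (IsUltrametricDist.norm_add_le_max _ _).trans_lt (max_lt hw ?_)
    rw [hι]
    exact hy
  · intro b
    rw [← hCp]
    obtain ⟨t, ht⟩ := hfφ b
    refine ⟨t, ?_⟩
    rw [RingHom.comp_apply, ht, ← halg]
    exact ι.commutes b
  · classical
    refine ⟨G0.image ι, ?_, ?_⟩
    · intro g hg
      obtain ⟨g0, hg0, rfl⟩ := Finset.mem_image.1 hg
      obtain ⟨a, ha⟩ := hG0 g0 hg0
      exact ⟨a, a.2, by rw [← ha]; rfl⟩
    · rintro _ ⟨a, ha, rfl⟩
      obtain ⟨y, ⟨y1, hy1, y2, hy2, hy3, hy4⟩, hy⟩ := hG0' _ ⟨⟨a, ha⟩, rfl⟩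
      have hmap : ∀ x ∈ Subring.closure (Set.range (algebraMap k L0) ∪ (G0 : Set L0)),
          ι x ∈ Subring.closure (Set.range (algebraMap k W) ∪ ((G0.image ι : Finset W) : Set W)) := by
        intro x hx
        have h1 : Subring.closure (Set.range (algebraMap k L0) ∪ (G0 : Set L0)) ≤
            (Subring.closure (Set.range (algebraMap k W) ∪
              ((G0.image ι : Finset W) : Set W))).comap (ι : L0 →+* W) := by
          rw [Subring.closure_le]
          rintro x (⟨c, rfl⟩ | hx)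
          · exact Subring.subset_closure (Or.inl ⟨c, (ι.commutes c).symm⟩)
          · exact Subring.subset_closure (Or.inr (Finset.mem_coe.2
              (Finset.mem_image_of_mem ι (Finset.mem_coe.1 hx))))
        exact h1 hx
      refine ⟨ι y, ⟨ι y1, hmap y1 hy1, ι y2, hmap y2 hy2, ?_, ?_⟩, ?_⟩
      · rw [ball_val_eq_one] at hy3 ⊢
        rw [hι]
        exact hy3
      · rw [← map_mul, hy4]
      · have h1 : κ a - ι y = ι (j a - y) := by rw [map_sub, hκ]
        rw [h1, hι]
        exact hy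
  · refine ⟨fun i => ι (v0 i), fun i => ?_, fun P hP => ?_⟩
    · obtain ⟨a, ha⟩ := hv0 i
      refine ⟨a, a.2, ?_⟩
      show κ a = ι (v0 i)
      rw [← ha]
      rfl
    · have h1 : MvPolynomial.aeval (fun i => ι (v0 i)) P = ι (MvPolynomial.aeval v0 P) := by
        rw [← MvPolynomial.comp_aeval_apply]
      rw [h1, hι]
      exact hv0' P hP

end Pool.Agent.Lib.TQ
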