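import Pool.Agent.Lib.TQ.KerT
import Pool.Agent.Lib.MP_3029eb_ag.ImpDim
import Pool.Agent.Lib.MP_3029eb_ag.AbhJ8

/-!
# Module DimL: lower bound for the dimension of a local blowing up
Adapt `Imp.ID_abs` and `Imp.dim_lower` (`MP_3029eb_ag/ImpDim.lean`), where the conclusion is `dim T_I + r ≤ dim A'` for `r` elements of
`A'` with independent values: there the term `r` is a lower bound for `dim (B_N / p B_N)` (`ID_quot`); here it is replaced by
the hypothesis `ρ ≤ dim (Cp A')`, as follows.  With the notation of `ID_abs` (`T` the completion of `A`, `TP = T_I`, `I = ker φ`, `K` the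
fraction field of `A` (take `K := ↥(Subfield.closure A)`), `B0 = T[g] ⊆ TP`, `N` the centre of the norm on `B0`, `p0` the kernel of
`B0 → W`): `C := (B0)_N`, `C / p0 C` is isomorphic to the subring `O := locV (ball W) (closure (Cp A ∪ g))` of `W`, a noetherian local
ring (`Nl.adjoin`), and `dim O ≥ dim (Cp O)` (`Cp O` is a quotient of the completion of `O`, `phi_range`,
`ringKrullDim_adicCompletion` as used in `ImpDim`), `Cp O = Cp A'` as `A' ≤ O ≤ Cp A'` (`Cp_mono`), so `dim (C / p0 C) ≥ ρ`.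
And `dim A' ≥ dim C ≥ height (p0 C) + dim (C / p0 C) ≥ dim TP + ρ` as in `ID_abs`.
-/

namespace Pool.Agent.Lib.TQ

open Pool.Agent.Lib.MP_3029eb_ag Pool.Agent.Lib.MP_3029eb_ag.Abh Pool.Agent.Lib.TDO
  Pool.Agent.Lib.TU IsLocalRing

section Abs

variable {L : Type} [NormedField L] [IsUltrametricDist L]
  {T TP : Type} [CommRing T] [CommRing TP]
  (Φ : TP →+* L) (θ : T →+* TP) {g : Finset L} (κ : {z // z ∈ g} → TP)

/-- the ring `T[g]` inside `TP` -/
private noncomputable def dlB : Subring TP := (MvPolynomial.eval₂Hom θ κ).range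

omit [IsUltrametricDist L] in
private theorem dlB_noeth [IsNoetherianRing T] : IsNoetherianRing (dlB θ κ) :=
  isNoetherianRing_of_surjective (MvPolynomial {z // z ∈ g} T) (dlB θ κ)
    (RingHom.rangeRestrict _) (RingHom.rangeRestrict_surjective _)

omit [IsUltrametricDist L] in
private theorem dlθ_mem (t : T) : θ t ∈ dlB θ κ :=
  ⟨MvPolynomial.C t, by rw [MvPolynomial.coe_eval₂Hom, MvPolynomial.eval₂_C]⟩

omit [IsUltrametricDist L] in
private theorem dlκ_mem (z : {z // z ∈ g}) : κ z ∈ dlB θ κ :=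
  ⟨MvPolynomial.X z, by rw [MvPolynomial.coe_eval₂Hom, MvPolynomial.eval₂_X]⟩

variable {θ κ Φ}

omit [IsUltrametricDist L] in
/-- induction principle -/
private theorem dlB_induction {p : TP → Prop} (hT : ∀ t, p (θ t)) (hadd : ∀ a b, a ∈ dlB θ κ →
    b ∈ dlB θ κ → p a → p b → p (a + b))
    (hmul : ∀ a, ∀ z : {z // z ∈ g}, a ∈ dlB θ κ → p a → p (a * κ z)) {b : TP}
    (hb : b ∈ dlB θ κ) : p b := by
  obtain ⟨q, rfl⟩ := hb
  induction q using MvPolynomial.induction_on with
  | C a => rw [MvPolynomial.coe_eval₂Hom, MvPolynomial.eval₂_C]; exact hT a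
  | add p q hp hq => rw [map_add]; exact hadd _ _ ⟨p, rfl⟩ ⟨q, rfl⟩ hp hq
  | mul_X p i hp =>
    rw [map_mul, MvPolynomial.eval₂Hom_X']
    exact hmul _ i ⟨p, rfl⟩ hp

end Abs

/-- the abstract form -/
private theorem dl_abs {L : Type} [NormedField L] [IsUltrametricDist L] (A : Subring L)
    [IsLocalRing A] [IsNoetherianRing A] (hA : Dom A.subtype) (T : Type) [CommRing T]
    [IsLocalRing T] [IsNoetherianRing T] (ι : A →+* T) (hι : SameCompletion ι) (φ : T →+* L)
    (hφ : Dom φ) (TP : Type) [CommRing TP] [IsLocalRing TP] (Φ : TP →+* L)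
    (hΦ : ∀ z, z ∈ maximalIdeal TP ↔ Φ z = 0) (θ : T →+* TP) (hθφ : ∀ t, Φ (θ t) = φ t)
    (hθ : ∀ z, ∃ t s, θ s ∉ maximalIdeal TP ∧ z * θ s = θ t)
    (g : Finset L) (hg : ∀ z ∈ g, ‖z‖ ≤ 1) (B : Subring L)
    (hB : B = Subring.closure ((A : Set L) ∪ (g : Set L))) (κ : B →+* TP)
    (hκ : ∀ z, Φ (κ z) = z)
    (hκι : ∀ (a : A) (ha : (a : L) ∈ B), κ ⟨a, ha⟩ = θ (ι a)) (ρ : ℕ)
    (hρ : (ρ : WithBot ℕ∞) ≤
      ringKrullDim (locV (ball L) (Subring.closure ((φ.range : Set L) ∪ (g : Set L))))) :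
    ringKrullDim TP + ρ ≤ ringKrullDim (locV (ball L) B) := by
  have hAball : ∀ a ∈ A, ‖a‖ ≤ 1 := fun a ha => (hA ⟨a, ha⟩).1
  have hBV : B ≤ (ball L).toSubring := by
    rw [hB, Subring.closure_le]
    rintro z (hz | hz)
    · exact hAball z hz
    · exact hg z hz
  have hAB : ∀ a ∈ A, a ∈ B := fun a ha => by
    rw [hB]; exact Subring.subset_closure (Or.inl ha)
  have hgB : ∀ a ∈ g, a ∈ B := fun a ha => by
    rw [hB]; exact Subring.subset_closure (Or.inr ha)
  have hBn : IsNoetherianRing B := by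
    rw [hB]; exact isNoetherianRing_closure g
  have hA'n : IsNoetherianRing (locV (ball L) B) := isNoetherianRing_locV (ball L)
  have hA'l : IsLocalRing (locV (ball L) B) := isLocalRing_locV (ball L) hBV
  -- the ring `B0 = T[g]` in `TP`
  obtain ⟨κg, hκg⟩ : ∃ κg : {z // z ∈ g} → TP, ∀ z, κg z = κ ⟨z, hgB z z.2⟩ := ⟨_, fun _ => rfl⟩
  set B0 := dlB θ κg with hB0
  have hB0n : IsNoetherianRing B0 := dlB_noeth θ κg
  have hB0norm : ∀ b ∈ B0, ‖Φ b‖ ≤ 1 := by
    intro b hb
    refine dlB_induction (p := fun b => ‖Φ b‖ ≤ 1) ?_ ?_ ?_ hb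
    · intro t
      rw [hθφ]
      exact (hφ t).1
    · intro a b _ _ ha hb
      rw [map_add]
      exact (IsUltrametricDist.norm_add_le_max _ _).trans (max_le ha hb)
    · intro a z _ ha
      rw [map_mul, norm_mul, hκg, hκ]
      exact mul_le_one₀ ha (norm_nonneg _) (hg z z.2)
  have hκB : ∀ z : B, κ z ∈ B0 := by
    have key : ∀ z ∈ Subring.closure ((A : Set L) ∪ (g : Set L)), ∀ hz : z ∈ B,
        κ ⟨z, hz⟩ ∈ B0 := by
      intro z hz
      induction hz using Subring.closure_induction with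
      | mem x hx =>
        intro hxB
        rcases hx with hx | hx
        · rw [hκι ⟨x, hx⟩ hxB]
          exact dlθ_mem θ κg _
        · have h2 : κ ⟨x, hxB⟩ = κg ⟨x, hx⟩ := (hκg ⟨x, hx⟩).symm
          rw [h2]
          exact dlκ_mem θ κg _
      | zero =>
        intro hz
        have : (⟨0, hz⟩ : B) = 0 := rfl
        rw [this, map_zero]; exact zero_mem _
      | one =>
        intro hz
        have : (⟨1, hz⟩ : B) = 1 := rfl
        rw [this, map_one]; exact one_mem _
      | add x y hx hy h1 h2 =>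
        intro hz
        rw [← hB] at hx hy
        have : (⟨x + y, hz⟩ : B) = ⟨x, hx⟩ + ⟨y, hy⟩ := rfl
        rw [this, map_add]; exact add_mem (h1 hx) (h2 hy)
      | neg x hx h1 =>
        intro hz
        rw [← hB] at hx
        have : (⟨-x, hz⟩ : B) = -⟨x, hx⟩ := rfl
        rw [this, map_neg]; exact neg_mem (h1 hx)
      | mul x y hx hy h1 h2 =>
        intro hz
        rw [← hB] at hx hy
        have : (⟨x * y, hz⟩ : B) = ⟨x, hx⟩ * ⟨y, hy⟩ := rfl
        rw [this, map_mul]; exact mul_mem (h1 hx) (h2 hy)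
    intro z
    exact key z (hB ▸ z.2) z.2
  -- the centre
  let ψ : B0 →+* L := Φ.comp B0.subtype
  have hψ : ∀ b : B0, ψ b = Φ b := fun b => rfl
  let ψb : B0 →+* (ball L).toSubring :=
    ψ.codRestrict (ball L).toSubring (fun b => hB0norm b b.2)
  let N : Ideal B0 := (maximalIdeal (ball L)).comap ψb
  have hNp : N.IsPrime := Ideal.comap_isPrime _ _
  have hmemN : ∀ b : B0, b ∈ N ↔ ‖Φ b‖ < 1 := by
    intro b
    rw [← Imp.ID_lt_iff]
    exact (ball L).valuation_lt_one_iff (ψb b)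
  have hcompl : ∀ b : N.primeCompl, ‖Φ (b : B0)‖ = 1 := by
    intro b
    refine le_antisymm (hB0norm _ (b : B0).2) (not_lt.1 fun h => b.2 ((hmemN _).2 h))
  -- the kernel
  let p0 : Ideal B0 := RingHom.ker ψ
  have hp0 : p0.IsPrime := RingHom.ker_isPrime ψ
  have hmem0 : ∀ b : B0, b ∈ p0 ↔ Φ b = 0 := fun b => RingHom.mem_ker
  have hloc0 : IsLocalization.AtPrime TP p0 := by
    refine ⟨⟨fun y => ?_, fun z => ?_, fun {a b} hab => ⟨1, ?_⟩⟩⟩
    · by_contra hu
      have h1 : algebraMap B0 TP y ∈ maximalIdeal TP := hu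
      exact y.2 ((hmem0 _).2 ((hΦ _).1 h1))
    · obtain ⟨t, s, hs, hz⟩ := hθ z
      refine ⟨(⟨θ t, dlθ_mem θ κg t⟩, ⟨⟨θ s, dlθ_mem θ κg s⟩, ?_⟩), hz⟩
      intro h
      exact hs ((hΦ _).2 ((hmem0 _).1 h))
    · rw [Subtype.ext (show (a : TP) = b from hab)]
  have hdimTP : ringKrullDim TP = p0.height := IsLocalization.AtPrime.ringKrullDim_eq_height p0 TP
  -- the localization at the centre
  let C := Localization.AtPrime N
  have hCn : IsNoetherianRing C :=
    IsLocalization.isNoetherianRing N.primeCompl C hB0n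
  have hunit : ∀ y : N.primeCompl, IsUnit (ψ y) := by
    intro y
    refine isUnit_iff_ne_zero.2 fun h => ?_
    have h1 := hcompl y
    rw [hψ] at h
    rw [h, norm_zero] at h1
    exact zero_ne_one h1
  let Ψ : C →+* L := IsLocalization.lift (M := N.primeCompl) hunit
  have hΨ : ∀ b : B0, Ψ (algebraMap B0 C b) = Φ b := fun b => IsLocalization.lift_eq hunit b
  have hΨdom : Dom Ψ := by
    intro c
    obtain ⟨b, s, rfl⟩ := IsLocalization.exists_mk'_eq N.primeCompl c
    have h1 : ‖Ψ (IsLocalization.mk' C b s)‖ = ‖Φ b‖ := by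
      have h2 := congrArg Ψ (IsLocalization.mk'_spec C b s)
      rw [map_mul, hΨ, hΨ] at h2
      rw [← h2, norm_mul, hcompl s, mul_one]
    rw [h1, IsLocalization.AtPrime.mk'_mem_maximal_iff C N b s, hmemN]
    exact ⟨hB0norm b b.2, Iff.rfl⟩
  -- heights
  have hΨp : (RingHom.ker Ψ).IsPrime := RingHom.ker_isPrime Ψ
  have hheight : (RingHom.ker Ψ).height = p0.height := by
    rw [← IsLocalization.height_under N.primeCompl (RingHom.ker Ψ)]
    congr 1
    ext b
    rw [Ideal.mem_comap, RingHom.mem_ker, hΨ, hmem0]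
  have hsum := C3.height_add_le (RingHom.ker Ψ)
  -- the map from `A'`
  let u : B →+* C := (algebraMap B0 C).comp (κ.codRestrict B0 hκB)
  have hu : ∀ b : B, Ψ (u b) = b := by
    intro b
    show Ψ (algebraMap B0 C ⟨κ b, hκB b⟩) = b
    rw [hΨ]
    exact hκ b
  let := (Subring.inclusion (C3.le_loc (ball L) B)).toAlgebra
  have hlocB := C3.isLocalization (ball L) hBV
  have hunitB : ∀ y : (C3.cen (ball L) hBV).primeCompl, IsUnit (u y) := by
    intro y
    rw [Imp.ID_isUnit_iff hΨdom, hu]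
    exact le_antisymm (hBV (y : B).2)
      (not_lt.1 fun h => y.2 ((C3.mem_cen (ball L) hBV y).2 ((Imp.ID_lt_iff _).2 h)))
  let j : locV (ball L) B →+* C := IsLocalization.lift (M := (C3.cen (ball L) hBV).primeCompl) hunitB
  have hju : ∀ b : B, j ⟨b, C3.le_loc (ball L) B b.2⟩ = u b := fun b => IsLocalization.lift_eq hunitB b
  have hjτ : ∀ z : locV (ball L) B, Ψ (j z) = z := by
    intro z
    obtain ⟨a, ha, b, hb, hb1, hab⟩ := z.2
    have h1 : z * ⟨b, C3.le_loc (ball L) B hb⟩ = ⟨a, C3.le_loc (ball L) B ha⟩ := Subtype.ext hab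
    have h2 := congrArg (fun w => Ψ (j w)) h1
    simp only [map_mul] at h2
    rw [hju ⟨b, hb⟩, hju ⟨a, ha⟩, hu, hu] at h2
    have h3 : b ≠ 0 := by
      rintro rfl
      rw [map_zero] at hb1
      exact zero_ne_one hb1
    apply mul_right_cancel₀ h3
    rw [hab]
    exact h2
  have hjmax : (maximalIdeal (locV (ball L) B)).map j ≤ maximalIdeal C := by
    rw [Ideal.map_le_iff_le_comap]
    intro z hz
    rw [Ideal.mem_comap, (hΨdom _).2, hjτ]
    rw [mem_maximalIdeal, mem_nonunits_iff, isUnit_locV_iff (ball L) hBV, J7_val_one_iff] at hz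
    exact lt_of_le_of_ne (locV_le (ball L) hBV z.2) hz
  have hmemA' : ∀ z : locV (ball L) B, ‖(z : L)‖ < 1 → z ∈ maximalIdeal (locV (ball L) B) := by
    intro z hz
    rw [mem_maximalIdeal, mem_nonunits_iff, isUnit_locV_iff (ball L) hBV, J7_val_one_iff]
    exact hz.ne
  set J := (maximalIdeal (locV (ball L) B)).map j with hJ
  -- the elements of `m_A T` are in `J`
  have hTJ : ∀ t ∈ (maximalIdeal A).map ι,
      algebraMap B0 C ⟨θ t, dlθ_mem θ κg t⟩ ∈ J := by
    let θ' : T →+* C := (algebraMap B0 C).comp (θ.codRestrict B0 (dlθ_mem θ κg))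
    have h1 : (maximalIdeal A).map ι ≤ J.comap θ' := by
      rw [Ideal.map_le_iff_le_comap]
      intro a ha
      rw [Ideal.mem_comap, Ideal.mem_comap]
      have h2 : θ' (ι a) = j ⟨a, C3.le_loc (ball L) B (hAB a a.2)⟩ := by
        rw [hju ⟨a, hAB a a.2⟩]
        show algebraMap B0 C _ = algebraMap B0 C _
        congr 1
        exact Subtype.ext (hκι a (hAB a a.2)).symm
      rw [h2]
      refine Ideal.mem_map_of_mem _ (hmemA' _ ?_)
      exact (hA a).2.1 ha
    exact fun t ht => h1 ht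
  have happrox : ∀ b ∈ B0, ∀ hb : b ∈ B0, ∃ a : B, algebraMap B0 C ⟨b, hb⟩ - u a ∈ J := by
    intro b hb
    refine dlB_induction (θ := θ) (κ := κg)
      (p := fun b => ∀ hb : b ∈ B0, ∃ a : B, algebraMap B0 C ⟨b, hb⟩ - u a ∈ J) ?_ ?_ ?_ hb
    · intro t ht
      obtain ⟨a, ha⟩ := Imp.ID_approx ι hι t
      refine ⟨⟨a, hAB a a.2⟩, ?_⟩
      have h1 := hTJ _ ha
      have h2 : (⟨θ (t - ι a), dlθ_mem θ κg _⟩ : B0) =
          ⟨θ t, ht⟩ - ⟨κ ⟨a, hAB a a.2⟩, hκB ⟨a, hAB a a.2⟩⟩ := by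
        apply Subtype.ext
        show θ (t - ι a) = θ t - κ ⟨a, hAB a a.2⟩
        rw [map_sub, hκι]
      rw [h2, map_sub] at h1
      exact h1
    · intro a b haB hbB ha hb hab
      obtain ⟨v, hv⟩ := ha haB
      obtain ⟨w, hw⟩ := hb hbB
      refine ⟨v + w, ?_⟩
      have h2 : (⟨a + b, hab⟩ : B0) = ⟨a, haB⟩ + ⟨b, hbB⟩ := rfl
      rw [h2, map_add, map_add]
      have h3 : algebraMap B0 C ⟨a, haB⟩ + algebraMap B0 C ⟨b, hbB⟩ - (u v + u w) =
          (algebraMap B0 C ⟨a, haB⟩ - u v) + (algebraMap B0 C ⟨b, hbB⟩ - u w) := by ring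
      rw [h3]
      exact add_mem hv hw
    · intro a z haB ha haz
      obtain ⟨w, hw⟩ := ha haB
      refine ⟨w * ⟨z, hgB z z.2⟩, ?_⟩
      have h2 : (⟨a * κg z, haz⟩ : B0) = ⟨a, haB⟩ * ⟨κg z, dlκ_mem θ κg z⟩ := rfl
      have h3 : u ⟨z, hgB z z.2⟩ = algebraMap B0 C ⟨κg z, dlκ_mem θ κg z⟩ := by
        show algebraMap B0 C ⟨κ ⟨z, hgB z z.2⟩, _⟩ = _
        congr 1
        exact Subtype.ext (hκg z).symm
      rw [h2, map_mul, map_mul, h3, ← sub_mul]
      exact J.mul_mem_right _ hw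
  have hmax : J = maximalIdeal C := by
    refine le_antisymm hjmax ?_
    rw [← IsLocalization.AtPrime.map_eq_maximalIdeal N C, Ideal.map_le_iff_le_comap]
    intro b hb
    obtain ⟨a, ha⟩ := happrox b b.2 b.2
    rw [Ideal.mem_comap]
    have h1 : algebraMap B0 C b = (algebraMap B0 C b - u a) + u a := by ring
    rw [h1]
    refine add_mem ha ?_
    rw [← hju a]
    refine Ideal.mem_map_of_mem _ (hmemA' _ ?_)
    show ‖(a : L)‖ < 1
    rw [← hu a]
    have h2 : u a = algebraMap B0 C b - (algebraMap B0 C b - u a) := by ring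
    rw [h2, map_sub]
    have h3 : ‖Ψ (algebraMap B0 C b)‖ < 1 := by rw [hΨ]; exact (hmemN b).1 hb
    have h4 : ‖Ψ (algebraMap B0 C b - u a)‖ < 1 := (hΨdom _).2.1 (hjmax ha)
    rw [sub_eq_add_neg]
    refine (IsUltrametricDist.norm_add_le_max _ _).trans_lt (max_lt h3 ?_)
    rw [norm_neg]
    exact h4
  have hdimC : ringKrullDim C ≤ ringKrullDim (locV (ball L) B) := Imp.ID_dim_le j hmax
  -- the range of `Ψ`
  have hrange : Ψ.range = locV (ball L) (Subring.closure ((φ.range : Set L) ∪ (g : Set L))) := by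
    have hΦB0 : ∀ b ∈ B0, Φ b ∈ Subring.closure ((φ.range : Set L) ∪ (g : Set L)) := by
      intro b hb
      refine dlB_induction
        (p := fun b => Φ b ∈ Subring.closure ((φ.range : Set L) ∪ (g : Set L))) ?_ ?_ ?_ hb
      · intro t
        rw [hθφ]
        exact Subring.subset_closure (Or.inl ⟨t, rfl⟩)
      · intro a b _ _ ha hb
        rw [map_add]
        exact add_mem ha hb
      · intro a z _ ha
        rw [map_mul, hκg, hκ]
        exact mul_mem ha (Subring.subset_closure (Or.inr z.2))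
    have hsurj : ∀ z ∈ Subring.closure ((φ.range : Set L) ∪ (g : Set L)), ∃ b ∈ B0, Φ b = z := by
      have h1 : Subring.closure ((φ.range : Set L) ∪ (g : Set L)) ≤ B0.map Φ := by
        rw [Subring.closure_le]
        rintro z (⟨t, rfl⟩ | hz)
        · exact ⟨θ t, dlθ_mem θ κg t, hθφ t⟩
        · refine ⟨κg ⟨z, hz⟩, dlκ_mem θ κg _, ?_⟩
          rw [hκg, hκ]
      intro z hz
      obtain ⟨b, hb, hbz⟩ := h1 hz
      exact ⟨b, hb, hbz⟩
    apply le_antisymm
    · rintro _ ⟨c, rfl⟩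
      obtain ⟨b, s, rfl⟩ := IsLocalization.exists_mk'_eq N.primeCompl c
      refine ⟨Φ b, hΦB0 _ b.2, Φ (s : B0), hΦB0 _ (s : B0).2, (J7_val_one_iff _).2 (hcompl s), ?_⟩
      have h2 := congrArg Ψ (IsLocalization.mk'_spec C b s)
      rw [map_mul, hΨ, hΨ] at h2
      exact h2
    · rintro z ⟨a, ha, b, hb, hb1, hab⟩
      obtain ⟨a', ha', rfl⟩ := hsurj a ha
      obtain ⟨b', hb', rfl⟩ := hsurj b hb
      have hb2 : ‖Φ b'‖ = 1 := (J7_val_one_iff _).1 hb1
      have hs : (⟨b', hb'⟩ : B0) ∈ N.primeCompl := by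
        intro h
        have h1 := (hmemN _).1 h
        exact h1.ne hb2
      refine ⟨IsLocalization.mk' C (⟨a', ha'⟩ : B0) (⟨⟨b', hb'⟩, hs⟩ : N.primeCompl), ?_⟩
      have h2 := congrArg Ψ (IsLocalization.mk'_spec C (⟨a', ha'⟩ : B0)
        (⟨⟨b', hb'⟩, hs⟩ : N.primeCompl))
      rw [map_mul, hΨ, hΨ] at h2
      have h3 : Φ b' ≠ 0 := by
        intro h
        rw [h, norm_zero] at hb2
        exact zero_ne_one hb2
      apply mul_right_cancel₀ h3
      rw [hab]
      exact h2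
  have hr : (ρ : WithBot ℕ∞) ≤ ringKrullDim (C ⧸ RingHom.ker Ψ) := by
    rw [ringKrullDim_eq_of_ringEquiv (RingHom.quotientKerEquivRange Ψ), hrange]
    exact hρ
  rw [hdimTP, ← hheight]
  exact ((add_le_add_right hr _).trans hsum).trans hdimC

theorem dim_low {W : Type} [NormedField W] [IsUltrametricDist W] {X : Subfield W}
    {A A' : Subring W} (h : Nl X A) (h' : Nl X A') [IsLocalRing A] [IsNoetherianRing A]
    (g : Finset W) (hg : ∀ u ∈ g, ‖u‖ ≤ 1 ∧ ∃ n ∈ A, ∃ d ∈ A, d ≠ 0 ∧ u * d = n)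
    (hA' : A' = locV (ball W) (Subring.closure ((A : Set W) ∪ (g : Set W))))
    (φ : AdicCompletion (maximalIdeal A) A →+* W) (hφ : Dom φ)
    (h1 : ∀ a : A, φ (algebraMap A (AdicCompletion (maximalIdeal A) A) a) = a)
    [(RingHom.ker φ).IsPrime] (ρ : ℕ) (hρ : (ρ : WithBot ℕ∞) ≤ ringKrullDim (Cp A')) :
    ringKrullDim (Localization.AtPrime (RingHom.ker φ)) + ρ ≤ ringKrullDim A' := by
  have iTn : IsNoetherianRing (AdicCompletion (maximalIdeal A) A) := noetherian_adicCompletion A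
  let TP := Localization.AtPrime (RingHom.ker φ)
  have hunit : ∀ y : (RingHom.ker φ).primeCompl, IsUnit (φ y) := fun y =>
    isUnit_iff_ne_zero.2 fun h => y.2 h
  let Φ : TP →+* W := IsLocalization.lift (M := (RingHom.ker φ).primeCompl) hunit
  have hΦ : ∀ t, Φ (algebraMap (AdicCompletion (maximalIdeal A) A) TP t) = φ t := fun t => IsLocalization.lift_eq hunit t
  have hmax : ∀ z, z ∈ maximalIdeal TP ↔ Φ z = 0 := by
    intro z
    obtain ⟨t, s, rfl⟩ := IsLocalization.exists_mk'_eq (RingHom.ker φ).primeCompl z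
    rw [IsLocalization.AtPrime.mk'_mem_maximal_iff TP (RingHom.ker φ) t s, RingHom.mem_ker]
    have h2 := congrArg Φ (IsLocalization.mk'_spec TP t s)
    rw [map_mul, hΦ, hΦ] at h2
    rw [← h2, mul_eq_zero, or_iff_left (hunit s).ne_zero]
  have hθ : ∀ z : TP, ∃ t s, algebraMap (AdicCompletion (maximalIdeal A) A) TP s ∉
      maximalIdeal TP ∧ z * algebraMap (AdicCompletion (maximalIdeal A) A) TP s =
        algebraMap (AdicCompletion (maximalIdeal A) A) TP t := by
    intro z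
    obtain ⟨t, s, rfl⟩ := IsLocalization.exists_mk'_eq (RingHom.ker φ).primeCompl z
    refine ⟨t, s, ?_, IsLocalization.mk'_spec TP t s⟩
    rw [hmax, hΦ]
    exact (hunit s).ne_zero
  -- the fraction field of `A`
  let F := FractionRing A
  have hunitA : ∀ y : nonZeroDivisors A, IsUnit (((algebraMap (AdicCompletion (maximalIdeal A) A) TP).comp
      (algebraMap A (AdicCompletion (maximalIdeal A) A))) y) := by
    intro y
    by_contra hu
    have h2 : algebraMap (AdicCompletion (maximalIdeal A) A) TP (algebraMap A (AdicCompletion (maximalIdeal A) A) y) ∈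
      maximalIdeal TP := hu
    rw [hmax, hΦ, h1] at h2
    exact nonZeroDivisors.coe_ne_zero y (Subtype.ext h2)
  let κ0 : F →+* TP := IsLocalization.lift (M := nonZeroDivisors A) hunitA
  have hκ0 : ∀ a : A, κ0 (algebraMap A F a) = algebraMap (AdicCompletion (maximalIdeal A) A) TP
      (algebraMap A (AdicCompletion (maximalIdeal A) A) a) :=
    fun a => IsLocalization.lift_eq hunitA a
  have hunitW : ∀ y : nonZeroDivisors A, IsUnit (A.subtype y) := by
    intro y
    refine isUnit_iff_ne_zero.2 fun h2 => ?_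
    exact nonZeroDivisors.coe_ne_zero y (Subtype.ext h2)
  let τ : F →+* W := IsLocalization.lift (M := nonZeroDivisors A) hunitW
  have hτ : ∀ a : A, τ (algebraMap A F a) = a := fun a => IsLocalization.lift_eq hunitW a
  have hΦκ : ∀ z, Φ (κ0 z) = τ z := by
    have h2 : Φ.comp κ0 = τ := by
      refine IsLocalization.ringHom_ext (nonZeroDivisors A) ?_
      ext a
      show Φ (κ0 (algebraMap A F a)) = τ (algebraMap A F a)
      rw [hκ0, hΦ, h1, hτ]
    exact fun z => RingHom.congr_fun h2 z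
  have hBτ : Subring.closure ((A : Set W) ∪ (g : Set W)) ≤ τ.range := by
    rw [Subring.closure_le]
    rintro z (hz | hz)
    · exact ⟨algebraMap A F ⟨z, hz⟩, hτ _⟩
    · obtain ⟨-, n, hn, d, hd, hd0, hzd⟩ := hg z hz
      refine ⟨algebraMap A F ⟨n, hn⟩ / algebraMap A F ⟨d, hd⟩, ?_⟩
      rw [map_div₀, hτ, hτ]
      show n / d = z
      rw [← hzd, mul_div_cancel_right₀ _ hd0]
  let e : F ≃+* τ.range := RingEquiv.ofBijective τ.rangeRestrict
    ⟨fun x y hxy => τ.injective (congrArg Subtype.val hxy), τ.rangeRestrict_surjective⟩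
  have he : ∀ x, ((e x : τ.range) : W) = τ x := fun x => rfl
  let κ : Subring.closure ((A : Set W) ∪ (g : Set W)) →+* TP :=
    κ0.comp ((e.symm : τ.range →+* F).comp (Subring.inclusion hBτ))
  have hκd : ∀ z, κ z = κ0 (e.symm (Subring.inclusion hBτ z)) := fun z => rfl
  have hκ : ∀ z, Φ (κ z) = z := by
    intro z
    rw [hκd, hΦκ, ← he, RingEquiv.apply_symm_apply]
    rfl
  have hκι : ∀ a : A, κ ⟨a, Subring.subset_closure (Or.inl a.2)⟩ =
      algebraMap (AdicCompletion (maximalIdeal A) A) TP (algebraMap A (AdicCompletion (maximalIdeal A) A) a) := by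
    intro a
    rw [hκd, ← hκ0]
    congr 1
    rw [RingEquiv.symm_apply_eq]
    apply Subtype.ext
    rw [he, hτ]
    rfl
  have hAdom : Dom A.subtype := by
    intro a
    refine ⟨h.one a a.2, ?_⟩
    rw [← h.mI_eq, h.mem_mI]
    rfl
  rw [hA']
  refine dl_abs A hAdom _ (algebraMap A (AdicCompletion (maximalIdeal A) A))
    (sameCompletion_adicCompletion A) φ hφ TP Φ hmax (algebraMap (AdicCompletion (maximalIdeal A) A) TP) hΦ hθ g
    (fun z hz => (hg z hz).1) _ rfl κ hκ (fun a _ => hκι a) ρ ?_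
  -- the dimension of `O`
  rw [phi_range h φ hφ h1]
  set O := locV (ball W) (Subring.closure ((Cp A : Set W) ∪ (g : Set W))) with hO
  have hgA' : ∀ u ∈ g, u ∈ A' := by
    intro u hu
    rw [hA']
    exact C3.le_loc (ball W) _ (Subring.subset_closure (Or.inr hu))
  have hAA' : A ≤ A' := by
    intro a ha
    rw [hA']
    exact C3.le_loc (ball W) _ (Subring.subset_closure (Or.inl ha))
  have hnO : Nl X O := h.cp.adjoin g (fun u hu => ⟨h'.le u (hgA' u hu), (hg u hu).1⟩)
  have hA'O : A' ≤ O := by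
    rw [hA', hO]
    refine locV_mono (ball W) (Subring.closure_mono ?_)
    exact Set.union_subset_union_left _ le_Cp
  have hOA' : O ≤ Cp A' := by
    rw [hO, ← h'.cp.locV_eq]
    refine locV_mono (ball W) ?_
    rw [Subring.closure_le]
    rintro z (hz | hz)
    · exact Cp_mono h h' (hAA'.trans le_Cp) hz
    · exact le_Cp (hgA' z hz)
  have hCp : Cp O = Cp A' := le_antisymm (Cp_mono hnO h' hOA')
    (Cp_mono h' hnO (hA'O.trans le_Cp))
  have hOl : IsLocalRing O := hnO.isLocal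
  have hOn : IsNoetherianRing O := hnO.noeth
  obtain ⟨φO, -, -, hφO⟩ := exists_phiB hnO
  refine hρ.trans ?_
  rw [← hCp, ← hφO]
  exact (ringKrullDim_le_of_surjective _ φO.rangeRestrict_surjective).trans
    (ringKrullDim_adicCompletion_le O)

end Pool.Agent.Lib.TQ
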