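import Pool.Agent.Lib.TQ.CpA
import Pool.Agent.Lib.MP_3029eb_ag.ImpDefs
import Pool.Agent.Lib.MP_3029eb_ag.AbhE2

/-!
# Module DenB: denominators
`DenD A0 A Δ`: every `z ∈ A` has a denominator `D = δ * b ∈ A0`, `δ` a product of elements of `Δ`, `b ∈ A` a unit.
PROOFS. `DenD.trans`: `z ∈ A2`: `D = δ * b ∈ A1`, `D * z ∈ A1`; `D1 = δ1 * b1 ∈ A0` with `D1 * D ∈ A0`, `D2 = δ2 * b2 ∈ A0` with
`D2 * (D * z) ∈ A0`; take `D2 * (D1 * D)`.
`DenD.of_frac`: `z = a / b`, `a, b` in the ring generated by `A` and `g`, `‖b‖ = 1`; there is `δ` in the submonoid generated by the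
denominators with `δ * a, δ * b ∈ A` (induction on the closure); `D := δ * b`.
`DenD.monV`: `D = δ * b`, products of `MonV` elements and units are `MonV`.
-/

namespace Pool.Agent.Lib.TQ

open Pool.Agent.Lib.MP_3029eb_ag Pool.Agent.Lib.MP_3029eb_ag.Abh Pool.Agent.Lib.TDO
  Pool.Agent.Lib.TU

variable {W : Type} [NormedField W] {A0 A1 A2 : Subring W}

open Classical in
theorem DenD.trans (h12 : A1 ≤ A2) {Δ1 Δ2 : Finset W} (h1 : DenD A0 A1 Δ1)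
    (h2 : DenD A1 A2 Δ2) : DenD A0 A2 (Δ1 ∪ Δ2) := by
  have hl : Submonoid.closure (Δ1 : Set W) ≤ Submonoid.closure ((Δ1 ∪ Δ2 : Finset W) : Set W) :=
    Submonoid.closure_mono (by rw [Finset.coe_union]; exact Set.subset_union_left)
  have hr : Submonoid.closure (Δ2 : Set W) ≤ Submonoid.closure ((Δ1 ∪ Δ2 : Finset W) : Set W) :=
    Submonoid.closure_mono (by rw [Finset.coe_union]; exact Set.subset_union_right)
  intro z hz
  obtain ⟨D, hD, ⟨δ, hδ, b, hb, hbn, hDδ⟩, hDz⟩ := h2 z hz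
  obtain ⟨D1, hD1, ⟨δ1, hδ1, b1, hb1, hb1n, hD1δ⟩, hD1D⟩ := h1 D hD
  obtain ⟨D2, hD2, ⟨δ2, hδ2, b2, hb2, hb2n, hD2δ⟩, hD2z⟩ := h1 (D * z) hDz
  refine ⟨D2 * (D1 * D), mul_mem hD2 hD1D, ⟨δ2 * (δ1 * δ), mul_mem (hl hδ2)
    (mul_mem (hl hδ1) (hr hδ)), b2 * (b1 * b), mul_mem (h12 hb2) (mul_mem (h12 hb1) hb), ?_, ?_⟩,
    ?_⟩
  · rw [norm_mul, norm_mul, hbn, hb1n, hb2n, one_mul, one_mul]
  · rw [hD2δ, hD1δ, hDδ]
    ring
  · have h3 : D2 * (D1 * D) * z = D1 * (D2 * (D * z)) := by ring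
    rw [h3]
    exact mul_mem hD1 hD2z

theorem DenD.refl : DenD A0 A0 ∅ := by
  intro z hz
  refine ⟨1, one_mem _, ⟨1, one_mem _, 1, one_mem _, norm_one, (one_mul 1).symm⟩, ?_⟩
  rw [one_mul]
  exact hz

variable [IsUltrametricDist W]

omit [IsUltrametricDist W] in
private theorem denB_closure (g : Finset W) (P : W → Prop) (h1 : P 1) (hP : ∀ d, P d → d ∈ A0)
    (hm : ∀ d d', P d → P d' → P (d * d'))
    (hg : ∀ u ∈ g, ∃ d, P d ∧ d * u ∈ A0) {a : W}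
    (ha : a ∈ Subring.closure ((A0 : Set W) ∪ (g : Set W))) : ∃ d, P d ∧ d * a ∈ A0 := by
  induction ha using Subring.closure_induction with
  | mem x hx =>
    rcases hx with hx | hx
    · exact ⟨1, h1, by rw [one_mul]; exact hx⟩
    · exact hg x hx
  | zero => exact ⟨1, h1, by rw [mul_zero]; exact zero_mem _⟩
  | one => exact ⟨1, h1, by rw [mul_one]; exact one_mem _⟩
  | add x y _ _ hx hy =>
    obtain ⟨d, hd, hdx⟩ := hx
    obtain ⟨d', hd', hdy⟩ := hy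
    refine ⟨d * d', hm d d' hd hd', ?_⟩
    have h2 : d * d' * (x + y) = d' * (d * x) + d * (d' * y) := by ring
    rw [h2]
    exact add_mem (mul_mem (hP d' hd') hdx) (mul_mem (hP d hd) hdy)
  | neg x _ hx =>
    obtain ⟨d, hd, hdx⟩ := hx
    refine ⟨d, hd, ?_⟩
    rw [mul_neg]
    exact neg_mem hdx
  | mul x y _ _ hx hy =>
    obtain ⟨d, hd, hdx⟩ := hx
    obtain ⟨d', hd', hdy⟩ := hy
    refine ⟨d * d', hm d d' hd hd', ?_⟩
    have h2 : d * d' * (x * y) = (d * x) * (d' * y) := by ring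
    rw [h2]
    exact mul_mem hdx hdy

theorem DenD.of_frac (g Δ : Finset W) (hg : ∀ u ∈ g, ∃ n ∈ A0, ∃ d ∈ A0, d ∈ Δ ∧ u * d = n)
    (A : Subring W) (hA : A = locV (ball W) (Subring.closure ((A0 : Set W) ∪ (g : Set W)))) :
    DenD A0 A Δ := by
  have hden : ∀ {a : W}, a ∈ Subring.closure ((A0 : Set W) ∪ (g : Set W)) →
      ∃ d, (d ∈ A0 ∧ d ∈ Submonoid.closure (Δ : Set W)) ∧ d * a ∈ A0 := by
    intro a ha
    refine denB_closure g (fun d => d ∈ A0 ∧ d ∈ Submonoid.closure (Δ : Set W))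
      ⟨one_mem _, one_mem _⟩ (fun d hd => hd.1)
      (fun d d' hd hd' => ⟨mul_mem hd.1 hd'.1, mul_mem hd.2 hd'.2⟩) ?_ ha
    intro u hu
    obtain ⟨n, hn, d, hd, hdΔ, hud⟩ := hg u hu
    refine ⟨d, ⟨hd, Submonoid.subset_closure hdΔ⟩, ?_⟩
    rw [mul_comm, hud]
    exact hn
  subst hA
  rintro z ⟨a, ha, b, hb, hb1, hab⟩
  obtain ⟨d, ⟨hd, hdΔ⟩, hda⟩ := hden ha
  obtain ⟨d', ⟨hd', hdΔ'⟩, hdb⟩ := hden hb
  have hbl : b ∈ locV (ball W) (Subring.closure ((A0 : Set W) ∪ (g : Set W))) :=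
    ⟨b, hb, 1, one_mem _, map_one _, mul_one b⟩
  refine ⟨d * (d' * b), mul_mem hd hdb, ⟨d * d', mul_mem hdΔ hdΔ', b, hbl,
    (ball_val_eq_one b).1 hb1, by ring⟩, ?_⟩
  have h1 : d * (d' * b) * z = d' * (d * a) := by rw [← hab]; ring
  rw [h1]
  exact mul_mem hd' hda

theorem DenD.monV {r : ℕ} {Δ : Finset W} (h : DenD A0 A1 Δ) (U : Fin r → W)
    (hΔ : ∀ δ ∈ Δ, MonV (ball W) A1 U δ) :
    ∀ z ∈ A1, ∃ D ∈ A0, MonV (ball W) A1 U D ∧ D * z ∈ A0 := by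
  intro z hz
  obtain ⟨D, hD, ⟨δ, hδ, b, hb, hbn, hDδ⟩, hDz⟩ := h z hz
  refine ⟨D, hD, ?_, hDz⟩
  rw [hDδ]
  refine MonV.mul ?_ (MonV.of_unit hb ((ball_val_eq_one b).2 hbn))
  clear hDδ hDz hD
  induction hδ using Submonoid.closure_induction with
  | mem x hx => exact hΔ x hx
  | one => exact MonV.one
  | mul x y _ _ hx hy => exact hx.mul hy

/-- elements of a localization of a ring generated by fractions are fractions -/
theorem frac_of_frac (g : Finset W) (hg : ∀ u ∈ g, ∃ n ∈ A0, ∃ d ∈ A0, d ≠ 0 ∧ u * d = n)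
    (A : Subring W) (hA : A = locV (ball W) (Subring.closure ((A0 : Set W) ∪ (g : Set W)))) :
    ∀ z ∈ A, ∃ n ∈ A0, ∃ d ∈ A0, d ≠ 0 ∧ z * d = n := by
  have hden : ∀ {a : W}, a ∈ Subring.closure ((A0 : Set W) ∪ (g : Set W)) →
      ∃ d, (d ∈ A0 ∧ d ≠ 0) ∧ d * a ∈ A0 := by
    intro a ha
    refine denB_closure g (fun d => d ∈ A0 ∧ d ≠ 0)
      ⟨one_mem _, one_ne_zero⟩ (fun d hd => hd.1)
      (fun d d' hd hd' => ⟨mul_mem hd.1 hd'.1, mul_ne_zero hd.2 hd'.2⟩) ?_ ha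
    intro u hu
    obtain ⟨n, hn, d, hd, hd0, hud⟩ := hg u hu
    refine ⟨d, ⟨hd, hd0⟩, ?_⟩
    rw [mul_comm, hud]
    exact hn
  subst hA
  rintro z ⟨a, ha, b, hb, hb1, hab⟩
  obtain ⟨d, ⟨hd, hd0⟩, hda⟩ := hden ha
  obtain ⟨d', ⟨hd', hd0'⟩, hdb⟩ := hden hb
  have hb0 : b ≠ 0 := by
    intro h0
    have h2 := (ball_val_eq_one b).1 hb1
    rw [h0, norm_zero] at h2
    exact zero_ne_one h2
  refine ⟨d' * (d * a), mul_mem hd' hda, d * (d' * b), mul_mem hd hdb,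
    mul_ne_zero hd0 (mul_ne_zero hd0' hb0), ?_⟩
  rw [← hab]
  ring

end Pool.Agent.Lib.TQ
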