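import Pool.Agent.Lib.TQ.CpC
import Pool.Agent.Lib.MP_3029eb_ag.H6Lift
import Pool.Agent.Lib.MP_3029eb_ag.GRD0
import Pool.Agent.Lib.MP_3029eb_ag.GRB2
import Pool.Agent.Lib.MP_3029eb_ag.ImpExt
import Pool.Agent.Lib.MP_3029eb_ag.RB

/-!
# Module KerT: kernels of the maps from completions to `W`
`exists_chi`: `MP_3029eb_ag.exists_lift_completion'` (H6Lift) for `A → A' → T'`, `completion_hom_ext` (ImpExt) for the
compatibility with `φ, φ'`.
`chi_unique`: both maps send `m_T ^ n` into `m_{T'} ^ n` and agree on the dense subring `A` (`IR_approx`), Hausdorff.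
`dim_ker`: `T / ker φ ≃ φ.range = Cp A` (`exists_phiB`, and uniqueness of `φ`: `completion_hom_ext`).
`ker_eq`: `T / J` is a noetherian local ring whose maximal ideal is generated by `n` elements and
`dim (T / J) ≥ dim (T / I) ≥ n`, so it is regular of dimension `n`, so a domain (Mathlib / `GRE3`: regular local rings
are domains, search `IsRegularLocalRing` `IsDomain`); a nonzero prime of a local domain of finite dimension has a quotient of
smaller dimension (`ringKrullDim_quotient_succ_le_of_nonZeroDivisor`), so `I / J = 0`.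
`ker_map`: `m_T = (ξ) + ker φ` (`φ` maps `T` onto `Cp A` with kernel `ker φ`); `m_{T'} = m_{A'} T'` (`AdicCompletion.maximalIdeal_eq_map`)
`≤ m_A T' + (y)`, `m_A T' ≤ χ(m_T) T' ≤ (ξ) T' + (ker φ) T' ≤ (y) T' + (ker φ) T'`.  `ker_eq`.
-/

namespace Pool.Agent.Lib.TQ

open Pool.Agent.Lib.MP_3029eb_ag Pool.Agent.Lib.MP_3029eb_ag.Abh Pool.Agent.Lib.TDO
  Pool.Agent.Lib.TU IsLocalRing

theorem ker_eq {T : Type} [CommRing T] [IsLocalRing T] [IsNoetherianRing T] (I J : Ideal T)
    [I.IsPrime] (hJI : J ≤ I) (n : ℕ) (ξ : Fin n → T) (hξ : ∀ i, ξ i ∈ maximalIdeal T)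
    (hm : maximalIdeal T ≤ Ideal.span (Set.range ξ) ⊔ J)
    (hdim : (n : WithBot ℕ∞) ≤ ringKrullDim (T ⧸ I)) : I = J := by
  classical
  have hItop : I ≠ ⊤ := Ideal.IsPrime.ne_top inferInstance
  have hJtop : J ≠ ⊤ := fun h => hItop (top_le_iff.1 (h ▸ hJI))
  have iN : Nontrivial (T ⧸ J) := Ideal.Quotient.nontrivial_iff.2 hJtop
  have iL : IsLocalRing (T ⧸ J) := IsLocalRing.of_surjective' _ Ideal.Quotient.mk_surjective
  have hmax : maximalIdeal (T ⧸ J) ≤
      Ideal.span (Set.range fun i => Ideal.Quotient.mk J (ξ i)) := by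
    have h1 : maximalIdeal (T ⧸ J) = (maximalIdeal T).map (Ideal.Quotient.mk J) :=
      (IsLocalRing.map_maximalIdeal_of_surjective (Ideal.Quotient.mk J)
        Ideal.Quotient.mk_surjective).symm
    rw [h1]
    refine (Ideal.map_mono hm).trans ?_
    rw [Ideal.map_sup, Ideal.map_quotient_self, sup_bot_eq, Ideal.map_span, ← Set.range_comp]
    exact le_rfl
  have hmaxe : maximalIdeal (T ⧸ J) =
      Ideal.span (Set.range fun i => Ideal.Quotient.mk J (ξ i)) := by
    refine le_antisymm hmax ?_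
    rw [Ideal.span_le]
    rintro _ ⟨i, rfl⟩
    have h1 : maximalIdeal (T ⧸ J) = (maximalIdeal T).map (Ideal.Quotient.mk J) :=
      (IsLocalRing.map_maximalIdeal_of_surjective (Ideal.Quotient.mk J)
        Ideal.Quotient.mk_surjective).symm
    rw [h1]
    exact Ideal.mem_map_of_mem _ (hξ i)
  have hle1 : (maximalIdeal (T ⧸ J)).spanFinrank ≤ n := by
    rw [hmaxe]
    refine (Submodule.spanFinrank_span_le_ncard_of_finite (Set.finite_range _)).trans ?_
    rw [← Set.image_univ]
    refine (Set.ncard_image_le Set.finite_univ).trans ?_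
    rw [Set.ncard_univ, Nat.card_fin]
  have hsurj : ringKrullDim (T ⧸ I) ≤ ringKrullDim (T ⧸ J) :=
    ringKrullDim_le_of_surjective (Ideal.Quotient.factor hJI) (Ideal.Quotient.factor_surjective hJI)
  have hreg : IsRegularLocalRing (T ⧸ J) :=
    IsRegularLocalRing.of_spanFinrank_maximalIdeal_le _
      (le_trans (by exact_mod_cast hle1) (hdim.trans hsurj))
  have hdomJ : IsDomain (T ⧸ J) := isDomain_of_isRegularLocalRing (T ⧸ J)
  have hdimJ : ringKrullDim (T ⧸ J) ≤ n := by
    rw [← hreg.spanFinrank_maximalIdeal]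
    exact_mod_cast hle1
  refine le_antisymm ?_ hJI
  intro x hx
  by_contra hxJ
  have hx0 : Ideal.Quotient.mk J x ≠ 0 := fun h => hxJ (Ideal.Quotient.eq_zero_iff_mem.1 h)
  have h1 := ringKrullDim_quotient_succ_le_of_nonZeroDivisor
    (mem_nonZeroDivisors_of_ne_zero hx0)
  have h2 : ringKrullDim (T ⧸ I) ≤
      ringKrullDim ((T ⧸ J) ⧸ Ideal.span {Ideal.Quotient.mk J x}) := by
    have hle : Ideal.span {Ideal.Quotient.mk J x} ≤ RingHom.ker (Ideal.Quotient.factor hJI) := by
      rw [Ideal.span_singleton_le_iff_mem, RingHom.mem_ker, Ideal.Quotient.factor_mk,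
        Ideal.Quotient.eq_zero_iff_mem]
      exact hx
    refine ringKrullDim_le_of_surjective (Ideal.Quotient.lift _ (Ideal.Quotient.factor hJI)
      fun a ha => RingHom.mem_ker.1 (hle ha)) ?_
    exact Ideal.Quotient.lift_surjective_of_surjective _ _ (Ideal.Quotient.factor_surjective hJI)
  have h3 : (n : WithBot ℕ∞) + 1 ≤ n := by
    refine le_trans ?_ (h1.trans hdimJ)
    gcongr
    exact hdim.trans h2
  have h4 : ((n + 1 : ℕ) : WithBot ℕ∞) ≤ (n : ℕ) := by exact_mod_cast h3
  have h5 : n + 1 ≤ n := by exact_mod_cast h4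
  omega

variable {W : Type} [NormedField W] [IsUltrametricDist W] {X : Subfield W} {A A' : Subring W}

omit [IsUltrametricDist W] in
private theorem kt_lt [IsLocalRing A] [IsNoetherianRing A]
    (φ : AdicCompletion (maximalIdeal A) A →+* W) (hφ : Dom φ) (a : A)
    (ha : a ∈ maximalIdeal A) :
    ‖φ (algebraMap A (AdicCompletion (maximalIdeal A) A) a)‖ < 1 :=
  ((hφ _).2).1 ((sameCompletion_adicCompletion A).map_mem a ha)

theorem phi_unique (h : Nl X A) [IsLocalRing A] [IsNoetherianRing A]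
    (φ φ' : AdicCompletion (maximalIdeal A) A →+* W) (hφ : Dom φ) (hφ' : Dom φ')
    (h1 : ∀ a : A, φ (algebraMap A (AdicCompletion (maximalIdeal A) A) a) = a)
    (h2 : ∀ a : A, φ' (algebraMap A (AdicCompletion (maximalIdeal A) A) a) = a) : φ = φ' :=
  Imp.completion_hom_ext A φ φ' (fun t => (hφ t).1) (fun t => (hφ' t).1)
    (fun a ha => kt_lt φ hφ a ha) (fun a => by rw [h1, h2])

theorem phi_range (h : Nl X A) [IsLocalRing A] [IsNoetherianRing A]
    (φ : AdicCompletion (maximalIdeal A) A →+* W) (hφ : Dom φ)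
    (h1 : ∀ a : A, φ (algebraMap A (AdicCompletion (maximalIdeal A) A) a) = a) :
    φ.range = Cp A := by
  obtain ⟨φ0, h0, h01, h02⟩ := exists_phiB h
  rw [← h02, phi_unique h φ φ0 hφ h0 h1 h01]

theorem dim_ker (h : Nl X A) [IsLocalRing A] [IsNoetherianRing A]
    (φ : AdicCompletion (maximalIdeal A) A →+* W) (hφ : Dom φ)
    (h1 : ∀ a : A, φ (algebraMap A (AdicCompletion (maximalIdeal A) A) a) = a) :
    ringKrullDim (AdicCompletion (maximalIdeal A) A ⧸ RingHom.ker φ) = ringKrullDim (Cp A) := by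
  rw [← phi_range h φ hφ h1]
  exact ringKrullDim_eq_of_ringEquiv (RingHom.quotientKerEquivRange φ)

private theorem kt_max (h : Nl X A) [IsLocalRing A] (a : A) :
    a ∈ maximalIdeal A ↔ ‖(a : W)‖ < 1 := by
  rw [← h.mI_eq, h.mem_mI]

theorem exists_chi (h : Nl X A) (h' : Nl X A') (hle : A ≤ A') [IsLocalRing A]
    [IsNoetherianRing A] [IsLocalRing A'] [IsNoetherianRing A']
    (φ : AdicCompletion (maximalIdeal A) A →+* W) (hφ : Dom φ)
    (h1 : ∀ a : A, φ (algebraMap A (AdicCompletion (maximalIdeal A) A) a) = a)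
    (φ' : AdicCompletion (maximalIdeal A') A' →+* W) (hφ' : Dom φ')
    (h1' : ∀ a : A', φ' (algebraMap A' (AdicCompletion (maximalIdeal A') A') a) = a) :
    ∃ χ : AdicCompletion (maximalIdeal A) A →+* AdicCompletion (maximalIdeal A') A',
      IsLocalHom χ ∧ (∀ a : A, χ (algebraMap A (AdicCompletion (maximalIdeal A) A) a) =
        algebraMap A' (AdicCompletion (maximalIdeal A') A') ⟨a, hle a.2⟩) ∧
      ∀ t, φ' (χ t) = φ t := by
  have hT1 : IsAdicComplete (maximalIdeal (AdicCompletion (maximalIdeal A') A'))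
      (AdicCompletion (maximalIdeal A') A') := inferInstance
  have hkey : maximalIdeal A ≤ (maximalIdeal (AdicCompletion (maximalIdeal A') A')).comap
      ((algebraMap A' (AdicCompletion (maximalIdeal A') A')).comp (Subring.inclusion hle)) := by
    intro a ha
    rw [Ideal.mem_comap, RingHom.comp_apply]
    refine (sameCompletion_adicCompletion A').map_mem _ ?_
    rw [kt_max h'] 
    exact (kt_max h a).1 ha
  obtain ⟨χ, hχ, hχ1⟩ := exists_lift_completion' A (AdicCompletion (maximalIdeal A') A')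
    (maximalIdeal (AdicCompletion (maximalIdeal A') A')) le_rfl
    ((algebraMap A' (AdicCompletion (maximalIdeal A') A')).comp (Subring.inclusion hle)) hkey
  have hχ2 : ∀ a : A, χ (algebraMap A (AdicCompletion (maximalIdeal A) A) a) =
        algebraMap A' (AdicCompletion (maximalIdeal A') A') ⟨a, hle a.2⟩ := fun a =>
    RingHom.congr_fun hχ1 a
  refine ⟨χ, hχ, hχ2, fun t => ?_⟩
  have h3 : φ'.comp χ = φ := by
    refine Imp.completion_hom_ext A (φ'.comp χ) φ (fun t => (hφ' _).1) (fun t => (hφ t).1)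
      (fun a ha => ?_) (fun a => ?_)
    · rw [RingHom.comp_apply, hχ2, h1']
      exact (kt_max h a).1 ha
    · rw [RingHom.comp_apply, hχ2, h1', h1]
  exact RingHom.congr_fun h3 t

theorem chi_unique (h : Nl X A) (h' : Nl X A') (hle : A ≤ A') [IsLocalRing A]
    [IsNoetherianRing A] [IsLocalRing A'] [IsNoetherianRing A']
    (χ χ' : AdicCompletion (maximalIdeal A) A →+* AdicCompletion (maximalIdeal A') A')
    (hχ : IsLocalHom χ) (hχ' : IsLocalHom χ')
    (h1 : ∀ a : A, χ (algebraMap A (AdicCompletion (maximalIdeal A) A) a) =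
        algebraMap A' (AdicCompletion (maximalIdeal A') A') ⟨a, hle a.2⟩)
    (h1' : ∀ a : A, χ' (algebraMap A (AdicCompletion (maximalIdeal A) A) a) =
        algebraMap A' (AdicCompletion (maximalIdeal A') A') ⟨a, hle a.2⟩) : χ = χ' := by
  have hT1 : IsAdicComplete (maximalIdeal (AdicCompletion (maximalIdeal A') A'))
      (AdicCompletion (maximalIdeal A') A') := inferInstance
  refine GR.completion_hom_ext A _ χ χ' hχ hχ' (RingHom.ext fun a => ?_)
  rw [RingHom.comp_apply, RingHom.comp_apply, h1, h1']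

theorem ker_map (h : Nl X A) (h' : Nl X A') (hle : A ≤ A') [IsLocalRing A]
    [IsNoetherianRing A] [IsLocalRing A'] [IsNoetherianRing A']
    (φ : AdicCompletion (maximalIdeal A) A →+* W) (hφ : Dom φ)
    (h1 : ∀ a : A, φ (algebraMap A (AdicCompletion (maximalIdeal A) A) a) = a)
    (φ' : AdicCompletion (maximalIdeal A') A' →+* W) (hφ' : Dom φ')
    (h1' : ∀ a : A', φ' (algebraMap A' (AdicCompletion (maximalIdeal A') A') a) = a)
    (χ : AdicCompletion (maximalIdeal A) A →+* AdicCompletion (maximalIdeal A') A')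
    (hχ : IsLocalHom χ) (hχA : ∀ a : A, χ (algebraMap A (AdicCompletion (maximalIdeal A) A) a) =
        algebraMap A' (AdicCompletion (maximalIdeal A') A') ⟨a, hle a.2⟩)
    (hχφ : ∀ t, φ' (χ t) = φ t) {n l : ℕ} (ξ : Fin l → W) (hξ : ∀ i, ξ i ∈ A ∧ ‖ξ i‖ < 1)
    (hξgen : ∀ z ∈ Cp A, ‖z‖ < 1 → z ∈ Submodule.span (Cp A) (Set.range ξ))
    (y : Fin n → W) (hy : ∀ i, y i ∈ A' ∧ ‖y i‖ < 1)
    (hgen : ∀ z ∈ A', ‖z‖ < 1 →
      z ∈ Submodule.span A' ({a : W | a ∈ A ∧ ‖a‖ < 1} ∪ Set.range y))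
    (hξy : ∀ i, ξ i ∈ Submodule.span A' (Set.range y))
    (hdim : (n : WithBot ℕ∞) ≤ ringKrullDim (Cp A')) :
    RingHom.ker φ' = (RingHom.ker φ).map χ ∧
      (maximalIdeal (AdicCompletion (maximalIdeal A') A') =
        Ideal.span (Set.range fun i => algebraMap A' (AdicCompletion (maximalIdeal A') A')
          ⟨y i, (hy i).1⟩) ⊔ (RingHom.ker φ).map χ) := by
  classical
  have hnB := noetherian_adicCompletion A
  have hnT := noetherian_adicCompletion A'
  have iP : (RingHom.ker φ').IsPrime := RingHom.ker_isPrime φ'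
  have hJI : (RingHom.ker φ).map χ ≤ RingHom.ker φ' := by
    rw [Ideal.map_le_iff_le_comap]
    intro t ht
    rw [Ideal.mem_comap, RingHom.mem_ker, hχφ]
    exact RingHom.mem_ker.1 ht
  have hyM : ∀ i, algebraMap A' (AdicCompletion (maximalIdeal A') A') ⟨y i, (hy i).1⟩ ∈
      maximalIdeal (AdicCompletion (maximalIdeal A') A') := fun i =>
    (sameCompletion_adicCompletion A').map_mem _ ((kt_max h' _).2 (hy i).2)
  set Q : Ideal (AdicCompletion (maximalIdeal A') A') :=
    Ideal.span (Set.range fun i => algebraMap A' (AdicCompletion (maximalIdeal A') A')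
      ⟨y i, (hy i).1⟩) ⊔ (RingHom.ker φ).map χ with hQ
  -- elements of the span of `y` over `A'`
  have hspan : ∀ z ∈ Submodule.span A' (Set.range y), ∃ hz : z ∈ A',
      algebraMap A' (AdicCompletion (maximalIdeal A') A') ⟨z, hz⟩ ∈ Q := by
    intro z hz
    induction hz using Submodule.span_induction with
    | mem x hx =>
      obtain ⟨i, rfl⟩ := hx
      exact ⟨(hy i).1, Ideal.mem_sup_left (Ideal.subset_span ⟨i, rfl⟩)⟩
    | zero => exact ⟨zero_mem _, by
        have : (⟨0, zero_mem _⟩ : A') = 0 := rfl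
        rw [this, map_zero]; exact zero_mem _⟩
    | add u v _ _ hu hv =>
      obtain ⟨hu1, hu2⟩ := hu
      obtain ⟨hv1, hv2⟩ := hv
      refine ⟨add_mem hu1 hv1, ?_⟩
      have : (⟨u + v, add_mem hu1 hv1⟩ : A') = ⟨u, hu1⟩ + ⟨v, hv1⟩ := rfl
      rw [this, map_add]
      exact add_mem hu2 hv2
    | smul a u _ hu =>
      obtain ⟨hu1, hu2⟩ := hu
      have hm : (a : W) * u ∈ A' := mul_mem a.2 hu1
      refine ⟨hm, ?_⟩
      have : (⟨(a : W) * u, hm⟩ : A') = a * ⟨u, hu1⟩ := rfl
      have h2 : (⟨a • u, hm⟩ : A') = a * ⟨u, hu1⟩ := rfl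
      rw [h2, map_mul]
      exact Ideal.mul_mem_left _ _ hu2
  -- the elements of the maximal ideal of `A`
  have hA : ∀ a : A, ‖(a : W)‖ < 1 →
      algebraMap A' (AdicCompletion (maximalIdeal A') A') ⟨a, hle a.2⟩ ∈ Q := by
    intro a ha
    rw [← hχA]
    have h2 := hξgen a (le_Cp a.2) ha
    obtain ⟨c, hc⟩ := (Submodule.mem_span_range_iff_exists_fun (Cp A)).1 h2
    have h3 : ∀ i, ∃ t, φ t = (c i : W) := fun i => by
      have h4 : (c i : W) ∈ φ.range := by
        rw [phi_range h φ hφ h1]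
        exact (c i).2
      exact RingHom.mem_range.1 h4
    choose t ht using h3
    set κ := algebraMap A (AdicCompletion (maximalIdeal A) A) a -
      ∑ i, t i * algebraMap A (AdicCompletion (maximalIdeal A) A) ⟨ξ i, (hξ i).1⟩ with hκ
    have hκ0 : κ ∈ RingHom.ker φ := by
      rw [RingHom.mem_ker, hκ, map_sub, map_sum, h1, sub_eq_zero, ← hc]
      refine Finset.sum_congr rfl fun i _ => ?_
      rw [map_mul, ht, h1]
      rfl
    have h4 : algebraMap A (AdicCompletion (maximalIdeal A) A) a = κ +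
      ∑ i, t i * algebraMap A (AdicCompletion (maximalIdeal A) A) ⟨ξ i, (hξ i).1⟩ := by
      rw [hκ]; ring
    rw [h4, map_add, map_sum]
    refine add_mem (Ideal.mem_sup_right (Ideal.mem_map_of_mem _ hκ0)) (sum_mem fun i _ => ?_)
    rw [map_mul, hχA]
    obtain ⟨h5, h6⟩ := hspan (ξ i) (hξy i)
    exact Ideal.mul_mem_left _ _ h6
  have hall : ∀ z ∈ Submodule.span A' ({a : W | a ∈ A ∧ ‖a‖ < 1} ∪ Set.range y),
      ∃ hz : z ∈ A', algebraMap A' (AdicCompletion (maximalIdeal A') A') ⟨z, hz⟩ ∈ Q := by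
    intro z hz
    induction hz using Submodule.span_induction with
    | mem x hx =>
      rcases hx with hx | hx
      · exact ⟨hle hx.1, hA ⟨x, hx.1⟩ hx.2⟩
      · exact hspan x (Submodule.subset_span hx)
    | zero => exact ⟨zero_mem _, by
        have : (⟨0, zero_mem _⟩ : A') = 0 := rfl
        rw [this, map_zero]; exact zero_mem _⟩
    | add u v _ _ hu hv =>
      obtain ⟨hu1, hu2⟩ := hu
      obtain ⟨hv1, hv2⟩ := hv
      refine ⟨add_mem hu1 hv1, ?_⟩
      have : (⟨u + v, add_mem hu1 hv1⟩ : A') = ⟨u, hu1⟩ + ⟨v, hv1⟩ := rfl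
      rw [this, map_add]
      exact add_mem hu2 hv2
    | smul a u _ hu =>
      obtain ⟨hu1, hu2⟩ := hu
      have hm : (a : W) * u ∈ A' := mul_mem a.2 hu1
      refine ⟨hm, ?_⟩
      have h2 : (⟨a • u, hm⟩ : A') = a * ⟨u, hu1⟩ := rfl
      rw [h2, map_mul]
      exact Ideal.mul_mem_left _ _ hu2
  have hmle : maximalIdeal (AdicCompletion (maximalIdeal A') A') ≤ Q := by
    have h2 : maximalIdeal (AdicCompletion (maximalIdeal A') A') =
        (maximalIdeal A').map (algebraMap A' (AdicCompletion (maximalIdeal A') A')) :=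
      AdicCompletion.maximalIdeal_eq_map
    rw [h2, Ideal.map_le_iff_le_comap]
    intro a ha
    rw [Ideal.mem_comap]
    obtain ⟨_, h4⟩ := hall a (hgen a a.2 ((kt_max h' a).1 ha))
    exact h4
  have heq : RingHom.ker φ' = (RingHom.ker φ).map χ :=
    ker_eq _ _ hJI n _ hyM hmle (by rw [dim_ker h' φ' hφ' h1']; exact hdim)
  refine ⟨heq, le_antisymm hmle (sup_le ?_ ?_)⟩
  · rw [Ideal.span_le]
    rintro _ ⟨i, rfl⟩
    exact hyM i
  · exact hJI.trans (IsLocalRing.le_maximalIdeal iP.ne_top)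

end Pool.Agent.Lib.TQ
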