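import Pool.Agent.Lib.TQ.Defs

/-!
# Module RegF: two facts of pure algebra
`reg_f`: PROOF. The maximal ideal of the regular local ring `T_I` of dimension `H` is generated by `H` elements
(`IsRegularLocalRing`, spanFinrank = dim), which may be taken to be images of elements `f i` of `I` (multiply by units of the
localization).  `I` is finitely generated, every generator `g` satisfies `s * g ∈ (f)` for some `s ∉ I`; `μ` is the product
of these `s`.
`fin_T`: PROOF. (1) `𝔞 ≤ (π) + (G) ≤ (π) + 𝔞 ^ N` (`1 ≤ n1`) and `N ≥ 2`, so `𝔞 ≤ (π)` by Nakayama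
(`Submodule.le_of_le_smul_of_le_jacobson_bot`, `𝔞 ≤ maximalIdeal`).  (2) So `a j ∈ (π ^ N)`, `G j = π ^ n1 * (ζ j + π ^ (N - n1) * α j)`.
(3) `ι ∈ (G) ⊆ (π ^ n1)`, so `μ = π ^ n0 * (v + π ^ (n1 - n0) * β) = π ^ n0 * v'`, `v'` a unit.
(4) `μ * G j = π ^ (n0 + n1) * v' * (ζ j + π * α')` is in `(F) ⊆ π ^ (n0 + n1) * (y i + π * α'')`; cancel `π ^ (n0 + n1)`.
-/

namespace Pool.Agent.Lib.TQ

open IsLocalRing

theorem reg_f {T : Type} [CommRing T] [IsNoetherianRing T] (I : Ideal T) [I.IsPrime]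
    (hreg : IsRegularLocalRing (Localization.AtPrime I)) :
    ∃ (H : ℕ) (f : Fin H → T) (μ : T),
      ringKrullDim (Localization.AtPrime I) = (((H : ℕ) : ℕ∞) : WithBot ℕ∞) ∧
      (∀ i, f i ∈ I) ∧ μ ∉ I ∧ ∀ g ∈ I, μ * g ∈ Ideal.span (Set.range f) := by
  classical
  have hfg : (maximalIdeal (Localization.AtPrime I)).FG := IsNoetherian.noetherian _
  obtain ⟨s, hs1, hs2⟩ := Submodule.FG.exists_span_finset_card_eq_spanFinrank hfg
  have hdim : ringKrullDim (Localization.AtPrime I) = (((s.card : ℕ) : ℕ∞) : WithBot ℕ∞) := by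
    rw [← hreg.spanFinrank_maximalIdeal, hs1]
    rfl
  let e := s.equivFin
  have hx : ∀ i : Fin s.card, ∃ (f : T) (t : I.primeCompl),
      (e.symm i : Localization.AtPrime I) * algebraMap T (Localization.AtPrime I) t =
        algebraMap T (Localization.AtPrime I) f := by
    intro i
    obtain ⟨⟨f, t⟩, h⟩ := IsLocalization.surj I.primeCompl (e.symm i : Localization.AtPrime I)
    exact ⟨f, t, h⟩
  choose f t hft using hx
  have hmem : ∀ x ∈ s, x ∈ maximalIdeal (Localization.AtPrime I) := by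
    intro x hx
    rw [← hs2]
    exact Submodule.subset_span hx
  have hfI : ∀ i, f i ∈ I := by
    intro i
    rw [← IsLocalization.AtPrime.to_map_mem_maximal_iff (Localization.AtPrime I) I, ← hft i]
    exact Ideal.mul_mem_right _ _ (hmem _ (e.symm i).2)
  have hle : maximalIdeal (Localization.AtPrime I) ≤
      (Ideal.span (Set.range f)).map (algebraMap T (Localization.AtPrime I)) := by
    rw [← hs2]
    refine Submodule.span_le.2 fun x hx => ?_
    have h1 := hft (e ⟨x, hx⟩)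
    rw [Equiv.symm_apply_apply] at h1
    have h2 : IsUnit (algebraMap T (Localization.AtPrime I) (t (e ⟨x, hx⟩))) :=
      IsLocalization.map_units _ (t (e ⟨x, hx⟩))
    have h3 : x * algebraMap T (Localization.AtPrime I) (t (e ⟨x, hx⟩)) ∈
        (Ideal.span (Set.range f)).map (algebraMap T (Localization.AtPrime I)) := by
      rw [h1]
      exact Ideal.mem_map_of_mem _ (Ideal.subset_span ⟨_, rfl⟩)
    exact (Ideal.mul_unit_mem_iff_mem _ h2).1 h3
  have hg : ∀ g : T, ∃ u : T, u ∉ I ∧ (g ∈ I → u * g ∈ Ideal.span (Set.range f)) := by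
    intro g
    by_cases hgI : g ∈ I
    · have h1 : algebraMap T (Localization.AtPrime I) g ∈ maximalIdeal (Localization.AtPrime I) :=
        (IsLocalization.AtPrime.to_map_mem_maximal_iff (Localization.AtPrime I) I g).2 hgI
      obtain ⟨u, hu, hu'⟩ := (IsLocalization.algebraMap_mem_map_algebraMap_iff I.primeCompl
        (Localization.AtPrime I) (Ideal.span (Set.range f)) g).1 (hle h1)
      exact ⟨u, hu, fun _ => hu'⟩
    · exact ⟨1, fun h => (Ideal.IsPrime.ne_top ‹_›) ((Ideal.eq_top_iff_one I).2 h),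
        fun h => absurd h hgI⟩
  choose u hu1 hu2 using hg
  obtain ⟨G, hG⟩ := (IsNoetherian.noetherian I : I.FG)
  refine ⟨s.card, f, ∏ g ∈ G, u g, hdim, hfI, ?_, ?_⟩
  · intro h
    obtain ⟨g, -, hg⟩ := (Ideal.IsPrime.prod_mem_iff (p := I)).1 h
    exact hu1 g hg
  · intro g hg
    have h1 : I ≤ Submodule.comap (LinearMap.mulLeft T (∏ g ∈ G, u g))
        (Ideal.span (Set.range f)) := by
      conv_lhs => rw [← hG]
      refine Submodule.span_le.2 fun x hx => ?_
      have hxI : x ∈ I := by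
        rw [← hG]
        exact Submodule.subset_span hx
      change (∏ g ∈ G, u g) * x ∈ Ideal.span (Set.range f)
      rw [← Finset.prod_erase_mul G _ hx, mul_assoc]
      exact Ideal.mul_mem_left _ _ (hu2 x hxI)
    exact h1 hg

private theorem ft_pow {T : Type} [CommRing T] {π : T} (hπn : ∀ a b : T, π * a = π * b → a = b)
    (k : ℕ) (a b : T) (h : π ^ k * a = π ^ k * b) : a = b := by
  induction k with
  | zero => simpa using h
  | succ k ih =>
    rw [pow_succ', mul_assoc, mul_assoc] at h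
    exact ih (hπn _ _ h)

theorem fin_T {T : Type} [CommRing T] [IsLocalRing T] [IsNoetherianRing T] (π : T)
    (hπ : π ∈ maximalIdeal T) (hπn : ∀ a b : T, π * a = π * b → a = b) (𝔞 : Ideal T)
    (h𝔞 : 𝔞 ≤ maximalIdeal T) {q H n0 n1 N : ℕ} (hn : n0 < n1) (hN : n0 + n1 + 1 ≤ N)
    (G ζ a : Fin q → T) (hG : ∀ j, G j = π ^ n1 * ζ j + a j) (ha : ∀ j, a j ∈ 𝔞 ^ N)
    (F y a' : Fin H → T) (hF : ∀ i, F i = π ^ (n0 + n1) * y i + a' i)
    (ha' : ∀ i, a' i ∈ 𝔞 ^ N)
    (h𝔞G : 𝔞 ≤ Ideal.span {π} ⊔ Ideal.span (Set.range G)) (μ v ι : T)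
    (hμ : μ = π ^ n0 * v + ι) (hv : IsUnit v) (hι : ι ∈ Ideal.span (Set.range G))
    (hμG : ∀ j, μ * G j ∈ Ideal.span (Set.range F)) :
    𝔞 ≤ Ideal.span {π} ∧ (∀ j, ∃ t, G j = π ^ n1 * t) ∧
      ∀ j, ζ j ∈ Ideal.span {π} ⊔ Ideal.span (Set.range y) := by
  -- step 1
  have h1 : 𝔞 ≤ Ideal.span {π} := by
    have hjac : 𝔞 ≤ Ideal.jacobson (⊥ : Ideal T) := by
      rw [IsLocalRing.jacobson_eq_maximalIdeal ⊥ bot_ne_top]
      exact h𝔞
    refine Submodule.le_of_le_smul_of_le_jacobson_bot (I := 𝔞) (IsNoetherian.noetherian _) hjac ?_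
    refine h𝔞G.trans (sup_le le_sup_left (Ideal.span_le.2 ?_))
    rintro _ ⟨j, rfl⟩
    change G j ∈ Ideal.span {π} ⊔ 𝔞 • 𝔞
    rw [hG]
    refine Ideal.add_mem _ (Ideal.mem_sup_left ?_) (Ideal.mem_sup_right ?_)
    · obtain ⟨k, rfl⟩ : ∃ k, n1 = k + 1 := ⟨n1 - 1, by omega⟩
      rw [pow_succ', mul_assoc]
      exact Ideal.mul_mem_right _ _ (Ideal.mem_span_singleton_self π)
    · have h2 : 𝔞 ^ N ≤ 𝔞 ^ 2 := Ideal.pow_le_pow_right (by omega)
      have h3 := h2 (ha j)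
      rw [pow_two] at h3
      exact h3
  have hpow : ∀ x ∈ 𝔞 ^ N, ∃ t, x = π ^ N * t := by
    intro x hx
    have h2 : 𝔞 ^ N ≤ Ideal.span {π ^ N} := by
      rw [← Ideal.span_singleton_pow]
      exact Ideal.pow_right_mono h1 N
    obtain ⟨t, ht⟩ := Ideal.mem_span_singleton.1 (h2 hx)
    exact ⟨t, ht⟩
  choose α hα using fun j => hpow (a j) (ha j)
  choose α' hα' using fun i => hpow (a' i) (ha' i)
  have hG' : ∀ j, G j = π ^ n1 * (ζ j + π ^ (N - n1) * α j) := by
    intro j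
    rw [hG, hα, mul_add, ← mul_assoc, ← pow_add, Nat.add_sub_cancel' (by omega)]
  have hF' : ∀ i, F i = π ^ (n0 + n1) * (y i + π ^ (N - (n0 + n1)) * α' i) := by
    intro i
    rw [hF, hα', mul_add, ← mul_assoc (π ^ (n0 + n1)), ← pow_add, Nat.add_sub_cancel' (by omega)]
  have hmemπ : ∀ (k : ℕ) (x : T), 0 < k → π ^ k * x ∈ Ideal.span {π} := by
    intro k x hk
    obtain ⟨k, rfl⟩ : ∃ l, k = l + 1 := ⟨k - 1, by omega⟩
    rw [pow_succ', mul_assoc]
    exact Ideal.mul_mem_right _ _ (Ideal.mem_span_singleton_self π)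
  refine ⟨h1, fun j => ⟨_, hG' j⟩, ?_⟩
  -- step 3
  obtain ⟨β, hβ⟩ : ∃ β, ι = π ^ n1 * β := by
    have h2 : Ideal.span (Set.range G) ≤ Ideal.span {π ^ n1} := by
      refine Ideal.span_le.2 ?_
      rintro _ ⟨j, rfl⟩
      change G j ∈ Ideal.span {π ^ n1}
      rw [hG']
      exact Ideal.mul_mem_right _ _ (Ideal.mem_span_singleton_self _)
    obtain ⟨t, ht⟩ := Ideal.mem_span_singleton.1 (h2 hι)
    exact ⟨t, ht⟩
  have hμ' : μ = π ^ n0 * (v + π ^ (n1 - n0) * β) := by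
    rw [hμ, hβ, mul_add, ← mul_assoc, ← pow_add, Nat.add_sub_cancel' hn.le]
  have hv' : IsUnit (v + π ^ (n1 - n0) * β) := by
    by_contra hc
    have h2 : v + π ^ (n1 - n0) * β ∈ maximalIdeal T := (mem_maximalIdeal _).2 hc
    have h3 : π ^ (n1 - n0) * β ∈ maximalIdeal T :=
      (Ideal.span_le.2 (Set.singleton_subset_iff.2 hπ) : Ideal.span {π} ≤ maximalIdeal T)
        (hmemπ _ _ (by omega))
    have h4 := Ideal.sub_mem _ h2 h3
    rw [add_sub_cancel_right] at h4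
    exact ((mem_maximalIdeal _).1 h4) hv
  -- step 4
  intro j
  have h2 : Ideal.span (Set.range F) ≤
      Ideal.span {π ^ (n0 + n1)} * (Ideal.span {π} ⊔ Ideal.span (Set.range y)) := by
    refine Ideal.span_le.2 ?_
    rintro _ ⟨i, rfl⟩
    rw [hF']
    refine Ideal.mul_mem_mul (Ideal.mem_span_singleton_self _) (Ideal.add_mem _ ?_ ?_)
    · exact Ideal.mem_sup_right (Ideal.subset_span ⟨i, rfl⟩)
    · exact Ideal.mem_sup_left (hmemπ _ _ (by omega))
  obtain ⟨z, hz, hz'⟩ := Ideal.mem_span_singleton_mul.1 (h2 (hμG j))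
  have h3 : z = (v + π ^ (n1 - n0) * β) * (ζ j + π ^ (N - n1) * α j) := by
    apply ft_pow hπn (n0 + n1)
    rw [hz', hμ', hG', pow_add]
    ring
  have h4 : (v + π ^ (n1 - n0) * β) * ζ j ∈ Ideal.span {π} ⊔ Ideal.span (Set.range y) := by
    have e : (v + π ^ (n1 - n0) * β) * ζ j =
        z - (v + π ^ (n1 - n0) * β) * (π ^ (N - n1) * α j) := by
      rw [h3]
      ring
    rw [e]
    exact Ideal.sub_mem _ hz (Ideal.mul_mem_left _ _ (Ideal.mem_sup_left (hmemπ _ _ (by omega))))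
  exact (Ideal.unit_mul_mem_iff_mem _ hv').1 h4

end Pool.Agent.Lib.TQ
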