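import Pool.Agent.Lib.TQ.KerT
import Pool.Agent.Lib.TQ.RegF
import Pool.Agent.Lib.TQ.DenB
import Pool.Agent.Lib.MP_3029eb_ag.ImpFinal

/-!
# Module FinG: the final local blowing up
`T, T'` are the completions of `A ≤ A'`, `χ : T → T'`.  `ker φ` is generated by the `g j`, `ker φ' = (ker φ) T'`; `(y i)`
(`= U, y1`) generate the maximal ideal of `T'` modulo `ker φ'`, the `ξ l ∈ (∏ U i) A'` generate the maximal ideal of `T`
modulo `ker φ`; `μ * g j ∈ (f)`, and `φ μ` and the elements of `E` are monomials in `U` times units in `Cp A'`.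

PROOF. Let `π := ∏ U i`, `n0` larger than all entries of `b` and of the exponents of the elements of `E`, `n1 := n0 + 1`,
`N := n0 + n1 + 2`.  Choose `gt j, ft i ∈ A` with `g j - gt j, f i - ft i ∈ maximalIdeal T ^ N` (`IR_approx`,
`sameCompletion_adicCompletion`).  `φ` maps `maximalIdeal T ^ N` into the ideal `(ξ) ^ N` of `Cp A` (as `φ (ker φ) = 0`), so
`‖gt j‖, ‖ft i‖ ≤ ‖π‖ ^ N` (as `φ (g j) = φ (f i) = 0`, `‖ξ l‖ ≤ ‖π‖`).  `ζ j := gt j / π ^ n1`, `yy i := ft i / π ^ (n0 + n1)`,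
of norm less than one.  `A'' := locV (closure (A' ∪ {ζ j} ∪ {yy i}))`, `Nl.adjoin`, completion `T''`, `φ''`, `χ' : T' → T''`
(`exists_phiB`, `exists_chi`).  Apply `fin_T` in `T''` with `π := U^(1..1)`, `𝔞 := (maximalIdeal T).map (χ' ∘ χ)`,
`G j := χ' (χ (g j)) = π ^ n1 * ζ j + χ'(χ(g j - gt j))`, `F i := χ' (χ (f i))`, `h𝔞G` from `hmax` and `ξ l = π * b_l`, and
`μ'' := U^(b') * χ' (χ μ)`, `b + b' = (n0, .., n0)`: `φ' (χ μ) = monN U b * u`, `u = φ' û` with `û ∈ T'` a unit (`phi_range`, `hφ'`), so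
`χ μ - monN U b * û ∈ ker φ' = (χ (g j))`.  `hπn`: `Abh.cancel_completion`.
Result: `ζ j ∈ (π) + (yy)`, `G j ∈ (π ^ n1)` in `T''`.
The maximal ideal of `A''` is generated by that of `A'` and the `ζ j, yy i` (all adjoined elements are small:
`Imp.maximalIdeal_locV` or directly), and that of `T'` by `y i` and `χ (g j)`; so `m_{A''} T'' ≤ (y, yy) T''`, and
`m_{A''} = (y, yy) A''` by `Abh.maximalIdeal_le_of_completion`.  `gs := {y1} ∪ {yy i}` where `y = Fin.cons y1 U`.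
`MonV`: `e ∈ E`, `e = monN U β * u`, `u = φ' û`: `e - monN U β * û ∈ ker φ'`, so in `T''`
`e = monN U β * χ' û + ι`, `ι ∈ (G) ⊆ (π ^ n1) ⊆ monN U β * π * T''`: `e = monN U β * (unit of T'')`; so
`e ∈ monN U β * T'' ∩ A'' = monN U β * A''` (completion is faithfully flat: for `I` an ideal of `A''`, `I T'' ∩ A'' = I`, e.g. by
Krull's intersection theorem as in `maximalIdeal_le_of_completion`); norms: `‖e‖ = ‖monN U β‖`.
-/

namespace Pool.Agent.Lib.TQ

open Pool.Agent.Lib.MP_3029eb_ag Pool.Agent.Lib.MP_3029eb_ag.Abh Pool.Agent.Lib.TDO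
  Pool.Agent.Lib.TU IsLocalRing

section

variable {W : Type} [NormedField W] [IsUltrametricDist W] {X : Subfield W} {r : ℕ}

private theorem fg_pow {L : Type} [CommMonoid L] (u : Fin r → L) (n : ℕ) :
    monN u (fun _ => n) = (∏ i, u i) ^ n := by
  unfold monN
  exact Finset.prod_pow _ _ _

private theorem fg_split {L : Type} [CommMonoid L] (u : Fin r → L) (b : Fin r → ℕ) (n : ℕ)
    (hb : ∀ i, b i ≤ n) : (∏ i, u i) ^ n = monN u b * monN u (fun i => n - b i) := by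
  rw [← fg_pow, ← monN_add]
  congr 1
  funext i
  exact (Nat.add_sub_cancel' (hb i)).symm

omit [IsUltrametricDist W] in
private theorem fg_lift {A : Subring W} {T : Type} [CommRing T] (φ : T →+* W) (ι : A →+* T)
    (h1 : ∀ a, φ (ι a) = a) {C : Subring W} (hr : φ.range = C) (S : Set W)
    (hS : ∀ s ∈ S, s ∈ A) (t : T) (ht : φ t ∈ Submodule.span C S) :
    t ∈ Ideal.span (ι '' {a | (a : W) ∈ S}) ⊔ RingHom.ker φ := by
  have key : ∀ w ∈ Submodule.span C S,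
      ∃ t' ∈ Ideal.span (ι '' {a | (a : W) ∈ S}), φ t' = w := by
    intro w hw
    induction hw using Submodule.span_induction with
    | mem x hx => exact ⟨ι ⟨x, hS x hx⟩, Ideal.subset_span ⟨_, hx, rfl⟩, h1 _⟩
    | zero => exact ⟨0, zero_mem _, map_zero _⟩
    | add x y _ _ hx hy =>
      obtain ⟨a, ha, ha'⟩ := hx
      obtain ⟨b, hb, hb'⟩ := hy
      exact ⟨a + b, add_mem ha hb, by rw [map_add, ha', hb']⟩
    | smul c x _ hx =>
      obtain ⟨a, ha, ha'⟩ := hx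
      have hc : (c : W) ∈ φ.range := by rw [hr]; exact c.2
      obtain ⟨d, hd⟩ := hc
      exact ⟨d * a, Ideal.mul_mem_left _ _ ha, by rw [map_mul, ha', hd]; rfl⟩
  obtain ⟨t', ht', h2⟩ := key _ ht
  have h3 : t = t' + (t - t') := by ring
  rw [h3]
  exact add_mem (Ideal.mem_sup_left ht')
    (Ideal.mem_sup_right (by rw [RingHom.mem_ker, map_sub, h2, sub_self]))

private theorem fg_norm {A : Subring W} (h : Nl X A) {T : Type} [CommRing T] [IsLocalRing T]
    (φ : T →+* W) (hφ : Dom φ) (hr : φ.range = Cp A) {l : ℕ} (ξ : Fin l → W)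
    (hξgen : ∀ z ∈ Cp A, ‖z‖ < 1 → z ∈ Submodule.span (Cp A) (Set.range ξ)) (ρ : ℝ)
    (hρ : 0 ≤ ρ) (hξ : ∀ i, ‖ξ i‖ ≤ ρ) (N : ℕ) (t : T) (ht : t ∈ maximalIdeal T ^ N) :
    ‖φ t‖ ≤ ρ ^ N := by
  have h3 : ∀ w ∈ Submodule.span (Cp A) (Set.range ξ), ‖w‖ ≤ ρ := by
    intro w hw
    induction hw using Submodule.span_induction with
    | mem x hx => obtain ⟨i, rfl⟩ := hx; exact hξ i
    | zero => rw [norm_zero]; exact hρ
    | add x y _ _ hx hy =>
      exact (IsUltrametricDist.norm_add_le_max _ _).trans (max_le hx hy)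
    | smul c x _ hx =>
      have hc : c • x = (c : W) * x := rfl
      rw [hc, norm_mul]
      exact (mul_le_of_le_one_left (norm_nonneg _) (h.cp.one c c.2)).trans hx
  have h1 : ∀ s : maximalIdeal T, ‖φ s‖ ≤ ρ := fun s =>
    h3 _ (hξgen _ (hr ▸ ⟨s, rfl⟩) (((hφ s).2).1 s.2))
  have h4 : maximalIdeal T = Ideal.span (Set.range (Subtype.val : maximalIdeal T → T)) := by
    rw [Subtype.range_coe]
    exact (Ideal.span_eq _).symm
  rw [h4] at ht
  exact Imp.Fin_norm_pow φ (fun t => (hφ t).1) _ ρ hρ h1 N t ht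

omit [IsUltrametricDist W] in
private theorem fg_ker {T T' T'' : Type} [CommRing T] [CommRing T'] [CommRing T''] (φ : T →+* W)
    (φ' : T' →+* W) (χ : T →+* T') (χ' : T' →+* T'') {q : ℕ} (g : Fin q → T)
    (hg : Ideal.span (Set.range g) = RingHom.ker φ)
    (hker : RingHom.ker φ' = (RingHom.ker φ).map χ) (t : T') (ht : φ' t = 0) :
    χ' t ∈ Ideal.span (Set.range fun j => χ' (χ (g j))) := by
  have h1 : t ∈ RingHom.ker φ' := ht
  rw [hker, ← hg, Ideal.map_span] at h1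
  have h2 := Ideal.mem_map_of_mem χ' h1
  rw [Ideal.map_span, ← Set.range_comp, ← Set.range_comp] at h2
  exact h2

omit [IsUltrametricDist W] in
private theorem fg_div {π a : W} (hπ0 : π ≠ 0) (hπ1 : ‖π‖ < 1) {n N : ℕ} (hn : n < N)
    (ha : ‖a‖ ≤ ‖π‖ ^ N) : ‖a / π ^ n‖ < 1 := by
  have h1 : 0 < ‖π‖ := norm_pos_iff.2 hπ0
  rw [norm_div, norm_pow, div_lt_one (pow_pos h1 n)]
  exact ha.trans_lt (pow_lt_pow_right_of_lt_one₀ h1 hπ1 hn)

/-- the monomial times a unit, in the completion -/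
private theorem fg_unit {A : Subring W} (h : Nl X A) [IsLocalRing A] [IsNoetherianRing A]
    (φ : AdicCompletion (maximalIdeal A) A →+* W) (hφ : Dom φ)
    (h1 : ∀ a : A, φ (algebraMap A (AdicCompletion (maximalIdeal A) A) a) = a)
    (U : Fin r → W) (hUA : ∀ i, U i ∈ A) (b : Fin r → ℕ) (t : AdicCompletion (maximalIdeal A) A)
    (ht : ∃ u ∈ Cp A, ‖u‖ = 1 ∧ φ t = monN U b * u) :
    ∃ û : AdicCompletion (maximalIdeal A) A, IsUnit û ∧
      φ (t - algebraMap A _ (monN (fun i => (⟨U i, hUA i⟩ : A)) b) * û) = 0 := by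
  obtain ⟨u, hu, hu1, htu⟩ := ht
  rw [← phi_range h φ hφ h1] at hu
  obtain ⟨û, rfl⟩ := hu
  refine ⟨û, (Imp.ID_isUnit_iff hφ û).2 hu1, ?_⟩
  rw [map_sub, map_mul, h1, coe_monN, htu, sub_self]

end

section

variable {W : Type} [NormedField W] [IsUltrametricDist W] {X : Subfield W} {r : ℕ}

private theorem fg_mem_max {A : Subring W} (h : Nl X A) [IsLocalRing A] [IsNoetherianRing A]
    (a : A) (ha : ‖(a : W)‖ < 1) :
    algebraMap A (AdicCompletion (maximalIdeal A) A) a ∈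
      maximalIdeal (AdicCompletion (maximalIdeal A) A) := by
  have h1 : maximalIdeal (AdicCompletion (maximalIdeal A) A) =
      (maximalIdeal A).map (algebraMap A (AdicCompletion (maximalIdeal A) A)) :=
    AdicCompletion.maximalIdeal_eq_map
  rw [h1]
  refine Ideal.mem_map_of_mem _ ?_
  rw [← h.mI_eq]
  exact (h.mem_mI a).2 ha

private theorem fg_core {A A' A'' : Subring W} (h : Nl X A) (h' : Nl X A') (h'' : Nl X A'')
    (hle : A ≤ A') (hle' : A' ≤ A'') [IsLocalRing A] [IsNoetherianRing A] [IsLocalRing A']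
    [IsNoetherianRing A'] [IsLocalRing A''] [IsNoetherianRing A'']
    (φ : AdicCompletion (maximalIdeal A) A →+* W) (hφ : Dom φ)
    (h1 : ∀ a : A, φ (algebraMap A (AdicCompletion (maximalIdeal A) A) a) = a)
    (φ' : AdicCompletion (maximalIdeal A') A' →+* W) (hφ' : Dom φ')
    (h1' : ∀ a : A', φ' (algebraMap A' (AdicCompletion (maximalIdeal A') A') a) = a)
    (χ : AdicCompletion (maximalIdeal A) A →+* AdicCompletion (maximalIdeal A') A')
    (hχ : IsLocalHom χ) (hχA : ∀ a : A, χ (algebraMap A (AdicCompletion (maximalIdeal A) A) a) =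
        algebraMap A' (AdicCompletion (maximalIdeal A') A') ⟨a, hle a.2⟩)
    (hχφ : ∀ t, φ' (χ t) = φ t)
    (χ' : AdicCompletion (maximalIdeal A') A' →+* AdicCompletion (maximalIdeal A'') A'')
    (hχ' : IsLocalHom χ')
    (hχA' : ∀ a : A', χ' (algebraMap A' (AdicCompletion (maximalIdeal A') A') a) =
        algebraMap A'' (AdicCompletion (maximalIdeal A'') A'') ⟨a, hle' a.2⟩)
    {q H : ℕ} (g : Fin q → AdicCompletion (maximalIdeal A) A)
    (hg : Ideal.span (Set.range g) = RingHom.ker φ)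
    (f : Fin H → AdicCompletion (maximalIdeal A) A)
    (μ : AdicCompletion (maximalIdeal A) A)
    (hμ : ∀ j, μ * g j ∈ Ideal.span (Set.range f))
    (hker : RingHom.ker φ' = (RingHom.ker φ).map χ) (U : Fin r → W) (hU : ∀ i, U i ≠ 0)
    (hUA : ∀ i, U i ∈ A') (hπ1 : ‖∏ i, U i‖ < 1)
    {l : ℕ} (ξ : Fin l → W) (hξ : ∀ i, ξ i ∈ A ∧ ‖ξ i‖ < 1)
    (hξgen : ∀ z ∈ Cp A, ‖z‖ < 1 → z ∈ Submodule.span (Cp A) (Set.range ξ))
    (hξU : ∀ i, ∃ b ∈ A', ξ i = (∏ i, U i) * b) (b : Fin r → ℕ)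
    (hb : ∃ u ∈ Cp A', ‖u‖ = 1 ∧ φ μ = monN U b * u)
    (n0 : ℕ) (hn0 : ∀ i, b i ≤ n0) (N : ℕ) (hN : N = n0 + (n0 + 1) + 2)
    (gt : Fin q → A) (hgt : ∀ j, g j - algebraMap A _ (gt j) ∈
      maximalIdeal (AdicCompletion (maximalIdeal A) A) ^ N)
    (ft : Fin H → A) (hft : ∀ j, f j - algebraMap A _ (ft j) ∈
      maximalIdeal (AdicCompletion (maximalIdeal A) A) ^ N)
    (ζ : Fin q → A'') (hζ : ∀ j, (gt j : W) = (∏ i, U i) ^ (n0 + 1) * ζ j)
    (yy : Fin H → A'') (hyy : ∀ j, (ft j : W) = (∏ i, U i) ^ (n0 + (n0 + 1)) * yy j) :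
    (∀ j, ∃ t, χ' (χ (g j)) = (algebraMap A'' (AdicCompletion (maximalIdeal A'') A'')
      (∏ i, (⟨U i, hle' (hUA i)⟩ : A''))) ^ (n0 + 1) * t) ∧
    ∀ j, algebraMap A'' (AdicCompletion (maximalIdeal A'') A'') (ζ j) ∈
      Ideal.span {algebraMap A'' (AdicCompletion (maximalIdeal A'') A'')
        (∏ i, (⟨U i, hle' (hUA i)⟩ : A''))} ⊔
      Ideal.span (Set.range fun i => algebraMap A'' (AdicCompletion (maximalIdeal A'') A'') (yy i)) := by
  have iTn : IsNoetherianRing (AdicCompletion (maximalIdeal A) A) := noetherian_adicCompletion A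
  have iTn' : IsNoetherianRing (AdicCompletion (maximalIdeal A') A') :=
    noetherian_adicCompletion A'
  have iTn'' : IsNoetherianRing (AdicCompletion (maximalIdeal A'') A'') :=
    noetherian_adicCompletion A''
  have hr : φ.range = Cp A := phi_range h φ hφ h1
  set P : A'' := ∏ i, (⟨U i, hle' (hUA i)⟩ : A'') with hP
  have hPW : (P : W) = ∏ i, U i := map_prod A''.subtype _ _
  have hP0 : P ≠ 0 := by
    intro h0
    have h2 : (P : W) = 0 := by rw [h0]; rfl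
    rw [hPW, Finset.prod_eq_zero_iff] at h2
    obtain ⟨i, -, hi⟩ := h2
    exact hU i hi
  set al := algebraMap A (AdicCompletion (maximalIdeal A) A) with hal
  set al' := algebraMap A' (AdicCompletion (maximalIdeal A') A') with hal'
  set al'' := algebraMap A'' (AdicCompletion (maximalIdeal A'') A'') with hal''
  have hcomp : ∀ a : A, χ' (χ (al a)) = al'' ⟨a, hle' (hle a.2)⟩ := by
    intro a
    rw [hχA, hχA']
  have hal1 : ∀ (a : W) (ha : a ∈ A'') (n : ℕ) (z : A''), a = (∏ i, U i) ^ n * z →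
      al'' ⟨a, ha⟩ = al'' P ^ n * al'' z := by
    intro a ha n z haz
    rw [← map_pow, ← map_mul]
    congr 1
    apply Subtype.ext
    rw [Subring.coe_mul, Subring.coe_pow, hPW]
    exact haz
  obtain ⟨û, hûu, hû⟩ := fg_unit h' φ' hφ' h1' U hUA b (χ μ) (by
    obtain ⟨u, hu, hu1, h2⟩ := hb
    exact ⟨u, hu, hu1, by rw [hχφ, h2]⟩)
  have hkerm := fg_ker φ φ' χ χ' g hg hker _ hû
  have hmon : χ' (al' (monN (fun i => (⟨U i, hUA i⟩ : A')) b)) =
      al'' (monN (fun i => (⟨U i, hle' (hUA i)⟩ : A'')) b) := by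
    rw [map_monN, map_monN, map_monN]
    congr 1
    funext i
    exact hχA' _
  have hsplit : al'' P ^ n0 = al'' (monN (fun i => (⟨U i, hle' (hUA i)⟩ : A'')) b) *
      al'' (monN (fun i => (⟨U i, hle' (hUA i)⟩ : A'')) (fun i => n0 - b i)) := by
    rw [← map_pow, ← map_mul, hP, fg_split _ b n0 hn0]
  have hmax1 : maximalIdeal (AdicCompletion (maximalIdeal A) A) ≤
      Ideal.span (al '' {a | (a : W) ∈ Set.range ξ}) ⊔ Ideal.span (Set.range g) := by
    intro t ht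
    rw [hg]
    refine fg_lift φ al h1 hr (Set.range ξ) ?_ t (hξgen _ (hr ▸ ⟨t, rfl⟩) (((hφ t).2).1 ht))
    rintro _ ⟨i, rfl⟩
    exact (hξ i).1
  obtain ⟨-, c2, c3⟩ := fin_T (al'' P) (fg_mem_max h'' P (by rw [hPW]; exact hπ1))
    (fun x y hxy => cancel_completion A'' P hP0 hxy)
    ((maximalIdeal (AdicCompletion (maximalIdeal A) A)).map (χ'.comp χ))
    (by
      rw [Ideal.map_le_iff_le_comap]
      intro x hx
      exact map_nonunit χ' _ (map_nonunit χ _ hx))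
    (n0 := n0) (n1 := n0 + 1) (N := N) (Nat.lt_succ_self n0) (by omega)
    (fun j => χ' (χ (g j))) (fun j => al'' (ζ j)) (fun j => χ' (χ (g j - al (gt j))))
    (fun j => by
      rw [map_sub, map_sub, hcomp, hal1 _ _ _ _ (hζ j)]
      ring)
    (fun j => by
      rw [← Ideal.map_pow]
      exact Ideal.mem_map_of_mem (χ'.comp χ) (hgt j))
    (fun j => χ' (χ (f j))) (fun j => al'' (yy j)) (fun j => χ' (χ (f j - al (ft j))))
    (fun j => by
      rw [map_sub, map_sub, hcomp, hal1 _ _ _ _ (hyy j)]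
      ring)
    (fun j => by
      rw [← Ideal.map_pow]
      exact Ideal.mem_map_of_mem (χ'.comp χ) (hft j))
    (by
      refine (Ideal.map_mono hmax1).trans ?_
      rw [Ideal.map_sup, Ideal.map_span, Ideal.map_span]
      refine sup_le_sup ?_ ?_
      · rw [Ideal.span_le]
        rintro _ ⟨_, ⟨a, ⟨i, hi⟩, rfl⟩, rfl⟩
        obtain ⟨b1, hb1, hb2⟩ := hξU i
        rw [SetLike.mem_coe, RingHom.comp_apply, hcomp, Ideal.mem_span_singleton]
        refine ⟨al'' ⟨b1, hle' hb1⟩, ?_⟩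
        have h2 := hal1 (a : W) (hle' (hle a.2)) 1 ⟨b1, hle' hb1⟩ (by rw [pow_one, ← hi, hb2])
        rw [pow_one] at h2
        exact h2
      · rw [← Set.range_comp]
        exact le_rfl)
    (al'' (monN (fun i => (⟨U i, hle' (hUA i)⟩ : A'')) (fun i => n0 - b i)) * χ' (χ μ))
    (χ' û)
    (al'' (monN (fun i => (⟨U i, hle' (hUA i)⟩ : A'')) (fun i => n0 - b i)) *
      χ' (χ μ - al' (monN (fun i => (⟨U i, hUA i⟩ : A')) b) * û))
    (by
      rw [hsplit, map_sub, map_mul χ', hmon]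
      ring)
    (hûu.map χ') (Ideal.mul_mem_left _ _ hkerm)
    (fun j => by
      have h2 := Ideal.mem_map_of_mem (χ'.comp χ) (hμ j)
      rw [Ideal.map_span, ← Set.range_comp, RingHom.comp_apply, map_mul, map_mul] at h2
      rw [mul_assoc]
      exact Ideal.mul_mem_left _ _ h2)
  exact ⟨c2, c3⟩

end

section

variable {W : Type} [NormedField W] [IsUltrametricDist W] {X : Subfield W} {r : ℕ}

private theorem fg_gen {A' A'' : Subring W} (h' : Nl X A') (h'' : Nl X A'') (hle' : A' ≤ A'')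
    [IsLocalRing A'] [IsNoetherianRing A'] [IsLocalRing A''] [IsNoetherianRing A'']
    (g'' : Finset W) (hg'' : ∀ t ∈ g'', ‖t‖ < 1)
    (hA'' : A'' = locV (ball W) (Subring.closure ((A' : Set W) ∪ (g'' : Set W))))
    (φ' : AdicCompletion (maximalIdeal A') A' →+* W) (hφ' : Dom φ')
    (h1' : ∀ a : A', φ' (algebraMap A' (AdicCompletion (maximalIdeal A') A') a) = a)
    (χ' : AdicCompletion (maximalIdeal A') A' →+* AdicCompletion (maximalIdeal A'') A'')
    (hχA' : ∀ a : A', χ' (algebraMap A' (AdicCompletion (maximalIdeal A') A') a) =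
        algebraMap A'' (AdicCompletion (maximalIdeal A'') A'') ⟨a, hle' a.2⟩)
    (S S' : Set W) (hS : ∀ s ∈ S, s ∈ A'' ∧ ‖s‖ < 1) (hS' : ∀ s ∈ S', s ∈ A') (hSS : S' ⊆ S)
    (hgen : ∀ z ∈ Cp A', ‖z‖ < 1 → z ∈ Submodule.span (Cp A') S')
    (hker : ∀ t, φ' t = 0 → χ' t ∈ (Ideal.span {a : A'' | (a : W) ∈ S}).map
      (algebraMap A'' (AdicCompletion (maximalIdeal A'') A'')))
    (hζ : ∀ a : A'', (a : W) ∈ g'' → algebraMap A'' (AdicCompletion (maximalIdeal A'') A'') a ∈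
      (Ideal.span {a : A'' | (a : W) ∈ S}).map
      (algebraMap A'' (AdicCompletion (maximalIdeal A'') A''))) :
    ∀ z ∈ A'', ‖z‖ < 1 → z ∈ Submodule.span A'' S := by
  set al' := algebraMap A' (AdicCompletion (maximalIdeal A') A') with hal'
  set al'' := algebraMap A'' (AdicCompletion (maximalIdeal A'') A'') with hal''
  set J : Ideal A'' := Ideal.span {a : A'' | (a : W) ∈ S} with hJ
  have hr' : φ'.range = Cp A' := phi_range h' φ' hφ' h1'
  have hA' : ∀ z : A', ‖(z : W)‖ < 1 → al'' ⟨z, hle' z.2⟩ ∈ J.map al'' := by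
    intro z hz
    have h2 : al' z ∈ Ideal.span (al' '' {a | (a : W) ∈ S'}) ⊔ RingHom.ker φ' :=
      fg_lift φ' al' h1' hr' S' hS' (al' z) (by
        rw [h1']
        exact hgen z (le_Cp z.2) hz)
    have h3 := Ideal.mem_map_of_mem χ' h2
    rw [hχA'] at h3
    refine (Ideal.map_le_iff_le_comap.2 (sup_le ?_ ?_)) h3
    · rw [Ideal.span_le]
      rintro _ ⟨a, ha, rfl⟩
      rw [SetLike.mem_coe, Ideal.mem_comap, hχA']
      exact Ideal.mem_map_of_mem _ (Ideal.subset_span (hSS ha))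
    · intro t ht
      exact hker t ht
  have hmax : maximalIdeal A'' ≤ J := by
    refine maximalIdeal_le_of_completion A'' J ?_ ?_
    · rw [hJ, Ideal.span_le]
      intro a ha
      rw [SetLike.mem_coe, ← h''.mI_eq, h''.mem_mI]
      exact (hS _ ha).2
    · have h2 : maximalIdeal A'' ≤
          Ideal.span {b : A'' | (b : W) ∈ g'' ∨ ((b : W) ∈ A' ∧ ‖(b : W)‖ < 1)} := by
        subst hA''
        exact maximalIdeal_locV A' h'.le_ball h'.locV_eq g'' hg''
      refine (Ideal.map_mono h2).trans ?_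
      rw [Ideal.map_span, Ideal.span_le]
      rintro _ ⟨a, ha | ⟨ha, ha1⟩, rfl⟩
      · exact hζ a ha
      · exact hA' ⟨a, ha⟩ ha1
  intro z hz hz1
  have h3 : (⟨z, hz⟩ : A'') ∈ J := hmax (by rw [← h''.mI_eq]; exact (h''.mem_mI _).2 hz1)
  have h4 := Submodule.mem_map_of_mem (f := Algebra.linearMap A'' W) h3
  rw [hJ] at h4
  unfold Ideal.span at h4
  rw [Submodule.map_span] at h4
  refine Submodule.span_mono ?_ h4
  rintro _ ⟨a, ha, rfl⟩
  exact ha

private theorem fg_monV {A' A'' : Subring W} (h' : Nl X A') (hle' : A' ≤ A'')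
    [IsLocalRing A'] [IsNoetherianRing A'] [IsLocalRing A''] [IsNoetherianRing A'']
    (φ' : AdicCompletion (maximalIdeal A') A' →+* W) (hφ' : Dom φ')
    (h1' : ∀ a : A', φ' (algebraMap A' (AdicCompletion (maximalIdeal A') A') a) = a)
    (χ' : AdicCompletion (maximalIdeal A') A' →+* AdicCompletion (maximalIdeal A'') A'')
    (hχA' : ∀ a : A', χ' (algebraMap A' (AdicCompletion (maximalIdeal A') A') a) =
        algebraMap A'' (AdicCompletion (maximalIdeal A'') A'') ⟨a, hle' a.2⟩)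
    (U : Fin r → W) (hU : ∀ i, U i ≠ 0) (hUA : ∀ i, U i ∈ A') (n0 : ℕ)
    (hker : ∀ t, φ' t = 0 → ∃ s, χ' t = (algebraMap A'' (AdicCompletion (maximalIdeal A'') A'')
      (∏ i, (⟨U i, hle' (hUA i)⟩ : A''))) ^ (n0 + 1) * s)
    (β : Fin r → ℕ) (hβ : ∀ i, β i ≤ n0) (e : W) (he : e ∈ A')
    (he2 : ∃ u ∈ Cp A', ‖u‖ = 1 ∧ e = monN U β * u) : MonV (ball W) A'' U e := by
  set al' := algebraMap A' (AdicCompletion (maximalIdeal A') A') with hal'
  set al'' := algebraMap A'' (AdicCompletion (maximalIdeal A'') A'') with hal''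
  have hff : Module.FaithfullyFlat A'' (AdicCompletion (maximalIdeal A'') A'') :=
    Module.FaithfullyFlat.of_flat_of_isLocalHom
  obtain ⟨û, -, hû⟩ := fg_unit h' φ' hφ' h1' U hUA β (al' ⟨e, he⟩) (by
    obtain ⟨u, hu, hu1, h2⟩ := he2
    exact ⟨u, hu, hu1, by rw [h1']; exact h2⟩)
  obtain ⟨s, hs⟩ := hker _ hû
  have hmon : χ' (al' (monN (fun i => (⟨U i, hUA i⟩ : A')) β)) =
      al'' (monN (fun i => (⟨U i, hle' (hUA i)⟩ : A'')) β) := by
    rw [map_monN, map_monN, map_monN]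
    congr 1
    funext i
    exact hχA' _
  rw [← map_pow, fg_split _ β (n0 + 1) (fun i => (hβ i).trans (Nat.le_succ n0)), map_mul, map_sub,
    map_mul χ', hmon, hχA', sub_eq_iff_eq_add] at hs
  have h2 : al'' ⟨e, hle' he⟩ ∈
      (Ideal.span {monN (fun i => (⟨U i, hle' (hUA i)⟩ : A'')) β}).map al'' := by
    rw [Ideal.map_span, Set.image_singleton, Ideal.mem_span_singleton]
    refine ⟨al'' (monN (fun i => (⟨U i, hle' (hUA i)⟩ : A'')) (fun i => n0 + 1 - β i)) * s +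
      χ' û, ?_⟩
    rw [hs]
    ring
  rw [← Ideal.mem_comap, hal'', Ideal.comap_map_eq_self_of_faithfullyFlat,
    Ideal.mem_span_singleton] at h2
  obtain ⟨w, hw⟩ := h2
  have h3 : e = monN U β * (w : W) := by
    have h4 := congrArg (fun a : A'' => (a : W)) hw
    simp only [Subring.coe_mul, coe_monN] at h4
    exact h4
  obtain ⟨u, hu, hu1, h5⟩ := he2
  have h6 : monN U β ≠ 0 := E0_monN_ne hU β
  have h7 : (w : W) = u := mul_left_cancel₀ h6 (h3.symm.trans h5)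
  refine ⟨w, w.2, (J7_val_one_iff _).2 (by rw [h7]; exact hu1), β, ?_⟩
  rw [h3, mul_comm]

end

open Classical in
theorem fin_G {W : Type} [NormedField W] [IsUltrametricDist W] {X : Subfield W} {r : ℕ}
    (hr : 0 < r) {A A' : Subring W} (h : Nl X A) (h' : Nl X A') (hle : A ≤ A') [IsLocalRing A]
    [IsNoetherianRing A] [IsLocalRing A'] [IsNoetherianRing A']
    (φ : AdicCompletion (maximalIdeal A) A →+* W) (hφ : Dom φ)
    (h1 : ∀ a : A, φ (algebraMap A (AdicCompletion (maximalIdeal A) A) a) = a)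
    (φ' : AdicCompletion (maximalIdeal A') A' →+* W) (hφ' : Dom φ')
    (h1' : ∀ a : A', φ' (algebraMap A' (AdicCompletion (maximalIdeal A') A') a) = a)
    (χ : AdicCompletion (maximalIdeal A) A →+* AdicCompletion (maximalIdeal A') A')
    (hχ : IsLocalHom χ) (hχA : ∀ a : A, χ (algebraMap A (AdicCompletion (maximalIdeal A) A) a) =
        algebraMap A' (AdicCompletion (maximalIdeal A') A') ⟨a, hle a.2⟩)
    (hχφ : ∀ t, φ' (χ t) = φ t) {q H : ℕ} (g : Fin q → AdicCompletion (maximalIdeal A) A)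
    (hg : Ideal.span (Set.range g) = RingHom.ker φ)
    (f : Fin H → AdicCompletion (maximalIdeal A) A) (hf : ∀ i, φ (f i) = 0)
    (μ : AdicCompletion (maximalIdeal A) A)
    (hμ : ∀ j, μ * g j ∈ Ideal.span (Set.range f))
    (hker : RingHom.ker φ' = (RingHom.ker φ).map χ) (U : Fin r → W) (hU : Indep U)
    (hUA : ∀ i, U i ∈ A') (y1 : W) (hy1 : y1 ∈ A' ∧ ‖y1‖ < 1)
    (hgen : ∀ z ∈ Cp A', ‖z‖ < 1 → z ∈ Submodule.span (Cp A') (insert y1 (Set.range U)))
    {l : ℕ} (ξ : Fin l → W) (hξ : ∀ i, ξ i ∈ A ∧ ‖ξ i‖ < 1)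
    (hξgen : ∀ z ∈ Cp A, ‖z‖ < 1 → z ∈ Submodule.span (Cp A) (Set.range ξ))
    (hξU : ∀ i, ∃ b ∈ A', ξ i = (∏ i, U i) * b) (b : Fin r → ℕ)
    (hb : ∃ u ∈ Cp A', ‖u‖ = 1 ∧ φ μ = monN U b * u) (E : Finset W)
    (hE : ∀ e ∈ E, e ∈ A' ∧ ∃ β : Fin r → ℕ, ∃ u ∈ Cp A', ‖u‖ = 1 ∧ e = monN U β * u) :
    ∃ (g'' gs : Finset W) (A'' : Subring W),
      A'' = locV (ball W) (Subring.closure ((A' : Set W) ∪ (g'' : Set W))) ∧
      (∀ t ∈ g'', ‖t‖ < 1 ∧ ∃ n ∈ A', ∃ β : Fin r → ℕ, t * monN U β = n) ∧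
      (∀ y ∈ gs, y ∈ A'' ∧ ‖y‖ < 1) ∧ gs.card ≤ 1 + H ∧
      (∀ z ∈ A'', ‖z‖ < 1 → z ∈ Submodule.span A'' (Set.range U ∪ (gs : Set W))) ∧
      ∀ e ∈ E, MonV (ball W) A'' U e := by
  have hr0 : φ.range = Cp A := phi_range h φ hφ h1
  obtain ⟨n0, hn0b, hn0E⟩ : ∃ n0 : ℕ, (∀ i, b i ≤ n0) ∧ ∀ e ∈ E, e ∈ A' ∧ ∃ β : Fin r → ℕ,
      (∀ i, β i ≤ n0) ∧ ∃ u ∈ Cp A', ‖u‖ = 1 ∧ e = monN U β * u := by
    choose β hβ using fun e : E => (hE e e.2).2
    refine ⟨(∑ i, b i) + ∑ e : E, ∑ i, β e i, fun i => ?_,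
      fun e he => ⟨(hE e he).1, β ⟨e, he⟩, fun i => ?_, hβ ⟨e, he⟩⟩⟩
    · exact (Finset.single_le_sum (f := b) (fun j _ => Nat.zero_le (b j))
        (Finset.mem_univ i)).trans (Nat.le_add_right _ _)
    · exact ((Finset.single_le_sum (f := fun i => β ⟨e, he⟩ i) (fun j _ => Nat.zero_le _)
        (Finset.mem_univ i)).trans (Finset.single_le_sum (f := fun e : E => ∑ i, β e i)
        (fun j _ => Nat.zero_le _) (Finset.mem_univ _))).trans (Nat.le_add_left _ _)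
  have hπ0 : ∏ i, U i ≠ 0 := Finset.prod_ne_zero_iff.2 fun i _ => hU.ne i
  have hπ1 : ‖∏ i, U i‖ < 1 := by
    rw [← Finset.mul_prod_erase _ _ (Finset.mem_univ (⟨0, hr⟩ : Fin r)), norm_mul]
    exact (mul_le_of_le_one_right (norm_nonneg _)
      (h'.one _ (prod_mem fun i _ => hUA i))).trans_lt (hU.lt _)
  obtain ⟨N, hN⟩ : ∃ N, N = n0 + (n0 + 1) + 2 := ⟨_, rfl⟩
  choose gt hgt using fun j => Imp.IR_approx _ (sameCompletion_adicCompletion A) (g j) N
  choose ft hft using fun j => Imp.IR_approx _ (sameCompletion_adicCompletion A) (f j) N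
  have hξπ : ∀ i, ‖ξ i‖ ≤ ‖∏ i, U i‖ := by
    intro i
    obtain ⟨b1, hb1, hb2⟩ := hξU i
    rw [hb2, norm_mul]
    exact mul_le_of_le_one_right (norm_nonneg _) (h'.one _ hb1)
  have hnorm : ∀ (t : AdicCompletion (maximalIdeal A) A) (a : A), φ t = 0 →
      t - algebraMap A _ a ∈ maximalIdeal (AdicCompletion (maximalIdeal A) A) ^ N →
      ‖(a : W)‖ ≤ ‖∏ i, U i‖ ^ N := by
    intro t a ht hta
    have h2 := fg_norm h φ hφ hr0 ξ hξgen _ (norm_nonneg _) hξπ N _ hta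
    rw [map_sub, ht, h1, zero_sub, norm_neg] at h2
    exact h2
  have hφg : ∀ j, φ (g j) = 0 := fun j => by
    have h2 : g j ∈ RingHom.ker φ := hg ▸ Ideal.subset_span ⟨j, rfl⟩
    exact h2
  obtain ⟨ζ, hζ⟩ : ∃ ζ : Fin q → W, ∀ j, ζ j = (gt j : W) / (∏ i, U i) ^ (n0 + 1) :=
    ⟨_, fun _ => rfl⟩
  obtain ⟨yy, hyy⟩ : ∃ yy : Fin H → W, ∀ j, yy j = (ft j : W) / (∏ i, U i) ^ (n0 + (n0 + 1)) :=
    ⟨_, fun _ => rfl⟩
  have hζ1 : ∀ j, ‖ζ j‖ < 1 := fun j => by
    rw [hζ]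
    exact fg_div hπ0 hπ1 (by omega) (hnorm _ _ (hφg j) (hgt j))
  have hyy1 : ∀ j, ‖yy j‖ < 1 := fun j => by
    rw [hyy]
    exact fg_div hπ0 hπ1 (by omega) (hnorm _ _ (hf j) (hft j))
  have hζ2 : ∀ j, (gt j : W) = (∏ i, U i) ^ (n0 + 1) * ζ j := fun j => by
    rw [hζ, mul_div_cancel₀ _ (pow_ne_zero _ hπ0)]
  have hyy2 : ∀ j, (ft j : W) = (∏ i, U i) ^ (n0 + (n0 + 1)) * yy j := fun j => by
    rw [hyy, mul_div_cancel₀ _ (pow_ne_zero _ hπ0)]
  obtain ⟨g'', hg''⟩ : ∃ g'' : Finset W, ∀ t, t ∈ g'' ↔ (∃ j, ζ j = t) ∨ ∃ j, yy j = t := by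
    refine ⟨Finset.univ.image ζ ∪ Finset.univ.image yy, fun t => ?_⟩
    rw [Finset.mem_union, Finset.mem_image, Finset.mem_image]
    simp only [Finset.mem_univ, true_and]
  have hg''1 : ∀ t ∈ g'', ‖t‖ < 1 := by
    intro t ht
    rcases (hg'' t).1 ht with ⟨j, rfl⟩ | ⟨j, rfl⟩
    · exact hζ1 j
    · exact hyy1 j
  have hg''A : ∀ t ∈ g'', ∃ n ∈ A', ∃ β : Fin r → ℕ, t * monN U β = n := by
    intro t ht
    rcases (hg'' t).1 ht with ⟨j, rfl⟩ | ⟨j, rfl⟩
    · exact ⟨gt j, hle (gt j).2, fun _ => n0 + 1, by rw [fg_pow, hζ2 j, mul_comm]⟩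
    · exact ⟨ft j, hle (ft j).2, fun _ => n0 + (n0 + 1), by rw [fg_pow, hyy2 j, mul_comm]⟩
  obtain ⟨A'', hA''⟩ : ∃ A'' : Subring W,
    A'' = locV (ball W) (Subring.closure ((A' : Set W) ∪ (g'' : Set W))) := ⟨_, rfl⟩
  have h'' : Nl X A'' := by
    rw [hA'']
    refine h'.adjoin g'' fun t ht => ⟨?_, (hg''1 t ht).le⟩
    obtain ⟨n, hn, β, hβ⟩ := hg''A t ht
    have hm : monN U β ≠ 0 := E0_monN_ne hU.ne β
    have h2 : t = n * (monN U β)⁻¹ := by rw [← hβ, mul_assoc, mul_inv_cancel₀ hm, mul_one]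
    rw [h2]
    exact X.mul_mem (h'.le n hn) (X.inv_mem (h'.le _ (E0_monN_mem A' hUA β)))
  have hle' : A' ≤ A'' := by
    rw [hA'']
    exact fun z hz => le_locV _ _ (Subring.subset_closure (Or.inl hz))
  have hgA'' : ∀ t ∈ g'', t ∈ A'' := by
    rw [hA'']
    exact fun z hz => le_locV _ _ (Subring.subset_closure (Or.inr hz))
  have hζA : ∀ j, ζ j ∈ A'' := fun j => hgA'' _ ((hg'' _).2 (Or.inl ⟨j, rfl⟩))
  have hyyA : ∀ j, yy j ∈ A'' := fun j => hgA'' _ ((hg'' _).2 (Or.inr ⟨j, rfl⟩))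
  have i1 := h''.isLocal
  have i2 : IsNoetherianRing A'' := h''.noeth
  obtain ⟨φ'', hφ'', h1'', -⟩ := exists_phiB h''
  obtain ⟨χ', hχ', hχA', -⟩ := exists_chi h' h'' hle' φ' hφ' h1' φ'' hφ'' h1''
  obtain ⟨c2, c3⟩ := fg_core h h' h'' hle hle' φ hφ h1 φ' hφ' h1' χ hχ hχA hχφ χ' hχ' hχA' g hg
    f μ hμ hker U hU.ne hUA hπ1 ξ hξ hξgen hξU b hb n0 hn0b N hN gt hgt ft hft
    (fun j => ⟨ζ j, hζA j⟩) hζ2 (fun j => ⟨yy j, hyyA j⟩) hyy2
  have hkerm : ∀ t, φ' t = 0 → ∃ s, χ' t =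
      (algebraMap A'' (AdicCompletion (maximalIdeal A'') A'')
        (∏ i, (⟨U i, hle' (hUA i)⟩ : A''))) ^ (n0 + 1) * s := by
    intro t ht
    have h2 := fg_ker φ φ' χ χ' g hg hker t ht
    have h3 : Ideal.span (Set.range fun j => χ' (χ (g j))) ≤
        Ideal.span {(algebraMap A'' (AdicCompletion (maximalIdeal A'') A'')
        (∏ i, (⟨U i, hle' (hUA i)⟩ : A''))) ^ (n0 + 1)} := by
      rw [Ideal.span_le]
      rintro _ ⟨j, rfl⟩
      rw [SetLike.mem_coe, Ideal.mem_span_singleton]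
      exact c2 j
    exact Ideal.mem_span_singleton.1 (h3 h2)
  refine ⟨g'', insert y1 (Finset.univ.image yy), A'', hA'', fun t ht => ⟨hg''1 t ht, hg''A t ht⟩,
    ?_, ?_, ?_, ?_⟩
  · intro y hy
    rw [Finset.mem_insert, Finset.mem_image] at hy
    rcases hy with rfl | ⟨j, -, rfl⟩
    · exact ⟨hle' hy1.1, hy1.2⟩
    · exact ⟨hyyA j, hyy1 j⟩
  · have h2 := Finset.card_insert_le y1 (Finset.univ.image yy)
    have h3 := Finset.card_image_le (s := Finset.univ) (f := yy)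
    rw [Finset.card_univ, Fintype.card_fin] at h3
    omega
  · have hPJ : (∏ i, (⟨U i, hle' (hUA i)⟩ : A'')) ∈ Ideal.span {a : A'' |
        (a : W) ∈ Set.range U ∪ ((insert y1 (Finset.univ.image yy) : Finset W) : Set W)} := by
      rw [← Finset.mul_prod_erase _ _ (Finset.mem_univ (⟨0, hr⟩ : Fin r))]
      exact Ideal.mul_mem_right _ _ (Ideal.subset_span (Or.inl ⟨_, rfl⟩))
    refine fg_gen h' h'' hle' g'' hg''1 hA'' φ' hφ' h1' χ' hχA' _ (insert y1 (Set.range U))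
      ?_ ?_ ?_ hgen ?_ ?_
    · rintro s (⟨i, rfl⟩ | hs)
      · exact ⟨hle' (hUA i), hU.lt i⟩
      · rw [Finset.mem_coe, Finset.mem_insert, Finset.mem_image] at hs
        rcases hs with rfl | ⟨j, -, rfl⟩
        · exact ⟨hle' hy1.1, hy1.2⟩
        · exact ⟨hyyA j, hyy1 j⟩
    · rintro s (rfl | ⟨i, rfl⟩)
      · exact hy1.1
      · exact hUA i
    · rintro s (rfl | hs)
      · exact Or.inr (Finset.mem_coe.2 (Finset.mem_insert_self _ _))
      · exact Or.inl hs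
    · intro t ht
      obtain ⟨s, hs⟩ := hkerm t ht
      rw [hs, pow_succ, mul_assoc, mul_comm _ s, ← mul_assoc]
      exact Ideal.mul_mem_left _ _ (Ideal.mem_map_of_mem _ hPJ)
    · intro a ha
      rcases (hg'' _).1 ha with ⟨j, hj⟩ | ⟨j, hj⟩
      · have h2 := c3 j
        have h3 : (⟨ζ j, hζA j⟩ : A'') = a := Subtype.ext hj
        rw [h3] at h2
        refine (sup_le ?_ ?_ : _ ≤ (Ideal.span {a : A'' |
          (a : W) ∈ Set.range U ∪ ((insert y1 (Finset.univ.image yy) : Finset W) : Set W)}).map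
          (algebraMap A'' (AdicCompletion (maximalIdeal A'') A''))) h2
        · rw [Ideal.span_le, Set.singleton_subset_iff]
          exact Ideal.mem_map_of_mem _ hPJ
        · rw [Ideal.span_le]
          rintro _ ⟨i, rfl⟩
          exact Ideal.mem_map_of_mem _ (Ideal.subset_span (Or.inr (Finset.mem_coe.2
            (Finset.mem_insert_of_mem (Finset.mem_image_of_mem yy (Finset.mem_univ i))))))
      · refine Ideal.mem_map_of_mem _ (Ideal.subset_span (Or.inr ?_))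
        rw [← hj]
        exact Finset.mem_coe.2 (Finset.mem_insert_of_mem
          (Finset.mem_image_of_mem yy (Finset.mem_univ j)))
  · intro e he
    obtain ⟨heA, β, hβ, he2⟩ := hn0E e he
    exact fg_monV h' hle' φ' hφ' h1' χ' hχA' U hU.ne hUA n0 hkerm β hβ e heA he2


end Pool.Agent.Lib.TQ
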