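import Mathlib.FieldTheory.Relrank
import Mathlib.FieldTheory.PurelyInseparable.Tower
import Mathlib.FieldTheory.PurelyInseparable.Exponent
import Mathlib.FieldTheory.KummerPolynomial
import Mathlib.RingTheory.Algebraic.Integral

/-!
# Module CgD: p-bases, separability (pure field theory)
`cg_greedy`: enumerate `ι` (induction on a finset `s ⊆ ι`): there are `f i ∈ M` for `i ∈ s` such that the field `F_s` generated by `E ^ p`
and the `a i + c i * f i`, `i ∈ s`, is `E` or has `[F_s : E ^ p] = p ^ |s|`.  Step: if `F := F_s = E` take `f i = 0`.  Otherwise: if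
`a i ∉ F` take `f i = 0`; if `a i ∈ F` choose `f i ∈ M`, `f i ∉ F` (`hM`), then `a i + c i * f i ∉ F`, because `c i ∈ E ^ p ≤ F` is nonzero.  The new element
`b` has `b ^ p ∈ E ^ p ≤ F`, `b ∉ F`, so `[F(b) : F] = p` (`X ^ p - b ^ p` is irreducible over `F`: Mathlib `X_pow_sub_C_irreducible_of_prime` / the degree
divides ... ) .  For `s = univ`: `[F : E ^ p] = p ^ card ι ≥ [E : E ^ p]` and `F ≤ E`, so `F = E`.
`cg_sep`: `E / E'` finite with `E = E ^ p E'`.  Let `Es` be the field of the elements of `E` separable over `E'`; `E / Es` is purely
inseparable and finite, so `E ^ (p ^ n) ≤ Es` for some `n`.  By induction `E = E ^ (p ^ i) E'` for all `i`: (`E = E^p E'` gives `E ^ (p^i) = E ^ (p^(i+1)) E' ^ (p^i)`).  So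
`E = E ^ (p ^ n) E' ≤ Es`.
-/

namespace Pool.Agent.Lib.TQ

/-- adjoining a `p`-th root gives degree `p` -/
private theorem cg_root {W : Type} [Field W] (p : ℕ) [hp : Fact p.Prime] [CharP W p]
    (F : Subfield W) {b : W} (hb : b ^ p ∈ F) (hbF : b ∉ F) :
    F.relfinrank (Subfield.closure ((F : Set W) ∪ {b})) = p := by
  have hle : F ≤ Subfield.closure ((F : Set W) ∪ {b}) := fun x hx =>
    Subfield.subset_closure (Or.inl hx)
  rw [Subfield.relfinrank_eq_finrank_of_le hle]
  have h1 : Subfield.extendScalars hle = IntermediateField.adjoin F {b} := by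
    rw [← IntermediateField.toSubfield_inj, Subfield.extendScalars_toSubfield]
    have : Set.range (algebraMap F W) = (F : Set W) := by
      ext x
      constructor
      · rintro ⟨y, rfl⟩; exact y.2
      · intro hx; exact ⟨⟨x, hx⟩, rfl⟩
    rw [← this]
    rfl
  rw [h1]
  have hirr : Irreducible (Polynomial.X ^ p - Polynomial.C (⟨b ^ p, hb⟩ : F)) := by
    refine X_pow_sub_C_irreducible_of_prime hp.out ?_
    intro c hc
    apply hbF
    have h2 : (c : W) ^ p = b ^ p := congrArg Subtype.val hc
    have h3 : (c : W) = b := frobenius_inj W p h2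
    rw [← h3]
    exact c.2
  have hmin := minpoly.eq_of_irreducible_of_monic (x := b) hirr (by
    simp only [map_sub, map_pow, Polynomial.aeval_X, Polynomial.aeval_C]
    exact sub_self _) (Polynomial.monic_X_pow_sub_C _ hp.out.ne_zero)
  have hint : IsIntegral F b := by
    refine ⟨Polynomial.X ^ p - Polynomial.C (⟨b ^ p, hb⟩ : F),
      Polynomial.monic_X_pow_sub_C _ hp.out.ne_zero, ?_⟩
    simp only [Polynomial.eval₂_sub, Polynomial.eval₂_pow, Polynomial.eval₂_X, Polynomial.eval₂_C]
    exact sub_self _
  rw [IntermediateField.adjoin.finrank hint, ← hmin, Polynomial.natDegree_X_pow_sub_C]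

open Classical in
theorem cg_greedy {W : Type} [Field W] (p : ℕ) [Fact p.Prime] [CharP W p] {ι : Type} [Fintype ι]
    (E : Subfield W) (h0 : 0 < (E.map (frobenius W p)).relfinrank E)
    (hle : (E.map (frobenius W p)).relfinrank E ≤ p ^ Fintype.card ι) (M : Set W)
    (hM0 : (0 : W) ∈ M) (hME : ∀ z ∈ M, z ∈ E)
    (hM : ∀ F : Subfield W, E.map (frobenius W p) ≤ F → F ≤ E → F ≠ E → ∃ f ∈ M, f ∉ F)
    (a c : ι → W) (ha : ∀ i, a i ∈ E) (hc : ∀ i, c i ∈ E.map (frobenius W p) ∧ c i ≠ 0) :
    ∃ f : ι → W, (∀ i, f i ∈ M) ∧
      E = Subfield.closure ((E.map (frobenius W p) : Set W) ∪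
        Set.range fun i => a i + c i * f i) := by
  have hEp : E.map (frobenius W p) ≤ E := by
    rintro x ⟨y, hy, rfl⟩
    exact pow_mem hy p
  have key : ∀ s : Finset ι, ∃ f : ι → W, (∀ i, f i ∈ M) ∧
      (Subfield.closure ((E.map (frobenius W p) : Set W) ∪
        (fun i => a i + c i * f i) '' (s : Set ι)) = E ∨
      (E.map (frobenius W p)).relfinrank (Subfield.closure ((E.map (frobenius W p) : Set W) ∪
        (fun i => a i + c i * f i) '' (s : Set ι))) = p ^ s.card) := by
    intro s
    induction s using Finset.induction_on with
    | empty =>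
      refine ⟨fun _ => 0, fun _ => hM0, Or.inr ?_⟩
      have h1 : Subfield.closure ((E.map (frobenius W p) : Set W) ∪
        (fun i => a i + c i * (fun _ => (0 : W)) i) '' ((∅ : Finset ι) : Set ι))
          = E.map (frobenius W p) := by
        rw [Finset.coe_empty, Set.image_empty, Set.union_empty, Subfield.closure_eq]
      rw [h1, Subfield.relfinrank_self, Finset.card_empty, pow_zero]
    | insert i s hi ih =>
      obtain ⟨f, hfM, hf⟩ := ih
      have hle1 : Subfield.closure ((E.map (frobenius W p) : Set W) ∪
        (fun i => a i + c i * f i) '' (s : Set ι)) ≤ E := by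
        rw [Subfield.closure_le]
        rintro x (hx | ⟨j, _, rfl⟩)
        · exact hEp hx
        · exact add_mem (ha j) (mul_mem (hEp (hc j).1) (hME _ (hfM j)))
      have hle0 : E.map (frobenius W p) ≤ Subfield.closure ((E.map (frobenius W p) : Set W) ∪
        (fun i => a i + c i * f i) '' (s : Set ι)) := fun x hx =>
          Subfield.subset_closure (Or.inl hx)
      -- modification of `f` at `i`
      have himg : ∀ g : W, (fun j => a j + c j * (Function.update f i g) j) ''
          ((insert i s : Finset ι) : Set ι) =
          (fun i => a i + c i * f i) '' (s : Set ι) ∪ {a i + c i * g} := by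
        intro g
        rw [Finset.coe_insert, Set.image_insert_eq, Set.insert_eq, Set.union_comm]
        congr 1
        · refine Set.image_congr fun j hj => ?_
          have : j ≠ i := by rintro rfl; exact hi hj
          simp [Function.update_of_ne this]
        · simp
      have hcl : ∀ g : W, Subfield.closure ((E.map (frobenius W p) : Set W) ∪
          (fun j => a j + c j * (Function.update f i g) j) '' ((insert i s : Finset ι) : Set ι))
          = Subfield.closure (((Subfield.closure ((E.map (frobenius W p) : Set W) ∪
            (fun i => a i + c i * f i) '' (s : Set ι)) : Subfield W) : Set W) ∪ {a i + c i * g}) := by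
        intro g
        rw [himg g, ← Set.union_assoc, Subfield.closure_union _ {a i + c i * g},
          Subfield.closure_union _ {a i + c i * g}, Subfield.closure_eq]
      by_cases hFE : Subfield.closure ((E.map (frobenius W p) : Set W) ∪
        (fun i => a i + c i * f i) '' (s : Set ι)) = E
      · refine ⟨Function.update f i 0, ?_, Or.inl ?_⟩
        · intro j
          by_cases hj : j = i
          · subst hj; simpa using hM0
          · rw [Function.update_of_ne hj]; exact hfM j
        · rw [hcl 0, hFE]
          refine le_antisymm ?_ ?_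
          · rw [Subfield.closure_le]
            rintro x (hx | hx)
            · exact hx
            · rw [Set.mem_singleton_iff] at hx
              rw [hx, mul_zero, add_zero]; exact ha i
          · exact fun x hx => Subfield.subset_closure (Or.inl hx)
      · have hdeg := hf.resolve_left hFE
        obtain ⟨g, hgM, hg⟩ : ∃ g ∈ M, a i + c i * g ∉
            Subfield.closure ((E.map (frobenius W p) : Set W) ∪
              (fun i => a i + c i * f i) '' (s : Set ι)) := by
          by_cases hai : a i ∈ Subfield.closure ((E.map (frobenius W p) : Set W) ∪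
              (fun i => a i + c i * f i) '' (s : Set ι))
          · obtain ⟨g, hgM, hg⟩ := hM _ hle0 hle1 hFE
            refine ⟨g, hgM, fun hcon => hg ?_⟩
            have h2 : c i * g ∈ Subfield.closure ((E.map (frobenius W p) : Set W) ∪
              (fun i => a i + c i * f i) '' (s : Set ι)) := by
              have := sub_mem hcon hai
              rwa [add_sub_cancel_left] at this
            have h3 := mul_mem (inv_mem (hle0 (hc i).1)) h2
            rwa [inv_mul_cancel_left₀ (hc i).2] at h3
          · exact ⟨0, hM0, by simpa using hai⟩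
        refine ⟨Function.update f i g, ?_, Or.inr ?_⟩
        · intro j
          by_cases hj : j = i
          · subst hj; simpa using hgM
          · rw [Function.update_of_ne hj]; exact hfM j
        · have hle2 : Subfield.closure ((E.map (frobenius W p) : Set W) ∪
              (fun i => a i + c i * f i) '' (s : Set ι)) ≤
              Subfield.closure (((Subfield.closure ((E.map (frobenius W p) : Set W) ∪
              (fun i => a i + c i * f i) '' (s : Set ι)) : Subfield W) : Set W) ∪ {a i + c i * g}) :=
            fun x hx => Subfield.subset_closure (Or.inl hx)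
          rw [hcl g, ← Subfield.relfinrank_mul_relfinrank hle0 hle2, hdeg,
            cg_root p _ ?_ hg, Finset.card_insert_of_notMem hi, pow_succ]
          refine hle0 ?_
          exact ⟨a i + c i * g, add_mem (ha i) (mul_mem (hEp (hc i).1) (hME _ hgM)), rfl⟩
  obtain ⟨f, hfM, hf⟩ := key Finset.univ
  refine ⟨f, hfM, ?_⟩
  rw [Finset.coe_univ, Set.image_univ] at hf
  rcases hf with hf | hf
  · exact hf.symm
  · have hle1 : Subfield.closure ((E.map (frobenius W p) : Set W) ∪
        Set.range (fun i => a i + c i * f i)) ≤ E := by
      rw [Subfield.closure_le]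
      rintro x (hx | ⟨j, rfl⟩)
      · exact hEp hx
      · exact add_mem (ha j) (mul_mem (hEp (hc j).1) (hME _ (hfM j)))
    have hle0 : E.map (frobenius W p) ≤ Subfield.closure ((E.map (frobenius W p) : Set W) ∪
        Set.range (fun i => a i + c i * f i)) := fun x hx =>
          Subfield.subset_closure (Or.inl hx)
    have h4 := Subfield.relfinrank_mul_relfinrank hle0 hle1
    rw [hf, Finset.card_univ] at h4
    refine le_antisymm ?_ hle1
    rw [← Subfield.relfinrank_eq_one_iff]
    have h5 : 0 < p ^ Fintype.card ι := pow_pos (Fact.out : p.Prime).pos _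
    rw [← h4] at hle h0
    have h6 : 0 < (Subfield.closure ((E.map (frobenius W p) : Set W) ∪
        Set.range (fun i => a i + c i * f i))).relfinrank E := by
          rcases Nat.eq_zero_or_pos ((Subfield.closure ((E.map (frobenius W p) : Set W) ∪
            Set.range (fun i => a i + c i * f i))).relfinrank E) with h7 | h7
          · rw [h7, mul_zero] at h0; exact absurd h0 (lt_irrefl 0)
          · exact h7
    have h8 : p ^ Fintype.card ι * (Subfield.closure ((E.map (frobenius W p) : Set W) ∪
        Set.range (fun i => a i + c i * f i))).relfinrank E ≤ p ^ Fintype.card ι * 1 := by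
      rw [mul_one]; exact hle
    have h9 := Nat.le_of_mul_le_mul_left h8 h5
    omega

theorem cg_sep {W : Type} [Field W] (p : ℕ) [Fact p.Prime] [CharP W p] (E' E : Subfield W)
    (hle : E' ≤ E) (hfin : 0 < E'.relfinrank E)
    (h : E ≤ Subfield.closure ((E.map (frobenius W p) : Set W) ∪ (E' : Set W))) :
    ∀ z ∈ E, IsSeparable E' z := by
  classical
  rw [Subfield.relfinrank_eq_finrank_of_le hle] at hfin
  haveI : FiniteDimensional E' (Subfield.extendScalars hle) :=
    Module.finite_of_finrank_pos hfin
  haveI hec : ExpChar E' p := ExpChar.prime (Fact.out)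
  haveI hec2 : ExpChar W p := ExpChar.prime (Fact.out)
  haveI hec3 : ExpChar (Subfield.extendScalars hle) p := inferInstance
  have hn : ∃ n, ∀ z ∈ E, z ^ p ^ n ∈ (separableClosure E' W).toSubfield := by
    refine ⟨IsPurelyInseparable.exponent (separableClosure E' (Subfield.extendScalars hle))
      (Subfield.extendScalars hle), fun z hz => ?_⟩
    obtain ⟨y, hy⟩ := IsPurelyInseparable.exponent_def'
      (separableClosure E' (Subfield.extendScalars hle)) p
      (⟨z, hz⟩ : Subfield.extendScalars hle)
    have h1 : IsSeparable E' (y : Subfield.extendScalars hle) := mem_separableClosure_iff.1 y.2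
    have h2 : ((y : Subfield.extendScalars hle) : W) = z ^ p ^
        (IsPurelyInseparable.exponent (separableClosure E' (Subfield.extendScalars hle))
      (Subfield.extendScalars hle)) := by
      exact congrArg (Subtype.val) hy
    rw [← h2]
    change _ ∈ separableClosure E' W
    rw [mem_separableClosure_iff]
    exact (isSeparable_map_iff (Subfield.extendScalars hle).val
      (Subfield.extendScalars hle).val.injective).2 h1
  obtain ⟨n, hn⟩ := hn
  have key : ∀ i, (∀ z ∈ E, z ^ p ^ i ∈ (separableClosure E' W).toSubfield) →
      ∀ z ∈ E, z ^ p ^ 0 ∈ (separableClosure E' W).toSubfield := by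
    intro i
    induction i with
    | zero => exact fun h => h
    | succ i ih =>
      intro hi
      apply ih
      intro z hz
      have hE' : ∀ x ∈ E', x ∈ (separableClosure E' W).toSubfield := by
        intro x hx
        exact (separableClosure E' W).algebraMap_mem (⟨x, hx⟩ : E')
      have hcl : Subfield.closure ((E.map (frobenius W p) : Set W) ∪ (E' : Set W)) ≤
          (separableClosure E' W).toSubfield.comap (iterateFrobenius W p i) := by
        rw [Subfield.closure_le]
        rintro x (⟨y, hy, rfl⟩ | hx)
        · change (iterateFrobenius W p i) (frobenius W p y) ∈ (separableClosure E' W).toSubfield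
          rw [iterateFrobenius_def, frobenius_def, ← pow_mul, ← pow_succ']
          exact hi y hy
        · change (iterateFrobenius W p i) x ∈ (separableClosure E' W).toSubfield
          rw [iterateFrobenius_def]
          exact pow_mem (hE' x hx) _
      have h5 : (iterateFrobenius W p i) z ∈ (separableClosure E' W).toSubfield := hcl (h hz)
      rwa [iterateFrobenius_def] at h5
  intro z hz
  have h3 := key n hn z hz
  rw [pow_zero, pow_one] at h3
  exact mem_separableClosure_iff.1 h3

/-- clearing denominators in a separable equation -/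
theorem sep_poly {W : Type} [Field W] (R : Subring W) {z : W}
    (hz : IsSeparable (Subfield.closure (R : Set W)) z) :
    ∃ F : Polynomial W, (∀ j, F.coeff j ∈ R) ∧ F.eval z = 0 ∧ F.derivative.eval z ≠ 0 := by
  classical
  have hden : ∀ (g : ℕ → W), (∀ j, g j ∈ Subfield.closure (R : Set W)) → ∀ s : Finset ℕ,
      ∃ d ∈ R, d ≠ 0 ∧ ∀ j ∈ s, d * g j ∈ R := by
    intro g hg s
    induction s using Finset.induction_on with
    | empty => exact ⟨1, one_mem _, one_ne_zero, fun j hj => absurd hj (Finset.notMem_empty j)⟩
    | insert i s hi ih =>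
      obtain ⟨d, hd, hd0, hds⟩ := ih
      obtain ⟨x, hx, y, hy, hxy⟩ := Subfield.mem_closure_iff.1 (hg i)
      rw [Subring.closure_eq] at hx hy
      by_cases hy0 : y = 0
      · refine ⟨d, hd, hd0, fun j hj => ?_⟩
        rcases Finset.mem_insert.1 hj with rfl | hj
        · rw [← hxy, hy0, div_zero, mul_zero]; exact zero_mem _
        · exact hds j hj
      · refine ⟨d * y, mul_mem hd hy, mul_ne_zero hd0 hy0, fun j hj => ?_⟩
        rcases Finset.mem_insert.1 hj with rfl | hj
        · rw [← hxy, mul_assoc, mul_div_cancel₀ _ hy0]
          exact mul_mem hd hx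
        · rw [mul_right_comm]
          exact mul_mem (hds j hj) hy
  set m := minpoly (Subfield.closure (R : Set W)) z with hm
  obtain ⟨d, hd, hd0, hds⟩ := hden (fun j => (m.coeff j : W)) (fun j => (m.coeff j).2) m.support
  refine ⟨Polynomial.C d * m.map (algebraMap _ W), ?_, ?_, ?_⟩
  · intro j
    rw [Polynomial.coeff_C_mul, Polynomial.coeff_map]
    by_cases hj : j ∈ m.support
    · exact hds j hj
    · rw [Polynomial.notMem_support_iff.1 hj, map_zero, mul_zero]; exact zero_mem _
  · rw [Polynomial.eval_mul, Polynomial.eval_map, ← Polynomial.aeval_def, hm, minpoly.aeval,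
      mul_zero]
  · rw [Polynomial.derivative_C_mul, Polynomial.eval_mul, Polynomial.eval_C,
      Polynomial.derivative_map, Polynomial.eval_map, ← Polynomial.aeval_def]
    refine mul_ne_zero hd0 ?_
    exact hz.aeval_derivative_ne_zero (minpoly.aeval _ z)

end Pool.Agent.Lib.TQ
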