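import Pool.Agent.Lib.TQ.CpA

/-!
# Module StgG: generators of the maximal ideal after adjoining monomials and a residually algebraic unit
`A'` is the localization of `A[U, v]`, the `U i` are small, `v` is a unit whose residue is a root of the reduction
of the monic polynomial `g` with coefficients in `A`, and (`hmin`) every polynomial over `A` of degree smaller
than the degree of `g` whose value at `v` is small has small coefficients.  Then the maximal ideal of `A'` is generated by
the maximal ideal of `A`, the `U i` and `g(v)`.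
PROOF. Elements of `A[U, v]` are `P(v) +` an element of the ideal generated by the `U i`, with `P` a polynomial with coefficients
in `A` (induction on the closure).  If it is small, `P(v)` is small; division by the monic `g`: `P = Q g + R`
(polynomials with coefficients in the subring `A`), `R(v)` is small, so the coefficients of `R` are small (`hmin`).
For a fraction `a / b`, `‖b‖ = 1`: `a` is small.
-/

namespace Pool.Agent.Lib.TQ

open Pool.Agent.Lib.MP_3029eb_ag Pool.Agent.Lib.MP_3029eb_ag.Abh Pool.Agent.Lib.TDO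
  Pool.Agent.Lib.TU

private theorem stgG_sub_lt {W : Type} [NormedField W] [IsUltrametricDist W] {a b : W}
    (ha : ‖a‖ < 1) (hb : ‖b‖ < 1) : ‖a - b‖ < 1 := by
  rw [sub_eq_add_neg]
  refine lt_of_le_of_lt (IsUltrametricDist.norm_add_le_max a (-b)) (max_lt ha ?_)
  rw [norm_neg]
  exact hb

/-- elements of the span of small elements are small -/
private theorem stgG_span_lt {W : Type} [NormedField W] [IsUltrametricDist W] {A' : Subring W}
    (hA' : ∀ z ∈ A', ‖z‖ ≤ 1) {s : Set W} (hs : ∀ x ∈ s, ‖x‖ < 1) {z : W}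
    (hz : z ∈ Submodule.span A' s) : ‖z‖ < 1 := by
  induction hz using Submodule.span_induction with
  | mem x hx => exact hs x hx
  | zero => rw [norm_zero]; exact zero_lt_one
  | add x y _ _ hx hy =>
    exact lt_of_le_of_lt (IsUltrametricDist.norm_add_le_max x y) (max_lt hx hy)
  | smul c x _ hx =>
    have h1 : c • x = (c : W) * x := rfl
    rw [h1, norm_mul]
    exact lt_of_le_of_lt (mul_le_of_le_one_left (norm_nonneg _) (hA' c c.2)) hx

/-- the elements of `A[U, v]` are polynomials in `v` modulo the ideal generated by the `U i` -/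
private theorem stgG_poly {W : Type} [NormedField W] {r : ℕ} (A A' : Subring W) (hAA' : A ≤ A')
    (U : Fin r → W) (hU : ∀ i, U i ∈ A') (v : W) (hv : v ∈ A') {a : W}
    (ha : a ∈ Subring.closure ((A : Set W) ∪ (insert v (Set.range U)))) :
    a ∈ A' ∧ ∃ P : Polynomial A, Polynomial.aeval v P ∈ A' ∧
      a - Polynomial.aeval v P ∈ Submodule.span A' (Set.range U) := by
  induction ha using Subring.closure_induction with
  | mem x hx =>
    rcases hx with hx | hx
    · refine ⟨hAA' hx, Polynomial.C ⟨x, hx⟩, ?_, ?_⟩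
      · rw [Polynomial.aeval_C]
        exact hAA' hx
      · rw [Polynomial.aeval_C]
        have h1 : x - algebraMap A W ⟨x, hx⟩ = 0 := sub_self x
        rw [h1]
        exact zero_mem _
    · rcases hx with rfl | ⟨i, rfl⟩
      · refine ⟨hv, Polynomial.X, ?_, ?_⟩
        · rw [Polynomial.aeval_X]; exact hv
        · rw [Polynomial.aeval_X, sub_self]; exact zero_mem _
      · refine ⟨hU i, 0, ?_, ?_⟩
        · rw [map_zero]; exact zero_mem _
        · rw [map_zero, sub_zero]
          exact Submodule.subset_span ⟨i, rfl⟩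
  | zero =>
    refine ⟨zero_mem _, 0, ?_, ?_⟩
    · rw [map_zero]; exact zero_mem _
    · rw [map_zero, sub_zero]; exact zero_mem _
  | one =>
    refine ⟨one_mem _, 1, ?_, ?_⟩
    · rw [map_one]; exact one_mem _
    · rw [map_one, sub_self]; exact zero_mem _
  | add x y _ _ hx hy =>
    obtain ⟨hx1, P, hP1, hP2⟩ := hx
    obtain ⟨hy1, Q, hQ1, hQ2⟩ := hy
    refine ⟨add_mem hx1 hy1, P + Q, ?_, ?_⟩
    · rw [map_add]; exact add_mem hP1 hQ1
    · have h1 : x + y - Polynomial.aeval v (P + Q) =
          (x - Polynomial.aeval v P) + (y - Polynomial.aeval v Q) := by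
        rw [map_add]; ring
      rw [h1]
      exact add_mem hP2 hQ2
  | neg x _ hx =>
    obtain ⟨hx1, P, hP1, hP2⟩ := hx
    refine ⟨neg_mem hx1, -P, ?_, ?_⟩
    · rw [map_neg]; exact neg_mem hP1
    · have h1 : -x - Polynomial.aeval v (-P) = -(x - Polynomial.aeval v P) := by
        rw [map_neg]; ring
      rw [h1]
      exact neg_mem hP2
  | mul x y _ _ hx hy =>
    obtain ⟨hx1, P, hP1, hP2⟩ := hx
    obtain ⟨hy1, Q, hQ1, hQ2⟩ := hy
    refine ⟨mul_mem hx1 hy1, P * Q, ?_, ?_⟩
    · rw [map_mul]; exact mul_mem hP1 hQ1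
    · have h1 : x * y - Polynomial.aeval v (P * Q) =
          (⟨x, hx1⟩ : A') • (y - Polynomial.aeval v Q) +
            (⟨Polynomial.aeval v Q, hQ1⟩ : A') • (x - Polynomial.aeval v P) := by
        rw [map_mul]
        show _ = x * (y - Polynomial.aeval v Q) +
          Polynomial.aeval v Q * (x - Polynomial.aeval v P)
        ring
      rw [h1]
      exact add_mem (Submodule.smul_mem _ _ hQ2) (Submodule.smul_mem _ _ hP2)

theorem stg_gen {W : Type} [NormedField W] [IsUltrametricDist W] {X : Subfield W} {r : ℕ}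
    (A : Subring W) (hA : Nl X A) (U : Fin r → W) (hU : ∀ i, ‖U i‖ < 1) (v : W) (hv : ‖v‖ = 1)
    (g : Polynomial W) (hg : ∀ j, g.coeff j ∈ A) (hgm : g.Monic) (hgv : ‖g.eval v‖ < 1)
    (hmin : ∀ R : Polynomial W, (∀ j, R.coeff j ∈ A) → R.degree < g.degree →
      ‖R.eval v‖ < 1 → ∀ j, ‖R.coeff j‖ < 1)
    (A' : Subring W)
    (hA' : A' = locV (ball W) (Subring.closure ((A : Set W) ∪ (insert v (Set.range U))))) :
    g.eval v ∈ A' ∧ ∀ z ∈ A', ‖z‖ < 1 →
      z ∈ Submodule.span A' ({a : W | a ∈ A ∧ ‖a‖ < 1} ∪ (Set.range U ∪ {g.eval v})) := by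
  have hBA' : Subring.closure ((A : Set W) ∪ (insert v (Set.range U))) ≤ A' := by
    rw [hA']
    exact fun z hz => ⟨z, hz, 1, one_mem _, map_one _, mul_one z⟩
  have hAA' : A ≤ A' := fun z hz => hBA' (Subring.subset_closure (Or.inl hz))
  have hvA' : v ∈ A' := hBA' (Subring.subset_closure (Or.inr (Set.mem_insert v _)))
  have hUA' : ∀ i, U i ∈ A' := fun i =>
    hBA' (Subring.subset_closure (Or.inr (Set.mem_insert_of_mem v ⟨i, rfl⟩)))
  have hAb : ∀ z ∈ A', ‖z‖ ≤ 1 := by
    rw [hA']
    refine locV_le (ball W) ?_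
    rw [Subring.closure_le]
    rintro z (hz | hz | ⟨i, rfl⟩)
    · exact hA.one z hz
    · rw [hz]; exact hv.le
    · exact (hU i).le
  -- the polynomial over the subring
  let g' : Polynomial A := g.toSubring A (fun x hx => by
    obtain ⟨j, -, rfl⟩ := Polynomial.mem_coeffs_iff.1 hx
    exact hg j)
  have hg'g : g'.map (algebraMap A W) = g := Polynomial.map_toSubring g A _
  have hg'm : g'.Monic := (Polynomial.monic_toSubring g A _).2 hgm
  have hev : ∀ P : Polynomial A, Polynomial.aeval v P = (P.map (algebraMap A W)).eval v := by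
    intro P
    rw [Polynomial.aeval_def, Polynomial.eval₂_eq_eval_map]
  have haev : ∀ P : Polynomial A, Polynomial.aeval v P ∈ A' := by
    intro P
    rw [Polynomial.aeval_eq_sum_range]
    refine sum_mem fun i _ => ?_
    have h1 : P.coeff i • v ^ i = (P.coeff i : W) * v ^ i := rfl
    rw [h1]
    exact mul_mem (hAA' (P.coeff i).2) (pow_mem hvA' i)
  have hgA' : g.eval v ∈ A' := by
    rw [← hg'g, ← hev]
    exact haev g'
  refine ⟨hgA', fun z hz hz1 => ?_⟩
  have hz' := hz
  rw [hA'] at hz'
  obtain ⟨a, ha, b, hb, hb1, hab⟩ := hz'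
  have hbn : ‖b‖ = 1 := (ball_val_eq_one b).1 hb1
  have hb0 : b ≠ 0 := by
    intro h0
    rw [h0, norm_zero] at hbn
    exact zero_ne_one hbn
  have han : ‖a‖ < 1 := by rw [← hab, norm_mul, hbn, mul_one]; exact hz1
  obtain ⟨haA, P, hP1, hP2⟩ := stgG_poly A A' hAA' U hUA' v hvA' ha
  have hUlt : ‖a - Polynomial.aeval v P‖ < 1 := by
    refine stgG_span_lt hAb ?_ hP2
    rintro _ ⟨i, rfl⟩
    exact hU i
  have hPlt : ‖Polynomial.aeval v P‖ < 1 := by
    have h1 : Polynomial.aeval v P = a - (a - Polynomial.aeval v P) := by ring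
    rw [h1]
    exact stgG_sub_lt han hUlt
  -- division
  have hdiv : Polynomial.aeval v P = Polynomial.aeval v (P %ₘ g') +
      g.eval v * Polynomial.aeval v (P /ₘ g') := by
    conv_lhs => rw [← Polynomial.modByMonic_add_div P g']
    rw [map_add, map_mul, hev g', hg'g]
  have hRlt : ‖Polynomial.aeval v (P %ₘ g')‖ < 1 := by
    have h1 : Polynomial.aeval v (P %ₘ g') = Polynomial.aeval v P -
      g.eval v * Polynomial.aeval v (P /ₘ g') := by rw [hdiv]; ring
    rw [h1]
    refine stgG_sub_lt hPlt ?_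
    rw [norm_mul]
    exact lt_of_le_of_lt (mul_le_of_le_one_right (norm_nonneg _) (hAb _ (haev _))) hgv
  have hcoef : ∀ j, ‖(((P %ₘ g').coeff j : A) : W)‖ < 1 := by
    have h1 := hmin ((P %ₘ g').map (algebraMap A W)) (fun j => by
      rw [Polynomial.coeff_map]
      exact ((P %ₘ g').coeff j).2) ?_ (by rw [← hev]; exact hRlt)
    · intro j
      have h2 := h1 j
      rw [Polynomial.coeff_map] at h2
      exact h2
    · refine lt_of_le_of_lt Polynomial.degree_map_le ?_
      have h2 := Polynomial.degree_modByMonic_lt P hg'm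
      have h3 : g'.degree = g.degree := Polynomial.degree_toSubring g A _
      rwa [h3] at h2
  set J : Submodule A' W :=
    Submodule.span A' ({a : W | a ∈ A ∧ ‖a‖ < 1} ∪ (Set.range U ∪ {g.eval v})) with hJ
  have hR : Polynomial.aeval v (P %ₘ g') ∈ J := by
    rw [Polynomial.aeval_eq_sum_range]
    refine sum_mem fun i _ => ?_
    have h1 : (P %ₘ g').coeff i • v ^ i =
        (⟨v ^ i, pow_mem hvA' i⟩ : A') • (((P %ₘ g').coeff i : A) : W) := mul_comm _ _
    rw [h1]
    exact Submodule.smul_mem _ _ (Submodule.subset_span (Or.inl ⟨((P %ₘ g').coeff i).2, hcoef i⟩))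
  have hG : g.eval v * Polynomial.aeval v (P /ₘ g') ∈ J := by
    have h1 : g.eval v * Polynomial.aeval v (P /ₘ g') =
        (⟨Polynomial.aeval v (P /ₘ g'), haev _⟩ : A') • g.eval v := mul_comm _ _
    rw [h1]
    exact Submodule.smul_mem _ _ (Submodule.subset_span (Or.inr (Or.inr rfl)))
  have hUJ : a - Polynomial.aeval v P ∈ J :=
    Submodule.span_mono (fun x hx => Or.inr (Or.inl hx)) hP2
  have haJ : a ∈ J := by
    have h1 : a = (a - Polynomial.aeval v P) + (Polynomial.aeval v (P %ₘ g') +
      g.eval v * Polynomial.aeval v (P /ₘ g')) := by rw [← hdiv]; ring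
    rw [h1]
    exact add_mem hUJ (add_mem hR hG)
  have hbi : b⁻¹ ∈ A' := by
    rw [hA']
    exact ⟨1, one_mem _, b, hb, hb1, inv_mul_cancel₀ hb0⟩
  have hzb : z = (⟨b⁻¹, hbi⟩ : A') • a := by
    show z = b⁻¹ * a
    rw [← hab, mul_comm z b, ← mul_assoc, inv_mul_cancel₀ hb0, one_mul]
  rw [hzb]
  exact Submodule.smul_mem _ _ haJ

end Pool.Agent.Lib.TQ
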