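import Pool.Agent.Lib.TQ.Defs
import Pool.Agent.Lib.TU.MtB

/-!
# Module StgM: monomial bookkeeping of one stage
The lattice of Laurent monomials in `c.x, c.y` is identified by `T` with the lattice of Laurent monomials in `x1, w`
(`x1` the new `x`).  `x'` is a monomial basis change of `x`, `x''` of `x1`.  So `(x'', w)` and `(x', y)` are related
by mutually inverse integral transformations of exponents; the last statement says that these transformations
are mutually inverse as formal transformations (for arbitrary nonzero elements `X, Y` in place of `x', y`).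
PROOF. `Mt.ref` for `hx'` gives matrices `A, B` with `x i = monN x' (A i)`, `x' i = mon x (B i)`, and the two matrices
are inverse to each other (both products are the identity: one is in `Mt`, the other follows for integral
square matrices, `Matrix.mul_eq_one_comm`).  Same for `x'', x1`.  Define the exponents by composing:
`x'' i = mon x1 (B'' i) = mon x (T.symm (B'' i, 0)).1 * y ^ (T.symm (B'' i, 0)).2` and `mon x a = mon x' (a A)`;
`w = mon x (T.symm (0, 1)).1 * y ^ (T.symm (0, 1)).2`; `x' l = mon x (B l)`, `mon x a * y ^ j = mon x1 .. * w ^ ..`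
(`hm`), `mon x1 a = mon x'' (a A'')`.  The formal identity: `mon (fun i => mon X (a i) * Y ^ (j i)) b =
mon X (∑ i, b i * a i ·) * Y ^ (∑ i, b i * j i)` and the composite exponent is the given one, because the
composite of the group homomorphisms `(Fin r → ℤ) × ℤ → (Fin r → ℤ) × ℤ` is the identity.
-/

namespace Pool.Agent.Lib.TQ

open Pool.Agent.Lib.MP_3029eb_ag Pool.Agent.Lib.MP_3029eb_ag.Abh Pool.Agent.Lib.TDO
  Pool.Agent.Lib.TU

/-- a homomorphism from the group of exponents is determined by its values on the basis -/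
private theorem stgm_hom {W : Type} [Field W] {r : ℕ} (g : (Fin r → ℤ) × ℤ → W)
    (hg0 : g 0 = 1) (hg : ∀ u v, g (u + v) = g u * g v) (b : Fin r → ℤ) (n : ℤ) :
    mon (fun i => g (Pi.single i 1, 0)) b * g (0, 1) ^ n = g (b, n) := by
  classical
  let φ : Multiplicative ((Fin r → ℤ) × ℤ) →* W :=
    { toFun := fun u => g u.toAdd
      map_one' := hg0
      map_mul' := fun u v => hg _ _ }
  have hz : ∀ (m : ℤ) (u : (Fin r → ℤ) × ℤ), g (m • u) = g u ^ m := by
    intro m u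
    have h1 : φ.toHomUnits (Multiplicative.ofAdd (m • u)) =
        φ.toHomUnits (Multiplicative.ofAdd u) ^ m := by
      rw [ofAdd_zsmul, map_zpow]
    have h2 := congrArg (Units.val) h1
    rw [Units.val_zpow_eq_zpow_val] at h2
    exact h2
  have hs : ∀ (s : Finset (Fin r)) (f : Fin r → (Fin r → ℤ) × ℤ),
      g (∑ i ∈ s, f i) = ∏ i ∈ s, g (f i) := by
    intro s f
    induction s using Finset.induction_on with
    | empty => rw [Finset.sum_empty, Finset.prod_empty, hg0]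
    | insert a s ha ih => rw [Finset.sum_insert ha, Finset.prod_insert ha, hg, ih]
  have hb : (b, n) = (∑ i, b i • ((Pi.single i 1 : Fin r → ℤ), (0 : ℤ))) +
      n • ((0 : Fin r → ℤ), (1 : ℤ)) := by
    refine Prod.ext ?_ ?_
    · rw [Prod.fst_add, Prod.fst_sum]
      funext l
      simp [Finset.sum_apply, Pi.single_apply]
    · rw [Prod.snd_add, Prod.snd_sum]
      simp
  rw [hb, hg, hs, hz]
  congr 1
  unfold mon
  exact Finset.prod_congr rfl fun i _ => (hz _ _).symm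

/-- the value of a monomial -/
private def stgm_F {W : Type} [Field W] {r : ℕ} (X : Fin r → W) (Y : W) (u : (Fin r → ℤ) × ℤ) :
    W := mon X u.1 * Y ^ u.2

private theorem stgm_F_zero {W : Type} [Field W] {r : ℕ} (X : Fin r → W) (Y : W) :
    stgm_F X Y 0 = 1 := by
  unfold stgm_F
  rw [Prod.fst_zero, Prod.snd_zero, mon_zero, zpow_zero, one_mul]

private theorem stgm_F_add {W : Type} [Field W] {r : ℕ} (X : Fin r → W) (Y : W)
    (hX : ∀ l, X l ≠ 0) (hY : Y ≠ 0) (u v : (Fin r → ℤ) × ℤ) :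
    stgm_F X Y (u + v) = stgm_F X Y u * stgm_F X Y v := by
  unfold stgm_F
  rw [Prod.fst_add, Prod.snd_add, mon_add X hX, zpow_add₀ hY]
  ring

private theorem stgm_F_single {W : Type} [Field W] {r : ℕ} (X : Fin r → W) (Y : W) (l : Fin r) :
    stgm_F X Y (Pi.single l 1, 0) = X l := by
  unfold stgm_F
  rw [mon_single, zpow_zero, mul_one]

private theorem stgm_F_one {W : Type} [Field W] {r : ℕ} (X : Fin r → W) (Y : W) :
    stgm_F X Y (0, 1) = Y := by
  unfold stgm_F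
  rw [mon_zero, zpow_one, one_mul]

theorem stg_mon {W : Type} [NormedField W] {r : ℕ} {x x' x1 x'' : Fin r → W} {y w : W}
    (hx : Indep x) (hx1 : Indep x1) (hy0 : y ≠ 0) (hw1 : ‖w‖ = 1) (hx' : Mt x x')
    (hx'' : Mt x1 x'') (T : ((Fin r → ℤ) × ℤ) ≃+ ((Fin r → ℤ) × ℤ))
    (hm : ∀ (a : Fin r → ℤ) (j : ℤ), mon x a * y ^ j =
      mon x1 (T (a, j)).1 * w ^ (T (a, j)).2) :
    ∃ (a : Fin r → Fin r → ℤ) (j : Fin r → ℤ) (av : Fin r → ℤ) (jv : ℤ)
      (b : Fin r → Fin r → ℤ) (n : Fin r → ℤ) (bY : Fin r → ℤ) (nY : ℤ),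
      (∀ i, x'' i = mon x' (a i) * y ^ (j i)) ∧ w = mon x' av * y ^ jv ∧
      (∀ l, x' l = mon x'' (b l) * w ^ (n l)) ∧ y = mon x'' bY * w ^ nY ∧
      ∀ (X : Fin r → W) (Y : W), (∀ l, X l ≠ 0) → Y ≠ 0 →
        (∀ l, X l = mon (fun i => mon X (a i) * Y ^ (j i)) (b l) *
          (mon X av * Y ^ jv) ^ (n l)) ∧
        Y = mon (fun i => mon X (a i) * Y ^ (j i)) bY * (mon X av * Y ^ jv) ^ nY := by
  obtain ⟨A, B, hR⟩ := hx'.ref
  obtain ⟨A1, B1, hR1⟩ := hx''.ref
  set A' : Matrix (Fin r) (Fin r) ℤ := A.map (fun n : ℕ => (n : ℤ)) with hA'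
  set A1' : Matrix (Fin r) (Fin r) ℤ := A1.map (fun n : ℕ => (n : ℤ)) with hA1'
  have hAB : A' * B = 1 := hR.h3
  have hBA : B * A' = 1 := mul_eq_one_comm.1 hR.h3
  have hAB1 : A1' * B1 = 1 := hR1.h3
  have hBA1 : B1 * A1' = 1 := mul_eq_one_comm.1 hR1.h3
  -- change of exponents from `(x', y)` to `(x'', w)` and back
  let Θ : (Fin r → ℤ) × ℤ → (Fin r → ℤ) × ℤ := fun u =>
    (Matrix.vecMul (T (Matrix.vecMul u.1 B, u.2)).1 A1', (T (Matrix.vecMul u.1 B, u.2)).2)
  let Θ' : (Fin r → ℤ) × ℤ → (Fin r → ℤ) × ℤ := fun u =>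
    (Matrix.vecMul (T.symm (Matrix.vecMul u.1 B1, u.2)).1 A',
      (T.symm (Matrix.vecMul u.1 B1, u.2)).2)
  have hΘ'0 : Θ' 0 = 0 := by
    have h1 : ((Matrix.vecMul (0 : (Fin r → ℤ) × ℤ).1 B1, (0 : (Fin r → ℤ) × ℤ).2) :
        (Fin r → ℤ) × ℤ) = 0 := by
      rw [Prod.fst_zero, Prod.snd_zero, Matrix.zero_vecMul]
      rfl
    show (Matrix.vecMul (T.symm (Matrix.vecMul (0 : (Fin r → ℤ) × ℤ).1 B1,
      (0 : (Fin r → ℤ) × ℤ).2)).1 A', (T.symm (Matrix.vecMul (0 : (Fin r → ℤ) × ℤ).1 B1,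
      (0 : (Fin r → ℤ) × ℤ).2)).2) = 0
    rw [h1, map_zero, Prod.fst_zero, Prod.snd_zero, Matrix.zero_vecMul]
    rfl
  have hΘ'a : ∀ u v, Θ' (u + v) = Θ' u + Θ' v := by
    intro u v
    have h1 : ((Matrix.vecMul (u + v).1 B1, (u + v).2) : (Fin r → ℤ) × ℤ) =
        (Matrix.vecMul u.1 B1, u.2) + (Matrix.vecMul v.1 B1, v.2) := by
      rw [Prod.fst_add, Prod.snd_add, Matrix.add_vecMul]
      rfl
    show (Matrix.vecMul (T.symm (Matrix.vecMul (u + v).1 B1, (u + v).2)).1 A',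
      (T.symm (Matrix.vecMul (u + v).1 B1, (u + v).2)).2) = _
    rw [h1, map_add, Prod.fst_add, Prod.snd_add, Matrix.add_vecMul]
    rfl
  have hinv : ∀ u, Θ (Θ' u) = u := by
    intro u
    show (Matrix.vecMul (T (Matrix.vecMul (Matrix.vecMul
      (T.symm (Matrix.vecMul u.1 B1, u.2)).1 A') B,
      (T.symm (Matrix.vecMul u.1 B1, u.2)).2)).1 A1', (T (Matrix.vecMul (Matrix.vecMul
      (T.symm (Matrix.vecMul u.1 B1, u.2)).1 A') B,
      (T.symm (Matrix.vecMul u.1 B1, u.2)).2)).2) = u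
    rw [Matrix.vecMul_vecMul, hAB, Matrix.vecMul_one, Prod.mk.eta, AddEquiv.apply_symm_apply,
      Matrix.vecMul_vecMul, hBA1, Matrix.vecMul_one]
  have hinv' : ∀ u, Θ' (Θ u) = u := by
    intro u
    show (Matrix.vecMul (T.symm (Matrix.vecMul (Matrix.vecMul
      (T (Matrix.vecMul u.1 B, u.2)).1 A1') B1,
      (T (Matrix.vecMul u.1 B, u.2)).2)).1 A', (T.symm (Matrix.vecMul (Matrix.vecMul
      (T (Matrix.vecMul u.1 B, u.2)).1 A1') B1,
      (T (Matrix.vecMul u.1 B, u.2)).2)).2) = u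
    rw [Matrix.vecMul_vecMul, hAB1, Matrix.vecMul_one, Prod.mk.eta, AddEquiv.symm_apply_apply,
      Matrix.vecMul_vecMul, hBA, Matrix.vecMul_one]
  have hF : ∀ u, stgm_F x' y u = stgm_F x'' w (Θ u) := by
    intro u
    show mon x' u.1 * y ^ u.2 = mon x'' (Matrix.vecMul (T (Matrix.vecMul u.1 B, u.2)).1 A1') *
      w ^ (T (Matrix.vecMul u.1 B, u.2)).2
    rw [T1_mon_mon x x' hx.ne B hR.h2, hm, hR1.mon_eq]
  have hF' : ∀ u, stgm_F x'' w u = stgm_F x' y (Θ' u) := by
    intro u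
    rw [hF, hinv]
  refine ⟨fun i => (Θ' (Pi.single i 1, 0)).1, fun i => (Θ' (Pi.single i 1, 0)).2,
    (Θ' (0, 1)).1, (Θ' (0, 1)).2, fun l => (Θ (Pi.single l 1, 0)).1,
    fun l => (Θ (Pi.single l 1, 0)).2, (Θ (0, 1)).1, (Θ (0, 1)).2, ?_, ?_, ?_, ?_, ?_⟩
  · intro i
    rw [← stgm_F_single x'' w i, hF']
    rfl
  · rw [← stgm_F_one x'' w, hF']
    rfl
  · intro l
    rw [← stgm_F_single x' y l, hF]
    rfl
  · rw [← stgm_F_one x' y, hF]
    rfl
  · intro X Y hX hY
    have hg : ∀ (b : Fin r → ℤ) (n : ℤ),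
        mon (fun i => stgm_F X Y (Θ' (Pi.single i 1, 0))) b * stgm_F X Y (Θ' (0, 1)) ^ n =
        stgm_F X Y (Θ' (b, n)) := by
      intro b n
      refine stgm_hom (fun u => stgm_F X Y (Θ' u)) ?_ ?_ b n
      · show stgm_F X Y (Θ' 0) = 1
        rw [hΘ'0, stgm_F_zero]
      · intro u v
        show stgm_F X Y (Θ' (u + v)) = _
        rw [hΘ'a, stgm_F_add X Y hX hY]
    refine ⟨fun l => ?_, ?_⟩
    · have h1 := hg (Θ (Pi.single l 1, 0)).1 (Θ (Pi.single l 1, 0)).2
      rw [Prod.mk.eta, hinv', stgm_F_single] at h1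
      exact h1.symm
    · have h1 := hg (Θ (0, 1)).1 (Θ (0, 1)).2
      rw [Prod.mk.eta, hinv', stgm_F_one] at h1
      exact h1.symm

end Pool.Agent.Lib.TQ
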