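import Pool.Agent.Lib.TQ.CpC
import Pool.Agent.Lib.MP_3029eb_ag.AbhC4

/-!
# Module CgB: systems of parameters, finiteness over a power series ring
`cg_sop`: the maximal ideal of the noetherian local ring `D` has height `ρ`; Mathlib: an ideal generated by `ρ` elements
over which it is minimal (`Ideal.exists_spanRank_le_and_le_height_of_le_height`, or search `exists_finset_card_eq_height`,
`IsLocalRing.exists_...systemOfParameters`); so a power of the maximal ideal is contained in it.  If some `t i = 0` replace it by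
a nonzero element of a high power of the maximal ideal (`D` is not a field as `ρ ≥ 1`).
`cg_fin`: `P := Pt C0 t` is noetherian (localization of a finitely generated algebra over the field `C0`); `cp_fin`.
`cg_indep`: every prime of `D` above the maximal ideal of `P` is maximal (it is integral over `Cp P`), so
`ρ = dim D ≤ dim P` (Krull).  If the `t i` were algebraically
dependent over `C0`, `P` would be a localization of `MvPolynomial (Fin ρ) C0 ⧸ J` at a prime, `J ≠ 0`, so of dimension `< ρ`.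
-/

namespace Pool.Agent.Lib.TQ

open Pool.Agent.Lib.MP_3029eb_ag Pool.Agent.Lib.MP_3029eb_ag.Abh Pool.Agent.Lib.TDO
  Pool.Agent.Lib.TU

private theorem cgb_prime_le {R : Type} [CommRing R] [IsLocalRing R] {J : Ideal R}
    (hmin : IsLocalRing.maximalIdeal R ∈ J.minimalPrimes) (q : Ideal R) [q.IsPrime]
    (hq : J ≤ q) : IsLocalRing.maximalIdeal R ≤ q :=
  hmin.2 ⟨inferInstance, hq⟩ (IsLocalRing.le_maximalIdeal (Ideal.IsPrime.ne_top inferInstance))

theorem cg_sop {W : Type} [NormedField W] [IsUltrametricDist W] {X : Subfield W} {D : Subring W}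
    (hD : Nl X D) {ρ : ℕ} (hdim : ringKrullDim D = (((ρ : ℕ) : ℕ∞) : WithBot ℕ∞)) :
    ∃ t : Fin ρ → W, (∀ i, t i ∈ D ∧ ‖t i‖ < 1 ∧ t i ≠ 0) ∧
      ∃ N : ℕ, ∀ z ∈ mP D N, z ∈ Submodule.span D (Set.range t) := by
  classical
  have hloc : IsLocalRing D := hD.isLocal
  have hnoe : IsNoetherianRing D := hD.noeth
  obtain ⟨s, hs, hcard⟩ :=
    (IsLocalRing.maximalIdeal D).exists_finset_card_eq_height_of_isNoetherianRing
  have hρ : s.card = ρ := by
    have h1 := IsLocalRing.maximalIdeal_height_eq_ringKrullDim (R := D)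
    rw [hdim, ← hcard] at h1
    exact_mod_cast h1
  have hrad : (Ideal.span (s : Set D)).radical = IsLocalRing.maximalIdeal D := by
    apply le_antisymm
    · exact (Ideal.IsPrime.radical_le_iff inferInstance).2 hs.1.2
    · rw [Ideal.radical_eq_sInf]
      refine le_sInf fun q hq => ?_
      have := hq.2
      exact cgb_prime_le hs q hq.1
  obtain ⟨N, hN⟩ := Ideal.exists_radical_pow_le_of_fg (Ideal.span (s : Set D))
    (IsNoetherian.noetherian _)
  rw [hrad] at hN
  let e : Fin ρ ≃ s := (finCongr hρ.symm).trans s.equivFin.symm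
  have hex : ∀ i : Fin ρ, ∃ y : D, y ≠ 0 ∧ ‖(y : W)‖ < 1 ∧
      (((e i : s) : D) ≠ 0 → y = ((e i : s) : D)) := by
    intro i
    by_cases h0 : ((e i : s) : D) = 0
    · have hne : IsLocalRing.maximalIdeal D ≠ ⊥ := by
        intro h
        have h1 := IsLocalRing.maximalIdeal_height_eq_ringKrullDim (R := D)
        rw [h, Ideal.height_bot, hdim] at h1
        have h2 : ρ = 0 := by exact_mod_cast h1.symm
        exact absurd i.2 (by omega)
      obtain ⟨y, hy, hy0⟩ := Submodule.exists_mem_ne_zero_of_ne_bot hne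
      refine ⟨y, hy0, ?_, fun h => absurd h0 h⟩
      rw [← hD.mI_eq] at hy
      exact (hD.mem_mI y).1 hy
    · refine ⟨_, h0, ?_, fun _ => rfl⟩
      have h1 : ((e i : s) : D) ∈ IsLocalRing.maximalIdeal D :=
        hs.1.2 (Ideal.subset_span (e i).2)
      rw [← hD.mI_eq] at h1
      exact (hD.mem_mI _).1 h1
  choose y hy0 hy1 hy2 using hex
  refine ⟨fun i => (y i : W), fun i => ⟨(y i).2, hy1 i, fun h => hy0 i (Subtype.ext h)⟩, N, ?_⟩
  rintro _ ⟨z, hz, rfl⟩
  rw [hD.mI_eq] at hz
  have h1 : Ideal.span (s : Set D) ≤ Ideal.span (Set.range y) := by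
    rw [Ideal.span_le]
    intro x hx
    by_cases hx0 : x = 0
    · rw [hx0]
      exact zero_mem _
    · have h2 : y (e.symm ⟨x, hx⟩) = x := by
        have h3 := hy2 (e.symm ⟨x, hx⟩)
        rw [Equiv.apply_symm_apply] at h3
        exact h3 hx0
      exact Ideal.subset_span ⟨_, h2⟩
  have h2 := Submodule.mem_map_of_mem (f := (Algebra.linearMap D W)) (h1 (hN hz))
  unfold Ideal.span at h2
  rw [Submodule.map_span, ← Set.range_comp] at h2
  exact h2

variable {k W : Type} [Field k] [NormedField W] [IsUltrametricDist W] [Algebra k W]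

omit [IsUltrametricDist W] in
private theorem cgb_closure (C0 : IntermediateField k W) {n : ℕ} (t : Fin n → W) :
    (MvPolynomial.aeval t : MvPolynomial (Fin n) C0 →ₐ[C0] W).toRingHom.range =
      Subring.closure ((C0 : Set W) ∪ Set.range t) := by
  have h1 : (MvPolynomial.aeval t : MvPolynomial (Fin n) C0 →ₐ[C0] W).range =
      Algebra.adjoin C0 (Set.range t) := (Algebra.adjoin_range_eq_range_aeval C0 t).symm
  have h2 := Algebra.adjoin_eq_ring_closure (R := C0) (s := Set.range t)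
  have h3 : Set.range (algebraMap C0 W) = (C0 : Set W) := by
    ext z
    exact ⟨fun ⟨e, he⟩ => he ▸ e.2, fun hz => ⟨⟨z, hz⟩, rfl⟩⟩
  rw [h3] at h2
  rw [← h2, ← h1]
  rfl

omit [IsUltrametricDist W] in
private theorem cgb_noeth (C0 : IntermediateField k W) {n : ℕ} (t : Fin n → W) :
    IsNoetherianRing (Subring.closure ((C0 : Set W) ∪ Set.range t)) := by
  rw [← cgb_closure]
  exact isNoetherianRing_range _

theorem cg_fin {X : Subfield W} {D : Subring W} (hD : Nl X D) (hDc : Cp D = D)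
    (C0 : IntermediateField k W) (hu : ∀ e ∈ C0, e ≠ 0 → ‖e‖ = 1) (hC0D : ∀ e ∈ C0, e ∈ D)
    (hres : ∀ z ∈ D, ∃ e ∈ C0, ‖z - e‖ < 1) {n : ℕ} (t : Fin n → W)
    (ht : ∀ i, t i ∈ D ∧ ‖t i‖ < 1) (N : ℕ)
    (hN : ∀ z ∈ mP D N, z ∈ Submodule.span D (Set.range t)) :
    Nl X (Pt C0 t) ∧ Cp (Pt C0 t) ≤ D ∧
      (∀ z ∈ Pt C0 t, ‖z‖ < 1 → z ∈ Submodule.span (Pt C0 t) (Set.range t)) ∧
      ∃ (l : ℕ) (v : Fin l → W), (∀ i, v i ∈ D) ∧
        ∀ z ∈ D, ∃ c : Fin l → W, (∀ i, c i ∈ Cp (Pt C0 t)) ∧ z = ∑ i, c i * v i := by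
  obtain ⟨E, hE⟩ : ∃ E : Subring W, E = Subring.closure ((C0 : Set W) ∪ Set.range t) := ⟨_, rfl⟩
  have hEn : IsNoetherianRing E := by
    rw [hE]; exact cgb_noeth C0 t
  have hPE : Pt C0 t = locV (ball W) E := by rw [hE]; rfl
  obtain ⟨P, hPdef⟩ : ∃ P : Subring W, P = Pt C0 t := ⟨_, rfl⟩
  rw [← hPdef] at hPE ⊢
  have hED : E ≤ D := by
    rw [hE, Subring.closure_le]
    rintro z (hz | ⟨j, rfl⟩)
    · exact hC0D z hz
    · exact (ht j).1
  have hLD : P ≤ D := by
    have h1 := locV_mono (ball W) hED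
    rw [hPE]
    rwa [hD.locV_eq] at h1
  have hNl : Nl X P :=
    { comp := hD.comp
      nt := hD.nt
      le := fun z hz => hD.le z (hLD hz)
      one := fun z hz => hD.one z (hLD hz)
      inv := fun z hz h1 => by
        rw [hPE] at hz ⊢
        exact E5_inv (locV_locV (ball W) E) hz ((ball_val_eq_one z).2 h1)
      noeth := by
        rw [hPE]
        exact isNoetherianRing_locV (ball W) }
  have hEL : E ≤ P := by
    rw [hPE]
    exact le_locV (ball W) E
  have hC0E : ∀ e ∈ C0, e ∈ E := by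
    intro e he
    rw [hE]
    exact Subring.subset_closure (Or.inl he)
  have htE : ∀ j, t j ∈ E := by
    intro j
    rw [hE]
    exact Subring.subset_closure (Or.inr ⟨j, rfl⟩)
  have hlt : ∀ y ∈ Submodule.span P (Set.range t), ‖y‖ < 1 := by
    intro y hy
    induction hy using Submodule.span_induction with
    | mem x hx =>
      obtain ⟨i, rfl⟩ := hx
      exact (ht i).2
    | zero => rw [norm_zero]; exact zero_lt_one
    | add x y _ _ hx hy =>
      exact (IsUltrametricDist.norm_add_le_max x y).trans_lt (max_lt hx hy)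
    | smul a x _ hx =>
      have h1 : a • x = (a : W) * x := rfl
      rw [h1, norm_mul]
      exact lt_of_le_of_lt (mul_le_of_le_one_left (norm_nonneg _) (hNl.one a a.2)) hx
  have hdec : ∀ a ∈ E, ∃ e ∈ C0, a - e ∈ Submodule.span P (Set.range t) := by
    intro a ha
    have ha' := ha
    rw [hE] at ha
    induction ha using Subring.closure_induction with
    | mem x hx =>
      rcases hx with hx | hx
      · exact ⟨x, hx, by rw [sub_self]; exact zero_mem _⟩
      · exact ⟨0, zero_mem _, by rw [sub_zero]; exact Submodule.subset_span hx⟩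
    | zero => exact ⟨0, zero_mem _, by rw [sub_zero]; exact zero_mem _⟩
    | one => exact ⟨1, one_mem _, by rw [sub_self]; exact zero_mem _⟩
    | add x y hx hy h1 h2 =>
      rw [← hE] at hx hy
      obtain ⟨e, he, h1⟩ := h1 hx
      obtain ⟨e', he', h2⟩ := h2 hy
      refine ⟨e + e', add_mem he he', ?_⟩
      rw [add_sub_add_comm]
      exact add_mem h1 h2
    | neg x hx h1 =>
      rw [← hE] at hx
      obtain ⟨e, he, h1⟩ := h1 hx
      refine ⟨-e, neg_mem he, ?_⟩
      have h3 : -x - -e = -(x - e) := by ring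
      rw [h3]
      exact neg_mem h1
    | mul x y hx hy h1 h2 =>
      rw [← hE] at hx hy
      obtain ⟨e, he, h1⟩ := h1 hx
      obtain ⟨e', he', h2⟩ := h2 hy
      refine ⟨e * e', mul_mem he he', ?_⟩
      have h3 : x * y - e * e' = (⟨x, hEL hx⟩ : P) • (y - e') +
          (⟨e', hEL (hC0E e' he')⟩ : P) • (x - e) := by
        show _ = x * (y - e') + e' * (x - e)
        ring
      rw [h3]
      exact add_mem (Submodule.smul_mem _ _ h2) (Submodule.smul_mem _ _ h1)
  have hgenP : ∀ z ∈ P, ‖z‖ < 1 → z ∈ Submodule.span P (Set.range t) := by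
    intro z hz hz1
    have hz' := hz
    rw [hPE] at hz'
    obtain ⟨a, ha, b, hb, hb1, hab⟩ := hz'
    have hb2 : ‖b‖ = 1 := (ball_val_eq_one b).1 hb1
    have hb0 : b ≠ 0 := by
      intro h0
      rw [h0, norm_zero] at hb2
      exact zero_ne_one hb2
    have ha1 : ‖a‖ < 1 := by rw [← hab, norm_mul, hb2, mul_one]; exact hz1
    obtain ⟨e, he, h1⟩ := hdec a ha
    have he0 : e = 0 := by
      by_contra h0
      have h2 := hu e he h0
      have h3 : e = a + -(a - e) := by ring
      have h4 : ‖e‖ < 1 := by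
        rw [h3]
        refine (IsUltrametricDist.norm_add_le_max _ _).trans_lt (max_lt ha1 ?_)
        rw [norm_neg]
        exact hlt _ h1
      exact absurd h2 h4.ne
    rw [he0, sub_zero] at h1
    have h5 : z = (⟨b⁻¹, hNl.inv b (hEL hb) hb2⟩ : P) • a := by
      show z = b⁻¹ * a
      rw [← hab]
      field_simp
    rw [h5]
    exact Submodule.smul_mem _ _ h1
  have hCD : Cp P ≤ D := by
    have h1 : Cp P ≤ Cp D := Cp_mono hNl hD (by rw [hDc]; exact hLD)
    rwa [hDc] at h1
  refine ⟨hNl, hCD, hgenP, cp_fin hNl hD hDc hLD ?_ N ?_⟩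
  · intro z hz
    obtain ⟨e, he, h1⟩ := hres z hz
    exact ⟨e, hEL (hC0E e he), h1⟩
  · intro z hz
    refine Submodule.span_mono ?_ (hN z hz)
    rintro _ ⟨i, rfl⟩
    exact ⟨hEL (htE i), (ht i).2⟩

private theorem cgb_dim {X : Subfield W} {D P : Subring W} (hD : Nl X D) (hP : Nl X P)
    (hPD : Cp P ≤ D) {l : ℕ} (v : Fin l → W) (hv : ∀ i, v i ∈ D)
    (hgen : ∀ z ∈ D, ∃ c : Fin l → W, (∀ i, c i ∈ Cp P) ∧ z = ∑ i, c i * v i) :
    ringKrullDim D ≤ ringKrullDim P := by
  classical
  have hlD : IsLocalRing D := hD.isLocal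
  have hnD : IsNoetherianRing D := hD.noeth
  have hlP : IsLocalRing P := hP.isLocal
  have hnP : IsNoetherianRing P := hP.noeth
  have hPD' : P ≤ D := le_Cp.trans hPD
  have hlR : IsLocalRing (Cp P) := hP.cp.isLocal
  obtain ⟨s, hs, hcard⟩ :=
    (IsLocalRing.maximalIdeal P).exists_finset_card_eq_height_of_isNoetherianRing
  let j : P →+* D := Subring.inclusion hPD'
  let i : Cp P →+* D := Subring.inclusion hPD
  let : Algebra (Cp P) D := i.toAlgebra
  have hfin : Module.Finite (Cp P) D := by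
    refine ⟨⟨Finset.univ.image fun a : Fin l => (⟨v a, hv a⟩ : D), ?_⟩⟩
    rw [eq_top_iff]
    intro z _
    obtain ⟨c, hc, hz⟩ := hgen z z.2
    have h1 : z = ∑ a, (⟨c a, hc a⟩ : Cp P) • (⟨v a, hv a⟩ : D) := by
      apply Subtype.ext
      rw [AddSubmonoidClass.coe_finsetSum]
      exact hz
    rw [h1]
    refine Submodule.sum_mem _ fun a _ => Submodule.smul_mem _ _ (Submodule.subset_span ?_)
    exact Finset.mem_coe.2 (Finset.mem_image_of_mem _ (Finset.mem_univ a))
  have hint : Algebra.IsIntegral (Cp P) D := Algebra.IsIntegral.of_finite _ _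
  have hmin : IsLocalRing.maximalIdeal D ∈ (Ideal.span ((s.image j : Finset D) : Set D)).minimalPrimes := by
    refine ⟨⟨inferInstance, ?_⟩, ?_⟩
    · rw [Ideal.span_le, Finset.coe_image]
      rintro _ ⟨b, hb, rfl⟩
      have h1 : b ∈ IsLocalRing.maximalIdeal P := hs.1.2 (Ideal.subset_span hb)
      rw [← hP.mI_eq, hP.mem_mI] at h1
      show j b ∈ IsLocalRing.maximalIdeal D
      rw [← hD.mI_eq, hD.mem_mI]
      exact h1
    · rintro q ⟨hq, hqs⟩ _
      have h1 : IsLocalRing.maximalIdeal P ≤ q.comap j := by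
        have : (q.comap j).IsPrime := Ideal.comap_isPrime j q
        refine cgb_prime_le hs (q.comap j) ?_
        rw [Ideal.span_le]
        intro b hb
        refine hqs (Ideal.subset_span ?_)
        rw [Finset.coe_image]
        exact ⟨b, hb, rfl⟩
      have h2 : ∀ z ∈ Submodule.span (Cp P) {b : W | b ∈ P ∧ ‖b‖ < 1},
          ∃ h : z ∈ D, (⟨z, h⟩ : D) ∈ q := by
        intro z hz
        induction hz using Submodule.span_induction with
        | mem x hx =>
          refine ⟨hPD' hx.1, ?_⟩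
          have h3 : (⟨x, hx.1⟩ : P) ∈ IsLocalRing.maximalIdeal P := by
            rw [← hP.mI_eq, hP.mem_mI]
            exact hx.2
          exact h1 h3
        | zero => exact ⟨zero_mem _, zero_mem q⟩
        | add x y _ _ hx hy =>
          obtain ⟨h3, h4⟩ := hx
          obtain ⟨h5, h6⟩ := hy
          exact ⟨add_mem h3 h5, q.add_mem h4 h6⟩
        | smul a x _ hx =>
          obtain ⟨h3, h4⟩ := hx
          exact ⟨mul_mem (hPD a.2) h3, q.mul_mem_left ⟨(a : W), hPD a.2⟩ h4⟩
      have h3 : q.comap (algebraMap (Cp P) D) = IsLocalRing.maximalIdeal (Cp P) := by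
        have hpr : (q.comap (algebraMap (Cp P) D)).IsPrime := Ideal.comap_isPrime _ q
        refine le_antisymm (IsLocalRing.le_maximalIdeal hpr.ne_top) ?_
        intro z hz
        rw [← hP.cp.mI_eq, hP.cp.mem_mI] at hz
        obtain ⟨h4, h5⟩ := h2 z (Cp_max hP z.2 hz)
        exact h5
      have h4 : (q.comap (algebraMap (Cp P) D)).IsMaximal := by
        rw [h3]
        exact IsLocalRing.maximalIdeal.isMaximal _
      have h5 : q.IsMaximal := Ideal.isMaximal_of_isIntegral_of_isMaximal_comap q h4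
      rw [IsLocalRing.eq_maximalIdeal h5]
  have h1 := Ideal.height_le_card_of_mem_minimalPrimes_span_finset hmin
  rw [← IsLocalRing.maximalIdeal_height_eq_ringKrullDim,
    ← IsLocalRing.maximalIdeal_height_eq_ringKrullDim]
  have h2 : ((s.image j).card : ℕ∞) ≤ (s.card : ℕ∞) := by exact_mod_cast Finset.card_image_le
  rw [hcard] at h2
  exact_mod_cast h1.trans h2

theorem cg_indep {X : Subfield W} {D : Subring W} (hD : Nl X D)
    (C0 : IntermediateField k W) (hu : ∀ e ∈ C0, e ≠ 0 → ‖e‖ = 1) {ρ : ℕ}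
    (hdim : ringKrullDim D = (((ρ : ℕ) : ℕ∞) : WithBot ℕ∞)) (t : Fin ρ → W)
    (ht : ∀ i, t i ∈ D ∧ ‖t i‖ < 1) (hP : Nl X (Pt C0 t)) (hPD : Cp (Pt C0 t) ≤ D) {l : ℕ}
    (v : Fin l → W) (hv : ∀ i, v i ∈ D)
    (hgen : ∀ z ∈ D, ∃ c : Fin l → W, (∀ i, c i ∈ Cp (Pt C0 t)) ∧ z = ∑ i, c i * v i) :
    AlgebraicIndependent C0 t := by
  by_contra hna
  rw [algebraicIndependent_iff] at hna
  push Not at hna
  obtain ⟨p, hp, hp0⟩ := hna
  have h1 := cgb_dim hD hP hPD v hv hgen
  have hEb : Subring.closure ((C0 : Set W) ∪ Set.range t) ≤ (ball W).toSubring := by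
    have h2 : Subring.closure ((C0 : Set W) ∪ Set.range t) ≤ Pt C0 t := le_locV (ball W) _
    exact h2.trans hP.le_ball
  have h2 : ringKrullDim (Pt C0 t) ≤
      ringKrullDim (Subring.closure ((C0 : Set W) ∪ Set.range t)) := by
    have h3 := C4_dim_locV (ball W) hEb
    unfold Pt
    rw [h3]
    exact Ideal.height_le_ringKrullDim_of_ne_top (Ideal.IsPrime.ne_top inferInstance)
  rw [← cgb_closure] at h2
  have h3 := ringKrullDim_succ_le_of_surjective
    (MvPolynomial.aeval t : MvPolynomial (Fin ρ) C0 →ₐ[C0] W).toRingHom.rangeRestrict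
    (RingHom.rangeRestrict_surjective _) (r := p) (mem_nonZeroDivisors_of_ne_zero hp0)
    (Subtype.ext hp)
  rw [MvPolynomial.ringKrullDim_of_isNoetherianRing, ringKrullDim_eq_zero_of_field, zero_add,
    Nat.card_eq_fintype_card, Fintype.card_fin] at h3
  rw [hdim] at h1
  have h4 : ((((ρ : ℕ) : ℕ∞) : WithBot ℕ∞)) + 1 ≤ ((ρ : ℕ) : WithBot ℕ∞) :=
    (add_le_add_left (h1.trans h2) 1).trans h3
  have h5 : ((ρ + 1 : ℕ) : WithBot ℕ∞) ≤ ((ρ : ℕ) : WithBot ℕ∞) := by
    exact_mod_cast h4
  have h6 : ρ + 1 ≤ ρ := by exact_mod_cast h5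
  omega

end Pool.Agent.Lib.TQ
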