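import Pool.Agent.Lib.TQ.CpC
import Mathlib.FieldTheory.Relrank

/-!
# Module CgC: `p`-th powers in a power series ring
`cg_pow`: every `e ∈ C0` is `∑ (c α) ^ p * Z ^ α`, `c α ∈ C0`: `e` is separable over `k(Z)`, so `k(Z)(e) = k(Z)(e ^ p)`
(Mathlib `IntermediateField.adjoin_simple_eq_adjoin_pow_expChar_of_isSeparable` or similar), so `e` is in the compositum of `C0 ^ p` and `k(Z)`; as
`k = k ^ p` (perfect), the set of the `∑ (c α) ^ p * Z ^ α` (`α i < p`) is a ring, finite over the field `C0 ^ p`, so a field, containing `k`, the `Z i` and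
`C0 ^ p`.
`cg_frob`: put `R := {z ^ p : z ∈ Cp P}` (`= (Cp P).map (frobenius W p)`), `P := Pt C0 t`: `Nl X R`, `Cp R = R` (the Frobenius is an
isomorphism of `Cp P` onto `R` which maps `mI` onto `mI`, and `p`-th roots of Cauchy sequences are Cauchy).  `cp_nak` with `D := Cp P` and the
`v`'s the monomials `Z ^ α * t ^ β`, `α i, β j < p`: an element of `Cp P` is congruent modulo `(t j ^ p)_j` (`t j ^ p ∈ R`, norm `< 1`) to a
polynomial in `t` with exponents `< p` and coefficients in `C0` (`Cp_dens` : modulo a high power of `(t)`), use `cg_pow` for the coefficients.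
`cg_rel`: `E0 := Subfield.closure (Cp P)`; the set `∑ E0 ^ p * Z ^ α * t ^ β` is a ring containing `Cp P`, finite over the field `E0 ^ p`, so a field,
so equal to `E0`; so `E0` is generated by `p ^ (m + n)` elements over `E0 ^ p` (`Subfield.relfinrank_eq_finrank_of_le`).
`rel_fin`: a field generated by a ring finite over a subring is finite over the field generated by the subring.
`rel_frob`: `[E : E0 ^ p] = [E : E ^ p] [E ^ p : E0 ^ p] = [E : E0] [E0 : E0 ^ p]` and `[E ^ p : E0 ^ p] = [E : E0]` (`Subfield.relfinrank_map_map`,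
`Subfield.relfinrank_mul_relfinrank`).
-/

namespace Pool.Agent.Lib.TQ

open Pool.Agent.Lib.MP_3029eb_ag Pool.Agent.Lib.MP_3029eb_ag.Abh Pool.Agent.Lib.TDO
  Pool.Agent.Lib.TU

/-- reduction of the exponents of monomials -/
private theorem cgc_adjoin {R W : Type} [CommRing R] [Field W] [Algebra R W] (p : ℕ) (hp : 0 < p)
    {ι : Type} [Fintype ι] (x : ι → W) (hx : ∀ i, ∃ r : R, algebraMap R W r = x i ^ p) {z : W}
    (hz : z ∈ Algebra.adjoin R (Set.range x)) :
    z ∈ Submodule.span R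
      (Set.range fun α : ι → Fin p => ∏ i, x i ^ ((α i : Fin p) : ℕ)) := by
  classical
  choose r hr using hx
  rw [Algebra.adjoin_range_eq_range_aeval] at hz
  obtain ⟨P, rfl⟩ := hz
  change MvPolynomial.aeval x P ∈ _
  rw [MvPolynomial.aeval_def, MvPolynomial.eval₂_eq']
  refine Submodule.sum_mem _ fun d _ => ?_
  have h1 : ∏ i, x i ^ d i = (∏ i, r i ^ (d i / p)) • ∏ i, x i ^ (d i % p) := by
    rw [Algebra.smul_def, map_prod, ← Finset.prod_mul_distrib]
    refine Finset.prod_congr rfl fun i _ => ?_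
    rw [map_pow, hr, ← pow_mul, ← pow_add, Nat.div_add_mod]
  rw [h1, ← Algebra.smul_def]
  exact Submodule.smul_mem _ _ (Submodule.smul_mem _ _ (Submodule.subset_span
    ⟨fun i => ⟨d i % p, Nat.mod_lt _ hp⟩, rfl⟩))

private theorem cgc_field {W : Type} [Field W] (F : Subfield W) (p : ℕ) (hp : 0 < p) {ι : Type}
    [Fintype ι] (x : ι → W) (hx : ∀ i, x i ^ p ∈ F) {z : W}
    (hz : z ∈ Subfield.closure ((F : Set W) ∪ Set.range x)) :
    z ∈ Submodule.span F
      (Set.range fun α : ι → Fin p => ∏ i, x i ^ ((α i : Fin p) : ℕ)) := by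
  refine cgc_adjoin p hp x (fun i => ⟨⟨x i ^ p, hx i⟩, rfl⟩) ?_
  have h1 : (IntermediateField.adjoin F (Set.range x)).toSubalgebra =
      Algebra.adjoin F (Set.range x) := by
    refine IntermediateField.adjoin_toSubalgebra_of_isAlgebraic ?_
    rintro _ ⟨i, rfl⟩
    have h2 : IsAlgebraic F (x i ^ p) := isAlgebraic_algebraMap (⟨x i ^ p, hx i⟩ : F)
    exact IsAlgebraic.of_pow hp h2
  rw [← h1]
  have h3 : Subfield.closure ((F : Set W) ∪ Set.range x) ≤
      (IntermediateField.adjoin F (Set.range x)).toSubfield := by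
    rw [Subfield.closure_le]
    rintro y (hy | hy)
    · exact (IntermediateField.adjoin F (Set.range x)).algebraMap_mem (⟨y, hy⟩ : F)
    · exact IntermediateField.subset_adjoin F _ hy
  exact h3 hz

private theorem cgc_rank {W : Type} [Field W] (F E : Subfield W) (hle : F ≤ E) {ι : Type}
    [Fintype ι] (v : ι → W) (hv : ∀ i, v i ∈ E)
    (hE : ∀ z ∈ E, z ∈ Submodule.span F (Set.range v)) :
    0 < F.relfinrank E ∧ F.relfinrank E ≤ Fintype.card ι := by
  rw [Subfield.relfinrank_eq_finrank_of_le hle]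
  let v' : ι → Subfield.extendScalars hle := fun i => ⟨v i, hv i⟩
  have h1 : Submodule.span F (Set.range v') = ⊤ := by
    rw [eq_top_iff]
    rintro ⟨z, hz⟩ -
    have h2 := hE z hz
    rw [Submodule.mem_span_range_iff_exists_fun] at h2 ⊢
    obtain ⟨c, hc⟩ := h2
    refine ⟨c, Subtype.ext (Eq.trans ?_ hc)⟩
    simp [v']
  have h2 : Module.Finite F (Subfield.extendScalars hle) :=
    ⟨by rw [← h1]; exact Submodule.fg_span (Set.finite_range v')⟩
  exact ⟨Module.finrank_pos, finrank_le_of_span_eq_top h1⟩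

theorem cg_pow {k W : Type} [Field k] [PerfectField k] [Field W] [Algebra k W] (p : ℕ)
    [Fact p.Prime] [CharP k p] [CharP W p] {m : ℕ} (C0 : IntermediateField k W) (Z : Fin m → W)
    (hZ : ∀ i, Z i ∈ C0)
    (hsep : ∀ e ∈ C0, IsSeparable (IntermediateField.adjoin k (Set.range Z)) e) :
    ∀ e ∈ C0, ∃ c : (Fin m → Fin p) → W, (∀ α, c α ∈ C0) ∧
      e = ∑ α, c α ^ p * ∏ i, Z i ^ ((α i : Fin p) : ℕ) := by
  intro e he
  have hp : p.Prime := Fact.out
  let F : Subfield W := C0.toSubfield.map (frobenius W p)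
  have hF : ∀ c ∈ C0, c ^ p ∈ F := fun c hc => ⟨c, hc, rfl⟩
  let M : Subfield W := Subfield.closure ((F : Set W) ∪ Set.range Z)
  have hFM : ∀ z ∈ F, z ∈ M := fun z hz => Subfield.subset_closure (Or.inl hz)
  have hkF : ∀ b : k, algebraMap k W b ∈ F := by
    intro b
    have : PerfectRing k p := PerfectField.toPerfectRing p
    obtain ⟨a, rfl⟩ := (surjective_frobenius k p) b
    refine ⟨algebraMap k W a, C0.algebraMap_mem a, ?_⟩
    rw [frobenius_def, frobenius_def, map_pow]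
  let kZ : IntermediateField k W := IntermediateField.adjoin k (Set.range Z)
  have hkZ : ∀ z ∈ kZ, z ∈ M := by
    have h1 : kZ ≤ M.toIntermediateField (fun b => hFM _ (hkF b)) := by
      rw [IntermediateField.adjoin_le_iff]
      exact fun z hz => Subfield.subset_closure (Or.inr hz)
    exact fun z hz => h1 hz
  have : ExpChar k p := ExpChar.prime hp
  have : ExpChar kZ p := expChar_of_injective_algebraMap (algebraMap k kZ).injective p
  have h2 : e ∈ M := by
    have h3 : e ∈ IntermediateField.adjoin kZ {e} := IntermediateField.mem_adjoin_simple_self kZ e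
    rw [IntermediateField.adjoin_simple_eq_adjoin_pow_expChar_of_isSeparable kZ W
      (hsep e he) p] at h3
    have h4 : IntermediateField.adjoin kZ {e ^ p} ≤
        M.toIntermediateField (K := kZ) (fun b => hkZ _ b.2) := by
      rw [IntermediateField.adjoin_le_iff]
      rintro z hz
      rw [Set.mem_singleton_iff] at hz
      rw [hz]
      exact hFM _ (hF e he)
    exact h4 h3
  have h5 := cgc_field F p hp.pos Z (fun i => hF _ (hZ i)) h2
  rw [Submodule.mem_span_range_iff_exists_fun] at h5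
  obtain ⟨c, hc⟩ := h5
  have hc' : ∀ α, ∃ d ∈ C0, d ^ p = (c α : W) := fun α => (c α).2
  choose d hd hdc using hc'
  refine ⟨d, hd, ?_⟩
  rw [← hc]
  refine Finset.sum_congr rfl fun α _ => ?_
  rw [hdc]
  rfl

private noncomputable def cgc_phi {W : Type} [Field W] (p : ℕ) [Fact p.Prime] [CharP W p]
    (D : Subring W) : D →+* D.map (frobenius W p) :=
  ((frobenius W p).comp D.subtype).codRestrict (D.map (frobenius W p))
    (fun x => ⟨x, x.2, rfl⟩)

private theorem cgc_phi_apply {W : Type} [Field W] (p : ℕ) [Fact p.Prime] [CharP W p]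
    (D : Subring W) (x : D) : ((cgc_phi p D x : D.map (frobenius W p)) : W) = (x : W) ^ p := rfl

private theorem cgc_phi_surj {W : Type} [Field W] (p : ℕ) [Fact p.Prime] [CharP W p]
    (D : Subring W) : Function.Surjective (cgc_phi p D) := by
  rintro ⟨_, x, hx, rfl⟩
  exact ⟨⟨x, hx⟩, rfl⟩

private theorem cgc_inj {W : Type} [Field W] (p : ℕ) [Fact p.Prime] [CharP W p] {x y : W}
    (h : x ^ p = y ^ p) : x = y := by
  have h1 : frobenius W p x = frobenius W p y := h
  exact frobenius_inj W p h1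

private theorem cgc_Nl {W : Type} [NormedField W] [IsUltrametricDist W] (p : ℕ) [Fact p.Prime]
    [CharP W p] {X : Subfield W} {D : Subring W} (hD : Nl X D) :
    Nl X (D.map (frobenius W p)) := by
  have hp : p.Prime := Fact.out
  refine ⟨hD.comp, hD.nt, ?_, ?_, ?_, ?_⟩
  · rintro _ ⟨x, hx, rfl⟩
    exact pow_mem (hD.le x hx) p
  · rintro _ ⟨x, hx, rfl⟩
    rw [frobenius_def, norm_pow]
    exact pow_le_one₀ (norm_nonneg _) (hD.one x hx)
  · rintro _ ⟨x, hx, rfl⟩ h1
    rw [frobenius_def, norm_pow, pow_eq_one_iff_of_nonneg (norm_nonneg _) hp.ne_zero] at h1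
    refine ⟨x⁻¹, hD.inv x hx h1, ?_⟩
    rw [frobenius_def, frobenius_def, inv_pow]
  · have := hD.noeth
    exact isNoetherianRing_of_surjective D _ (cgc_phi p D) (cgc_phi_surj p D)

private theorem cgc_mP {W : Type} [NormedField W] [IsUltrametricDist W] (p : ℕ) [Fact p.Prime]
    [CharP W p] (D : Subring W) {n : ℕ} {x : W}
    (hx : x ^ p ∈ mP (D.map (frobenius W p)) n) : x ∈ mP D n := by
  have hp : p.Prime := Fact.out
  obtain ⟨t, ht, htx⟩ := hx
  have h1 : mI (D.map (frobenius W p)) ≤ (mI D).map (cgc_phi p D) := by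
    unfold mI
    rw [Ideal.span_le]
    intro b hb
    obtain ⟨y, rfl⟩ := cgc_phi_surj p D b
    refine Ideal.mem_map_of_mem _ (Ideal.subset_span ?_)
    have h2 : ‖(y : W) ^ p‖ < 1 := hb
    rw [norm_pow] at h2
    exact (pow_lt_one_iff_of_nonneg (norm_nonneg _) hp.ne_zero).1 h2
  have h3 : t ∈ (mI D ^ n).map (cgc_phi p D) := by
    rw [Ideal.map_pow]
    exact Ideal.pow_right_mono h1 n ht
  rw [Ideal.mem_map_iff_of_surjective _ (cgc_phi_surj p D)] at h3
  obtain ⟨s, hs, rfl⟩ := h3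
  rw [cgc_phi_apply] at htx
  exact ⟨s, hs, cgc_inj p htx⟩

private theorem cgc_Cp {W : Type} [NormedField W] [IsUltrametricDist W] (p : ℕ) [Fact p.Prime]
    [CharP W p] {X : Subfield W} {P : Subring W} (hP : Nl X P) :
    Cp ((Cp P).map (frobenius W p)) = (Cp P).map (frobenius W p) := by
  refine le_antisymm ?_ le_Cp
  intro z hz
  rw [mem_Cp_iff (cgc_Nl p hP.cp)] at hz
  obtain ⟨b, hb, hbd, hbz⟩ := hz
  choose a ha hab using hb
  have hab' : ∀ n, a n ^ p = b n := hab
  obtain ⟨w, hw, haw, -⟩ := Cp_exists_lim hP a ha (fun n => by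
    refine cgc_mP p (Cp P) ?_
    rw [sub_pow_char, hab', hab']
    exact hbd n)
  refine ⟨w, hw, ?_⟩
  have h1 : Filter.Tendsto (fun n => a n ^ p) Filter.atTop (nhds (w ^ p)) := haw.pow p
  have h2 : (fun n => a n ^ p) = b := funext hab'
  rw [h2] at h1
  exact tendsto_nhds_unique h1 hbz

private theorem cgc_pigeon {W : Type} [Field W] (p : ℕ) {n : ℕ} (t : Fin n → W) (α : Fin n → ℕ) (hα : ∑ i, α i = n * p + 1) :
    ∃ j, ∃ β : Fin n → ℕ, monN t α = monN t β * t j ^ p := by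
  classical
  have h1 : ∃ j, p ≤ α j := by
    by_contra hcon
    push Not at hcon
    have h2 : ∑ i, α i ≤ ∑ _i : Fin n, p := Finset.sum_le_sum fun i _ => (hcon i).le
    rw [Finset.sum_const, Finset.card_univ, Fintype.card_fin, smul_eq_mul] at h2
    omega
  obtain ⟨j, hj⟩ := h1
  refine ⟨j, Function.update α j (α j - p), ?_⟩
  unfold monN
  rw [← Finset.mul_prod_erase _ _ (Finset.mem_univ j),
    ← Finset.mul_prod_erase _ (fun i => t i ^ Function.update α j (α j - p) i)
      (Finset.mem_univ j), Function.update_self]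
  have h3 : ∏ x ∈ Finset.univ.erase j, t x ^ Function.update α j (α j - p) x =
      ∏ x ∈ Finset.univ.erase j, t x ^ α x := by
    refine Finset.prod_congr rfl fun i hi => ?_
    rw [Function.update_of_ne (Finset.ne_of_mem_erase hi)]
  rw [h3, mul_right_comm, ← pow_add, Nat.sub_add_cancel hj]

private theorem cgc_T {k W : Type} [Field k] [PerfectField k] [NormedField W] [IsUltrametricDist W]
    [Algebra k W] (p : ℕ) [Fact p.Prime] [CharP k p] [CharP W p] {X : Subfield W} {m n : ℕ}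
    (C0 : IntermediateField k W) (Z : Fin m → W) (hZ : ∀ i, Z i ∈ C0)
    (hsep : ∀ e ∈ C0, IsSeparable (IntermediateField.adjoin k (Set.range Z)) e) (t : Fin n → W)
    (hP : Nl X (Pt C0 t)) (hC0 : ∀ e ∈ C0, e ∈ Pt C0 t) (z : W) (hz : z ∈ Pt C0 t) :
    z ∈ Algebra.adjoin ((Cp (Pt C0 t)).map (frobenius W p)) (Set.range (Sum.elim Z t)) := by
  classical
  have hp : p.Prime := Fact.out
  let R : Subring W := (Cp (Pt C0 t)).map (frobenius W p)
  let T : Subalgebra R W := Algebra.adjoin R (Set.range (Sum.elim Z t))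
  have hR : ∀ y ∈ Cp (Pt C0 t), y ^ p ∈ T := fun y hy =>
    T.algebraMap_mem (⟨y ^ p, y, hy, rfl⟩ : R)
  have hZT : ∀ i, Z i ∈ T := fun i => Algebra.subset_adjoin ⟨Sum.inl i, rfl⟩
  have htT : ∀ i, t i ∈ T := fun i => Algebra.subset_adjoin ⟨Sum.inr i, rfl⟩
  have hC0T : ∀ e ∈ C0, e ∈ T := by
    intro e he
    obtain ⟨c, hc, rfl⟩ := cg_pow p C0 Z hZ hsep e he
    refine sum_mem fun α _ => mul_mem (hR _ (le_Cp (hC0 _ (hc α)))) ?_
    exact prod_mem fun i _ => pow_mem (hZT i) _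
  have hcl : Subring.closure ((C0 : Set W) ∪ Set.range t) ≤ T.toSubring := by
    rw [Subring.closure_le]
    rintro y (hy | ⟨i, rfl⟩)
    · exact hC0T y hy
    · exact htT i
  have hclP : Subring.closure ((C0 : Set W) ∪ Set.range t) ≤ Pt C0 t := fun y hy =>
    ⟨y, hy, 1, one_mem _, map_one _, mul_one y⟩
  obtain ⟨a, ha, b, hb, hb1, hab⟩ := hz
  have hb2 : ‖b‖ = 1 := (ball_val_eq_one b).1 hb1
  have hb0 : b ≠ 0 := by
    intro h0
    rw [h0, norm_zero] at hb2
    exact zero_ne_one hb2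
  have hbi : b⁻¹ ∈ Pt C0 t := hP.inv b (hclP hb) hb2
  have h1 : z = a * b ^ (p - 1) * b⁻¹ ^ p := by
    have h2 : b⁻¹ ^ p = b⁻¹ ^ (p - 1) * b⁻¹ := by
      rw [← pow_succ, Nat.sub_add_cancel hp.one_le]
    rw [← hab, h2, inv_pow]
    field_simp
  rw [h1]
  exact mul_mem (mul_mem (hcl ha) (pow_mem (hcl hb) _)) (hR _ (le_Cp hbi))

theorem cg_frob {k W : Type} [Field k] [PerfectField k] [NormedField W] [IsUltrametricDist W]
    [Algebra k W] (p : ℕ) [Fact p.Prime] [CharP k p] [CharP W p] {X : Subfield W} {m n : ℕ}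
    (C0 : IntermediateField k W) (hu : ∀ e ∈ C0, e ≠ 0 → ‖e‖ = 1) (Z : Fin m → W)
    (hZ : ∀ i, Z i ∈ C0)
    (hsep : ∀ e ∈ C0, IsSeparable (IntermediateField.adjoin k (Set.range Z)) e) (t : Fin n → W)
    (ht : ∀ i, ‖t i‖ < 1) (hP : Nl X (Pt C0 t))
    (hmax : ∀ z ∈ Pt C0 t, ‖z‖ < 1 → z ∈ Submodule.span (Pt C0 t) (Set.range t)) :
    ∀ z ∈ Cp (Pt C0 t), ∃ c : (Fin m → Fin p) → (Fin n → Fin p) → W,
      (∀ α β, c α β ∈ Cp (Pt C0 t)) ∧ z = ∑ α, ∑ β, c α β ^ p *
        ((∏ i, Z i ^ ((α i : Fin p) : ℕ)) * ∏ j, t j ^ ((β j : Fin p) : ℕ)) := by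
  classical
  have hp : p.Prime := Fact.out
  have hclP : Subring.closure ((C0 : Set W) ∪ Set.range t) ≤ Pt C0 t := fun y hy =>
    ⟨y, hy, 1, one_mem _, map_one _, mul_one y⟩
  have hC0P : ∀ e ∈ C0, e ∈ Pt C0 t := fun e he => hclP (Subring.subset_closure (Or.inl he))
  have htP : ∀ i, t i ∈ Pt C0 t := fun i => hclP (Subring.subset_closure (Or.inr ⟨i, rfl⟩))
  obtain ⟨P, hPdef⟩ : ∃ P : Subring W, P = Pt C0 t := ⟨_, rfl⟩
  have hT := cgc_T p C0 Z hZ hsep t hP hC0P
  rw [← hPdef] at hP hmax hC0P htP hT ⊢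
  have hD : Nl X (Cp P) := hP.cp
  obtain ⟨R, hRdef⟩ : ∃ R : Subring W, R = (Cp P).map (frobenius W p) := ⟨_, rfl⟩
  have hR : Nl X R := by rw [hRdef]; exact cgc_Nl p hD
  have hRc : Cp R = R := by rw [hRdef]; exact cgc_Cp p hP
  have hRD : R ≤ Cp P := by
    rw [hRdef]
    rintro _ ⟨x, hx, rfl⟩
    exact pow_mem hx p
  have hRmem : ∀ x ∈ Cp P, x ^ p ∈ R := fun x hx => by rw [hRdef]; exact ⟨x, hx, rfl⟩
  have hRmem' : ∀ x ∈ R, ∃ y ∈ Cp P, x = y ^ p := fun x hx => by
    rw [hRdef] at hx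
    obtain ⟨y, hy, rfl⟩ := hx
    exact ⟨y, hy, rfl⟩
  rw [← hRdef] at hT
  let x : Fin m ⊕ Fin n → W := Sum.elim Z t
  have hxD : ∀ i, x i ∈ Cp P := by
    rintro (i | i)
    · exact le_Cp (hC0P _ (hZ i))
    · exact le_Cp (htP i)
  let v' : (Fin m ⊕ Fin n → Fin p) → W := fun γ => ∏ i, x i ^ ((γ i : Fin p) : ℕ)
  let e := Fintype.equivFin (Fin m ⊕ Fin n → Fin p)
  let v : Fin (Fintype.card (Fin m ⊕ Fin n → Fin p)) → W := fun i => v' (e.symm i)
  have hv : ∀ i, v i ∈ Cp P := fun i => prod_mem fun j _ => pow_mem (hxD j) _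
  have hmaxD : ∀ z ∈ Cp P, ‖z‖ < 1 → z ∈ Submodule.span (Cp P) (Set.range t) := by
    intro z hz hz1
    have h1 := Cp_max hP hz hz1
    have h2 : Submodule.span (Cp P) {b : W | b ∈ P ∧ ‖b‖ < 1} ≤
        Submodule.span (Cp P) (Set.range t) := by
      rw [Submodule.span_le]
      rintro b ⟨hb, hb1⟩
      have h3 := hmax b hb hb1
      rw [Submodule.mem_span_range_iff_exists_fun] at h3
      obtain ⟨c, hc⟩ := h3
      rw [SetLike.mem_coe, Submodule.mem_span_range_iff_exists_fun]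
      exact ⟨fun i => ⟨c i, le_Cp (c i).2⟩, hc⟩
    exact h2 h1
  have hJ : ∀ z ∈ mP (Cp P) (n * p + 1),
      z ∈ Submodule.span (Cp P) {b : W | b ∈ R ∧ ‖b‖ < 1} := by
    intro z hz
    have h1 := hD.mP_gen t (fun j => ⟨le_Cp (htP j), ht j⟩) hmaxD hz
    have h2 : Submodule.span (Cp P) {v | ∃ α : Fin n → ℕ, ∑ i, α i = n * p + 1 ∧ v = monN t α} ≤
        Submodule.span (Cp P) {b : W | b ∈ R ∧ ‖b‖ < 1} := by
      rw [Submodule.span_le]
      rintro _ ⟨α, hα, rfl⟩
      obtain ⟨j, β, hβ⟩ := cgc_pigeon p t α hα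
      rw [hβ]
      have h3 : monN t β ∈ Cp P := prod_mem fun j _ => pow_mem (le_Cp (htP j)) _
      refine Submodule.smul_mem _ (⟨monN t β, h3⟩ : Cp P) (Submodule.subset_span ⟨?_, ?_⟩)
      · exact hRmem _ (le_Cp (htP j))
      · rw [norm_pow]
        exact pow_lt_one₀ (norm_nonneg _) (ht j) hp.ne_zero
    exact h2 h1
  have hmain := cp_nak hR hRc hD hRD v hv (by
    intro z hz
    obtain ⟨b, hb, hzb⟩ := Cp_dens hP hz (n * p + 1)
    have h1 := cgc_adjoin p hp.pos x (fun i => ⟨⟨x i ^ p, hRmem _ (hxD i)⟩, rfl⟩) (hT b hb)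
    rw [Submodule.mem_span_range_iff_exists_fun] at h1
    obtain ⟨c, hc⟩ := h1
    refine ⟨fun i => (c (e.symm i) : W), fun i => (c (e.symm i)).2, ?_⟩
    have h2 : ∑ i, (c (e.symm i) : W) * v i = b := by
      rw [← hc]
      exact Equiv.sum_comp e.symm (fun γ => (c γ : W) * v' γ)
    rw [h2]
    exact hJ _ hzb)
  intro z hz
  obtain ⟨c, hc, hzc⟩ := hmain z hz
  choose d hd hcd using fun i => hRmem' (c i) (hc i)
  refine ⟨fun α β => d (e (Sum.elim α β)), fun α β => hd _, ?_⟩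
  have h1 : z = ∑ γ : Fin m ⊕ Fin n → Fin p, d (e γ) ^ p * v' γ := by
    rw [hzc, ← Equiv.sum_comp e]
    refine Finset.sum_congr rfl fun γ _ => ?_
    rw [hcd]
    change _ * v' (e.symm (e γ)) = _
    rw [Equiv.symm_apply_apply]
  rw [h1, ← Equiv.sum_comp (Equiv.sumArrowEquivProdArrow (Fin m) (Fin n) (Fin p)).symm,
    Fintype.sum_prod_type]
  refine Finset.sum_congr rfl fun α _ => Finset.sum_congr rfl fun β _ => ?_
  change d (e (Sum.elim α β)) ^ p * (∏ i, x i ^ ((Sum.elim α β i : Fin p) : ℕ)) = _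
  rw [Fintype.prod_sum_type]
  rfl

theorem cg_rel {k W : Type} [Field k] [PerfectField k] [NormedField W] [IsUltrametricDist W]
    [Algebra k W] (p : ℕ) [Fact p.Prime] [CharP k p] [CharP W p] {X : Subfield W} {m n : ℕ}
    (C0 : IntermediateField k W) (hu : ∀ e ∈ C0, e ≠ 0 → ‖e‖ = 1) (Z : Fin m → W)
    (hZ : ∀ i, Z i ∈ C0)
    (hsep : ∀ e ∈ C0, IsSeparable (IntermediateField.adjoin k (Set.range Z)) e) (t : Fin n → W)
    (ht : ∀ i, ‖t i‖ < 1) (hP : Nl X (Pt C0 t))
    (hmax : ∀ z ∈ Pt C0 t, ‖z‖ < 1 → z ∈ Submodule.span (Pt C0 t) (Set.range t)) :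
    0 < ((Subfield.closure (Cp (Pt C0 t) : Set W)).map (frobenius W p)).relfinrank
        (Subfield.closure (Cp (Pt C0 t) : Set W)) ∧
      ((Subfield.closure (Cp (Pt C0 t) : Set W)).map (frobenius W p)).relfinrank
        (Subfield.closure (Cp (Pt C0 t) : Set W)) ≤ p ^ (m + n) := by
  classical
  have hp : p.Prime := Fact.out
  have hclP : Subring.closure ((C0 : Set W) ∪ Set.range t) ≤ Pt C0 t := fun y hy =>
    ⟨y, hy, 1, one_mem _, map_one _, mul_one y⟩
  have hC0P : ∀ e ∈ C0, e ∈ Pt C0 t := fun e he => hclP (Subring.subset_closure (Or.inl he))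
  have htP : ∀ i, t i ∈ Pt C0 t := fun i => hclP (Subring.subset_closure (Or.inr ⟨i, rfl⟩))
  have hfrob := cg_frob p C0 hu Z hZ hsep t ht hP hmax
  let E0 : Subfield W := Subfield.closure (Cp (Pt C0 t) : Set W)
  let F : Subfield W := E0.map (frobenius W p)
  let x : Fin m ⊕ Fin n → W := Sum.elim Z t
  have hxE : ∀ i, x i ∈ E0 := by
    rintro (i | i)
    · exact Subfield.subset_closure (le_Cp (hC0P _ (hZ i)))
    · exact Subfield.subset_closure (le_Cp (htP i))
  have hFE : F ≤ E0 := by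
    rintro _ ⟨y, hy, rfl⟩
    exact pow_mem hy p
  have hFx : ∀ y ∈ E0, y ^ p ∈ F := fun y hy => ⟨y, hy, rfl⟩
  have hE0 : E0 ≤ Subfield.closure ((F : Set W) ∪ Set.range x) := by
    rw [Subfield.closure_le]
    intro z hz
    obtain ⟨c, hc, rfl⟩ := hfrob z hz
    have hZc : ∀ i, Z i ∈ Subfield.closure ((F : Set W) ∪ Set.range x) := fun i =>
      Subfield.subset_closure (Or.inr ⟨Sum.inl i, rfl⟩)
    have htc : ∀ i, t i ∈ Subfield.closure ((F : Set W) ∪ Set.range x) := fun i =>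
      Subfield.subset_closure (Or.inr ⟨Sum.inr i, rfl⟩)
    refine sum_mem fun α _ => sum_mem fun β _ => mul_mem ?_ (mul_mem ?_ ?_)
    · exact Subfield.subset_closure (Or.inl (hFx _ (Subfield.subset_closure (hc α β))))
    · exact prod_mem fun i _ => pow_mem (hZc i) _
    · exact prod_mem fun i _ => pow_mem (htc i) _
  have h1 := cgc_rank F E0 hFE (fun γ : Fin m ⊕ Fin n → Fin p => ∏ i, x i ^ ((γ i : Fin p) : ℕ))
    (fun γ => prod_mem fun i _ => pow_mem (hxE i) _)
    (fun z hz => cgc_field F p hp.pos x (fun i => hFx _ (hxE i)) (hE0 hz))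
  refine ⟨h1.1, h1.2.trans (le_of_eq ?_)⟩
  rw [Fintype.card_fun, Fintype.card_sum, Fintype.card_fin, Fintype.card_fin, Fintype.card_fin]

theorem rel_fin {W : Type} [Field W] (R D : Subring W) (hRD : R ≤ D) {l : ℕ} (v : Fin l → W)
    (hv : ∀ i, v i ∈ D)
    (h : ∀ z ∈ D, ∃ c : Fin l → W, (∀ i, c i ∈ R) ∧ z = ∑ i, c i * v i) :
    0 < (Subfield.closure (R : Set W)).relfinrank (Subfield.closure (D : Set W)) := by
  classical
  obtain ⟨F, hF⟩ : ∃ F : Subfield W, F = Subfield.closure (R : Set W) := ⟨_, rfl⟩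
  rw [← hF]
  have hRF : ∀ z ∈ R, z ∈ F := fun z hz => by rw [hF]; exact Subfield.subset_closure hz
  have hFE : F ≤ Subfield.closure (D : Set W) := by
    rw [hF]
    exact Subfield.closure_mono hRD
  let M : Submodule F W := Submodule.span F (Set.range v)
  have hDM : ∀ z ∈ D, z ∈ M := by
    intro z hz
    obtain ⟨c, hc, rfl⟩ := h z hz
    refine sum_mem fun i _ => ?_
    exact M.smul_mem (⟨c i, hRF _ (hc i)⟩ : F) (Submodule.subset_span ⟨i, rfl⟩)
  have hMM : M * M ≤ M := by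
    rw [Submodule.span_mul_span, Submodule.span_le]
    rintro _ ⟨_, ⟨i, rfl⟩, _, ⟨j, rfl⟩, rfl⟩
    exact hDM _ (mul_mem (hv i) (hv j))
  let A : Subalgebra F W := M.toSubalgebra (hDM 1 (one_mem _))
    (fun x y hx hy => hMM (Submodule.mul_mem_mul hx hy))
  have hAM : Subalgebra.toSubmodule A = M := Submodule.toSubalgebra_toSubmodule _ _ _
  have hfin : Module.Finite F A := by
    have h1 : (Subalgebra.toSubmodule A).FG := by
      rw [hAM]
      exact Submodule.fg_span (Set.finite_range v)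
    exact Module.Finite.iff_fg.2 h1
  have halg : ∀ x : A, IsAlgebraic F (x : W) := by
    intro x
    have h1 : IsIntegral F x := IsIntegral.of_finite F x
    exact (h1.map A.val).isAlgebraic
  let K1 : IntermediateField F W := A.toIntermediateField
    (fun x hx => A.inv_mem_of_algebraic (x := ⟨x, hx⟩) (halg ⟨x, hx⟩))
  have h1 : Subfield.closure (D : Set W) ≤ K1.toSubfield := by
    rw [Subfield.closure_le]
    exact fun z hz => hDM z hz
  exact (cgc_rank F _ hFE v (fun i => Subfield.subset_closure (hv i)) (fun z hz => h1 hz)).1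

theorem rel_frob {W : Type} [Field W] (p : ℕ) [Fact p.Prime] [CharP W p] (E0 E : Subfield W)
    (hle : E0 ≤ E) (hfin : 0 < E0.relfinrank E)
    (h0 : 0 < (E0.map (frobenius W p)).relfinrank E0) :
    (E.map (frobenius W p)).relfinrank E = (E0.map (frobenius W p)).relfinrank E0 := by
  have h1 : E0.map (frobenius W p) ≤ E0 := by
    rintro _ ⟨y, hy, rfl⟩
    exact pow_mem hy p
  have h2 : E.map (frobenius W p) ≤ E := by
    rintro _ ⟨y, hy, rfl⟩
    exact pow_mem hy p
  have h3 : E0.map (frobenius W p) ≤ E.map (frobenius W p) := by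
    rintro _ ⟨y, hy, rfl⟩
    exact ⟨y, hle hy, rfl⟩
  have h4 := Subfield.relfinrank_mul_relfinrank h1 hle
  have h5 := Subfield.relfinrank_mul_relfinrank h3 h2
  rw [Subfield.relfinrank_map_map] at h5
  rw [← h4, mul_comm] at h5
  exact Nat.eq_of_mul_eq_mul_right hfin h5

end Pool.Agent.Lib.TQ
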