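import Pool.Agent.Lib.TQ.CgA
import Pool.Agent.Lib.TQ.CgB
import Pool.Agent.Lib.TQ.CgC
import Pool.Agent.Lib.TQ.CgD

/-!
# Module CgF: the theorem of Cohen and Gabber
PROOF. `cg_coef`: `Z`; with `δ = 0`: `C00`.  `cg_sop`: `t0`, `N`.  `cg_fin` for `(C00, t0)`: `P0 := Pt C00 t0`, `D` finite over `Cp P0`.
`E := Subfield.closure D`, `E0 := Subfield.closure (Cp P0)`: `rel_fin`, `cg_rel`, `rel_frob` give `0 < [E : E ^ p] ≤ p ^ (m + ρ)`.
`cg_greedy` with `ι := Fin m ⊕ Fin ρ`, `M := {z ∈ D | ‖z‖ < 1}`, `a := Sum.elim Z (t0 ^ p)`, `c := Sum.elim 1 (t0 ^ p)` (`t0 i ∈ E`,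
so `t0 i ^ p ∈ E ^ p`, nonzero); `hM`: if `M ⊆ F` then `D ≤ F` (`ρ ≥ 1`: there is `b ∈ M`, `b ≠ 0`, and `z = (z * b) / b`), so `E ≤ F`.
We get `f`: `Z' i := Z i + f (inl i)`, `t j := t0 j ^ p * (1 + f (inr j))`, `E = closure (E ^ p ∪ Z' ∪ t)`.
`cg_coef` with `δ i := f (inl i)`: `C0 ∋ Z' i`.  Some power `mP D N'` is contained in `(t) D` (`t j` is `t0 j ^ p` times a unit of `D`;
`(t0)^(p ρ) ⊆ (t0 j ^ p)_j`).  `cg_fin` for `(C0, t)`, `cg_indep`.  `E' := Subfield.closure (Cp (Pt C0 t)) ∋ Z' i, t j`; `rel_fin`, `cg_sep`, `sep_poly`.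
-/

namespace Pool.Agent.Lib.TQ

open Pool.Agent.Lib.MP_3029eb_ag Pool.Agent.Lib.MP_3029eb_ag.Abh Pool.Agent.Lib.TDO
  Pool.Agent.Lib.TU

section
variable {W : Type} [NormedField W] [IsUltrametricDist W] {X : Subfield W} {D : Subring W}

/-- membership in the ideal generated by a family, in `D` and in `W` -/
private theorem cgf_span {n : ℕ} (t : Fin n → W) (ht : ∀ i, t i ∈ D) (z : D) :
    (z : W) ∈ Submodule.span D (Set.range t) ↔
      z ∈ Ideal.span (Set.range fun i => (⟨t i, ht i⟩ : D)) := by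
  constructor
  · intro h
    rw [Submodule.mem_span_range_iff_exists_fun] at h
    obtain ⟨c, hc⟩ := h
    have h1 : z = ∑ i, c i * (⟨t i, ht i⟩ : D) := by
      apply Subtype.ext
      rw [← hc]
      have : ((∑ i, c i * (⟨t i, ht i⟩ : D) : D) : W) = ∑ i, (c i : W) * t i := by
        rw [AddSubmonoidClass.coe_finset_sum]
        rfl
      rw [this]
      rfl
    rw [h1]
    exact Ideal.sum_mem _ fun i _ => Ideal.mul_mem_left _ _ (Ideal.subset_span ⟨i, rfl⟩)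
  · intro h
    rw [Ideal.span, Submodule.mem_span_range_iff_exists_fun] at h
    obtain ⟨c, hc⟩ := h
    rw [Submodule.mem_span_range_iff_exists_fun]
    refine ⟨c, ?_⟩
    rw [← hc, AddSubmonoidClass.coe_finset_sum]
    rfl

private theorem cgf_pow (hD : Nl X D) (p : ℕ) {n : ℕ} (t0 : Fin n → W)
    (ht0 : ∀ i, t0 i ∈ D ∧ ‖t0 i‖ < 1) {N : ℕ}
    (hN : ∀ z ∈ mP D N, z ∈ Submodule.span D (Set.range t0)) (f : Fin n → W)
    (hf : ∀ i, f i ∈ D ∧ ‖f i‖ < 1) (h1 : ∀ i, ‖1 + f i‖ = 1)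
    (ht : ∀ i, t0 i ^ p * (1 + f i) ∈ D) :
    ∃ N' : ℕ, ∀ z ∈ mP D N', z ∈ Submodule.span D (Set.range fun i => t0 i ^ p * (1 + f i)) := by
  haveI : IsNoetherianRing D := hD.noeth
  have hrad : mI D ≤ (Ideal.span (Set.range fun i => (⟨t0 i ^ p * (1 + f i), ht i⟩ : D))).radical := by
    intro x hx
    have hx1 : x ^ N ∈ mI D ^ N := Ideal.pow_mem_pow hx N
    have hx2 : ((x ^ N : D) : W) ∈ Submodule.span D (Set.range t0) := hN _ ⟨x ^ N, hx1, rfl⟩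
    rw [cgf_span t0 (fun i => (ht0 i).1)] at hx2
    refine Ideal.mem_radical_of_pow_mem (m := N) ?_
    refine (Ideal.span_le.2 ?_) hx2
    rintro _ ⟨i, rfl⟩
    refine Ideal.mem_radical_of_pow_mem (m := p) (Ideal.le_radical ?_)
    have h2 : (⟨t0 i, (ht0 i).1⟩ : D) ^ p
        = ⟨(1 + f i)⁻¹, hD.inv _ (add_mem (one_mem _) (hf i).1) (h1 i)⟩ *
          ⟨t0 i ^ p * (1 + f i), ht i⟩ := by
      apply Subtype.ext
      have h3 : (1 + f i) ≠ 0 := by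
        intro h0
        have := h1 i
        rw [h0, norm_zero] at this
        exact zero_ne_one this
      change t0 i ^ p = (1 + f i)⁻¹ * (t0 i ^ p * (1 + f i))
      rw [mul_comm (t0 i ^ p), inv_mul_cancel_left₀ h3]
    rw [h2]
    exact Ideal.mul_mem_left _ _ (Ideal.subset_span ⟨i, rfl⟩)
  obtain ⟨N', hN'⟩ := Ideal.exists_pow_le_of_le_radical_of_fg hrad (IsNoetherian.noetherian _)
  refine ⟨N', ?_⟩
  rintro _ ⟨x, hx, rfl⟩
  exact (cgf_span _ ht x).2 (hN' hx)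

end

theorem cohen_gabber {k W : Type} [Field k] [PerfectField k] [NormedField W]
    [IsUltrametricDist W] [Algebra k W] (p : ℕ) [Fact p.Prime] [CharP k p] {r m : ℕ}
    (hA : AmbG r m k W) (L : IntermediateField k W) (D : Subring W) (hD : Nl L.toSubfield D)
    (hDc : Cp D = D) (hk : ∀ b : k, algebraMap k W b ∈ D) (G : Finset W) (hG : ∀ g ∈ G, g ∈ D)
    (hres : ∀ z ∈ D, ∃ a ∈ locV (ball W) (Subring.closure (Set.range (algebraMap k W) ∪
      (G : Set W))), ‖z - a‖ < 1)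
    (v : Fin m → W) (hv : ∀ i, v i ∈ D)
    (hvi : ∀ P : MvPolynomial (Fin m) k, P ≠ 0 → ‖MvPolynomial.aeval v P‖ = 1) {ρ : ℕ}
    (hρ : 0 < ρ) (hdim : ringKrullDim D = (((ρ : ℕ) : ℕ∞) : WithBot ℕ∞)) :
    ∃ (C0 : IntermediateField k W) (t : Fin ρ → W), Cst m C0 ∧ (∀ e ∈ C0, e ∈ D) ∧
      (∀ z ∈ D, ∃ e ∈ C0, ‖z - e‖ < 1) ∧ (∀ i, t i ∈ D ∧ ‖t i‖ < 1 ∧ t i ≠ 0) ∧
      Nl L.toSubfield (Pt C0 t) ∧ Cp (Pt C0 t) ≤ D ∧
      (∀ z ∈ Pt C0 t, ‖z‖ < 1 → z ∈ Submodule.span (Pt C0 t) (Set.range t)) ∧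
      AlgebraicIndependent C0 t ∧
      ∀ z ∈ D, ∃ F : Polynomial W, (∀ j, F.coeff j ∈ Cp (Pt C0 t)) ∧ F.eval z = 0 ∧
        F.derivative.eval z ≠ 0 := by
  classical
  haveI : CharP W p := charP_of_injective_algebraMap (algebraMap k W).injective p
  have hp0 : p ≠ 0 := (Fact.out : p.Prime).ne_zero
  obtain ⟨Z, hZD, hZi, hZ⟩ := cg_coef hA L D hD hDc hk G hG hres v hv hvi
  obtain ⟨C00, h00, h00D, hZC, h00r, h00s⟩ := hZ (fun _ => 0)
    (fun _ => ⟨zero_mem _, by rw [norm_zero]; exact zero_lt_one⟩)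
  have hYZ : ∀ Y : Fin m → W, Y = Z →
      (∀ e ∈ C00, IsSeparable (IntermediateField.adjoin k (Set.range Y)) e) →
      ∀ e ∈ C00, IsSeparable (IntermediateField.adjoin k (Set.range Z)) e := by
    rintro Y rfl h
    exact h
  have h00s' := hYZ _ (funext fun i => add_zero _) h00s
  obtain ⟨t0, ht0, N, hN⟩ := cg_sop hD hdim
  obtain ⟨hP0, hP0D, hP0m, l0, v0, hv0, hgen0⟩ := cg_fin hD hDc C00 h00.unit h00D h00r t0
    (fun i => ⟨(ht0 i).1, (ht0 i).2.1⟩) N hN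
  have hE0E : Subfield.closure (Cp (Pt C00 t0) : Set W) ≤ Subfield.closure (D : Set W) :=
    Subfield.closure_mono hP0D
  have hDE : ∀ z ∈ D, z ∈ Subfield.closure (D : Set W) := fun z hz => Subfield.subset_closure hz
  have hrel1 := rel_fin (Cp (Pt C00 t0)) D hP0D v0 hv0 hgen0
  obtain ⟨hrel2, hrel3⟩ := cg_rel p C00 h00.unit Z (fun i => by simpa using hZC i) h00s' t0 (fun i => (ht0 i).2.1) hP0 hP0m
  have hrel4 := rel_frob p _ _ hE0E hrel1 hrel2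
  rw [← hrel4] at hrel2 hrel3
  obtain ⟨f, hfM, hfE⟩ := cg_greedy p (ι := Fin m ⊕ Fin ρ) (Subfield.closure (D : Set W)) hrel2
    (by rw [Fintype.card_sum, Fintype.card_fin, Fintype.card_fin]; exact hrel3)
    {z | z ∈ D ∧ ‖z‖ < 1} ⟨zero_mem _, by rw [norm_zero]; exact zero_lt_one⟩
    (fun z hz => hDE z hz.1)
    (by
      intro F _ hFE hne
      by_contra hcon
      push Not at hcon
      apply hne
      refine le_antisymm hFE ?_
      rw [Subfield.closure_le]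
      intro z hz
      have hb := ht0 ⟨0, hρ⟩
      have h1 : z * t0 ⟨0, hρ⟩ ∈ F := by
        refine hcon _ ⟨mul_mem hz hb.1, ?_⟩
        rw [norm_mul]
        calc ‖z‖ * ‖t0 ⟨0, hρ⟩‖ ≤ 1 * ‖t0 ⟨0, hρ⟩‖ :=
              mul_le_mul_of_nonneg_right (hD.one z hz) (norm_nonneg _)
          _ < 1 := by rw [one_mul]; exact hb.2.1
      have h2 : t0 ⟨0, hρ⟩ ∈ F := hcon _ ⟨hb.1, hb.2.1⟩
      have h3 := div_mem h1 h2
      rwa [mul_div_cancel_right₀ _ hb.2.2] at h3)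
    (Sum.elim Z (fun j => t0 j ^ p)) (Sum.elim (fun _ => 1) (fun j => t0 j ^ p))
    (by
      rintro (i | j)
      · exact hDE _ (hZD i)
      · exact hDE _ (pow_mem (ht0 j).1 p))
    (by
      rintro (i | j)
      · exact ⟨one_mem _, one_ne_zero⟩
      · exact ⟨⟨t0 j, hDE _ (ht0 j).1, rfl⟩, pow_ne_zero _ (ht0 j).2.2⟩)
  obtain ⟨C0, hC0, hC0D, hZC0, hC0r, hC0s⟩ := hZ (fun i => f (Sum.inl i)) (fun i => hfM _)
  have hf1 : ∀ j : Fin ρ, ‖1 + f (Sum.inr j)‖ = 1 := by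
    intro j
    have h1 : ‖f (Sum.inr j)‖ < ‖(1 : W)‖ := by rw [norm_one]; exact (hfM _).2
    rw [IsUltrametricDist.norm_add_eq_max_of_norm_ne_norm h1.ne', max_eq_left h1.le, norm_one]
  have htD : ∀ j, t0 j ^ p * (1 + f (Sum.inr j)) ∈ D := fun j =>
    mul_mem (pow_mem (ht0 j).1 p) (add_mem (one_mem _) (hfM _).1)
  have htn : ∀ j, ‖t0 j ^ p * (1 + f (Sum.inr j))‖ < 1 := by
    intro j
    rw [norm_mul, hf1, mul_one, norm_pow]
    exact pow_lt_one₀ (norm_nonneg _) (ht0 j).2.1 hp0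
  have ht00 : ∀ j, t0 j ^ p * (1 + f (Sum.inr j)) ≠ 0 := by
    intro j
    refine mul_ne_zero (pow_ne_zero _ (ht0 j).2.2) ?_
    intro h0
    have := hf1 j
    rw [h0, norm_zero] at this
    exact zero_ne_one this
  obtain ⟨N', hN'⟩ := cgf_pow hD p t0 (fun i => ⟨(ht0 i).1, (ht0 i).2.1⟩) hN
    (fun j => f (Sum.inr j)) (fun j => hfM _) hf1 htD
  obtain ⟨hP, hPD, hPm, l, v1, hv1, hgen⟩ := cg_fin hD hDc C0 hC0.unit hC0D hC0r
    (fun j => t0 j ^ p * (1 + f (Sum.inr j))) (fun j => ⟨htD j, htn j⟩) N' hN'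
  have hind := cg_indep hD C0 hC0.unit hdim (fun j => t0 j ^ p * (1 + f (Sum.inr j)))
    (fun j => ⟨htD j, htn j⟩) hP hPD v1 hv1 hgen
  refine ⟨C0, fun j => t0 j ^ p * (1 + f (Sum.inr j)), hC0, hC0D, hC0r,
    fun j => ⟨htD j, htn j, ht00 j⟩, hP, hPD, hPm, hind, ?_⟩
  intro z hz
  apply sep_poly
  have hE'E : Subfield.closure
      (Cp (Pt C0 fun j => t0 j ^ p * (1 + f (Sum.inr j))) : Set W) ≤
        Subfield.closure (D : Set W) := Subfield.closure_mono hPD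
  refine cg_sep p _ _ hE'E (rel_fin _ D hPD v1 hv1 hgen) ?_ z (hDE z hz)
  refine hfE.le.trans ?_
  apply Subfield.closure_mono
  rintro x (hx | ⟨i, rfl⟩)
  · exact Or.inl hx
  · right
    refine Subfield.subset_closure (le_Cp (le_locV _ _ ?_))
    rcases i with i | j
    · refine Subring.subset_closure (Or.inl ?_)
      have := hZC0 i
      simpa using this
    · refine Subring.subset_closure (Or.inr ⟨j, ?_⟩)
      simp only [Sum.elim_inr]
      ring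

end Pool.Agent.Lib.TQ
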