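import Pool.Agent.Lib.TQ.DenB
import Pool.Agent.Lib.MP_3029eb_ag.ImpRank

/-!
# Module AdjE: embedded local uniformization of a local blowing up gives that of the ring
PROOF. Let `A' := locV (closure (A0 ∪ g))`, every `t ∈ g` is a fraction `n t / d t` of elements of `A0`, `d t ≠ 0`.  Given `s` (fractions of elements of `A0 ≤ A'`), apply `H` to
`s' := s ∪ {d t}` (`‖d t‖ ≤ 1`, `A0 ≤ ball`): `g', u, gs`, `A'' := locV (closure (A' ∪ g')) = locV (closure (A0 ∪ (g ∪ g')))` (`Imp.locV_locV_union'`), and `MonV A'' u (d t)`.  All fields of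
`GoodPar2` except `den` are the same.  `den`: `z ∈ A''`: `D ∈ A'`, `MonV A'' u D`, `D * z ∈ A'`.  `DenD.of_frac`: `DenD A0 A' Δ`, `Δ := {d t}`; so (`DenD.trans`-like argument, compare the
end of the proof of `Imp.imp_aux3`) there are `D1 = δ1 * b1 ∈ A0` with `D1 * D ∈ A0` and `D2 = δ2 * b2 ∈ A0` with `D2 * (D * z) ∈ A0`; `δ i` products of elements of `Δ`, `b i ∈ A'` of norm one, so
`MonV A'' u (D i)`; take `D2 * (D1 * D) ∈ A0`, `(D2 * (D1 * D)) * z = D1 * (D2 * (D * z)) ∈ A0`.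
-/

namespace Pool.Agent.Lib.TQ

open Pool.Agent.Lib.MP_3029eb_ag Pool.Agent.Lib.MP_3029eb_ag.Abh

private theorem adjE_monV {K : Type} [Field K] {V : ValuationSubring K} {A : Subring K} {r : ℕ}
    {u : Fin r → K} {Δ : Finset K} (hΔ : ∀ δ ∈ Δ, MonV V A u δ) {δ : K}
    (hδ : δ ∈ Submonoid.closure (Δ : Set K)) : MonV V A u δ := by
  induction hδ using Submonoid.closure_induction with
  | mem x hx => exact hΔ x hx
  | one => exact MonV.one
  | mul x y _ _ hx hy => exact hx.mul hy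

theorem emb2_of_adjoin {K : Type} [NormedField K] [IsUltrametricDist K] (A0 : Subring K)
    (hA0 : A0 ≤ (ball K).toSubring) (g : Finset K)
    (hg : ∀ t ∈ g, ‖t‖ ≤ 1 ∧ ∃ n ∈ A0, ∃ d ∈ A0, d ≠ 0 ∧ t * d = n) {r h : ℕ}
    (H : Imp.EMB2 (ball K) (locV (ball K) (Subring.closure ((A0 : Set K) ∪ (g : Set K)))) r h) :
    Imp.EMB2 (ball K) A0 r h := by
  classical
  choose! n hn d hd hd0 htd using fun t ht => (hg t ht).2
  obtain ⟨A', hA'⟩ : ∃ A', A' = locV (ball K) (Subring.closure ((A0 : Set K) ∪ (g : Set K))) :=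
    ⟨_, rfl⟩
  rw [← hA'] at H
  have hle : A0 ≤ A' := by
    rw [hA']
    exact fun x hx => le_locV _ _ (Subring.subset_closure (Or.inl hx))
  have hDen : DenD A0 A' (g.image d) :=
    DenD.of_frac g (g.image d) (fun t ht => ⟨n t, hn t ht, d t, hd t ht,
      Finset.mem_image_of_mem d ht, htd t ht⟩) A' hA'
  intro s hs
  obtain ⟨g', u, gs, hg', hcard, hGP, hmon⟩ := H (s ∪ g.image d) (by
    intro f hf
    rcases Finset.mem_union.1 hf with hf | hf
    · obtain ⟨h1, h2, a, ha, b, hb, h3, h4⟩ := hs f hf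
      exact ⟨h1, h2, a, hle ha, b, hle hb, h3, h4⟩
    · obtain ⟨t, ht, rfl⟩ := Finset.mem_image.1 hf
      exact ⟨hd0 t ht, hA0 (hd t ht), d t, hle (hd t ht), 1, one_mem _, one_ne_zero, mul_one _⟩)
  have heq : locV (ball K) (Subring.closure ((A0 : Set K) ∪ ((g ∪ g' : Finset K) : Set K))) =
      locV (ball K) (Subring.closure ((A' : Set K) ∪ (g' : Set K))) :=
    Imp.locV_locV_union' (ball K) A0 A' g g' hA'
  have hle' : A' ≤ locV (ball K) (Subring.closure ((A' : Set K) ∪ (g' : Set K))) :=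
    fun x hx => le_locV _ _ (Subring.subset_closure (Or.inl hx))
  refine ⟨g ∪ g', u, gs, ?_, hcard, ?_, ?_⟩
  · intro t ht
    rcases Finset.mem_union.1 ht with ht | ht
    · exact (hg t ht).1
    · exact hg' t ht
  · rw [heq]
    refine { hGP with den := ?_ }
    intro z hz
    obtain ⟨D, hD, hDm, hDz⟩ := hGP.den z hz
    obtain ⟨D1, hD1, ⟨δ1, hδ1, b1, hb1, hb1n, hD1δ⟩, hD1D⟩ := hDen D hD
    obtain ⟨D2, hD2, ⟨δ2, hδ2, b2, hb2, hb2n, hD2δ⟩, hD2z⟩ := hDen (D * z) hDz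
    have hΔ : ∀ δ ∈ g.image d, MonV (ball K)
        (locV (ball K) (Subring.closure ((A' : Set K) ∪ (g' : Set K)))) u δ :=
      fun δ hδ => hmon δ (Finset.mem_union_right _ hδ)
    have m1 : MonV (ball K) (locV (ball K) (Subring.closure ((A' : Set K) ∪ (g' : Set K)))) u D1 := by
      rw [hD1δ]
      exact (adjE_monV hΔ hδ1).mul (MonV.of_unit (hle' hb1) ((ball_val_eq_one b1).2 hb1n))
    have m2 : MonV (ball K) (locV (ball K) (Subring.closure ((A' : Set K) ∪ (g' : Set K)))) u D2 := by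
      rw [hD2δ]
      exact (adjE_monV hΔ hδ2).mul (MonV.of_unit (hle' hb2) ((ball_val_eq_one b2).2 hb2n))
    refine ⟨D2 * (D1 * D), mul_mem hD2 hD1D, m2.mul (m1.mul hDm), ?_⟩
    have h3 : D2 * (D1 * D) * z = D1 * (D2 * (D * z)) := by ring
    rw [h3]
    exact mul_mem hD1 hD2z
  · rw [heq]
    exact fun f hf => hmon f (Finset.mem_union_left _ hf)

end Pool.Agent.Lib.TQ
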