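import Pool.Agent.Lib.TQ.KTr
import Pool.Agent.Lib.TQ.AdjE
import Pool.Agent.Lib.MP_3029eb_ag.ImpRank

/-!
# Module CaseK: the case where some local blowing up has a small implicit quotient
PROOF. `A' := locV (closure (A ∪ g))`.  `Dom A.subtype`; `A'` is noetherian, local (its image under `κW` is `Nl X` by `Nl.adjoin` and `locV_map`; or `Imp`/`Abh` lemmas on `locV`:
`isLocalRing_locV`, noetherian localization of a finitely generated algebra, see the beginning of the proof of `Imp.imp_ball`), `A' ≤ ball K`, `locV (ball K) A' = A'`.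
`Imp.exists_lift_subring` for `A'` and `κ`: `φ' : A'^ → L`, `Dom φ'`.  `dim_eq` for `A'`: `ringKrullDim (A'^ ⧸ ker φ') = ringKrullDim (Cp (A'.map κW)) ≤ r`.  `ker φ'` is prime (`L` is a field); `ker φ' ∩ A' = 0`
(`φ' a = κ a`), so the localization is regular by `hreg`.  `Imp.imp_ball` for `A'` with `s := 0`, `Imp.resIndep_zero`: `EMB2 (ball K) A' r h`.  `emb2_of_adjoin`: the elements of `g` are fractions of elements of `A` (`hfrac`).
-/

namespace Pool.Agent.Lib.TQ

open Pool.Agent.Lib.MP_3029eb_ag Pool.Agent.Lib.MP_3029eb_ag.Abh Pool.Agent.Lib.TDO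
  Pool.Agent.Lib.TU IsLocalRing

theorem case_one {K : Type} [NontriviallyNormedField K] [IsUltrametricDist K] (A : Subring K)
    [IsLocalRing A] [IsNoetherianRing A] (hA : A ≤ (ball K).toSubring) (hloc : locV (ball K) A = A)
    (hfrac : ∀ z : K, ∃ a ∈ A, ∃ b ∈ A, b ≠ 0 ∧ z * b = a) {r : ℕ} (hr : 0 < r) (x : Fin r → K)
    (hx : IndV (ball K) x) {L : Type} [NontriviallyNormedField L] [IsUltrametricDist L]
    [CompleteSpace L] (κ : K →+* L) (hκ : ∀ z, ‖κ z‖ = ‖z‖) (hκd : DenseRange κ) {W : Type}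
    [NormedField W] [IsUltrametricDist W] {X : Subfield W} (κW : K →+* W)
    (hκW : ∀ z, ‖κW z‖ = ‖z‖) (hκX : ∀ z, κW z ∈ X) (hN : Nl X (A.map κW)) (g : Finset K)
    (hg : ∀ t ∈ g, ‖t‖ ≤ 1) (A' : Subring K)
    (hA' : A' = locV (ball K) (Subring.closure ((A : Set K) ∪ (g : Set K))))
    (hreg : ∀ (_ : IsLocalRing A'), GFR A')
    (hdim : ringKrullDim (Cp (A'.map κW)) ≤ ((r : ℕ) : WithBot ℕ∞)) :
    ∃ h, Imp.EMB2 (ball K) A r h := by
  classical
  subst hA'
  have hBle : Subring.closure ((A : Set K) ∪ (g : Set K)) ≤ (ball K).toSubring :=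
    closure_le_ball A hA _ hg
  have n0 : IsNoetherianRing (Subring.closure ((A : Set K) ∪ (g : Set K))) :=
    isNoetherianRing_closure g
  have n1 : IsNoetherianRing (locV (ball K) (Subring.closure ((A : Set K) ∪ (g : Set K)))) :=
    isNoetherianRing_locV _
  have n2 : IsLocalRing (locV (ball K) (Subring.closure ((A : Set K) ∪ (g : Set K)))) :=
    isLocalRing_locV _ hBle
  have hdom := dom_locV _ hBle
  obtain ⟨φ', hφ', hφA'⟩ := Imp.exists_lift_subring κ hκ _ hdom
  have hN' : Nl X ((locV (ball K) (Subring.closure ((A : Set K) ∪ (g : Set K)))).map κW) := by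
    rw [locV_map κW hκW A (g : Set K)]
    have h1 := hN.adjoin (g.image κW) (fun z hz => by
      obtain ⟨t, ht, rfl⟩ := Finset.mem_image.1 hz
      exact ⟨hκX t, by rw [hκW]; exact hg t ht⟩)
    rwa [Finset.coe_image] at h1
  have hdim' : ringKrullDim (AdicCompletion (maximalIdeal
      (locV (ball K) (Subring.closure ((A : Set K) ∪ (g : Set K)))))
      (locV (ball K) (Subring.closure ((A : Set K) ∪ (g : Set K)))) ⧸ RingHom.ker φ') ≤
      ((r : ℕ) : WithBot ℕ∞) := by
    rw [dim_eq _ κW hκW hN' κ hκ φ' hφ' hφA']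
    exact hdim
  have hprime : (RingHom.ker φ').IsPrime := RingHom.ker_isPrime φ'
  have hcomap : (RingHom.ker φ').comap (algebraMap
      (locV (ball K) (Subring.closure ((A : Set K) ∪ (g : Set K)))) (AdicCompletion (maximalIdeal
      (locV (ball K) (Subring.closure ((A : Set K) ∪ (g : Set K)))))
      (locV (ball K) (Subring.closure ((A : Set K) ∪ (g : Set K)))))) = ⊥ := by
    rw [eq_bot_iff]
    intro a ha
    rw [Ideal.mem_comap, RingHom.mem_ker, hφA', map_eq_zero] at ha
    rw [Ideal.mem_bot]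
    exact Subtype.ext ha
  have hreg' := hreg n2 (RingHom.ker φ') hcomap
  have hfrac' : ∀ z : K, ∃ a ∈ locV (ball K) (Subring.closure ((A : Set K) ∪ (g : Set K))),
      ∃ b ∈ locV (ball K) (Subring.closure ((A : Set K) ∪ (g : Set K))), b ≠ 0 ∧ z * b = a := by
    intro z
    obtain ⟨a, ha, b, hb, hb0, hab⟩ := hfrac z
    exact ⟨a, le_locV _ _ (Subring.subset_closure (Or.inl ha)), b,
      le_locV _ _ (Subring.subset_closure (Or.inl hb)), hb0, hab⟩
  obtain ⟨h, H⟩ := Imp.imp_ball _ (locV_le _ hBle) (locV_locV _ _) hfrac' (r := r) (s := 0) hr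
    κ hκ hκd φ' hφ' hφA' hreg' (by simpa using hdim') x hx (fun i => i.elim0)
    (fun i => i.elim0) (Imp.resIndep_zero _ _)
  refine ⟨h, emb2_of_adjoin A hA g (fun t ht => ⟨hg t ht, ?_⟩) H⟩
  obtain ⟨a, ha, b, hb, hb0, hab⟩ := hfrac t
  exact ⟨a, ha, b, hb, hb0, hab⟩

end Pool.Agent.Lib.TQ
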