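import Pool.Agent.Lib.TQ.CpC
import Pool.Agent.Lib.TQ.CpH
import Pool.Agent.Lib.TU.ResFld
import Pool.Agent.Lib.TU.CoefF

/-!
# Module CgA: fields of representatives of complete local rings
PROOF. `TU.res_basis` for `A := locV (closure (k ∪ G))` (`≤ D`; the `v i` can be replaced by elements of `A` congruent to them:
residual independence only depends on the residues) gives `Z`.
Given `δ`, put `Z' i := Z i + δ i`, `A1 := locV (closure (k ∪ (G ∪ {Z' i})))`.  For `g ∈ A1`: `g` is congruent to an element of `A`, so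
there is a monic `h` over `k(Z)` with `‖h(g)‖ < 1`, `‖h'(g)‖ = 1` (the statement of `res_basis`, it only depends on the residue of `g`;
all nonzero elements of `k(Z)` have norm one).  Replace the coefficients of `h`, which are `P(Z)/Q(Z)`, by `P(Z')/Q(Z')`: congruent, as
`‖P(Z) - P(Z')‖ < 1`.  So the hypothesis `hsep` of `TU.coef_field` holds for `Z'` and `A1`.  `TU.coef_field` with `S := ⊤`, `L0 := L`
gives `C0` (`≤ L`).  `C0 ≤ D`: let `e ∈ C0`; it is separable over `k(Z')`, `h` its minimal polynomial (coefficients in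
`k(Z') ≤ D`), `h(e) = 0`, `h'(e) ≠ 0` is an element of `C0`, so of norm one (`Cst.unit`); there is `z ∈ A1 ≤ D` with
`‖z - e‖ < 1`, so `‖h(z)‖ < 1`, `‖h'(z)‖ = 1`, and `cp_hensel` (`δ := h'(z)` a unit of `Cp D = D`) gives a root in `D` close to `z`, which is `e`
(`root_unique`).
-/

namespace Pool.Agent.Lib.TQ

open Pool.Agent.Lib.MP_3029eb_ag Pool.Agent.Lib.MP_3029eb_ag.Abh Pool.Agent.Lib.TDO
  Pool.Agent.Lib.TU

section

variable {k W : Type} [Field k] [NormedField W] [IsUltrametricDist W] [Algebra k W]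

private theorem cga_lt {a b c : W} (h1 : ‖a - b‖ < 1) (h2 : ‖b - c‖ < 1) : ‖a - c‖ < 1 := by
  have h3 : a - c = (a - b) + (b - c) := by ring
  rw [h3]
  exact lt_of_le_of_lt (IsUltrametricDist.norm_add_le_max _ _) (max_lt h1 h2)

private theorem cga_eq {a b : W} (h : ‖a - b‖ < 1) (ha : ‖a‖ = 1) : ‖b‖ = 1 := by
  apply le_antisymm
  · have h1 : b = a + -(a - b) := by ring
    rw [h1]
    refine (IsUltrametricDist.norm_add_le_max _ _).trans (max_le ha.le ?_)
    rw [norm_neg]
    exact h.le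
  · by_contra h2
    have h3 : a = (a - b) + b := by ring
    have h4 := IsUltrametricDist.norm_add_le_max (a - b) b
    rw [← h3, ha] at h4
    exact absurd h4 (not_le.2 (max_lt h (not_le.1 h2)))

private theorem cga_mul {a b c d : W} (ha : ‖a‖ ≤ 1) (hd : ‖d‖ ≤ 1) (h1 : ‖a - c‖ < 1)
    (h2 : ‖b - d‖ < 1) : ‖a * b - c * d‖ < 1 := by
  have h3 : a * b - c * d = a * (b - d) + (a - c) * d := by ring
  rw [h3]
  refine lt_of_le_of_lt (IsUltrametricDist.norm_add_le_max _ _) (max_lt ?_ ?_)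
  · rw [norm_mul]
    exact lt_of_le_of_lt (mul_le_of_le_one_left (norm_nonneg _) ha) h2
  · rw [norm_mul]
    exact lt_of_le_of_lt (mul_le_of_le_one_right (norm_nonneg _) hd) h1

private theorem cga_cong {m : ℕ} (hkn : ∀ c : k, ‖algebraMap k W c‖ ≤ 1) (z z' : Fin m → W)
    (hz : ∀ i, ‖z i‖ ≤ 1) (hz' : ∀ i, ‖z' i‖ ≤ 1) (h : ∀ i, ‖z i - z' i‖ < 1)
    (P : MvPolynomial (Fin m) k) :
    ‖MvPolynomial.aeval z P‖ ≤ 1 ∧ ‖MvPolynomial.aeval z' P‖ ≤ 1 ∧
      ‖MvPolynomial.aeval z P - MvPolynomial.aeval z' P‖ < 1 := by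
  induction P using MvPolynomial.induction_on with
  | C a =>
    rw [MvPolynomial.aeval_C, MvPolynomial.aeval_C, sub_self, norm_zero]
    exact ⟨hkn a, hkn a, one_pos⟩
  | add p q hp hq =>
    rw [map_add, map_add]
    refine ⟨(IsUltrametricDist.norm_add_le_max _ _).trans (max_le hp.1 hq.1),
      (IsUltrametricDist.norm_add_le_max _ _).trans (max_le hp.2.1 hq.2.1), ?_⟩
    rw [add_sub_add_comm]
    exact lt_of_le_of_lt (IsUltrametricDist.norm_add_le_max _ _) (max_lt hp.2.2 hq.2.2)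
  | mul_X p i hp =>
    rw [map_mul, map_mul, MvPolynomial.aeval_X, MvPolynomial.aeval_X]
    refine ⟨?_, ?_, cga_mul hp.1 (hz' i) hp.2.2 (h i)⟩
    · rw [norm_mul]
      exact mul_le_one₀ hp.1 (norm_nonneg _) (hz i)
    · rw [norm_mul]
      exact mul_le_one₀ hp.2.1 (norm_nonneg _) (hz' i)

private theorem cga_indep {m : ℕ} (hkn : ∀ c : k, ‖algebraMap k W c‖ ≤ 1) (z z' : Fin m → W)
    (hz : ∀ i, ‖z i‖ ≤ 1) (hz' : ∀ i, ‖z' i‖ ≤ 1) (h : ∀ i, ‖z i - z' i‖ < 1)
    (hi : ∀ P : MvPolynomial (Fin m) k, P ≠ 0 → ‖MvPolynomial.aeval z P‖ = 1)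
    (P : MvPolynomial (Fin m) k) (hP : P ≠ 0) : ‖MvPolynomial.aeval z' P‖ = 1 :=
  cga_eq (cga_cong hkn z z' hz hz' h P).2.2 (hi P hP)

private theorem cga_lift {m : ℕ} (hkn : ∀ c : k, ‖algebraMap k W c‖ ≤ 1) (z z' : Fin m → W)
    (hz : ∀ i, ‖z i‖ ≤ 1) (hz' : ∀ i, ‖z' i‖ ≤ 1) (h : ∀ i, ‖z i - z' i‖ < 1)
    (hi : ∀ P : MvPolynomial (Fin m) k, P ≠ 0 → ‖MvPolynomial.aeval z P‖ = 1)
    (c : IntermediateField.adjoin k (Set.range z)) :
    ∃ c' : IntermediateField.adjoin k (Set.range z'), ‖(c : W) - (c' : W)‖ < 1 := by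
  obtain ⟨c, hc⟩ := c
  rw [IntermediateField.mem_adjoin_range_iff] at hc
  obtain ⟨P, Q, rfl⟩ := hc
  by_cases hQ : Q = 0
  · refine ⟨0, ?_⟩
    simp [hQ]
  have hQ1 := hi Q hQ
  have hQ1' := cga_indep hkn z z' hz hz' h hi Q hQ
  have hQ0 : MvPolynomial.aeval z Q ≠ 0 := by
    intro h0
    rw [h0, norm_zero] at hQ1
    exact zero_ne_one hQ1
  have hQ0' : MvPolynomial.aeval z' Q ≠ 0 := by
    intro h0
    rw [h0, norm_zero] at hQ1'
    exact zero_ne_one hQ1'
  refine ⟨⟨MvPolynomial.aeval z' P / MvPolynomial.aeval z' Q,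
    (IntermediateField.mem_adjoin_range_iff k z' _).2 ⟨P, Q, rfl⟩⟩, ?_⟩
  obtain ⟨hp1, hp2, hp3⟩ := cga_cong hkn z z' hz hz' h P
  obtain ⟨hq1, hq2, hq3⟩ := cga_cong hkn z z' hz hz' h Q
  show ‖MvPolynomial.aeval z P / MvPolynomial.aeval z Q -
    MvPolynomial.aeval z' P / MvPolynomial.aeval z' Q‖ < 1
  have h1 : MvPolynomial.aeval z P / MvPolynomial.aeval z Q -
      MvPolynomial.aeval z' P / MvPolynomial.aeval z' Q =
      (MvPolynomial.aeval z P * MvPolynomial.aeval z' Q -
        MvPolynomial.aeval z' P * MvPolynomial.aeval z Q) /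
        (MvPolynomial.aeval z Q * MvPolynomial.aeval z' Q) := by
    field_simp
  rw [h1, norm_div, norm_mul, hQ1, hQ1', mul_one, div_one]
  refine cga_mul hp1 hq1 hp3 ?_
  rw [norm_sub_rev]
  exact hq3

private theorem cga_poly {K K' : IntermediateField k W}
    (hlift : ∀ c : K, ∃ c' : K', ‖(c : W) - (c' : W)‖ < 1) (hKn : ∀ c : K, ‖(c : W)‖ ≤ 1)
    (h : Polynomial K) (hm : h.Monic) {g g' : W} (hg : ‖g‖ ≤ 1) (hg' : ‖g'‖ ≤ 1)
    (hgg : ‖g - g'‖ < 1) (h0 : ‖Polynomial.aeval g h‖ < 1)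
    (h1 : ‖Polynomial.aeval g h.derivative‖ = 1) :
    ∃ h' : Polynomial K', h'.Monic ∧ ‖Polynomial.aeval g' h'‖ < 1 ∧
      ‖Polynomial.aeval g' h'.derivative‖ = 1 := by
  classical
  choose c hc using hlift
  set n := h.natDegree with hn
  set p : Polynomial K' := ∑ j ∈ Finset.range n, Polynomial.C (c (h.coeff j)) * Polynomial.X ^ j
    with hp
  have hpc : ∀ j, p.coeff j = if j < n then c (h.coeff j) else 0 := by
    intro j
    rw [hp, Polynomial.finsetSum_coeff]
    simp only [Polynomial.coeff_C_mul_X_pow]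
    rw [Finset.sum_ite_eq (Finset.range n) j (fun i => c (h.coeff i))]
    simp only [Finset.mem_range]
  have hpd : p.degree < n := by
    rw [Polynomial.degree_lt_iff_coeff_zero]
    intro j hj
    rw [hpc, if_neg (not_lt.2 hj)]
  have hm' : (Polynomial.X ^ n + p).Monic := Polynomial.monic_X_pow_add hpd
  have hcc : ∀ j, ‖((h.coeff j : K) : W) - (((Polynomial.X ^ n + p).coeff j : K') : W)‖ < 1 := by
    intro j
    rw [Polynomial.coeff_add, Polynomial.coeff_X_pow, hpc]
    rcases lt_trichotomy j n with hj | hj | hj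
    · rw [if_neg hj.ne, if_pos hj, zero_add]
      exact hc _
    · subst hj
      rw [if_pos rfl, if_neg (lt_irrefl _), add_zero]
      have : h.coeff h.natDegree = 1 := hm
      rw [this]
      simp
    · rw [if_neg hj.ne', if_neg (not_lt.2 hj.le), add_zero]
      have : h.coeff j = 0 := Polynomial.coeff_eq_zero_of_natDegree_lt hj
      rw [this]
      simp
  have hc0 : ∀ j, n < j →
      ‖((h.coeff j : K) : W) - (((Polynomial.X ^ n + p).coeff j : K') : W)‖ = 0 := by
    intro j hj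
    rw [Polynomial.coeff_add, Polynomial.coeff_X_pow, hpc, if_neg hj.ne', if_neg (not_lt.2 hj.le),
      add_zero, Polynomial.coeff_eq_zero_of_natDegree_lt hj]
    simp
  obtain ⟨i, -, hi⟩ := Finset.exists_max_image (Finset.range (n + 1))
    (fun j => ‖((h.coeff j : K) : W) - (((Polynomial.X ^ n + p).coeff j : K') : W)‖)
    ⟨0, Finset.mem_range.2 (Nat.succ_pos n)⟩
  set ε := ‖((h.coeff i : K) : W) - (((Polynomial.X ^ n + p).coeff i : K') : W)‖ with hε
  have hε1 : ε < 1 := hcc i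
  have hle : ∀ j, ‖((h.coeff j : K) : W) - (((Polynomial.X ^ n + p).coeff j : K') : W)‖ ≤ ε := by
    intro j
    by_cases hj : j ≤ n
    · exact hi j (Finset.mem_range.2 (Nat.lt_succ_of_le hj))
    · rw [hc0 j (not_le.1 hj)]
      exact norm_nonneg _
  have hcl := norm_eval_close (h.map (algebraMap K W))
    ((Polynomial.X ^ n + p).map (algebraMap K' W))
    (fun j => by rw [Polynomial.coeff_map]; exact hKn _) (ε := ε)
    (fun j => by rw [Polynomial.coeff_map, Polynomial.coeff_map]; exact hle j) hg hg'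
  rw [Polynomial.derivative_map, Polynomial.derivative_map, Polynomial.eval_map_algebraMap,
    Polynomial.eval_map_algebraMap, Polynomial.eval_map_algebraMap,
    Polynomial.eval_map_algebraMap] at hcl
  have hmx : max ‖g - g'‖ ε < 1 := max_lt hgg hε1
  refine ⟨Polynomial.X ^ n + p, hm', ?_, ?_⟩
  · have h2 := lt_of_le_of_lt hcl.1 hmx
    have h3 : Polynomial.aeval g' (Polynomial.X ^ n + p) = Polynomial.aeval g h +
        -(Polynomial.aeval g h - Polynomial.aeval g' (Polynomial.X ^ n + p)) := by ring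
    rw [h3]
    refine lt_of_le_of_lt (IsUltrametricDist.norm_add_le_max _ _) (max_lt h0 ?_)
    rw [norm_neg]
    exact h2
  · exact cga_eq (lt_of_le_of_lt hcl.2 hmx) h1

end

theorem cg_coef {k W : Type} [Field k] [PerfectField k] [NormedField W] [IsUltrametricDist W]
    [Algebra k W] {r m : ℕ} (hA : AmbG r m k W) (L : IntermediateField k W) (D : Subring W)
    (hD : Nl L.toSubfield D) (hDc : Cp D = D) (hk : ∀ b : k, algebraMap k W b ∈ D)
    (G : Finset W) (hG : ∀ g ∈ G, g ∈ D)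
    (hres : ∀ z ∈ D, ∃ a ∈ locV (ball W) (Subring.closure (Set.range (algebraMap k W) ∪
      (G : Set W))), ‖z - a‖ < 1)
    (v : Fin m → W) (hv : ∀ i, v i ∈ D)
    (hvi : ∀ P : MvPolynomial (Fin m) k, P ≠ 0 → ‖MvPolynomial.aeval v P‖ = 1) :
    ∃ Z : Fin m → W, (∀ i, Z i ∈ D) ∧
      (∀ P : MvPolynomial (Fin m) k, P ≠ 0 → ‖MvPolynomial.aeval Z P‖ = 1) ∧
      ∀ δ : Fin m → W, (∀ i, δ i ∈ D ∧ ‖δ i‖ < 1) →
        ∃ C0 : IntermediateField k W, Cst m C0 ∧ (∀ e ∈ C0, e ∈ D) ∧ (∀ i, Z i + δ i ∈ C0) ∧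
          (∀ z ∈ D, ∃ e ∈ C0, ‖z - e‖ < 1) ∧
          ∀ e ∈ C0, IsSeparable (IntermediateField.adjoin k (Set.range fun i => Z i + δ i)) e := by
  classical
  have hkn : ∀ c : k, ‖algebraMap k W c‖ ≤ 1 := fun c => hD.one _ (hk c)
  -- localizations of finitely generated subrings of `D`
  have hloc : ∀ H : Finset W, (∀ g ∈ H, g ∈ D) →
      locV (ball W) (Subring.closure (Set.range (algebraMap k W) ∪ (H : Set W))) ≤ D := by
    intro H hH
    have hcl : Subring.closure (Set.range (algebraMap k W) ∪ (H : Set W)) ≤ D := by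
      rw [Subring.closure_le]
      rintro z (⟨c, rfl⟩ | hz)
      · exact hk c
      · exact hH z hz
    rintro z ⟨a, ha, b, hb, hb1, h⟩
    rw [ball_val_eq_one] at hb1
    have hb0 : b ≠ 0 := by
      rintro rfl
      rw [norm_zero] at hb1
      exact zero_ne_one hb1
    have hz : z = a * b⁻¹ := by
      rw [← h]
      field_simp
    rw [hz]
    exact mul_mem (hcl ha) (hD.inv b (hcl hb) hb1)
  have hlocs : ∀ (H : Finset W) (z : W), z ∈ H →
      z ∈ locV (ball W) (Subring.closure (Set.range (algebraMap k W) ∪ (H : Set W))) :=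
    fun H z hz => ⟨z, Subring.subset_closure (Or.inr hz), 1, one_mem _, map_one _, mul_one z⟩
  have hlocm : ∀ H H' : Finset W, H ⊆ H' →
      locV (ball W) (Subring.closure (Set.range (algebraMap k W) ∪ (H : Set W))) ≤
      locV (ball W) (Subring.closure (Set.range (algebraMap k W) ∪ (H' : Set W))) := by
    rintro H H' hHH z ⟨a, ha, b, hb, hb1, h⟩
    have hle : Subring.closure (Set.range (algebraMap k W) ∪ (H : Set W)) ≤
        Subring.closure (Set.range (algebraMap k W) ∪ (H' : Set W)) :=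
      Subring.closure_mono (Set.union_subset_union_right _ (Finset.coe_subset.2 hHH))
    exact ⟨a, hle ha, b, hle hb, hb1, h⟩
  set A := locV (ball W) (Subring.closure (Set.range (algebraMap k W) ∪ (G : Set W))) with hAdef
  have hAD : A ≤ D := hloc G hG
  choose v' hv' hvv' using fun i => hres (v i) (hv i)
  have hvi' := cga_indep hkn v v' (fun i => hD.one _ (hv i)) (fun i => hD.one _ (hAD (hv' i)))
    hvv' hvi
  obtain ⟨Z, hZA, hZi, hZs⟩ := res_basis hA G (fun g hg => hD.one g (hG g hg)) A hAdef v' hv' hvi'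
  refine ⟨Z, fun i => hAD (hZA i), hZi, ?_⟩
  intro δ hδ
  set Z' : Fin m → W := fun i => Z i + δ i with hZ'
  have hZD : ∀ i, Z i ∈ D := fun i => hAD (hZA i)
  have hZD' : ∀ i, Z' i ∈ D := fun i => add_mem (hZD i) (hδ i).1
  have hZZ : ∀ i, ‖Z i - Z' i‖ < 1 := by
    intro i
    have : Z i - Z' i = -δ i := by
      rw [hZ']
      ring
    rw [this, norm_neg]
    exact (hδ i).2
  have hZi' := cga_indep hkn Z Z' (fun i => hD.one _ (hZD i)) (fun i => hD.one _ (hZD' i)) hZZ hZi
  set G1 : Finset W := G ∪ Finset.univ.image Z' with hG1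
  have hG1D : ∀ g ∈ G1, g ∈ D := by
    intro g hg
    rw [hG1, Finset.mem_union, Finset.mem_image] at hg
    rcases hg with hg | ⟨i, -, rfl⟩
    · exact hG g hg
    · exact hZD' i
  have hZG1 : ∀ i, Z' i ∈ G1 := fun i =>
    Finset.mem_union_right _ (Finset.mem_image.2 ⟨i, Finset.mem_univ i, rfl⟩)
  set A1 := locV (ball W) (Subring.closure (Set.range (algebraMap k W) ∪ (G1 : Set W))) with hA1def
  have hA1D : A1 ≤ D := hloc G1 hG1D
  have hAA1 : A ≤ A1 := hlocm G G1 Finset.subset_union_left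
  -- the fields `k(Z)`, `k(Z')`
  have hadj : ∀ z : Fin m → W, (∀ i, z i ∈ D) →
      (∀ P : MvPolynomial (Fin m) k, P ≠ 0 → ‖MvPolynomial.aeval z P‖ = 1) →
      ∀ e ∈ IntermediateField.adjoin k (Set.range z), e ∈ D := by
    intro z hz hzi e he
    have hPD : ∀ P : MvPolynomial (Fin m) k, MvPolynomial.aeval z P ∈ D := by
      intro P
      induction P using MvPolynomial.induction_on with
      | C a =>
        rw [MvPolynomial.aeval_C]
        exact hk a
      | add p q hp hq =>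
        rw [map_add]
        exact add_mem hp hq
      | mul_X p i hp =>
        rw [map_mul, MvPolynomial.aeval_X]
        exact mul_mem hp (hz i)
    rw [IntermediateField.mem_adjoin_range_iff] at he
    obtain ⟨P, Q, rfl⟩ := he
    by_cases hQ : Q = 0
    · rw [hQ, map_zero, div_zero]
      exact zero_mem _
    · rw [div_eq_mul_inv]
      exact mul_mem (hPD P) (hD.inv _ (hPD Q) (hzi Q hQ))
  have hKD := hadj Z hZD hZi
  have hKD' := hadj Z' hZD' hZi'
  have hsep : ∀ g ∈ A1, ∃ h : Polynomial (IntermediateField.adjoin k (Set.range Z')), h.Monic ∧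
      ‖Polynomial.aeval g h‖ < 1 ∧ ‖Polynomial.aeval g h.derivative‖ = 1 := by
    intro g hg
    obtain ⟨a, ha, hga⟩ := hres g (hA1D hg)
    obtain ⟨h, hm, h0, h1⟩ := hZs a ha
    exact cga_poly (cga_lift hkn Z Z' (fun i => hD.one _ (hZD i)) (fun i => hD.one _ (hZD' i))
      hZZ hZi) (fun c => hD.one _ (hKD _ c.2)) h hm (hD.one _ (hAD ha)) (hD.one _ (hA1D hg))
      (by rw [norm_sub_rev]; exact hga) h0 h1
  obtain ⟨C0, hC0, hCst, hZC, r1, r2, hCs, -⟩ := coef_field (m := m) hA.unit ⊤ L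
    (fun z _ => IntermediateField.mem_top) hD.comp G1
    (fun g hg => ⟨IntermediateField.mem_top, hD.le g (hG1D g hg), hD.one g (hG1D g hg)⟩) A1
    hA1def Z' (fun i => hlocs G1 _ (hZG1 i)) hZi' hsep
  have hKC : IntermediateField.adjoin k (Set.range Z') ≤ C0 := by
    rw [IntermediateField.adjoin_le_iff]
    rintro _ ⟨i, rfl⟩
    exact hZC i
  have hCn : ∀ e ∈ C0, ‖e‖ ≤ 1 := by
    intro e he
    by_cases h : e = 0
    · rw [h, norm_zero]
      exact zero_le_one
    · exact (hCst.unit e he h).le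
  refine ⟨C0, hCst, ?_, hZC, ?_, hCs⟩
  · intro e he
    have hs := hCs e he
    set K := IntermediateField.adjoin k (Set.range Z') with hK
    set F : Polynomial W := (minpoly K e).map (algebraMap K W) with hF
    have hFD : ∀ j, F.coeff j ∈ D := by
      intro j
      rw [hF, Polynomial.coeff_map]
      exact hKD' _ ((minpoly K e).coeff j).2
    have hFd : F.derivative = (minpoly K e).derivative.map (algebraMap K W) := by
      rw [hF, Polynomial.derivative_map]
    have hFe : F.eval e = 0 := by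
      rw [hF, Polynomial.eval_map_algebraMap, minpoly.aeval]
    have hde : ‖F.derivative.eval e‖ = 1 := by
      apply hCst.unit
      · rw [hFd, Polynomial.eval_eq_sum_range]
        refine C0.sum_mem fun j _ => C0.mul_mem ?_ (pow_mem he j)
        rw [Polynomial.coeff_map]
        exact hKC ((minpoly K e).derivative.coeff j).2
      · rw [hFd, Polynomial.eval_map_algebraMap]
        exact Polynomial.Separable.aeval_derivative_ne_zero hs (minpoly.aeval K e)
    obtain ⟨z, hz, hze⟩ := r2 e he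
    have hzD := hA1D hz
    have hcl := norm_eval_close F F (fun j => hD.one _ (hFD j)) (ε := 0)
      (fun j => by rw [sub_self, norm_zero]) (hCn e he) (hD.one z hzD)
    have hez : ‖e - z‖ < 1 := by
      rw [norm_sub_rev]
      exact hze
    have hmx : max ‖e - z‖ 0 < 1 := max_lt hez one_pos
    rw [hFe, zero_sub, norm_neg] at hcl
    have hz0 : ‖F.eval z‖ < 1 := lt_of_le_of_lt hcl.1 hmx
    have hz1 : ‖F.derivative.eval z‖ = 1 := cga_eq (lt_of_le_of_lt hcl.2 hmx) hde
    have hev : ∀ P : Polynomial W, (∀ j, P.coeff j ∈ D) → P.eval z ∈ D := by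
      intro P hP
      rw [Polynomial.eval_eq_sum_range]
      exact sum_mem fun j _ => mul_mem (hP j) (pow_mem hzD j)
    have hFDd : ∀ j, F.derivative.coeff j ∈ D := by
      intro j
      rw [Polynomial.coeff_derivative]
      refine mul_mem (hFD _) ?_
      exact_mod_cast natCast_mem D (j + 1)
    obtain ⟨y, hy, hy0, η, hη, hη1, hyz⟩ := cp_hensel hD F (by rw [hDc]; exact hFD) (b := z)
      (δ := 1) (u := F.derivative.eval z) (ε := F.eval z) (by rw [hDc]; exact hzD) (one_mem _)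
      one_ne_zero (by rw [hDc]; exact hev _ hFDd) hz1 (by rw [one_mul])
      (by rw [hDc]; exact hev _ hFD) hz0 (by rw [one_pow, one_mul])
    rw [hDc] at hy
    have hey : ‖e - y‖ < 1 := by
      refine cga_lt hez ?_
      have h1 : z - y = -η := by
        rw [hyz]
        ring
      rw [h1, norm_neg]
      exact hη1
    have := root_unique F (fun j => hD.one _ (hFD j)) (hCn e he) (hD.one y hy) hFe hy0
      (by rw [hde]; exact hey)
    rw [this]
    exact hy
  · intro z hz
    obtain ⟨a, ha, hza⟩ := hres z hz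
    obtain ⟨e, he, hae⟩ := r1 a (hAA1 ha)
    exact ⟨e, he, cga_lt hza hae⟩

end Pool.Agent.Lib.TQ
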