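import Pool.Agent.Lib.TQ.Defs

/-!
# Module CpA: noetherian local subrings and the powers of their maximal ideals
`X` is a complete subfield of the ultrametric normed field `W`, `Nl X B`: `B` is a noetherian local
subring of `X` dominated by the unit ball.

PROOFS. All of `mI`, `mP` is elementary: `mP B n` is the image of the ideal `mI B ^ n` in `W`.
`Nl.isLocal`: an element of `B` of norm one is a unit of `B` (`h.inv`), the elements of norm less than one
form an ideal (ultrametric); see `isLocalRing_locV`, `MP_3029eb_ag` for similar proofs.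
`Nl.mem_mI`: the elements of norm less than one are an ideal of `B` (norms of elements of `B` are at most
one), so it contains the span.
`Nl.exists_tau`: `mI B` is spanned by finitely many `b_1 .. b_q` (noetherian) with norms less than one,
`τ := max ‖b_j‖` (or `0`); by induction on `n` (`Submodule.mul_induction_on` / `Ideal.span_pow`) every
element of `mI B ^ n` has norm at most `τ ^ n` (see `Fin_norm_pow` in `MP_3029eb_ag/ImpFinal.lean`).
`Nl.mP_gen`: `mI B = Ideal.span (range w)` by hypothesis, `Ideal.span_pow`-type induction (see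
`Fin_span_pow` in `ImpFinal.lean`).
-/

namespace Pool.Agent.Lib.TQ

open Pool.Agent.Lib.MP_3029eb_ag Pool.Agent.Lib.MP_3029eb_ag.Abh Pool.Agent.Lib.TDO
  Pool.Agent.Lib.TU

variable {W : Type} [NormedField W] {X : Subfield W} {B B' : Subring W}

private theorem cpa_span_pow {R : Type} [CommRing R] {r : ℕ} (w : Fin r → R) (N : ℕ) :
    (Ideal.span (Set.range w)) ^ N ≤
      Ideal.span {m | ∃ β : Fin r → ℕ, ∑ i, β i = N ∧ m = monN w β} := by
  classical
  induction N with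
  | zero =>
    rw [pow_zero, Ideal.one_eq_top, top_le_iff, Ideal.eq_top_iff_one]
    exact Ideal.subset_span ⟨0, by simp, (monN_zero w).symm⟩
  | succ N ih =>
    rw [pow_succ]
    refine (Ideal.mul_mono_left ih).trans ?_
    rw [Ideal.span_mul_span', Ideal.span_le]
    rintro _ ⟨_, ⟨β, hβ, rfl⟩, _, ⟨i, rfl⟩, rfl⟩
    refine Ideal.subset_span ⟨β + Pi.single i 1, ?_, ?_⟩
    · simp only [Pi.add_apply, Finset.sum_add_distrib, hβ, Finset.sum_pi_single',
        Finset.mem_univ, if_true]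
    · rw [monN_add]
      congr 1
      rw [monN, Finset.prod_eq_single i]
      · rw [Pi.single_eq_same, pow_one]
      · intro j _ hj; rw [Pi.single_eq_of_ne hj, pow_zero]
      · intro h; exact absurd (Finset.mem_univ i) h

private theorem cpa_norm_pow {T L : Type} [CommRing T] [NormedField L] [IsUltrametricDist L]
    (φ : T →+* L) (hφ : ∀ t, ‖φ t‖ ≤ 1) {ι : Type} (x : ι → T) (ρ : ℝ) (hρ : 0 ≤ ρ)
    (hx : ∀ j, ‖φ (x j)‖ ≤ ρ) (N : ℕ) (t : T) (ht : t ∈ (Ideal.span (Set.range x)) ^ N) :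
    ‖φ t‖ ≤ ρ ^ N := by
  let J : ℕ → Ideal T := fun n =>
    { carrier := {t | ‖φ t‖ ≤ ρ ^ n}
      add_mem' := fun {a b} ha hb => by
        show ‖φ (a + b)‖ ≤ ρ ^ n
        rw [map_add]
        exact (IsUltrametricDist.norm_add_le_max _ _).trans (max_le ha hb)
      zero_mem' := by
        show ‖φ 0‖ ≤ ρ ^ n
        rw [map_zero, norm_zero]; positivity
      smul_mem' := fun c a ha => by
        show ‖φ (c * a)‖ ≤ ρ ^ n
        rw [map_mul, norm_mul]
        exact (mul_le_of_le_one_left (norm_nonneg _) (hφ c)).trans ha }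
  have h1 : Ideal.span (Set.range x) ≤ J 1 := by
    rw [Ideal.span_le]
    rintro _ ⟨j, rfl⟩
    show ‖φ (x j)‖ ≤ ρ ^ 1
    rw [pow_one]; exact hx j
  have h2 : ∀ n, (Ideal.span (Set.range x)) ^ n ≤ J n := by
    intro n
    induction n with
    | zero =>
      intro t _
      show ‖φ t‖ ≤ ρ ^ 0
      rw [pow_zero]; exact hφ t
    | succ n ih =>
      rw [pow_succ, Ideal.mul_le]
      intro a ha b hb
      show ‖φ (a * b)‖ ≤ ρ ^ (n + 1)
      rw [map_mul, norm_mul, pow_succ]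
      have hb1 : ‖φ b‖ ≤ ρ ^ 1 := h1 hb
      rw [pow_one] at hb1
      exact mul_le_mul (ih ha) hb1 (norm_nonneg _) (pow_nonneg hρ n)
  exact h2 N ht

theorem mP_mem {n : ℕ} {z : W} (hz : z ∈ mP B n) : z ∈ B := by
  obtain ⟨t, -, rfl⟩ := hz
  exact t.2

theorem mP_zero_iff {z : W} : z ∈ mP B 0 ↔ z ∈ B := by
  refine ⟨mP_mem, fun hz => ⟨⟨z, hz⟩, ?_, rfl⟩⟩
  rw [pow_zero, Ideal.one_eq_top]
  exact Submodule.mem_top

theorem mP_zero_mem (n : ℕ) : (0 : W) ∈ mP B n :=
  ⟨0, Ideal.zero_mem _, rfl⟩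

theorem mP_add {n : ℕ} {z z' : W} (hz : z ∈ mP B n) (hz' : z' ∈ mP B n) : z + z' ∈ mP B n := by
  obtain ⟨t, ht, rfl⟩ := hz
  obtain ⟨t', ht', rfl⟩ := hz'
  exact ⟨t + t', Ideal.add_mem _ ht ht', rfl⟩

theorem mP_neg {n : ℕ} {z : W} (hz : z ∈ mP B n) : -z ∈ mP B n := by
  obtain ⟨t, ht, rfl⟩ := hz
  exact ⟨-t, neg_mem ht, rfl⟩

theorem mP_sub {n : ℕ} {z z' : W} (hz : z ∈ mP B n) (hz' : z' ∈ mP B n) : z - z' ∈ mP B n := by
  rw [sub_eq_add_neg]
  exact mP_add hz (mP_neg hz')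

theorem mP_sum {n : ℕ} {ι : Type} (s : Finset ι) (f : ι → W) (h : ∀ i ∈ s, f i ∈ mP B n) :
    ∑ i ∈ s, f i ∈ mP B n := by
  classical
  induction s using Finset.induction_on with
  | empty =>
    rw [Finset.sum_empty]
    exact mP_zero_mem n
  | insert a s ha ih =>
    rw [Finset.sum_insert ha]
    exact mP_add (h a (Finset.mem_insert_self a s))
      (ih fun i hi => h i (Finset.mem_insert_of_mem hi))

theorem mP_smul {n : ℕ} {b z : W} (hb : b ∈ B) (hz : z ∈ mP B n) : b * z ∈ mP B n := by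
  obtain ⟨t, ht, rfl⟩ := hz
  exact ⟨⟨b, hb⟩ * t, Ideal.mul_mem_left _ _ ht, rfl⟩

theorem mP_mul {m n : ℕ} {z z' : W} (hz : z ∈ mP B m) (hz' : z' ∈ mP B n) :
    z * z' ∈ mP B (m + n) := by
  obtain ⟨t, ht, rfl⟩ := hz
  obtain ⟨t', ht', rfl⟩ := hz'
  refine ⟨t * t', ?_, rfl⟩
  rw [pow_add]
  exact Ideal.mul_mem_mul ht ht'

theorem mP_anti {m n : ℕ} (hmn : m ≤ n) {z : W} (hz : z ∈ mP B n) : z ∈ mP B m := by
  obtain ⟨t, ht, rfl⟩ := hz
  exact ⟨t, Ideal.pow_le_pow_right hmn ht, rfl⟩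

theorem mP_mono (h : B ≤ B') {n : ℕ} {z : W} (hz : z ∈ mP B n) : z ∈ mP B' n := by
  obtain ⟨t, ht, rfl⟩ := hz
  refine ⟨Subring.inclusion h t, ?_, rfl⟩
  have h1 : (mI B).map (Subring.inclusion h) ≤ mI B' := by
    unfold mI
    rw [Ideal.map_span, Ideal.span_le]
    rintro _ ⟨b, hb, rfl⟩
    exact Ideal.subset_span hb
  have h2 : Subring.inclusion h t ∈ (mI B ^ n).map (Subring.inclusion h) :=
    Ideal.mem_map_of_mem _ ht
  rw [Ideal.map_pow] at h2
  exact Ideal.pow_right_mono h1 n h2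

variable [IsUltrametricDist W]

private theorem cpa_isUnit_iff (h : Nl X B) (b : B) : IsUnit b ↔ ‖(b : W)‖ = 1 := by
  constructor
  · intro hb
    obtain ⟨c, hc⟩ := hb.exists_right_inv
    have h1 : (b : W) * (c : W) = 1 := by
      rw [← Subring.coe_mul, hc, Subring.coe_one]
    have h2 : ‖(b : W)‖ * ‖(c : W)‖ = 1 := by rw [← norm_mul, h1, norm_one]
    have h3 := h.one b b.2
    have h4 := h.one c c.2
    have h5 := norm_nonneg (b : W)
    nlinarith
  · intro hb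
    have hb0 : (b : W) ≠ 0 := by
      intro h0
      rw [h0, norm_zero] at hb
      exact zero_ne_one hb
    refine IsUnit.of_mul_eq_one (⟨(b : W)⁻¹, h.inv b b.2 hb⟩ : B) ?_
    exact Subtype.ext (mul_inv_cancel₀ hb0)

theorem Nl.isLocal (h : Nl X B) : IsLocalRing B := by
  refine IsLocalRing.of_nonunits_add ?_
  intro a b ha hb
  rw [mem_nonunits_iff, cpa_isUnit_iff h] at *
  have ha1 : ‖(a : W)‖ < 1 := lt_of_le_of_ne (h.one a a.2) ha
  have hb1 : ‖(b : W)‖ < 1 := lt_of_le_of_ne (h.one b b.2) hb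
  have h2 : ‖((a + b : B) : W)‖ < 1 :=
    lt_of_le_of_lt (IsUltrametricDist.norm_add_le_max (a : W) (b : W)) (max_lt ha1 hb1)
  exact h2.ne

theorem Nl.mem_mI (h : Nl X B) (b : B) : b ∈ mI B ↔ ‖(b : W)‖ < 1 := by
  constructor
  · intro hb
    let J : Ideal B :=
      { carrier := {b | ‖(b : W)‖ < 1}
        add_mem' := fun {a b} ha hb =>
          lt_of_le_of_lt (IsUltrametricDist.norm_add_le_max (a : W) (b : W)) (max_lt ha hb)
        zero_mem' := by
          show ‖((0 : B) : W)‖ < 1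
          rw [Subring.coe_zero, norm_zero]
          exact zero_lt_one
        smul_mem' := fun c a ha => by
          show ‖((c * a : B) : W)‖ < 1
          rw [Subring.coe_mul, norm_mul]
          exact lt_of_le_of_lt (mul_le_of_le_one_left (norm_nonneg _) (h.one c c.2)) ha }
    have h1 : mI B ≤ J := Ideal.span_le.2 fun x hx => hx
    exact h1 hb
  · intro hb
    exact Ideal.subset_span hb

theorem Nl.mI_eq (h : Nl X B) [IsLocalRing B] : mI B = IsLocalRing.maximalIdeal B := by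
  ext b
  rw [h.mem_mI, IsLocalRing.mem_maximalIdeal, mem_nonunits_iff, cpa_isUnit_iff h]
  exact ⟨fun h1 => h1.ne, fun h1 => lt_of_le_of_ne (h.one b b.2) h1⟩

theorem Nl.mP_one_iff (h : Nl X B) {z : W} : z ∈ mP B 1 ↔ z ∈ B ∧ ‖z‖ < 1 := by
  constructor
  · rintro ⟨t, ht, rfl⟩
    rw [pow_one] at ht
    exact ⟨t.2, (h.mem_mI t).1 ht⟩
  · rintro ⟨hz, hz1⟩
    refine ⟨⟨z, hz⟩, ?_, rfl⟩
    rw [pow_one]
    exact (h.mem_mI _).2 hz1

theorem Nl.locV_eq (h : Nl X B) : locV (ball W) B = B := by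
  refine le_antisymm ?_ fun z hz => ⟨z, hz, 1, one_mem _, map_one _, mul_one z⟩
  rintro z ⟨a, ha, b, hb, hb1, hab⟩
  have hb2 : ‖b‖ = 1 := (ball_val_eq_one b).1 hb1
  have hb0 : b ≠ 0 := by
    intro h0
    rw [h0, norm_zero] at hb2
    exact zero_ne_one hb2
  have h1 : z = a * b⁻¹ := by
    rw [← hab, mul_assoc, mul_inv_cancel₀ hb0, mul_one]
  rw [h1]
  exact mul_mem ha (h.inv b hb hb2)

theorem Nl.le_ball (h : Nl X B) : B ≤ (ball W).toSubring := fun z hz => h.one z hz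

/-- finitely many generators of `mI B` -/
private theorem cpa_gens (h : Nl X B) : ∃ (q : ℕ) (w : Fin q → B), (∀ j, ‖((w j : B) : W)‖ < 1) ∧
    mI B = Ideal.span (Set.range w) := by
  have := h.noeth
  obtain ⟨s, hs⟩ := (isNoetherianRing_iff_ideal_fg B).1 h.noeth (mI B)
  refine ⟨s.card, fun j => (s.equivFin.symm j : B), fun j => ?_, ?_⟩
  · rw [← h.mem_mI, ← hs]
    exact Ideal.subset_span (s.equivFin.symm j).2
  · rw [← hs]
    congr 1
    ext b
    constructor
    · intro hb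
      exact ⟨s.equivFin ⟨b, hb⟩, by simp⟩
    · rintro ⟨j, rfl⟩
      exact (s.equivFin.symm j).2

theorem Nl.exists_tau (h : Nl X B) :
    ∃ τ : ℝ, 0 ≤ τ ∧ τ < 1 ∧ ∀ n, ∀ z ∈ mP B n, ‖z‖ ≤ τ ^ n := by
  obtain ⟨q, w, hw, hspan⟩ := cpa_gens h
  have hτ : ∃ τ : ℝ, 0 ≤ τ ∧ τ < 1 ∧ ∀ j, ‖((w j : B) : W)‖ ≤ τ := by
    rcases Nat.eq_zero_or_pos q with rfl | hq
    · exact ⟨0, le_rfl, zero_lt_one, fun j => j.elim0⟩
    · obtain ⟨j0, -, hj0⟩ := Finset.exists_max_image (Finset.univ : Finset (Fin q))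
        (fun j => ‖((w j : B) : W)‖) ⟨⟨0, hq⟩, Finset.mem_univ _⟩
      exact ⟨_, norm_nonneg _, hw j0, fun j => hj0 j (Finset.mem_univ j)⟩
  obtain ⟨τ, h0, h1, hτ⟩ := hτ
  refine ⟨τ, h0, h1, ?_⟩
  rintro n _ ⟨t, ht, rfl⟩
  rw [hspan] at ht
  exact cpa_norm_pow B.subtype (fun t => h.one t t.2) w τ h0 hτ n t ht

/-- finitely many generators of the maximal ideal -/
theorem Nl.exists_gens (h : Nl X B) : ∃ (q : ℕ) (w : Fin q → W), (∀ j, w j ∈ B ∧ ‖w j‖ < 1) ∧
    ∀ z ∈ B, ‖z‖ < 1 → z ∈ Submodule.span B (Set.range w) := by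
  obtain ⟨q, w, hw, hspan⟩ := cpa_gens h
  refine ⟨q, fun j => (w j : W), fun j => ⟨(w j).2, hw j⟩, fun z hz hz1 => ?_⟩
  have h1 : (⟨z, hz⟩ : B) ∈ Ideal.span (Set.range w) := by
    rw [← hspan]
    exact (h.mem_mI _).2 hz1
  have h2 := Submodule.mem_map_of_mem (f := (Algebra.linearMap B W)) h1
  unfold Ideal.span at h2
  rw [Submodule.map_span, ← Set.range_comp] at h2
  exact h2

theorem Nl.mP_gen (h : Nl X B) {q : ℕ} (w : Fin q → W) (hwB : ∀ j, w j ∈ B ∧ ‖w j‖ < 1)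
    (hw : ∀ z ∈ B, ‖z‖ < 1 → z ∈ Submodule.span B (Set.range w)) {n : ℕ} {z : W}
    (hz : z ∈ mP B n) :
    z ∈ Submodule.span B {v | ∃ α : Fin q → ℕ, ∑ i, α i = n ∧ v = monN w α} := by
  obtain ⟨t, ht, rfl⟩ := hz
  let w' : Fin q → B := fun j => ⟨w j, (hwB j).1⟩
  have hmI : mI B ≤ Ideal.span (Set.range w') := by
    unfold mI
    rw [Ideal.span_le]
    intro b hb
    have h1 := hw b b.2 hb
    obtain ⟨c, hc⟩ := (Submodule.mem_span_range_iff_exists_fun B).1 h1
    refine (Submodule.mem_span_range_iff_exists_fun B).2 ⟨c, Subtype.ext ?_⟩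
    rw [← hc]
    have h2 : ((∑ i, c i • w' i : B) : W) = ∑ i, ((c i • w' i : B) : W) :=
      map_sum B.subtype _ _
    rw [h2]
    rfl
  have h3 : t ∈ Ideal.span {m | ∃ β : Fin q → ℕ, ∑ i, β i = n ∧ m = monN w' β} :=
    cpa_span_pow w' n (Ideal.pow_right_mono hmI n ht)
  have h4 := Submodule.mem_map_of_mem (f := (Algebra.linearMap B W)) h3
  unfold Ideal.span at h4
  rw [Submodule.map_span] at h4
  refine Submodule.span_mono ?_ h4
  rintro _ ⟨_, ⟨β, hβ, rfl⟩, rfl⟩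
  refine ⟨β, hβ, ?_⟩
  show ((monN w' β : B) : W) = monN w β
  unfold monN
  have h5 : ((∏ i, w' i ^ β i : B) : W) = ∏ i, ((w' i ^ β i : B) : W) :=
    map_prod B.subtype _ _
  rw [h5]
  rfl

/-- localizations of finitely generated algebras over noetherian subrings -/
theorem Nl.adjoin (h : Nl X B) (G : Finset W) (hG : ∀ g ∈ G, g ∈ X ∧ ‖g‖ ≤ 1) :
    Nl X (locV (ball W) (Subring.closure ((B : Set W) ∪ (G : Set W)))) := by
  set A : Subring W := Subring.closure ((B : Set W) ∪ (G : Set W)) with hA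
  have hBA : B ≤ A := fun z hz => Subring.subset_closure (Or.inl hz)
  have hGA : (G : Set W) ⊆ A := fun z hz => Subring.subset_closure (Or.inr hz)
  have hAX : ∀ z ∈ A, z ∈ X := by
    have h1 : A ≤ X.toSubring := by
      rw [hA, Subring.closure_le]
      rintro z (hz | hz)
      · exact h.le z hz
      · exact (hG z hz).1
    exact h1
  have hAb : A ≤ (ball W).toSubring := by
    rw [hA, Subring.closure_le]
    rintro z (hz | hz)
    · exact h.one z hz
    · exact (hG z hz).2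
  have hnorm : ∀ {z a b : W}, b ≠ 0 → z * b = a → z = a * b⁻¹ := by
    intro z a b hb hab
    rw [← hab, mul_assoc, mul_inv_cancel₀ hb, mul_one]
  refine ⟨h.comp, h.nt, ?_, ?_, ?_, ?_⟩
  · rintro z ⟨a, ha, b, hb, hb1, hab⟩
    have hb2 : ‖b‖ = 1 := (ball_val_eq_one b).1 hb1
    have hb0 : b ≠ 0 := by
      intro h0
      rw [h0, norm_zero] at hb2
      exact zero_ne_one hb2
    rw [hnorm hb0 hab]
    exact X.mul_mem (hAX a ha) (X.inv_mem (hAX b hb))
  · intro z hz
    exact locV_le (ball W) hAb hz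
  · rintro z ⟨a, ha, b, hb, hb1, hab⟩ hz
    have hb2 : ‖b‖ = 1 := (ball_val_eq_one b).1 hb1
    have hz0 : z ≠ 0 := by
      intro h0
      rw [h0, norm_zero] at hz
      exact zero_ne_one hz
    refine ⟨b, hb, a, ha, (ball_val_eq_one a).2 ?_, ?_⟩
    · rw [← hab, norm_mul, hz, hb2, one_mul]
    · rw [← hab, ← mul_assoc, inv_mul_cancel₀ hz0, one_mul]
  · have hle : B ≤ locV (ball W) A := fun z hz => ⟨z, hBA hz, 1, one_mem _, map_one _, mul_one z⟩
    have h1 : EFT (Subring.inclusion hle) :=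
      EFT_locV_aux (ball W) B A G hGA (le_of_eq hA) (Subring.inclusion hle) fun _ => rfl
    let i1 := (Subring.inclusion hle).toAlgebra
    have h2 : Algebra.EssFiniteType B (locV (ball W) A) := h1
    have h3 := h.noeth
    exact Algebra.EssFiniteType.isNoetherianRing B (locV (ball W) A)

end Pool.Agent.Lib.TQ
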