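import Pool.Agent.Lib.TQ.HCmo
import Pool.Agent.Lib.TQ.CpC
import Pool.Agent.Lib.TQ.CpH

/-!
# Module DinH: the completion of `A` is contained in the completion of a model
PROOF. Put `δ j := (F' j)'(w' j) ≠ 0`, an element of `S ⊓ L` (`F' j` has coefficients in `Pt C0 t ≤ S ⊓ L`).
`TU.exists_stR`, `TU.m_all`: a refinement `c'` of `c` in which the following finitely many nonzero elements of
`S ⊓ L` are `MoH`: generators of the field `C0` over `k` (`cst.fg`), the `t i`, the `w' j` (nonzero ones), the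
`δ j`, and the `monN t α / δ j ^ 2` for `∑ α = N`.  The first ones have norm one (`cst.unit`), so all of `C0` is in
`HO c'` (an intermediate field generated by elements of `HO` whose nonzero elements have norm one, `inv_mem_HO`).
`TU.exists_model`: a model `(x', G)` of `c'` whose ring `B := Bu c' x' G` contains the generators (hence `C0`), the
`t i`, `w' j`, `δ j`, and `monN t α / δ j ^ 2` (norm `< 1`).  So `P := Pt C0 t ≤ B`, `Cp P ≤ Cp B`.
The maximal ideal of `P` (and of `Cp P`, `Cp_max`) is generated by the `t i`.  By `Nl.mP_gen` for `Cp P`,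
`F j - F' j` has coefficients in `∑ monN t α * Cp P ⊆ δ j ^ 2 * m_{Cp B}`.  So `F j (w' j) = δ j ^ 2 * ε`,
`(F j)'(w' j) = δ j * u`, `ε, u ∈ Cp B`, `‖ε‖ < 1`, `‖u‖ = 1`.  `cp_hensel`: a root `z = w' j + δ j * η` of `F j`
in `Cp B`, `‖η‖ < 1`.  `root_unique` (with `a := w j`, `dat.der`, `dat.ww'`): `z = w j`.
So all `w j ∈ Cp B`, and `A ≤ Cp A = Cp (locV (closure (C0 ∪ w))) ≤ Cp B` by `cp_field` (for `D := Cp A`, whose
maximal ideal is generated by the `w j`: `Cp_max` and `dat.gen`) and `Cp_mono`.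
-/

namespace Pool.Agent.Lib.TQ

open Pool.Agent.Lib.MP_3029eb_ag Pool.Agent.Lib.MP_3029eb_ag.Abh Pool.Agent.Lib.TDO
  Pool.Agent.Lib.TU

variable {k W : Type} [Field k] [NormedField W] [Algebra k W]

private theorem dh_smul {D : Subring W} (d : D) (z : W) : d • z = (d : W) * z := rfl

private theorem dh_field_mem (C : IntermediateField k W) (hC : ∀ e ∈ C, e ≠ 0 → ‖e‖ = 1)
    (B : Subring W) (hinv : ∀ z ∈ B, ‖z‖ = 1 → z⁻¹ ∈ B) (hk : ∀ c : k, algebraMap k W c ∈ B)
    (gs : Set W) (hgs : IntermediateField.adjoin k gs = C) (hB : ∀ g ∈ gs, g ∈ B) {z : W}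
    (hz : z ∈ C) : z ∈ B := by
  subst hgs
  refine IntermediateField.adjoin_induction k (p := fun z _ => z ∈ B) (fun x hx => hB x hx)
    hk (fun x y _ _ h1 h2 => B.add_mem h1 h2) (fun x hx h1 => ?_)
    (fun x y _ _ h1 h2 => B.mul_mem h1 h2) hz
  by_cases h0 : x = 0
  · rw [h0, inv_zero]; exact B.zero_mem
  · exact hinv x h1 (hC x hx h0)

private theorem dh_noeth (C0 : IntermediateField k W) {q : ℕ} (w : Fin q → W) :
    IsNoetherianRing (Subring.closure ((C0 : Set W) ∪ Set.range w)) := by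
  classical
  have h0 : IsNoetherianRing C0.toSubring := by
    have h1 : IsNoetherianRing C0 := inferInstance
    exact h1
  have h2 := isNoetherianRing_closure (A := C0.toSubring) (Finset.univ.image w)
  rw [Finset.coe_image, Finset.coe_univ, Set.image_univ] at h2
  exact h2

variable [IsUltrametricDist W]

private theorem dh_sub_le (a b : W) : ‖a - b‖ ≤ max ‖a‖ ‖b‖ := by
  have h := IsUltrametricDist.norm_add_le_max a (-b)
  rwa [norm_neg, ← sub_eq_add_neg] at h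

private theorem dh_eval_norm (F : Polynomial W) (hF : ∀ j, ‖F.coeff j‖ ≤ 1) {a : W}
    (ha : ‖a‖ ≤ 1) : ‖F.eval a‖ ≤ 1 := by
  rw [Polynomial.eval_eq_sum_range]
  refine IsUltrametricDist.norm_sum_le_of_forall_le_of_nonneg zero_le_one fun i _ => ?_
  rw [norm_mul, norm_pow]
  exact mul_le_one₀ (hF i) (pow_nonneg (norm_nonneg _) _) (pow_le_one₀ (norm_nonneg _) ha)

private theorem dh_nat_norm (n : ℕ) : ‖(n : W)‖ ≤ 1 := by
  induction n with
  | zero => rw [Nat.cast_zero, norm_zero]; exact zero_le_one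
  | succ n ih =>
    rw [Nat.cast_succ]
    exact (IsUltrametricDist.norm_add_le_max _ _).trans (max_le ih norm_one.le)

/-- norms of elements of a span -/
private theorem dh_span_norm {D : Subring W} (hD : ∀ z ∈ D, ‖z‖ ≤ 1) {T : Set W}
    (hT : ∀ z ∈ T, ‖z‖ < 1) {z : W} (hz : z ∈ Submodule.span D T) : ‖z‖ < 1 := by
  induction hz using Submodule.span_induction with
  | mem x hx => exact hT x hx
  | zero => rw [norm_zero]; exact one_pos
  | add x y _ _ hx hy =>
    exact (IsUltrametricDist.norm_add_le_max x y).trans_lt (max_lt hx hy)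
  | smul a x _ hx =>
    rw [dh_smul, norm_mul]
    calc ‖(a : W)‖ * ‖x‖ ≤ 1 * ‖x‖ := mul_le_mul_of_nonneg_right (hD a a.2) (norm_nonneg _)
      _ < 1 := by rw [one_mul]; exact hx

omit [IsUltrametricDist W] in
private theorem dh_span_le {D D' : Subring W} (h : D ≤ D') {T : Set W} {z : W}
    (hz : z ∈ Submodule.span D T) : z ∈ Submodule.span D' T := by
  induction hz using Submodule.span_induction with
  | mem x hx => exact Submodule.subset_span hx
  | zero => exact zero_mem _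
  | add x y _ _ hx hy => exact add_mem hx hy
  | smul a x _ hx =>
    have := Submodule.smul_mem _ (⟨(a : W), h a.2⟩ : D') hx
    exact this

/-- the maximal ideal of `Pt C0 t` is generated by the `t i` -/
private theorem dh_Pt_max {C0 : IntermediateField k W} (hC : ∀ e ∈ C0, e ≠ 0 → ‖e‖ = 1) {n : ℕ}
    (t : Fin n → W) (ht : ∀ i, ‖t i‖ < 1) (h1 : ∀ z ∈ Pt C0 t, ‖z‖ ≤ 1)
    (hinv : ∀ z ∈ Pt C0 t, ‖z‖ = 1 → z⁻¹ ∈ Pt C0 t) {z : W} (hz : z ∈ Pt C0 t) (hz1 : ‖z‖ < 1) :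
    z ∈ Submodule.span (Pt C0 t) (Set.range t) := by
  have hcl : ∀ a ∈ Subring.closure ((C0 : Set W) ∪ Set.range t), a ∈ Pt C0 t := fun a ha =>
    le_locV (ball W) _ ha
  have hC0 : ∀ e ∈ C0, e ∈ Pt C0 t := fun e he => hcl e (Subring.subset_closure (Or.inl he))
  have hT : ∀ x ∈ Set.range t, ‖x‖ < 1 := by
    rintro _ ⟨i, rfl⟩
    exact ht i
  have key : ∀ a ∈ Subring.closure ((C0 : Set W) ∪ Set.range t),
      ∃ e ∈ C0, a - e ∈ Submodule.span (Pt C0 t) (Set.range t) := by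
    intro a ha
    induction ha using Subring.closure_induction with
    | mem x hx =>
      rcases hx with hx | hx
      · exact ⟨x, hx, by rw [sub_self]; exact zero_mem _⟩
      · exact ⟨0, zero_mem _, by rw [sub_zero]; exact Submodule.subset_span hx⟩
    | zero => exact ⟨0, zero_mem _, by rw [sub_self]; exact zero_mem _⟩
    | one => exact ⟨1, one_mem _, by rw [sub_self]; exact zero_mem _⟩
    | add x y _ _ hx hy =>
      obtain ⟨e, he, h2⟩ := hx
      obtain ⟨e', he', h3⟩ := hy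
      refine ⟨e + e', add_mem he he', ?_⟩
      have : x + y - (e + e') = (x - e) + (y - e') := by ring
      rw [this]
      exact add_mem h2 h3
    | neg x _ hx =>
      obtain ⟨e, he, h2⟩ := hx
      refine ⟨-e, neg_mem he, ?_⟩
      have : -x - -e = -(x - e) := by ring
      rw [this]
      exact neg_mem h2
    | mul x y hx' hy' hx hy =>
      obtain ⟨e, he, h2⟩ := hx
      obtain ⟨e', he', h3⟩ := hy
      refine ⟨e * e', mul_mem he he', ?_⟩
      have : x * y - e * e' = (⟨y, hcl y hy'⟩ : Pt C0 t) • (x - e) +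
          (⟨e, hC0 e he⟩ : Pt C0 t) • (y - e') := by
        rw [dh_smul, dh_smul]; ring
      rw [this]
      exact add_mem (Submodule.smul_mem _ _ h2) (Submodule.smul_mem _ _ h3)
  obtain ⟨a, ha, b, hb, hb1, hab⟩ := hz
  rw [ball_val_eq_one] at hb1
  have hb0 : b ≠ 0 := by
    rintro rfl
    rw [norm_zero] at hb1
    exact zero_ne_one hb1
  have ha1 : ‖a‖ < 1 := by rw [← hab, norm_mul, hb1, mul_one]; exact hz1
  obtain ⟨e, he, h2⟩ := key a ha
  have h3 : ‖a - e‖ < 1 := dh_span_norm h1 hT h2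
  have he0 : e = 0 := by
    by_contra h0
    have h4 := hC e he h0
    have h5 : ‖e‖ ≤ max ‖a‖ ‖a - e‖ := by
      have : e = a - (a - e) := by ring
      calc ‖e‖ = ‖a - (a - e)‖ := by rw [← this]
        _ ≤ _ := dh_sub_le _ _
    rw [h4] at h5
    exact absurd h5 (not_le.2 (max_lt ha1 h3))
  rw [he0, sub_zero] at h2
  have h6 : z = (⟨b⁻¹, hinv b (hcl b hb) hb1⟩ : Pt C0 t) • a := by
    rw [dh_smul, ← hab]
    field_simp
  rw [h6]
  exact Submodule.smul_mem _ _ h2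

/-- `z = δ ^ 2 * μ`, `μ ∈ D`, `‖μ‖ < 1` -/
private def dhJ (D : Subring W) (δ : W) : Set W := {z | ∃ μ ∈ D, ‖μ‖ < 1 ∧ z = δ ^ 2 * μ}

omit [IsUltrametricDist W] in
private theorem dhJ_zero (D : Subring W) (δ : W) : (0 : W) ∈ dhJ D δ :=
  ⟨0, zero_mem _, by rw [norm_zero]; exact one_pos, by rw [mul_zero]⟩

private theorem dhJ_add {D : Subring W} {δ z z' : W} (hz : z ∈ dhJ D δ) (hz' : z' ∈ dhJ D δ) :
    z + z' ∈ dhJ D δ := by
  obtain ⟨μ, h1, h2, rfl⟩ := hz
  obtain ⟨μ', h1', h2', rfl⟩ := hz'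
  exact ⟨μ + μ', add_mem h1 h1',
    (IsUltrametricDist.norm_add_le_max _ _).trans_lt (max_lt h2 h2'), by ring⟩

omit [IsUltrametricDist W] in
private theorem dhJ_mul {D : Subring W} (hD : ∀ z ∈ D, ‖z‖ ≤ 1) {δ z d : W} (hz : z ∈ dhJ D δ)
    (hd : d ∈ D) : z * d ∈ dhJ D δ := by
  obtain ⟨μ, h1, h2, rfl⟩ := hz
  refine ⟨μ * d, mul_mem h1 hd, ?_, by ring⟩
  rw [norm_mul]
  calc ‖μ‖ * ‖d‖ ≤ ‖μ‖ * 1 := mul_le_mul_of_nonneg_left (hD d hd) (norm_nonneg _)
    _ < 1 := by rw [mul_one]; exact h2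

private theorem dhJ_sum {D : Subring W} {δ : W} {ι : Type} (s : Finset ι) (f : ι → W)
    (h : ∀ i ∈ s, f i ∈ dhJ D δ) : ∑ i ∈ s, f i ∈ dhJ D δ := by
  classical
  induction s using Finset.induction_on with
  | empty => rw [Finset.sum_empty]; exact dhJ_zero D δ
  | insert a s ha ih =>
    rw [Finset.sum_insert ha]
    exact dhJ_add (h a (Finset.mem_insert_self a s))
      (ih fun i hi => h i (Finset.mem_insert_of_mem hi))

private theorem dhJ_eval {D : Subring W} (hD : ∀ z ∈ D, ‖z‖ ≤ 1) {δ : W} (H : Polynomial W)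
    (hH : ∀ i, H.coeff i ∈ dhJ D δ) {b : W} (hb : b ∈ D) : H.eval b ∈ dhJ D δ := by
  rw [Polynomial.eval_eq_sum_range]
  exact dhJ_sum _ _ fun i _ => dhJ_mul hD (hH i) (pow_mem hb i)

omit [IsUltrametricDist W] in
private theorem dhJ_deriv {D : Subring W} (hD : ∀ z ∈ D, ‖z‖ ≤ 1) {δ : W} (H : Polynomial W)
    (hH : ∀ i, H.coeff i ∈ dhJ D δ) (i : ℕ) : H.derivative.coeff i ∈ dhJ D δ := by
  rw [Polynomial.coeff_derivative]
  refine dhJ_mul hD (hH _) ?_
  have : ((i : W) + 1) = ((i + 1 : ℕ) : W) := by push_cast; rfl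
  rw [this]
  exact natCast_mem D _

private theorem dhJ_span {D D' : Subring W} (hle : D' ≤ D) (hD : ∀ z ∈ D, ‖z‖ ≤ 1) {δ : W}
    {T : Set W} (hT : ∀ z ∈ T, z ∈ dhJ D δ) {z : W} (hz : z ∈ Submodule.span D' T) :
    z ∈ dhJ D δ := by
  induction hz using Submodule.span_induction with
  | mem x hx => exact hT x hx
  | zero => exact dhJ_zero D δ
  | add x y _ _ hx hy => exact dhJ_add hx hy
  | smul a x _ hx =>
    rw [dh_smul, mul_comm]
    exact dhJ_mul hD hx (hle a.2)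

theorem d_in_H {k W : Type} [Field k] [PerfectField k] [NormedField W] [IsUltrametricDist W]
    [Algebra k W] {r m : ℕ} (hr : 0 < r) (hA : AmbG r m k W) (S L : IntermediateField k W)
    (hS : ∀ z : W, IsSeparable S z → z ∈ S) (hL : IsComplete (L : Set W)) {c : Tri k W r}
    (hc : Ch m S L c) (A : Subring W) (C0 : IntermediateField k W) {n q : ℕ} (t : Fin n → W)
    (w w' : Fin q → W) (F F' : Fin q → Polynomial W) (N : ℕ)
    (hD : Dat m S L A C0 t w w' F F' N) :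
    ∃ (c' : Tri k W r) (x' : Fin r → W) (G : Finset W), RfS m S L c c' ∧ Mdl (S ⊓ L) c' x' G ∧
      A ≤ Cp (Bu c' x' G) ∧ (∀ e ∈ C0, e ∈ Bu c' x' G) ∧ (∀ i, t i ∈ Bu c' x' G) ∧
      (∀ j, w' j ∈ Bu c' x' G) ∧ (∀ j, MoH (S ⊓ L) c' ((F' j).derivative.eval (w' j))) ∧
      ∀ j, ∃ η ∈ Cp (Bu c' x' G), ‖η‖ < 1 ∧
        w j = w' j + (F' j).derivative.eval (w' j) * η := by
  classical
  -- notation
  obtain ⟨δ, hδ⟩ : ∃ δ : Fin q → W, ∀ j, δ j = (F' j).derivative.eval (w' j) := ⟨_, fun _ => rfl⟩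
  have hδ0 : ∀ j, δ j ≠ 0 := fun j => by rw [hδ]; exact hD.der0 j
  -- `P ≤ S ⊓ L`
  have hPM : ∀ z ∈ Pt C0 t, z ∈ S ⊓ L := by
    intro z hz
    obtain ⟨a, ha, b, hb, hb1, hab⟩ := hz
    have hcl : Subring.closure ((C0 : Set W) ∪ Set.range t) ≤ (S ⊓ L).toSubring := by
      rw [Subring.closure_le]
      rintro z (hz | ⟨i, rfl⟩)
      · exact hD.CM hz
      · exact (hD.tM i).1
    rw [ball_val_eq_one] at hb1
    have hb0 : b ≠ 0 := by
      rintro rfl
      rw [norm_zero] at hb1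
      exact zero_ne_one hb1
    have h2 : z = a * b⁻¹ := by rw [← hab]; field_simp
    have ha' : a ∈ S ⊓ L := hcl ha
    have hb' : b ∈ S ⊓ L := hcl hb
    rw [h2]
    exact mul_mem ha' (inv_mem hb')
  have hδM : ∀ j, δ j ∈ S ⊓ L := by
    intro j
    rw [hδ, Polynomial.eval_eq_sum_range]
    refine sum_mem fun i _ => mul_mem ?_ (pow_mem (hD.wM' j).1 i)
    rw [Polynomial.coeff_derivative]
    refine mul_mem (hPM _ (hD.FP' j _)) ?_
    have : ((i : W) + 1) = ((i + 1 : ℕ) : W) := by push_cast; rfl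
    rw [this]
    exact natCast_mem _ _
  -- the finite set
  obtain ⟨S0, hS0⟩ := hD.cst.fg
  have htN0 : ∀ α : Fin n → ℕ, monN t α ≠ 0 := by
    intro α
    exact Finset.prod_ne_zero_iff.2 fun i _ => pow_ne_zero _ (hD.tM i).2
  obtain ⟨I, hI⟩ : ∃ I : Finset (Fin n → ℕ), ∀ α, ∑ i, α i = N → α ∈ I :=
    ⟨Fintype.piFinset (fun _ : Fin n => Finset.range (N + 1)), fun α hα => by
      rw [Fintype.mem_piFinset]
      intro i
      rw [Finset.mem_range]
      exact Nat.lt_succ_of_le (hα ▸ Finset.single_le_sum (f := α) (fun j _ => Nat.zero_le _)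
        (Finset.mem_univ i))⟩
  obtain ⟨I', hI'⟩ : ∃ I' : Finset (Fin n → ℕ), ∀ α, α ∈ I' ↔ ∑ i, α i = N :=
    ⟨I.filter (fun α => ∑ i, α i = N), fun α => by
      rw [Finset.mem_filter]
      exact ⟨fun h => h.2, fun h => ⟨hI α h, h⟩⟩⟩
  obtain ⟨Z, hZ⟩ : ∃ Z : Finset W, Z = (S0 ∪ Finset.univ.image t) ∪ (Finset.univ.image w' ∪
      (Finset.univ.image δ ∪ (Finset.univ ×ˢ I').image (fun p : Fin q × (Fin n → ℕ) =>
        monN t p.2 / δ p.1 ^ 2))) := ⟨_, rfl⟩
  have hS0C : ∀ z ∈ S0, z ∈ C0 := by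
    intro z hz
    rw [← hS0]
    exact IntermediateField.subset_adjoin k _ (Finset.mem_coe.2 hz)
  have hZM : ∀ z ∈ Z, z ∈ S ⊓ L := by
    intro z hz
    rw [hZ] at hz
    simp only [Finset.mem_union, Finset.mem_image, Finset.mem_univ, true_and,
      Finset.mem_product] at hz
    rcases hz with (hz | ⟨i, rfl⟩) | (⟨j, rfl⟩ | (⟨j, rfl⟩ | ⟨⟨j, α⟩, hp, rfl⟩))
    · exact hD.CM (hS0C z hz)
    · exact (hD.tM i).1
    · exact (hD.wM' j).1
    · exact hδM j
    · refine div_mem ?_ (pow_mem (hδM j) 2)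
      exact prod_mem fun i _ => pow_mem (hD.tM i).1 _
  obtain ⟨c', hcc', hmo⟩ := m_all hr hA S L hS hL hc (Z.filter (fun z => z ≠ 0)) (by
    intro z hz
    rw [Finset.mem_filter] at hz
    exact ⟨hZM z hz.1, hz.2⟩)
  have hc' : Ch m S L c' := RfS.ch hc hcc'
  have hok := hc'.ok
  -- norms
  have hZ1 : ∀ z ∈ Z, z ∈ HO (S ⊓ L) c' ↔ ‖z‖ ≤ 1 := by
    intro z hz
    refine ⟨fun h => HO_norm_le hok h, fun h => ?_⟩
    by_cases h0 : z = 0
    · rw [h0]; exact zero_mem _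
    · exact MoH.mem_HO hok (hmo z (Finset.mem_filter.2 ⟨hz, h0⟩)) h
  have hNP : ∀ z ∈ Pt C0 t, ‖z‖ ≤ 1 := by
    intro z hz
    obtain ⟨a, ha, b, hb, hb1, hab⟩ := hz
    have hcl : Subring.closure ((C0 : Set W) ∪ Set.range t) ≤ (ball W).toSubring := by
      rw [Subring.closure_le]
      rintro z (hz | ⟨i, rfl⟩)
      · show ‖z‖ ≤ 1
        by_cases h0 : z = 0
        · rw [h0, norm_zero]; exact zero_le_one
        · exact (hD.cst.unit z hz h0).le
      · exact (hD.tD i).2.le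
    rw [ball_val_eq_one] at hb1
    have ha' : ‖a‖ ≤ 1 := hcl ha
    rwa [← hab, norm_mul, hb1, mul_one] at ha'
  have hδ1 : ∀ j, ‖δ j‖ ≤ 1 := by
    intro j
    rw [hδ]
    refine dh_eval_norm _ (fun i => ?_) (hD.wM' j).2
    rw [Polynomial.coeff_derivative, norm_mul]
    have : ((i : W) + 1) = ((i + 1 : ℕ) : W) := by push_cast; rfl
    rw [this]
    exact mul_le_one₀ (hNP _ (hD.FP' j _)) (norm_nonneg _) (dh_nat_norm _)
  have hquot : ∀ j, ∀ α ∈ I', ‖monN t α / δ j ^ 2‖ < 1 := by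
    intro j α hα
    rw [norm_div, norm_pow]
    have h1 := hD.tN j α ((hI' α).1 hα)
    rw [← hδ] at h1
    rw [div_lt_one (pow_pos (norm_pos_iff.2 (hδ0 j)) 2)]
    exact h1
  have hZn : ∀ z ∈ Z, ‖z‖ ≤ 1 := by
    intro z hz
    rw [hZ] at hz
    simp only [Finset.mem_union, Finset.mem_image, Finset.mem_univ, true_and,
      Finset.mem_product] at hz
    rcases hz with (hz | ⟨i, rfl⟩) | (⟨j, rfl⟩ | (⟨j, rfl⟩ | ⟨⟨j, α⟩, hp, rfl⟩))
    · by_cases h0 : z = 0
      · rw [h0, norm_zero]; exact zero_le_one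
      · exact (hD.cst.unit z (hS0C z hz) h0).le
    · exact (hD.tD i).2.le
    · exact (hD.wM' j).2
    · exact hδ1 j
    · exact (hquot j α hp).le
  obtain ⟨x', G, hM, hZB, _⟩ := exists_model hok Z (fun z hz => (hZ1 z hz).2 (hZn z hz)) ∅
    (fun a ha => absurd ha (Finset.notMem_empty a))
  -- the ring `B`
  have hB : Nl L.toSubfield (Bu c' x' G) := Bu_Nl hr hL inf_le_right hok hM
  have hkB : ∀ e : k, algebraMap k W e ∈ Bu c' x' G := fun e =>
    C_mem_Bu hok hM.mt.ind (fun g hg => (hM.gM g hg).2) (c'.C.algebraMap_mem e)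
  have hC0B : ∀ e ∈ C0, e ∈ Bu c' x' G := fun e he =>
    dh_field_mem C0 hD.cst.unit (Bu c' x' G) (fun z hz h1 => hB.inv z hz h1) hkB (S0 : Set W) hS0
      (fun g hg => hZB g (by
        rw [hZ]
        exact Finset.mem_union_left _ (Finset.mem_union_left _ (Finset.mem_coe.1 hg)))) he
  have htB : ∀ i, t i ∈ Bu c' x' G := fun i => hZB _ (by
    rw [hZ]
    exact Finset.mem_union_left _ (Finset.mem_union_right _
      (Finset.mem_image_of_mem t (Finset.mem_univ i))))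
  have hwB : ∀ j, w' j ∈ Bu c' x' G := fun j => hZB _ (by
    rw [hZ]
    exact Finset.mem_union_right _ (Finset.mem_union_left _
      (Finset.mem_image_of_mem w' (Finset.mem_univ j))))
  have hδZ : ∀ j, δ j ∈ Z := fun j => by
    rw [hZ]
    exact Finset.mem_union_right _ (Finset.mem_union_right _ (Finset.mem_union_left _
      (Finset.mem_image_of_mem δ (Finset.mem_univ j))))
  have hδB : ∀ j, δ j ∈ Bu c' x' G := fun j => hZB _ (hδZ j)
  have hqB : ∀ j, ∀ α ∈ I', monN t α / δ j ^ 2 ∈ Bu c' x' G := fun j α hα => hZB _ (by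
    rw [hZ]
    refine Finset.mem_union_right _ (Finset.mem_union_right _ (Finset.mem_union_right _ ?_))
    rw [Finset.mem_image]
    exact ⟨(j, α), Finset.mem_product.2 ⟨Finset.mem_univ _, hα⟩, rfl⟩)
  have hPB : Pt C0 t ≤ Bu c' x' G := by
    have h1 : Subring.closure ((C0 : Set W) ∪ Set.range t) ≤ Bu c' x' G := by
      rw [Subring.closure_le]
      rintro z (hz | ⟨i, rfl⟩)
      · exact hC0B z hz
      · exact htB i
    have h2 := locV_mono (ball W) h1
    rw [hB.locV_eq] at h2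
    exact h2
  have hP : Nl L.toSubfield (Pt C0 t) :=
    { comp := hB.comp
      nt := hB.nt
      le := fun z hz => hB.le z (hPB hz)
      one := hNP
      inv := fun z hz h1 => E5_inv (locV_locV (ball W) _) hz ((ball_val_eq_one z).2 h1)
      noeth := by
        have := dh_noeth C0 t
        exact isNoetherianRing_locV (ball W) }
  have hPC : Cp (Pt C0 t) ≤ Cp (Bu c' x' G) := Cp_mono hP hB (hPB.trans le_Cp)
  have hBc := hB.cp
  -- the maximal ideal of `Cp P`
  have hPmax : ∀ z ∈ Cp (Pt C0 t), ‖z‖ < 1 →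
      z ∈ Submodule.span (Cp (Pt C0 t)) (Set.range t) := by
    intro z hz h1
    have h2 := Cp_max hP hz h1
    refine Submodule.span_le.2 ?_ h2
    rintro b ⟨hb, hb1⟩
    exact dh_span_le le_Cp (dh_Pt_max hD.cst.unit t (fun i => (hD.tD i).2) hNP hP.inv hb hb1)
  -- coefficients
  have hco : ∀ j i, (F j - F' j).coeff i ∈ dhJ (Cp (Bu c' x' G)) (δ j) := by
    intro j i
    rw [Polynomial.coeff_sub]
    have h1 := hP.cp.mP_gen t (fun i => ⟨le_Cp (le_locV (ball W) _
      (Subring.subset_closure (Or.inr ⟨i, rfl⟩))), (hD.tD i).2⟩) hPmax (hD.close j i)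
    refine dhJ_span hPC hBc.one ?_ h1
    rintro v ⟨α, hα, rfl⟩
    have hα' := (hI' α).2 hα
    refine ⟨monN t α / δ j ^ 2, le_Cp (hqB j α hα'), hquot j α hα', ?_⟩
    rw [mul_div_cancel₀]
    exact pow_ne_zero _ (hδ0 j)
  -- the roots
  have hroot : ∀ j, ∃ η ∈ Cp (Bu c' x' G), ‖η‖ < 1 ∧ w j = w' j + δ j * η := by
    intro j
    obtain ⟨ε, hε, hε1, he⟩ := dhJ_eval hBc.one (F j - F' j) (hco j) (le_Cp (hwB j))
    obtain ⟨ε', hε', hε1', he'⟩ := dhJ_eval hBc.one (F j - F' j).derivative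
      (dhJ_deriv hBc.one _ (hco j)) (le_Cp (hwB j))
    rw [Polynomial.eval_sub, hD.root' j, sub_zero] at he
    rw [Polynomial.derivative_sub, Polynomial.eval_sub, ← hδ] at he'
    have hu : (F j).derivative.eval (w' j) = δ j * (1 + δ j * ε') := by
      linear_combination he'
    have hsm : ‖δ j * ε'‖ < 1 := by
      rw [norm_mul]
      calc ‖δ j‖ * ‖ε'‖ ≤ 1 * ‖ε'‖ := mul_le_mul_of_nonneg_right (hδ1 j) (norm_nonneg _)
        _ < 1 := by rw [one_mul]; exact hε1'
    have hu1 : ‖1 + δ j * ε'‖ = 1 := by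
      have h1 : ‖(1 : W)‖ ≠ ‖δ j * ε'‖ := by rw [norm_one]; exact (ne_of_lt hsm).symm
      rw [IsUltrametricDist.norm_add_eq_max_of_norm_ne_norm h1, norm_one]
      exact max_eq_left hsm.le
    have hFc : ∀ i, (F j).coeff i ∈ Cp (Bu c' x' G) := fun i => hPC (hD.FP j i)
    obtain ⟨z, hz, hz0, η, hη, hη1, hzη⟩ := cp_hensel hB (F j) hFc (b := w' j) (δ := δ j)
      (u := 1 + δ j * ε') (ε := ε) (le_Cp (hwB j)) (le_Cp (hδB j)) (hδ0 j)
      (add_mem (one_mem _) (mul_mem (le_Cp (hδB j)) hε')) hu1 hu hε hε1 he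
    refine ⟨η, hη, hη1, ?_⟩
    rw [← hzη]
    refine root_unique (F j) (fun i => hBc.one _ (hFc i)) (hD.wA j).2.le (hBc.one z hz)
      (hD.root j) hz0 ?_
    rw [hD.der j, ← hδ]
    have h1 : w j - z = (w j - w' j) - δ j * η := by rw [hzη]; ring
    rw [h1]
    refine (dh_sub_le _ _).trans_lt (max_lt ?_ ?_)
    · rw [hδ]; exact hD.ww' j
    · rw [norm_mul]
      calc ‖δ j‖ * ‖η‖ < ‖δ j‖ * 1 :=
            mul_lt_mul_of_pos_left hη1 (norm_pos_iff.2 (hδ0 j))
        _ = ‖δ j‖ := mul_one _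
  have hwC : ∀ j, w j ∈ Cp (Bu c' x' G) := by
    intro j
    obtain ⟨η, hη, _, h⟩ := hroot j
    rw [h]
    exact add_mem (le_Cp (hwB j)) (mul_mem (le_Cp (hδB j)) hη)
  -- `A ≤ Cp B`
  have hAB : A ≤ Cp (Bu c' x' G) := by
    have h1 := cp_field hD.nl.cp (Cp_idem hD.nl) C0 hD.CD w
      (fun j => ⟨le_Cp (hD.wA j).1, (hD.wA j).2⟩) hD.res (by
        intro z hz hz1
        have h2 := Cp_max hD.nl hz hz1
        refine Submodule.span_le.2 ?_ h2
        rintro b ⟨hb, hb1⟩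
        exact dh_span_le le_Cp (hD.gen b hb hb1))
    have h3 : locV (ball W) (Subring.closure ((C0 : Set W) ∪ Set.range w)) ≤
        Cp (Bu c' x' G) := by
      have h4 : Subring.closure ((C0 : Set W) ∪ Set.range w) ≤ Cp (Bu c' x' G) := by
        rw [Subring.closure_le]
        rintro z (hz | ⟨j, rfl⟩)
        · exact le_Cp (hC0B z hz)
        · exact hwC j
      have h5 := locV_mono (ball W) h4
      rwa [hBc.locV_eq] at h5
    have h6 := Cp_mono h1.1 hB h3
    rw [h1.2] at h6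
    exact le_Cp.trans h6
  refine ⟨c', x', G, hcc', hM, hAB, hC0B, htB, hwB, ?_, ?_⟩
  · intro j
    rw [← hδ]
    exact hmo _ (Finset.mem_filter.2 ⟨hδZ j, hδ0 j⟩)
  · intro j
    obtain ⟨η, hη, h1, h2⟩ := hroot j
    exact ⟨η, hη, h1, by rw [h2, hδ]⟩

end Pool.Agent.Lib.TQ
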