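import Pool.Agent.Lib.TQ.CpB
import Pool.Agent.Lib.TU.HOb
import Pool.Agent.Lib.TU.HOApp
import Pool.Agent.Lib.TU.MdlDim

/-!
# Module HCb: the completed ring `HC M c`, basic properties
`M ≤ L`, `L` complete.  `HC M c` is the directed union of the completions `Cp (Bu c x' G)`, `(x', G)` a model.

PROOFS. `Bu_Nl`: `TU.Bu_noeth`, `norm_le_of_mem_Bu`, `inv_mem_Bu`, `Mdl.mem_M`; `nt`: `c.x 0`.
`mem_HC_iff`: the models are directed (`Mdl.union`), `Cp_mono`.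
`exists_modelC`: every element of `Z` is in a `Cp` of some model; take a common model (`Mdl.union` finitely many
times, and the model given by `TU.exists_model` for `ZO` and `Y`), `Cp_mono`; the union model refines
(`Mt`), monomials `monN x1 β` with all `1 ≤ β i` stay such after `Mt` (`Mt.x_eq`: `x_i = monN x'' β_i`, `β_i ≠ 0`,
and the matrix is invertible, so every column of it is nonzero: every `x''_l` divides some `x_i`).
Simplest: apply `TU.exists_model` AFTER: the elements of the finitely many models `(x_j, G_j)` are in `HO`, put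
`G_j` and the `x_j i` (monomials `mon c.x (B i)` of norm less than one) in `ZO`; then `Bu c x_j G_j ≤ Bu c x' G`
(`Bu_le`) and `Cp_mono`.
`HC_inv`: `(Nl.cp (Bu_Nl ..)).inv`.
`HC_gen`: by `Cp_max` `z` is a combination with coefficients in `Cp (Bu c x' G)` of elements of `Bu c x' G` of norm
less than one, for these use `Mdl.gen` (`= ∑ b_i * x'_i + b_0 * c.y`), and `x'_i = mon c.x a_i` with norm `< 1`;
a finite sum of elements of `QC` is in `QC` (`QC_add`: factor out the monomial of larger norm, the quotient of the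
monomials is a monomial of norm at most one, which is in `HO ≤ HC`).
`HC_appr`: `z ∈ Cp (Bu c x' G)`; `Cp_dens` : `z = b + w`, `w ∈ mP (Cp B) n`, `n` large; `Nl.mP_gen` for
`Cp B` and the generators `x'_i, c.y` of its maximal ideal: `w` is a combination of `monN x' α * c.y ^ j`,
`∑ α + j = n`; if `J ≤ j` it is of the form `c.y ^ J * h2`, otherwise `‖monN x' α‖ ≤ τ ^ (n - J) < ‖mon c.x N‖` and
`monN x' α / mon c.x N` is a monomial of norm less than one, so in `HO`.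
-/

namespace Pool.Agent.Lib.TQ

open Pool.Agent.Lib.MP_3029eb_ag Pool.Agent.Lib.MP_3029eb_ag.Abh Pool.Agent.Lib.TDO
  Pool.Agent.Lib.TU

variable {k W : Type} [Field k] [NormedField W] [IsUltrametricDist W] [Algebra k W] {r m : ℕ}
  {M L : IntermediateField k W} {c : Tri k W r}

theorem Bu_Nl (hr : 0 < r) (hL : IsComplete (L : Set W)) (hML : M ≤ L) (hok : Ok m M c)
    {x' : Fin r → W} {G : Finset W} (h : Mdl M c x' G) : Nl L.toSubfield (Bu c x' G) := by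
  exact
    { comp := hL
      nt := ⟨c.x ⟨0, hr⟩, hML (hok.xM _), hok.par.ind.ne _, hok.par.ind.lt _⟩
      le := fun z hz => hML (Mdl.mem_M hok h hz)
      one := fun z hz => norm_le_of_mem_Bu hok h.mt.ind (fun g hg => (h.gM g hg).2) hz
      inv := fun z hz h1 => inv_mem_Bu hz h1
      noeth := (Bu_noeth hok h).1 }

private theorem hcb_pair (hr : 0 < r) (hL : IsComplete (L : Set W)) (hML : M ≤ L) (hok : Ok m M c)
    {z w : W} {x1 x2 : Fin r → W} {G1 G2 : Finset W}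
    (h1 : Mdl M c x1 G1) (hz : z ∈ Cp (Bu c x1 G1)) (h2 : Mdl M c x2 G2)
    (hw : w ∈ Cp (Bu c x2 G2)) :
    ∃ (x' : Fin r → W) (G : Finset W), Mdl M c x' G ∧ z ∈ Cp (Bu c x' G) ∧
      w ∈ Cp (Bu c x' G) := by
  classical
  obtain ⟨x3, -, -, h3, h4, h5⟩ := Mdl.union hok h1 h2
  exact ⟨x3, G1 ∪ G2, h3,
    Cp_mono (Bu_Nl hr hL hML hok h1) (Bu_Nl hr hL hML hok h3) (fun v hv => le_Cp (h4 v hv)) hz,
    Cp_mono (Bu_Nl hr hL hML hok h2) (Bu_Nl hr hL hML hok h3) (fun v hv => le_Cp (h5 v hv)) hw⟩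

theorem mem_HC_iff (hr : 0 < r) (hL : IsComplete (L : Set W)) (hML : M ≤ L) (hok : Ok m M c)
    (z : W) : z ∈ HC M c ↔ ∃ (x' : Fin r → W) (G : Finset W), Mdl M c x' G ∧
      z ∈ Cp (Bu c x' G) := by
  constructor
  · intro hz
    unfold HC at hz
    induction hz using Subring.closure_induction with
    | mem w hw => exact hw
    | zero => exact ⟨c.x, ∅, Mdl.triv hok, zero_mem _⟩
    | one => exact ⟨c.x, ∅, Mdl.triv hok, one_mem _⟩
    | add a b _ _ ha hb =>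
      obtain ⟨x1, G1, h1, hz1⟩ := ha
      obtain ⟨x2, G2, h2, hz2⟩ := hb
      obtain ⟨x', G, h, hz, hw⟩ := hcb_pair hr hL hML hok h1 hz1 h2 hz2
      exact ⟨x', G, h, add_mem hz hw⟩
    | neg a _ ha =>
      obtain ⟨x1, G1, h1, hz1⟩ := ha
      exact ⟨x1, G1, h1, neg_mem hz1⟩
    | mul a b _ _ ha hb =>
      obtain ⟨x1, G1, h1, hz1⟩ := ha
      obtain ⟨x2, G2, h2, hz2⟩ := hb
      obtain ⟨x', G, h, hz, hw⟩ := hcb_pair hr hL hML hok h1 hz1 h2 hz2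
      exact ⟨x', G, h, mul_mem hz hw⟩
  · intro hz
    exact Subring.subset_closure hz

private theorem hcb_common (hr : 0 < r) (hL : IsComplete (L : Set W)) (hML : M ≤ L)
    (hok : Ok m M c) (Z : Finset W) (hZ : ∀ z ∈ Z, z ∈ HC M c) :
    ∃ (x' : Fin r → W) (G : Finset W), Mdl M c x' G ∧ ∀ z ∈ Z, z ∈ Cp (Bu c x' G) := by
  classical
  induction Z using Finset.induction_on with
  | empty => exact ⟨c.x, ∅, Mdl.triv hok, fun z hz => absurd hz (Finset.notMem_empty z)⟩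
  | insert a s ha ih =>
    obtain ⟨x1, G1, h1, h2⟩ := ih fun z hz => hZ z (Finset.mem_insert_of_mem hz)
    obtain ⟨x2, G2, h3, h4⟩ :=
      (mem_HC_iff hr hL hML hok a).1 (hZ a (Finset.mem_insert_self a s))
    obtain ⟨x3, -, -, h5, h6, h7⟩ := Mdl.union hok h1 h3
    refine ⟨x3, G1 ∪ G2, h5, fun z hz => ?_⟩
    rcases Finset.mem_insert.1 hz with rfl | hz
    · exact Cp_mono (Bu_Nl hr hL hML hok h3) (Bu_Nl hr hL hML hok h5)
        (fun v hv => le_Cp (h7 v hv)) h4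
    · exact Cp_mono (Bu_Nl hr hL hML hok h1) (Bu_Nl hr hL hML hok h5)
        (fun v hv => le_Cp (h6 v hv)) (h2 z hz)

theorem exists_modelC (hr : 0 < r) (hL : IsComplete (L : Set W)) (hML : M ≤ L) (hok : Ok m M c)
    (ZO : Finset W) (hZO : ∀ z ∈ ZO, z ∈ HO M c) (Z : Finset W) (hZ : ∀ z ∈ Z, z ∈ HC M c)
    (Y : Finset (Fin r → ℤ)) (hY : ∀ a ∈ Y, ‖mon c.x a‖ ≤ 1) :
    ∃ (x' : Fin r → W) (G : Finset W), Mdl M c x' G ∧ (∀ z ∈ ZO, z ∈ Bu c x' G) ∧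
      (∀ z ∈ Z, z ∈ Cp (Bu c x' G)) ∧
      ∀ a ∈ Y, ∃ β : Fin r → ℕ, mon c.x a = monN x' β ∧ (‖mon c.x a‖ < 1 → ∀ i, 1 ≤ β i) := by
  classical
  obtain ⟨x1, G1, h1, h2⟩ := hcb_common hr hL hML hok Z hZ
  have hG1 : ∀ g ∈ G1, ‖g‖ ≤ 1 := fun g hg => (h1.gM g hg).2
  obtain ⟨x', G, h3, h4, h5⟩ := exists_model hok (ZO ∪ (G1 ∪ Finset.univ.image x1)) (by
    intro z hz
    rcases Finset.mem_union.1 hz with hz | hz
    · exact hZO z hz
    rcases Finset.mem_union.1 hz with hz | hz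
    · exact (mem_HO_iff hok z).2 ⟨x1, G1, h1, G_mem_Bu hok h1.mt.ind hG1 hz⟩
    · obtain ⟨i, -, rfl⟩ := Finset.mem_image.1 hz
      exact (mem_HO_iff hok _).2 ⟨x1, G1, h1, x_mem_Bu hok h1.mt.ind hG1 i⟩) Y hY
  have hG : ∀ g ∈ G, ‖g‖ ≤ 1 := fun g hg => (h3.gM g hg).2
  have h6 : Bu c x1 G1 ≤ Bu c x' G := by
    intro v hv
    refine Bu_le (Bu c x' G) (fun w hw => C_mem_Bu hok h3.mt.ind hG hw) (fun i => ?_)
      (y_mem_Bu hok h3.mt.ind hG) (fun g hg => ?_) (fun w hw hw1 => inv_mem_Bu hw hw1) hv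
    · exact h4 _ (Finset.mem_union_right _ (Finset.mem_union_right _
        (Finset.mem_image_of_mem _ (Finset.mem_univ i))))
    · exact h4 _ (Finset.mem_union_right _ (Finset.mem_union_left _ hg))
  refine ⟨x', G, h3, fun z hz => h4 z (Finset.mem_union_left _ hz), fun z hz => ?_, h5⟩
  exact Cp_mono (Bu_Nl hr hL hML hok h1) (Bu_Nl hr hL hML hok h3) (fun v hv => le_Cp (h6 hv))
    (h2 z hz)

theorem HO_le_HC (hr : 0 < r) (hL : IsComplete (L : Set W)) (hML : M ≤ L) (hok : Ok m M c) {z : W}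
    (hz : z ∈ HO M c) : z ∈ HC M c := by
  obtain ⟨x', G, h1, h2⟩ := (mem_HO_iff hok z).1 hz
  exact (mem_HC_iff hr hL hML hok z).2 ⟨x', G, h1, le_Cp h2⟩

theorem HC_norm_le (hr : 0 < r) (hL : IsComplete (L : Set W)) (hML : M ≤ L) (hok : Ok m M c)
    {z : W} (hz : z ∈ HC M c) : ‖z‖ ≤ 1 := by
  obtain ⟨x', G, h1, h2⟩ := (mem_HC_iff hr hL hML hok z).1 hz
  exact (Bu_Nl hr hL hML hok h1).cp.one z h2

theorem HC_mem_L (hr : 0 < r) (hL : IsComplete (L : Set W)) (hML : M ≤ L) (hok : Ok m M c)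
    {z : W} (hz : z ∈ HC M c) : z ∈ L := by
  obtain ⟨x', G, h1, h2⟩ := (mem_HC_iff hr hL hML hok z).1 hz
  exact (Bu_Nl hr hL hML hok h1).cp.le z h2

theorem inv_mem_HC (hr : 0 < r) (hL : IsComplete (L : Set W)) (hML : M ≤ L) (hok : Ok m M c)
    {z : W} (hz : z ∈ HC M c) (h1 : ‖z‖ = 1) : z⁻¹ ∈ HC M c := by
  obtain ⟨x', G, h2, h3⟩ := (mem_HC_iff hr hL hML hok z).1 hz
  exact (mem_HC_iff hr hL hML hok _).2 ⟨x', G, h2, (Bu_Nl hr hL hML hok h2).cp.inv z h3 h1⟩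

theorem mon_mem_HC (hr : 0 < r) (hL : IsComplete (L : Set W)) (hML : M ≤ L) (hok : Ok m M c)
    {a : Fin r → ℤ} (ha : ‖mon c.x a‖ ≤ 1) : mon c.x a ∈ HC M c := by
  exact HO_le_HC hr hL hML hok (mon_mem_HO hok ha)

theorem QC_mem_HC (hr : 0 < r) (hL : IsComplete (L : Set W)) (hML : M ≤ L) (hok : Ok m M c)
    {z : W} (hz : z ∈ QC M c) : z ∈ HC M c := by
  obtain ⟨a, ha, h, hh, rfl⟩ := hz
  exact mul_mem (mon_mem_HC hr hL hML hok ha.le) hh

theorem QC_zero (hr : 0 < r) (hok : Ok m M c) : (0 : W) ∈ QC M c := by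
  obtain ⟨N, -, hN⟩ := exists_mon_lt hr hok.par.ind 1 one_pos
  exact ⟨N, hN, 0, zero_mem _, by rw [mul_zero]⟩

theorem QC_norm (hr : 0 < r) (hL : IsComplete (L : Set W)) (hML : M ≤ L) (hok : Ok m M c)
    {z : W} (hz : z ∈ QC M c) : ‖z‖ < 1 := by
  obtain ⟨a, ha, h, hh, rfl⟩ := hz
  rw [norm_mul]
  exact lt_of_le_of_lt (mul_le_of_le_one_right (norm_nonneg _) (HC_norm_le hr hL hML hok hh)) ha

private theorem hcb_quot (hr : 0 < r) (hL : IsComplete (L : Set W)) (hML : M ≤ L) (hok : Ok m M c)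
    {a b : Fin r → ℤ} (h : ‖mon c.x b‖ ≤ ‖mon c.x a‖) :
    mon c.x (b - a) ∈ HC M c ∧ mon c.x b = mon c.x a * mon c.x (b - a) := by
  have ha : mon c.x a ≠ 0 := mon_ne c.x hok.par.ind.ne a
  have h1 : mon c.x b = mon c.x a * mon c.x (b - a) := by
    rw [← TDO.mon_add c.x hok.par.ind.ne]
    congr 1
    abel
  refine ⟨mon_mem_HC hr hL hML hok ?_, h1⟩
  rw [h1, norm_mul] at h
  have h2 : 0 < ‖mon c.x a‖ := norm_pos_iff.2 ha
  by_contra hcon
  push Not at hcon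
  have h3 : ‖mon c.x a‖ * 1 < ‖mon c.x a‖ * ‖mon c.x (b - a)‖ := mul_lt_mul_of_pos_left hcon h2
  linarith

theorem QC_add (hr : 0 < r) (hL : IsComplete (L : Set W)) (hML : M ≤ L) (hok : Ok m M c)
    {z z' : W} (hz : z ∈ QC M c) (hz' : z' ∈ QC M c) : z + z' ∈ QC M c := by
  obtain ⟨a, ha, h, hh, rfl⟩ := hz
  obtain ⟨a', ha', h', hh', rfl⟩ := hz'
  rcases le_total ‖mon c.x a'‖ ‖mon c.x a‖ with hle | hle
  · obtain ⟨h1, h2⟩ := hcb_quot hr hL hML hok hle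
    refine ⟨a, ha, h + mon c.x (a' - a) * h', add_mem hh (mul_mem h1 hh'), ?_⟩
    rw [h2]; ring
  · obtain ⟨h1, h2⟩ := hcb_quot hr hL hML hok hle
    refine ⟨a', ha', mon c.x (a - a') * h + h', add_mem (mul_mem h1 hh) hh', ?_⟩
    rw [h2]; ring

theorem QC_neg {z : W} (hz : z ∈ QC M c) : -z ∈ QC M c := by
  obtain ⟨a, ha, h, hh, rfl⟩ := hz
  exact ⟨a, ha, -h, neg_mem hh, by ring⟩

theorem QC_mul {z h : W} (hz : z ∈ QC M c) (hh : h ∈ HC M c) : z * h ∈ QC M c := by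
  obtain ⟨a, ha, h', hh', rfl⟩ := hz
  exact ⟨a, ha, h' * h, mul_mem hh' hh, by ring⟩

theorem QH_mem_QC (hr : 0 < r) (hL : IsComplete (L : Set W)) (hML : M ≤ L) (hok : Ok m M c)
    {z : W} (hz : z ∈ QH M c) : z ∈ QC M c := by
  obtain ⟨a, ha, h, hh, rfl⟩ := hz
  exact ⟨a, ha, h, HO_le_HC hr hL hML hok hh, rfl⟩

private theorem hcb_gen (hr : 0 < r) (hL : IsComplete (L : Set W)) (hML : M ≤ L) (hok : Ok m M c)
    {z : W} (hz : z ∈ HC M c) (h1 : ‖z‖ < 1) :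
    ∃ q ∈ QC M c, ∃ b ∈ HC M c, z = q + b * c.y := by
  obtain ⟨x', G, h2, h3⟩ := (mem_HC_iff hr hL hML hok z).1 hz
  have h4 := Cp_max (Bu_Nl hr hL hML hok h2) h3 h1
  refine Submodule.span_induction
    (p := fun v _ => ∃ q ∈ QC M c, ∃ b ∈ HC M c, v = q + b * c.y) ?_ ?_ ?_ ?_ h4
  · rintro v ⟨hv, hv1⟩
    obtain ⟨q, hq, b, hb, hvb⟩ := HO_gen hr hok ((mem_HO_iff hok v).2 ⟨x', G, h2, hv⟩) hv1
    exact ⟨q, QH_mem_QC hr hL hML hok hq, b, HO_le_HC hr hL hML hok hb, hvb⟩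
  · exact ⟨0, QC_zero hr hok, 0, zero_mem _, by ring⟩
  · rintro v w - - ⟨q, hq, b, hb, rfl⟩ ⟨q', hq', b', hb', rfl⟩
    exact ⟨q + q', QC_add hr hL hML hok hq hq', b + b', add_mem hb hb', by ring⟩
  · rintro a v - ⟨q, hq, b, hb, rfl⟩
    have ha : (a : W) ∈ HC M c := (mem_HC_iff hr hL hML hok _).2 ⟨x', G, h2, a.2⟩
    refine ⟨q * a, QC_mul hq ha, a * b, mul_mem ha hb, ?_⟩
    rw [Subring.smul_def, smul_eq_mul]
    ring

theorem HC_dec (hr : 0 < r) (hL : IsComplete (L : Set W)) (hML : M ≤ L) (hok : Ok m M c)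
    {z : W} (hz : z ∈ HC M c) : ∃ e ∈ c.C, ∃ q ∈ QC M c, ∃ b ∈ HC M c, z = e + q + b * c.y := by
  obtain ⟨x', G, h2, h3⟩ := (mem_HC_iff hr hL hML hok z).1 hz
  have hN := Bu_Nl hr hL hML hok h2
  obtain ⟨b, hb, hb1⟩ := Cp_dens hN h3 1
  obtain ⟨hb2, hb3⟩ := hN.cp.mP_one_iff.1 hb1
  obtain ⟨q, hq, b', hb', hz'⟩ := hcb_gen hr hL hML hok
    ((mem_HC_iff hr hL hML hok _).2 ⟨x', G, h2, hb2⟩) hb3
  obtain ⟨e, he, q1, hq1, b1, hb1, hb4⟩ := HO_dec hr hok ((mem_HO_iff hok b).2 ⟨x', G, h2, hb⟩)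
  refine ⟨e, he, q1 + q, QC_add hr hL hML hok (QH_mem_QC hr hL hML hok hq1) hq, b1 + b',
    add_mem (HO_le_HC hr hL hML hok hb1) hb', ?_⟩
  have h5 : z = b + (z - b) := by ring
  rw [h5, hz', hb4]
  ring

theorem HC_gen (hr : 0 < r) (hL : IsComplete (L : Set W)) (hML : M ≤ L) (hok : Ok m M c)
    {z : W} (hz : z ∈ HC M c) (h1 : ‖z‖ < 1) :
    ∃ q ∈ QC M c, ∃ b ∈ HC M c, z = q + b * c.y := by
  exact hcb_gen hr hL hML hok hz h1

theorem HC_appr (hr : 0 < r) (hL : IsComplete (L : Set W)) (hML : M ≤ L) (hok : Ok m M c)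
    {z : W} (hz : z ∈ HC M c) (N : Fin r → ℤ) (J : ℕ) :
    ∃ h ∈ HO M c, ∃ h1 ∈ HC M c, ∃ h2 ∈ HC M c, z = h + mon c.x N * h1 + c.y ^ J * h2 := by
  classical
  obtain ⟨x', G, hM, hzB⟩ := (mem_HC_iff hr hL hML hok z).1 hz
  have hN := Bu_Nl hr hL hML hok hM
  have hx := hok.par.ind
  have hx' : Indep x' := hM.mt.ind
  have hG : ∀ g ∈ G, ‖g‖ ≤ 1 := fun g hg => (hM.gM g hg).2
  have hCpHC : ∀ t ∈ Cp (Bu c x' G), t ∈ HC M c := fun t ht =>
    (mem_HC_iff hr hL hML hok t).2 ⟨x', G, hM, ht⟩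
  have hyHC : ∀ j : ℕ, c.y ^ j ∈ HC M c := fun j =>
    pow_mem (HO_le_HC hr hL hML hok (y_mem_HO hok)) j
  obtain ⟨ρ, hρ0, hρ1, hρ⟩ : ∃ ρ : ℝ, 0 ≤ ρ ∧ ρ < 1 ∧ ∀ i, ‖x' i‖ ≤ ρ := by
    have : Nonempty (Fin r) := ⟨⟨0, hr⟩⟩
    obtain ⟨i₀, hi₀⟩ := Finite.exists_max (fun i => ‖x' i‖)
    exact ⟨‖x' i₀‖, norm_nonneg _, hx'.lt i₀, hi₀⟩
  obtain ⟨n₁, hn₁⟩ : ∃ n₁ : ℕ, ρ ^ n₁ ≤ ‖mon c.x N‖ := by
    obtain ⟨n, hn⟩ := exists_pow_lt_of_lt_one (norm_pos_iff.2 (mon_ne c.x hx.ne N)) hρ1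
    exact ⟨n, hn.le⟩
  obtain ⟨b, hb, hb1⟩ := Cp_dens hN hzB (n₁ + J)
  have hw : ∀ j, (Fin.cons c.y x' : Fin (r + 1) → W) j ∈ Cp (Bu c x' G) ∧
      ‖(Fin.cons c.y x' : Fin (r + 1) → W) j‖ < 1 := by
    intro j
    refine Fin.cases ?_ (fun i => ?_) j
    · rw [Fin.cons_zero]
      exact ⟨le_Cp (y_mem_Bu hok hx' hG), hok.par.y1⟩
    · rw [Fin.cons_succ]
      exact ⟨le_Cp (x_mem_Bu hok hx' hG i), hx'.lt i⟩
  have hwg : ∀ v ∈ Cp (Bu c x' G), ‖v‖ < 1 →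
      v ∈ Submodule.span (Cp (Bu c x' G)) (Set.range (Fin.cons c.y x' : Fin (r + 1) → W)) := by
    intro v hv hv1
    refine Submodule.span_le.2 ?_ (Cp_max hN hv hv1)
    rintro u ⟨hu, hu1⟩
    obtain ⟨d, d0, hd, hd0, rfl⟩ := Mdl.gen hok hM hu hu1
    refine add_mem (sum_mem fun i _ => ?_) ?_
    · have h1 : x' i ∈ Submodule.span (Cp (Bu c x' G))
          (Set.range (Fin.cons c.y x' : Fin (r + 1) → W)) :=
        Submodule.subset_span ⟨i.succ, by rw [Fin.cons_succ]⟩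
      exact Submodule.smul_mem _ (⟨d i, le_Cp (hd i)⟩ : Cp (Bu c x' G)) h1
    · have h1 : c.y ∈ Submodule.span (Cp (Bu c x' G))
          (Set.range (Fin.cons c.y x' : Fin (r + 1) → W)) :=
        Submodule.subset_span ⟨0, by rw [Fin.cons_zero]⟩
      exact Submodule.smul_mem _ (⟨d0, le_Cp hd0⟩ : Cp (Bu c x' G)) h1
  have h1 := hN.cp.mP_gen (Fin.cons c.y x' : Fin (r + 1) → W) hw hwg hb1
  have h2 : ∃ h1 ∈ HC M c, ∃ h2 ∈ HC M c, z - b = mon c.x N * h1 + c.y ^ J * h2 := by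
    refine Submodule.span_induction
      (p := fun v _ => ∃ h1 ∈ HC M c, ∃ h2 ∈ HC M c, v = mon c.x N * h1 + c.y ^ J * h2)
      ?_ ?_ ?_ ?_ h1
    · rintro v ⟨α, hα, rfl⟩
      have h3 : monN (Fin.cons c.y x' : Fin (r + 1) → W) α =
          c.y ^ α 0 * monN x' (fun i => α i.succ) := by
        unfold monN
        rw [Fin.prod_univ_succ, Fin.cons_zero]
        simp only [Fin.cons_succ]
      rw [Fin.sum_univ_succ] at hα
      obtain ⟨a, ha⟩ := Mt.mon_eq' hx hM.mt fun i => (α i.succ : ℤ)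
      have ha' : monN x' (fun i => α i.succ) = mon c.x a := by
        rw [← ha]
        unfold monN mon
        exact Finset.prod_congr rfl fun i _ => (zpow_natCast _ _).symm
      have hn : ‖mon c.x a‖ ≤ ρ ^ (∑ i : Fin r, α i.succ) := by
        rw [← ha']
        unfold monN
        rw [norm_prod, ← Finset.prod_pow_eq_pow_sum]
        refine Finset.prod_le_prod (fun i _ => norm_nonneg _) fun i _ => ?_
        rw [norm_pow]
        exact pow_le_pow_left₀ (norm_nonneg _) (hρ i) _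
      have hn1 : ‖mon c.x a‖ ≤ 1 := hn.trans (pow_le_one₀ hρ0 hρ1.le)
      rw [h3, ha']
      by_cases hJ : J ≤ α 0
      · refine ⟨0, zero_mem _, c.y ^ (α 0 - J) * mon c.x a,
          mul_mem (hyHC _) (mon_mem_HC hr hL hML hok hn1), ?_⟩
        conv_lhs => rw [← Nat.add_sub_cancel' hJ, pow_add]
        ring
      · have h4 : ‖mon c.x a‖ ≤ ‖mon c.x N‖ := by
          refine hn.trans ((pow_le_pow_of_le_one hρ0 hρ1.le ?_).trans hn₁)
          omega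
        obtain ⟨h5, h6⟩ := hcb_quot hr hL hML hok h4
        refine ⟨mon c.x (a - N) * c.y ^ α 0, mul_mem h5 (hyHC _), 0, zero_mem _, ?_⟩
        rw [h6]
        ring
    · exact ⟨0, zero_mem _, 0, zero_mem _, by ring⟩
    · rintro v w - - ⟨h1, hh1, h2, hh2, rfl⟩ ⟨h1', hh1', h2', hh2', rfl⟩
      exact ⟨h1 + h1', add_mem hh1 hh1', h2 + h2', add_mem hh2 hh2', by ring⟩
    · rintro d v - ⟨h1, hh1, h2, hh2, rfl⟩
      have hd : (d : W) ∈ HC M c := hCpHC _ d.2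
      refine ⟨d * h1, mul_mem hd hh1, d * h2, mul_mem hd hh2, ?_⟩
      rw [Subring.smul_def, smul_eq_mul]
      ring
  obtain ⟨h1, hh1, h2, hh2, h3⟩ := h2
  refine ⟨b, (mem_HO_iff hok b).2 ⟨x', G, hM, hb⟩, h1, hh1, h2, hh2, ?_⟩
  have h5 : z = b + (z - b) := by ring
  rw [h5, h3]
  ring

/-! ### Monomial elements -/

theorem MoC.mul (hok : Ok m M c) {z z' : W} (h : MoC M c z) (h' : MoC M c z') :
    MoC M c (z * z') := by
  obtain ⟨a, u, hu, hu1, rfl⟩ := h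
  obtain ⟨a', u', hu', hu1', rfl⟩ := h'
  refine ⟨a + a', u * u', mul_mem hu hu', by rw [norm_mul, hu1, hu1', one_mul], ?_⟩
  rw [TDO.mon_add c.x hok.par.ind.ne]; ring

theorem MoC.inv (hr : 0 < r) (hL : IsComplete (L : Set W)) (hML : M ≤ L) (hok : Ok m M c) {z : W}
    (h : MoC M c z) : MoC M c z⁻¹ := by
  obtain ⟨a, u, hu, hu1, rfl⟩ := h
  refine ⟨-a, u⁻¹, inv_mem_HC hr hL hML hok hu hu1, by rw [norm_inv, hu1, inv_one], ?_⟩
  rw [TDO.mon_neg, mul_inv]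

private theorem hcb_one : MoC M c (1 : W) :=
  ⟨0, 1, one_mem _, norm_one, by rw [mon_zero, one_mul]⟩

theorem MoC.pow (hok : Ok m M c) {z : W} (h : MoC M c z) (n : ℕ) : MoC M c (z ^ n) := by
  induction n with
  | zero =>
    rw [pow_zero]
    exact hcb_one
  | succ n ih =>
    rw [pow_succ]
    exact MoC.mul hok ih h

theorem MoC.prod (hok : Ok m M c) {ι : Type} (s : Finset ι) (f : ι → W)
    (h : ∀ i ∈ s, MoC M c (f i)) : MoC M c (∏ i ∈ s, f i) := by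
  exact Finset.prod_induction f (fun z => MoC M c z) (fun _ _ ha hb => MoC.mul hok ha hb)
    hcb_one h

theorem MoC.ne (hok : Ok m M c) {z : W} (h : MoC M c z) : z ≠ 0 := by
  obtain ⟨a, u, hu, hu1, rfl⟩ := h
  exact mul_ne_zero (mon_ne c.x hok.par.ind.ne a) (norm_pos_iff.1 (by rw [hu1]; exact one_pos))

theorem MoC.mem_HC (hr : 0 < r) (hL : IsComplete (L : Set W)) (hML : M ≤ L) (hok : Ok m M c)
    {z : W} (h : MoC M c z) (h1 : ‖z‖ ≤ 1) : z ∈ HC M c := by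
  obtain ⟨a, u, hu, hu1, rfl⟩ := h
  rw [norm_mul, hu1, mul_one] at h1
  exact mul_mem (mon_mem_HC hr hL hML hok h1) hu

theorem MoC.mem_QC (hr : 0 < r) (hL : IsComplete (L : Set W)) (hML : M ≤ L) (hok : Ok m M c)
    {z : W} (h : MoC M c z) (h1 : ‖z‖ < 1) : z ∈ QC M c := by
  obtain ⟨a, u, hu, hu1, rfl⟩ := h
  rw [norm_mul, hu1, mul_one] at h1
  exact ⟨a, h1, u, hu, rfl⟩

theorem MoC.of_mon (hok : Ok m M c) (a : Fin r → ℤ) : MoC M c (mon c.x a) := by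
  exact ⟨a, 1, one_mem _, norm_one, by rw [mul_one]⟩

theorem MoC.of_unit {z : W} (hz : z ∈ HC M c) (h1 : ‖z‖ = 1) : MoC M c z := by
  exact ⟨0, z, hz, h1, by rw [mon_zero, one_mul]⟩

theorem MoC.of_MoH (hr : 0 < r) (hL : IsComplete (L : Set W)) (hML : M ≤ L) (hok : Ok m M c)
    {z : W} (h : MoH M c z) : MoC M c z := by
  obtain ⟨a, u, hu, hu1, rfl⟩ := h
  exact ⟨a, u, HO_le_HC hr hL hML hok hu, hu1, rfl⟩

/-- small perturbations of monomial elements -/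
theorem MoC.perturb (hr : 0 < r) (hL : IsComplete (L : Set W)) (hML : M ≤ L) (hok : Ok m M c)
    {z q : W} (h : MoC M c z) (hq : q ∈ QC M c) :
    MoC M c (z * (1 + q)) ∧ MoC M c (z + z * q) := by
  have h0 : MoC M c (1 + q) := by
    refine MoC.of_unit (add_mem (one_mem _) (QC_mem_HC hr hL hML hok hq)) ?_
    have h1 : ‖q‖ < ‖(1 : W)‖ := by
      rw [norm_one]
      exact QC_norm hr hL hML hok hq
    rw [add_comm, IsUltrametricDist.norm_add_eq_max_of_norm_ne_norm h1.ne, max_eq_right h1.le,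
      norm_one]
  have h1 : MoC M c (z * (1 + q)) := MoC.mul hok h h0
  refine ⟨h1, ?_⟩
  rw [mul_add, mul_one] at h1
  exact h1

/-! ### The ring `HLC` -/

theorem HC_le_HLC {z : W} (hz : z ∈ HC M c) : z ∈ HLC M c := by
  exact ⟨0, z, hz, by rw [mon_zero, one_mul]⟩

theorem HL_le_HLC (hr : 0 < r) (hL : IsComplete (L : Set W)) (hML : M ≤ L) (hok : Ok m M c)
    {z : W} (hz : z ∈ HL M c) : z ∈ HLC M c := by
  obtain ⟨a, h, hh, rfl⟩ := (mem_HL_iff hok z).1 hz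
  exact ⟨a, h, HO_le_HC hr hL hML hok hh, rfl⟩

theorem HLC_add (hr : 0 < r) (hL : IsComplete (L : Set W)) (hML : M ≤ L) (hok : Ok m M c)
    {z z' : W} (hz : z ∈ HLC M c) (hz' : z' ∈ HLC M c) : z + z' ∈ HLC M c := by
  obtain ⟨a, h, hh, rfl⟩ := hz
  obtain ⟨a', h', hh', rfl⟩ := hz'
  rcases le_total ‖mon c.x a'‖ ‖mon c.x a‖ with hle | hle
  · obtain ⟨h1, h2⟩ := hcb_quot hr hL hML hok hle
    refine ⟨a, h + mon c.x (a' - a) * h', add_mem hh (mul_mem h1 hh'), ?_⟩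
    rw [h2]; ring
  · obtain ⟨h1, h2⟩ := hcb_quot hr hL hML hok hle
    refine ⟨a', mon c.x (a - a') * h + h', add_mem (mul_mem h1 hh) hh', ?_⟩
    rw [h2]; ring

theorem HLC_mul (hok : Ok m M c) {z z' : W} (hz : z ∈ HLC M c) (hz' : z' ∈ HLC M c) :
    z * z' ∈ HLC M c := by
  obtain ⟨a, h, hh, rfl⟩ := hz
  obtain ⟨a', h', hh', rfl⟩ := hz'
  exact ⟨a + a', h * h', mul_mem hh hh', by rw [TDO.mon_add c.x hok.par.ind.ne]; ring⟩

theorem MoC.mem_HLC (hok : Ok m M c) {z : W} (h : MoC M c z) : z ∈ HLC M c := by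
  obtain ⟨a, u, hu, -, rfl⟩ := h
  exact ⟨a, u, hu, rfl⟩

end Pool.Agent.Lib.TQ
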