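import Pool.Agent.Lib.TQ.HCst
import Pool.Agent.Lib.TU.MAll

/-!
# Module HCmo: nonzero elements of `HC` become monomial
PROOF. One element `z`, then induction on the finite set (`RfS.moC`).  `HC_appr` with `N`, `J` such that
`‖mon c.x N‖ < ‖z‖` and `‖c.y‖ ^ J < ‖z‖` (`N := n • (fun _ => 1)`): `z = h + mon c.x N * h1 + c.y ^ J * h2`,
`h ∈ HO`, `‖h‖ = ‖z‖ ≠ 0`.  `TU.exists_stR` and `TU.m_all`: a refinement `c'` of `c`, containing at least one
stage, in which `h` and `c.y` are monomial (`c.y` nonzero); `h = mon c'.x a * u`, `u` a unit of `HO c'`; the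
elements `mon c.x N / mon c'.x a` and `c.y ^ J / mon c'.x a` are `MoH` of norm less than one (`RfS.x_moH`), so
`z = mon c'.x a * (u + q)` with `q ∈ QC c'` (`RfS.HC_le` for `h1, h2`).
For `HLC`: multiply by a monomial.
-/

namespace Pool.Agent.Lib.TQ

open Pool.Agent.Lib.MP_3029eb_ag Pool.Agent.Lib.MP_3029eb_ag.Abh Pool.Agent.Lib.TDO
  Pool.Agent.Lib.TU

private theorem hcmo_one {k W : Type} [Field k] [PerfectField k] [NormedField W]
    [IsUltrametricDist W] [Algebra k W] {r m : ℕ} (hr : 0 < r) (hA : AmbG r m k W)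
    (S L : IntermediateField k W) (hS : ∀ z : W, IsSeparable S z → z ∈ S)
    (hL : IsComplete (L : Set W)) {c : Tri k W r} (hc : Ch m S L c) {z : W}
    (hz : z ∈ HC (S ⊓ L) c) (h0 : z ≠ 0) :
    ∃ c' : Tri k W r, RfS m S L c c' ∧ MoC (S ⊓ L) c' z := by
  classical
  have hML : S ⊓ L ≤ L := inf_le_right
  have hok := hc.ok
  have hzpos : 0 < ‖z‖ := norm_pos_iff.2 h0
  obtain ⟨N, -, hN⟩ := exists_mon_lt hr hok.par.ind ‖z‖ hzpos
  obtain ⟨J, hJ⟩ := exists_pow_lt_of_lt_one hzpos hok.par.y1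
  obtain ⟨h, hh, h1, hh1, h2, hh2, hzh⟩ := HC_appr hr hL hML hok hz N J
  have hs1 : ‖mon c.x N * h1‖ < ‖z‖ := by
    rw [norm_mul]
    exact (mul_le_of_le_one_right (norm_nonneg _) (HC_norm_le hr hL hML hok hh1)).trans_lt hN
  have hs2 : ‖c.y ^ J * h2‖ < ‖z‖ := by
    rw [norm_mul, norm_pow]
    exact (mul_le_of_le_one_right (pow_nonneg (norm_nonneg _) _)
      (HC_norm_le hr hL hML hok hh2)).trans_lt hJ
  have hs : ‖mon c.x N * h1 + c.y ^ J * h2‖ < ‖z‖ :=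
    (IsUltrametricDist.norm_add_le_max _ _).trans_lt (max_lt hs1 hs2)
  have hnorm : ‖h‖ = ‖z‖ := by
    have h3 : h = z + -(mon c.x N * h1 + c.y ^ J * h2) := by rw [hzh]; ring
    rw [h3]
    have h4 : ‖-(mon c.x N * h1 + c.y ^ J * h2)‖ < ‖z‖ := by rw [norm_neg]; exact hs
    rw [IsUltrametricDist.norm_add_eq_max_of_norm_ne_norm h4.ne', max_eq_left h4.le]
  have hh0 : h ≠ 0 := norm_pos_iff.1 (by rw [hnorm]; exact hzpos)
  obtain ⟨c1, hst⟩ := exists_stR hr hA S L hS hL hc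
  have hc1 : Ch m S L c1 := RfS.ch hc (Relation.ReflTransGen.single hst)
  obtain ⟨c', hrf, hMo⟩ := m_all hr hA S L hS hL hc1 {h} (fun w hw => by
    rw [Finset.mem_singleton.1 hw]
    exact ⟨HO_mem_M hok hh, hh0⟩)
  have hcc : RfS m S L c c' := Relation.ReflTransGen.head hst hrf
  have hok' := (RfS.ch hc hcc).ok
  have hMh : MoC (S ⊓ L) c' h :=
    MoC.of_MoH hr hL hML hok' (hMo h (Finset.mem_singleton_self h))
  have hMN : MoC (S ⊓ L) c' (mon c.x N) :=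
    MoC.of_MoH hr hL hML hok' (RfS.moH hr hc hcc (MoH.of_mon hok N))
  have hMy : MoC (S ⊓ L) c' (c.y ^ J) :=
    MoC.pow hok' (MoC.of_MoH hr hL hML hok' (RfS.y_moH hr hst hrf)) J
  have hMi := MoC.inv hr hL hML hok' hMh
  have hq1 : mon c.x N * h⁻¹ ∈ QC (S ⊓ L) c' := by
    refine (MoC.mul hok' hMN hMi).mem_QC hr hL hML hok' ?_
    rw [norm_mul, norm_inv, hnorm, ← div_eq_mul_inv, div_lt_one hzpos]
    exact hN
  have hq2 : c.y ^ J * h⁻¹ ∈ QC (S ⊓ L) c' := by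
    refine (MoC.mul hok' hMy hMi).mem_QC hr hL hML hok' ?_
    rw [norm_mul, norm_inv, hnorm, ← div_eq_mul_inv, div_lt_one hzpos, norm_pow]
    exact hJ
  have hq : mon c.x N * h⁻¹ * h1 + c.y ^ J * h⁻¹ * h2 ∈ QC (S ⊓ L) c' :=
    QC_add hr hL hML hok' (QC_mul hq1 (RfS.HC_le hr hL hc hcc hh1))
      (QC_mul hq2 (RfS.HC_le hr hL hc hcc hh2))
  refine ⟨c', hcc, ?_⟩
  have h5 : z = h * (1 + (mon c.x N * h⁻¹ * h1 + c.y ^ J * h⁻¹ * h2)) := by
    rw [hzh]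
    field_simp
    ring
  rw [h5]
  exact (MoC.perturb hr hL hML hok' hMh hq).1

theorem hc_mo {k W : Type} [Field k] [PerfectField k] [NormedField W] [IsUltrametricDist W]
    [Algebra k W] {r m : ℕ} (hr : 0 < r) (hA : AmbG r m k W) (S L : IntermediateField k W)
    (hS : ∀ z : W, IsSeparable S z → z ∈ S) (hL : IsComplete (L : Set W)) {c : Tri k W r}
    (hc : Ch m S L c) (Z : Finset W) (hZ : ∀ z ∈ Z, z ∈ HLC (S ⊓ L) c ∧ z ≠ 0) :
    ∃ c' : Tri k W r, RfS m S L c c' ∧ ∀ z ∈ Z, MoC (S ⊓ L) c' z := by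
  classical
  induction Z using Finset.induction_on with
  | empty =>
    exact ⟨c, Relation.ReflTransGen.refl, fun z hz => absurd hz (Finset.notMem_empty z)⟩
  | insert z0 Z hz0 ih =>
    obtain ⟨c1, hrf, hMo⟩ := ih fun z hz => hZ z (Finset.mem_insert_of_mem hz)
    have hc1 := RfS.ch hc hrf
    obtain ⟨hzL, hzne⟩ := hZ z0 (Finset.mem_insert_self _ _)
    obtain ⟨a, h, hh, hzh⟩ := RfS.HLC_le hr hL hc hrf hzL
    have hh0 : h ≠ 0 := by
      rintro rfl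
      exact hzne (by rw [hzh, mul_zero])
    obtain ⟨c2, hrf2, hMo2⟩ := hcmo_one hr hA S L hS hL hc1 hh hh0
    have hok2 := (RfS.ch hc1 hrf2).ok
    refine ⟨c2, hrf.trans hrf2, fun z hz => ?_⟩
    rcases Finset.mem_insert.1 hz with rfl | hz
    · rw [hzh]
      exact MoC.mul hok2 (RfS.moC hr hL hc1 hrf2 (MoC.of_mon hc1.ok a)) hMo2
    · exact RfS.moC hr hL hc1 hrf2 (hMo z hz)

end Pool.Agent.Lib.TQ
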