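import Pool.Agent.Lib.TQ.HCb
import Pool.Agent.Lib.TU.StHO

/-!
# Module HCst: `HC` and refinements of charts
PROOFS. `StR.HC_le`: let `z ∈ Cp (Bu c x' G)`.  All elements of `Bu c x' G` are in `HO c'` (`StR.HO_le`); the field
`c.C` is finitely generated over `k`; a model `(x'', G'')` of `c'` whose ring contains generators of `c.C`, the
`x' i`, `c.y`, `G` (`TU.exists_model`) contains `c.C` (an intermediate field generated by elements of the ring in
which all nonzero elements have norm one: `inv_mem_Bu`, compare `hopar_field_mem` in `TU/HOPar.lean`), so it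
contains `Bu c x' G` (`Bu_le`), `Cp_mono`.
`HC_lt_one`: `HC_gen` for `c`: `z = q + b * c.y` with `q = mon c.x a * h`; `mon c.x a` and `c.y` are `MoH` for `c'`
of norm less than one, so in `QC` for `c'`; `QC_mul`, `QC_add`; then `QC_le` along `RfS`.
`mP_tiny`: the maximal ideal of `Cp (Bu c x' G)` is generated by `x' i` and `c.y`, which are `mon c'.x a_i * u_i`
for `c'` (`MoH`); products of `n` of them have norm at most `τ ^ n`, and are monomials in `c'.x` times elements of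
`HC c'`; if `τ ^ n < ‖mon c'.x N‖` the quotient monomials are in `HC c'`.
-/

namespace Pool.Agent.Lib.TQ

open Pool.Agent.Lib.MP_3029eb_ag Pool.Agent.Lib.MP_3029eb_ag.Abh Pool.Agent.Lib.TDO
  Pool.Agent.Lib.TU

variable {k W : Type} [Field k] [NormedField W] [IsUltrametricDist W] [Algebra k W] {r m : ℕ}
  {S L : IntermediateField k W} {c c' c'' : Tri k W r}

omit [IsUltrametricDist W] in
/-- elements of a trivially normed field generated by elements of a subring closed under inverses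
of elements of norm one -/
private theorem hcst_field_mem (C : IntermediateField k W) (hC : ∀ e ∈ C, e ≠ 0 → ‖e‖ = 1)
    (B : Subring W) (hinv : ∀ z ∈ B, ‖z‖ = 1 → z⁻¹ ∈ B) (hk : ∀ c : k, algebraMap k W c ∈ B)
    (gs : Set W) (hgs : IntermediateField.adjoin k gs = C) (hB : ∀ g ∈ gs, g ∈ B) {z : W}
    (hz : z ∈ C) : z ∈ B := by
  subst hgs
  refine IntermediateField.adjoin_induction k (p := fun z _ => z ∈ B) (fun x hx => hB x hx)
    hk (fun x y _ _ h1 h2 => B.add_mem h1 h2) (fun x hx h1 => ?_)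
    (fun x y _ _ h1 h2 => B.mul_mem h1 h2) hz
  by_cases h0 : x = 0
  · rw [h0, inv_zero]; exact B.zero_mem
  · exact hinv x h1 (hC x hx h0)

private theorem hcst_model {M : IntermediateField k W} (hok : Ok m M c) (hok' : Ok m M c')
    (hle : ∀ z ∈ HO M c, z ∈ HO M c') {x' : Fin r → W} {G : Finset W} (hM : Mdl M c x' G) :
    ∃ (x'' : Fin r → W) (G'' : Finset W), Mdl M c' x'' G'' ∧ Bu c x' G ≤ Bu c' x'' G'' := by
  classical
  obtain ⟨gs, hgs⟩ := hok.cst.fg
  have hB : ∀ z ∈ Bu c x' G, z ∈ HO M c' := fun z hz =>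
    hle z ((mem_HO_iff hok z).2 ⟨x', G, hM, hz⟩)
  have hG : ∀ g ∈ G, ‖g‖ ≤ 1 := fun g hg => (hM.gM g hg).2
  obtain ⟨x'', G'', hM'', h1, -⟩ := exists_model hok' (gs ∪ Finset.univ.image x' ∪ {c.y} ∪ G)
    (by
      intro z hz
      simp only [Finset.mem_union, Finset.mem_image, Finset.mem_univ, true_and,
        Finset.mem_singleton] at hz
      rcases hz with ((h | ⟨i, rfl⟩) | rfl) | h
      · exact hB z (C_mem_Bu hok hM.mt.ind hG (hgs ▸ IntermediateField.subset_adjoin k _ h))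
      · exact hB _ (x_mem_Bu hok hM.mt.ind hG i)
      · exact hB _ (y_mem_Bu hok hM.mt.ind hG)
      · exact hB _ (G_mem_Bu hok hM.mt.ind hG h))
    ∅ (fun a ha => absurd ha (Finset.notMem_empty a))
  refine ⟨x'', G'', hM'', fun z hz => ?_⟩
  have hG'' : ∀ g ∈ G'', ‖g‖ ≤ 1 := fun g hg => (hM''.gM g hg).2
  refine Bu_le (c := c) (x' := x') (G := G) (Bu c' x'' G'') (fun w hw => ?_) (fun i => ?_) ?_
    (fun g hg => ?_) (fun w hw h => inv_mem_Bu hw h) hz
  · exact hcst_field_mem c.C hok.cst.unit _ (fun w hw h => inv_mem_Bu hw h)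
      (fun a => C_mem_Bu hok' hM''.mt.ind hG'' (c'.C.algebraMap_mem a)) gs hgs
      (fun g hg => h1 g (by simp [Finset.mem_coe.1 hg])) hw
  · exact h1 _ (by simp)
  · exact h1 _ (by simp)
  · exact h1 _ (by simp [hg])

private theorem hcst_ch (h : StR m S L c c') : Ch m S L c ∧ Ch m S L c' := by
  obtain ⟨e, B, w, g, T, h⟩ := h
  exact ⟨h.ch, h.ch'⟩

theorem StR.HC_le (hr : 0 < r) (hL : IsComplete (L : Set W)) (h : StR m S L c c') {z : W}
    (hz : z ∈ HC (S ⊓ L) c) : z ∈ HC (S ⊓ L) c' := by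
  have hML : S ⊓ L ≤ L := inf_le_right
  have hok := (hcst_ch h).1.ok
  have hok' := (hcst_ch h).2.ok
  obtain ⟨x', G, hM, hz1⟩ := (mem_HC_iff hr hL hML hok z).1 hz
  obtain ⟨x'', G'', hM'', hle⟩ := hcst_model hok hok' (fun z hz => h.HO_le hr hz) hM
  exact (mem_HC_iff hr hL hML hok' z).2 ⟨x'', G'', hM'',
    Cp_mono (Bu_Nl hr hL hML hok hM) (Bu_Nl hr hL hML hok' hM'') (hle.trans le_Cp) hz1⟩

theorem RfS.HC_le (hr : 0 < r) (hL : IsComplete (L : Set W)) (hc : Ch m S L c)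
    (h : RfS m S L c c') {z : W} (hz : z ∈ HC (S ⊓ L) c) : z ∈ HC (S ⊓ L) c' := by
  induction h with
  | refl => exact hz
  | tail _ h2 ih => exact StR.HC_le hr hL h2 ih

theorem RfS.moC (hr : 0 < r) (hL : IsComplete (L : Set W)) (hc : Ch m S L c)
    (h : RfS m S L c c') {z : W} (hz : MoC (S ⊓ L) c z) : MoC (S ⊓ L) c' z := by
  have hok' := (RfS.ch hc h).ok
  obtain ⟨a, u, hu, hu1, rfl⟩ := hz
  exact MoC.mul hok' (MoC.of_MoH hr hL inf_le_right hok' (RfS.moH hr hc h (MoH.of_mon hc.ok a)))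
    (MoC.of_unit (RfS.HC_le hr hL hc h hu) hu1)

theorem RfS.QC_le (hr : 0 < r) (hL : IsComplete (L : Set W)) (hc : Ch m S L c)
    (h : RfS m S L c c') {z : W} (hz : z ∈ QC (S ⊓ L) c) : z ∈ QC (S ⊓ L) c' := by
  have hok' := (RfS.ch hc h).ok
  obtain ⟨a, ha, u, hu, rfl⟩ := hz
  exact QC_mul ((MoC.of_MoH hr hL inf_le_right hok'
    (RfS.moH hr hc h (MoH.of_mon hc.ok a))).mem_QC hr hL inf_le_right hok' ha)
    (RfS.HC_le hr hL hc h hu)

theorem RfS.HLC_le (hr : 0 < r) (hL : IsComplete (L : Set W)) (hc : Ch m S L c)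
    (h : RfS m S L c c') {z : W} (hz : z ∈ HLC (S ⊓ L) c) : z ∈ HLC (S ⊓ L) c' := by
  have hok' := (RfS.ch hc h).ok
  obtain ⟨a, u, hu, rfl⟩ := hz
  exact HLC_mul hok' ((MoC.of_MoH hr hL inf_le_right hok'
    (RfS.moH hr hc h (MoH.of_mon hc.ok a))).mem_HLC hok') (HC_le_HLC (RfS.HC_le hr hL hc h hu))

private theorem hcst_y (hr : 0 < r) (hL : IsComplete (L : Set W)) (h : StR m S L c c')
    (h' : RfS m S L c' c'') : c.y ∈ QC (S ⊓ L) c'' := by
  have hok'' := (RfS.ch (hcst_ch h).2 h').ok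
  exact (MoC.of_MoH hr hL inf_le_right hok'' (RfS.y_moH hr h h')).mem_QC hr hL inf_le_right hok''
    (hcst_ch h).1.ok.par.y1

theorem HC_lt_one (hr : 0 < r) (hL : IsComplete (L : Set W)) (h : StR m S L c c')
    (h' : RfS m S L c' c'') {z : W} (hz : z ∈ HC (S ⊓ L) c) (h1 : ‖z‖ < 1) :
    z ∈ QC (S ⊓ L) c'' := by
  have hML : S ⊓ L ≤ L := inf_le_right
  have hc := (hcst_ch h).1
  have hcc : RfS m S L c c'' := Relation.ReflTransGen.head h h'
  have hok'' := (RfS.ch hc hcc).ok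
  obtain ⟨q, hq, b, hb, rfl⟩ := HC_gen hr hL hML hc.ok hz h1
  refine QC_add hr hL hML hok'' (RfS.QC_le hr hL hc hcc hq) ?_
  rw [mul_comm]
  exact QC_mul (hcst_y hr hL h h') (RfS.HC_le hr hL hc hcc hb)

private theorem hcst_quot {M : IntermediateField k W} (hr : 0 < r) (hL : IsComplete (L : Set W))
    (hML : M ≤ L) (hok : Ok m M c) {a b : Fin r → ℤ} (hab : ‖mon c.x b‖ ≤ ‖mon c.x a‖) :
    mon c.x (b - a) ∈ HC M c ∧ mon c.x b = mon c.x a * mon c.x (b - a) := by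
  have hne := hok.par.ind.ne
  have h1 : mon c.x b = mon c.x a * mon c.x (b - a) := by
    rw [← TDO.mon_add c.x hne]
    congr 1
    abel
  refine ⟨mon_mem_HC hr hL hML hok ?_, h1⟩
  rw [h1, norm_mul] at hab
  have h2 : 0 < ‖mon c.x a‖ := norm_pos_iff.2 (mon_ne c.x hne a)
  exact le_of_mul_le_mul_left (by rwa [mul_one]) h2

private theorem hcst_common {M : IntermediateField k W} (hr : 0 < r)
    (hL : IsComplete (L : Set W)) (hML : M ≤ L) (hok : Ok m M c) (Q : Finset W)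
    (hQ : ∀ q ∈ Q, q ∈ QC M c) :
    ∃ a : Fin r → ℤ, ‖mon c.x a‖ < 1 ∧ ∀ q ∈ Q, ∃ h ∈ HC M c, q = mon c.x a * h := by
  classical
  induction Q using Finset.induction_on with
  | empty =>
    obtain ⟨a, ha, -⟩ := QC_zero hr hok
    exact ⟨a, ha, fun q hq => absurd hq (Finset.notMem_empty q)⟩
  | insert q0 Q hq0 ih =>
    obtain ⟨a, ha, h1⟩ := ih fun q hq => hQ q (Finset.mem_insert_of_mem hq)
    obtain ⟨b, hb, h, hh, hq⟩ := hQ q0 (Finset.mem_insert_self _ _)
    rcases le_total ‖mon c.x b‖ ‖mon c.x a‖ with hle | hle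
    · obtain ⟨h2, h3⟩ := hcst_quot hr hL hML hok hle
      refine ⟨a, ha, fun q hq' => ?_⟩
      rcases Finset.mem_insert.1 hq' with rfl | hq'
      · exact ⟨mon c.x (b - a) * h, mul_mem h2 hh, by rw [hq, h3, mul_assoc]⟩
      · exact h1 q hq'
    · obtain ⟨h2, h3⟩ := hcst_quot hr hL hML hok hle
      refine ⟨b, hb, fun q hq' => ?_⟩
      rcases Finset.mem_insert.1 hq' with rfl | hq'
      · exact ⟨h, hh, hq⟩
      · obtain ⟨h4, hh4, h5⟩ := h1 q hq'
        exact ⟨mon c.x (a - b) * h4, mul_mem h2 hh4, by rw [h5, h3, mul_assoc]⟩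

theorem mP_tiny (hr : 0 < r) (hL : IsComplete (L : Set W)) (h : StR m S L c c')
    (h' : RfS m S L c' c'') {x' : Fin r → W} {G : Finset W} (hM : Mdl (S ⊓ L) c x' G)
    (N : Fin r → ℤ) :
    ∃ n : ℕ, ∀ z ∈ mP (Cp (Bu c x' G)) n, ∃ h ∈ HC (S ⊓ L) c'', z = mon c''.x N * h := by
  classical
  have hML : S ⊓ L ≤ L := inf_le_right
  have hc := (hcst_ch h).1
  have hcc : RfS m S L c c'' := Relation.ReflTransGen.head h h'
  have hok := hc.ok
  have hok'' := (RfS.ch hc hcc).ok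
  have hne := hok''.par.ind.ne
  have hxQ : ∀ i, x' i ∈ QC (S ⊓ L) c'' := by
    intro i
    obtain ⟨a, ha⟩ := Mt.mon_eq' hok.par.ind hM.mt (Pi.single i 1)
    rw [mon_single] at ha
    have h1 : MoH (S ⊓ L) c'' (x' i) := by
      rw [ha]
      exact RfS.moH hr hc hcc (MoH.of_mon hok a)
    exact (MoC.of_MoH hr hL hML hok'' h1).mem_QC hr hL hML hok'' (hM.mt.ind.lt i)
  obtain ⟨a, ha, hQ⟩ := hcst_common hr hL hML hok'' (Finset.univ.image x' ∪ {c.y}) (by
    intro q hq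
    simp only [Finset.mem_union, Finset.mem_image, Finset.mem_univ, true_and,
      Finset.mem_singleton] at hq
    rcases hq with ⟨i, rfl⟩ | rfl
    · exact hxQ i
    · exact hcst_y hr hL h h')
  have hHC : ∀ z ∈ Cp (Bu c x' G), z ∈ HC (S ⊓ L) c'' := fun z hz =>
    RfS.HC_le hr hL hc hcc ((mem_HC_iff hr hL hML hok z).2 ⟨x', G, hM, hz⟩)
  have hNl := Bu_Nl hr hL hML hok hM
  have hspan : ∀ z ∈ Submodule.span (Cp (Bu c x' G)) {b : W | b ∈ Bu c x' G ∧ ‖b‖ < 1},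
      ∃ h ∈ HC (S ⊓ L) c'', z = mon c''.x a * h := by
    intro z hz
    induction hz using Submodule.span_induction with
    | mem z hz =>
      obtain ⟨b, b0, hb, hb0, rfl⟩ := Mdl.gen hok hM hz.1 hz.2
      have h1 : ∀ i, ∃ h ∈ HC (S ⊓ L) c'', x' i = mon c''.x a * h := fun i => hQ _ (by simp)
      choose t ht1 ht2 using h1
      obtain ⟨t0, ht01, ht02⟩ := hQ c.y (by simp)
      refine ⟨∑ i, b i * t i + b0 * t0, add_mem (sum_mem fun i _ => mul_mem
        (hHC _ (le_Cp (hb i))) (ht1 i)) (mul_mem (hHC _ (le_Cp hb0)) ht01), ?_⟩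
      rw [mul_add, Finset.mul_sum]
      congr 1
      · refine Finset.sum_congr rfl fun i _ => ?_
        conv_lhs => rw [ht2 i]
        ring
      · conv_lhs => rw [ht02]
        ring
    | zero => exact ⟨0, zero_mem _, by rw [mul_zero]⟩
    | add y z _ _ hy hz =>
      obtain ⟨h1, hh1, rfl⟩ := hy
      obtain ⟨h2, hh2, rfl⟩ := hz
      exact ⟨h1 + h2, add_mem hh1 hh2, by rw [mul_add]⟩
    | smul s z _ hz =>
      obtain ⟨h1, hh1, rfl⟩ := hz
      refine ⟨(s : W) * h1, mul_mem (hHC _ s.2) hh1, ?_⟩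
      rw [Subring.smul_def, smul_eq_mul]
      ring
  have hone : ∀ t ∈ mI (Cp (Bu c x' G)), ∃ h ∈ HC (S ⊓ L) c'', (t : W) = mon c''.x a * h := by
    intro t ht
    unfold mI at ht
    induction ht using Submodule.span_induction with
    | mem t ht => exact hspan _ (Cp_max hNl t.2 ht)
    | zero => exact ⟨0, zero_mem _, by rw [mul_zero]; rfl⟩
    | add y z _ _ hy hz =>
      obtain ⟨h1, hh1, hy1⟩ := hy
      obtain ⟨h2, hh2, hz1⟩ := hz
      exact ⟨h1 + h2, add_mem hh1 hh2, by rw [mul_add, ← hy1, ← hz1]; rfl⟩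
    | smul s z _ hz =>
      obtain ⟨h1, hh1, hz1⟩ := hz
      refine ⟨(s : W) * h1, mul_mem (hHC _ s.2) hh1, ?_⟩
      rw [smul_eq_mul, Subring.coe_mul, hz1]
      ring
  have hpow : ∀ (n : ℕ), ∀ t ∈ mI (Cp (Bu c x' G)) ^ n, ∃ h ∈ HC (S ⊓ L) c'',
      (t : W) = mon c''.x a ^ n * h := by
    intro n
    induction n with
    | zero =>
      intro t _
      exact ⟨t, hHC _ t.2, by rw [pow_zero, one_mul]⟩
    | succ n ih =>
      intro t ht
      rw [pow_succ] at ht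
      refine Submodule.mul_induction_on ht (fun s hs u hu => ?_) (fun y z hy hz => ?_)
      · obtain ⟨h1, hh1, hs1⟩ := ih s hs
        obtain ⟨h2, hh2, hu1⟩ := hone u hu
        refine ⟨h1 * h2, mul_mem hh1 hh2, ?_⟩
        rw [Subring.coe_mul, hs1, hu1]
        ring
      · obtain ⟨h1, hh1, hy1⟩ := hy
        obtain ⟨h2, hh2, hz1⟩ := hz
        exact ⟨h1 + h2, add_mem hh1 hh2, by rw [mul_add, ← hy1, ← hz1]; rfl⟩
  obtain ⟨n, hn⟩ := exists_pow_lt_of_lt_one (norm_pos_iff.2 (mon_ne c''.x hne N)) ha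
  refine ⟨n, fun z hz => ?_⟩
  obtain ⟨t, ht, rfl⟩ := hz
  obtain ⟨h1, hh1, h2⟩ := hpow n t ht
  have h3 : ‖mon c''.x (n • a)‖ ≤ ‖mon c''.x N‖ := by
    rw [mon_nsmul, norm_pow]
    exact hn.le
  obtain ⟨h4, h5⟩ := hcst_quot hr hL hML hok'' h3
  refine ⟨mon c''.x (n • a - N) * h1, mul_mem h4 hh1, ?_⟩
  rw [h2, ← mon_nsmul, h5, mul_assoc]

end Pool.Agent.Lib.TQ
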