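import Mathlib.RingTheory.LocalRing.ResidueField.Basic
import Mathlib.RingTheory.AdicCompletion.Basic
import Mathlib.FieldTheory.Perfect
import Mathlib.Algebra.CharP.Lemmas
import Mathlib.RingTheory.Teichmuller

/-!
# Module KLift: a perfect field of representatives lifts to a complete local ring of characteristic `p`
PROOF. Let `𝔪 := maximalIdeal T`, `s : ResidueField T → T` a section of the residue map, `k` is perfect of characteristic `p` (`CharP k p`
because `σ` is injective and `ResidueField T` has characteristic `p`; for `k` of characteristic `p`, `frobeniusEquiv k p`).  For `b : k` put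
`b n := (frobeniusEquiv k p).symm^[n] b` and `c n := s (σ (b n)) ^ (p ^ n)`.  As `s (σ (b (n + 1))) ^ p - s (σ (b n)) ∈ 𝔪`,
`c (n + 1) - c n = (s (σ (b (n + 1))) ^ p - s (σ (b n))) ^ (p ^ n) ∈ 𝔪 ^ (p ^ n)` (characteristic `p`: `sub_pow_char_pow`).  `τ b := lim c n`
(`IsPrecomplete`, `IsAdicComplete`).  `τ` is additive and multiplicative: any two lifts of the same residue have `p ^ n`-th powers congruent
modulo `𝔪 ^ (p ^ n)`, so `τ (a + b) - τ a - τ b ∈ 𝔪 ^ n` for all `n` (`IsHausdorff`), same for products and `1`.  `n = 0`: the residue of `τ b` is `σ b`.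
(Or use `Mathlib.RingTheory.Teichmuller`, `Perfection`.)
-/

namespace Pool.Agent.Lib.TQ

open IsLocalRing

private theorem teich_add (p : ℕ) [Fact p.Prime] (T : Type) [CommRing T] (I : Ideal T)
    [IsAdicComplete I T] [CharP T p] [CharP (T ⧸ I) p] (x y : Perfection (T ⧸ I) p) :
    Perfection.teichmuller p I (x + y) =
      Perfection.teichmuller p I x + Perfection.teichmuller p I y := by
  refine Perfection.teichmuller_spec fun n => ?_
  refine ⟨(Perfection.coeff _ p n x).out + (Perfection.coeff _ p n y).out, ?_, ?_⟩
  · rw [map_add, Ideal.Quotient.mk_out, Ideal.Quotient.mk_out, map_add]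
  · rw [add_pow_char_pow]
    exact ((Perfection.teichmuller_sModEq (Ideal.Quotient.mk_out _)).symm).add
      ((Perfection.teichmuller_sModEq (Ideal.Quotient.mk_out _)).symm)

theorem exists_lift_k {k : Type} [Field k] [PerfectField k] (p : ℕ) [Fact p.Prime] (T : Type)
    [CommRing T] [IsLocalRing T] [IsAdicComplete (maximalIdeal T) T] [CharP T p]
    (σ : k →+* ResidueField T) : ∃ τ : k →+* T, ∀ b, residue T (τ b) = σ b := by
  have hT : CharP (ResidueField T) p := by
    have h0 : ((p : ℕ) : ResidueField T) = 0 := by
      have h1 : ((p : ℕ) : T) = 0 := CharP.cast_eq_zero T p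
      rw [← map_natCast (residue T), h1, map_zero]
    exact (CharP.charP_iff_prime_eq_zero Fact.out).2 h0
  have hk : CharP k p := (σ.charP_iff σ.injective p).2 hT
  have : CharP (T ⧸ maximalIdeal T) p := hT
  refine ⟨
    { toFun := fun b => Perfection.teichmuller p (maximalIdeal T)
        (Perfection.lift p k (T ⧸ maximalIdeal T) σ b)
      map_one' := by rw [map_one, map_one]
      map_mul' := fun a b => by rw [map_mul, map_mul]
      map_zero' := by
        rw [map_zero]
        exact Perfection.teichmuller_zero
      map_add' := fun a b => by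
        rw [map_add]
        exact teich_add p T (maximalIdeal T) _ _ }, fun b => ?_⟩
  exact Perfection.mk_teichmuller _

end Pool.Agent.Lib.TQ
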