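import Pool.Agent.Lib.TQ.WK
import Pool.Agent.Lib.MP_3029eb_ag.ImpRank
import Pool.Agent.Lib.MP_3029eb_ag.ImpComplIso

/-!
# Module KTr: transport between a normed field and the ambient field
`locV_map`: localization commutes with isometric embeddings (compare `Transp_locV` in `TDO/Transp.lean`; `Subring.closure` and `map`: `RingHom.map_closure`).
`gfr_equiv`: `GFR` is invariant under ring isomorphisms: `e` induces an isomorphism of the adic completions compatible with `algebraMap` (transport of the structure: the universal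
property, or `AdicCompletion` of isomorphic rings; there may be a lemma in `MP_3029eb_ag/ImpComplIso.lean`; if `SameCompletion` is available: two complete noetherian local rings `T, T'` with `SameCompletion ι`, `SameCompletion ι'` for `ι : A → T`, `ι' : A → T'` are isomorphic
over `A`), `Q ↦ Q.comap`, the localizations at corresponding primes are isomorphic, `IsRegularLocalRing` is invariant under isomorphisms.
`dim_eq`: there is `φW : AdicCompletion (maximalIdeal A) A →+* W` with `Dom φW`, `φW a = κW a` (`Imp.exists_lift_subring` with `L := ↥X`, complete by `hN.comp`, `nt`, or `Abh.exists_lift_ball`; `κW a ∈ X` for `a ∈ A`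
is enough).  `ker φ = ker φW`: for `t` choose `a n ∈ A` with `t - a n ∈ 𝔪 ^ n`; the norms of `φ` and `φW` on `𝔪 ^ n` tend to zero (`Nl.exists_tau` for the image, the norms of the images of elements of
`A` under `κ` and `κW` are equal, or finitely many generators), so `‖φ t‖ = lim ‖a n‖ = ‖φW t‖`.  `range_eq_Cp`: `φW.range = Cp (A.map κW)`, and
`AdicCompletion _ A ⧸ ker φW ≃+* φW.range` (`RingHom.quotientKerEquivRange`), `ringKrullDim_eq_of_ringEquiv`.
-/

namespace Pool.Agent.Lib.TQ

open Pool.Agent.Lib.MP_3029eb_ag Pool.Agent.Lib.MP_3029eb_ag.Abh Pool.Agent.Lib.TDO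
  Pool.Agent.Lib.TU IsLocalRing

theorem locV_map {K W : Type} [NormedField K] [IsUltrametricDist K] [NormedField W]
    [IsUltrametricDist W] (κ : K →+* W) (hκ : ∀ z, ‖κ z‖ = ‖z‖) (A : Subring K) (g : Set K) :
    (locV (ball K) (Subring.closure ((A : Set K) ∪ g))).map κ =
      locV (ball W) (Subring.closure (((A.map κ : Subring W) : Set W) ∪ κ '' g)) := by
  have hcl : Subring.closure (((A.map κ : Subring W) : Set W) ∪ κ '' g) =
      (Subring.closure ((A : Set K) ∪ g)).map κ := by
    rw [RingHom.map_closure, Set.image_union, Subring.coe_map]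
  rw [hcl]
  ext z
  constructor
  · rintro ⟨z0, ⟨a, ha, b, hb, hb1, hz⟩, rfl⟩
    refine ⟨κ a, ⟨a, ha, rfl⟩, κ b, ⟨b, hb, rfl⟩, ?_, by rw [← hz, map_mul]⟩
    rw [J7_val_one_iff] at hb1 ⊢
    rw [hκ]
    exact hb1
  · rintro ⟨_, ⟨a, ha, rfl⟩, _, ⟨b, hb, rfl⟩, hb1, hz⟩
    rw [J7_val_one_iff, hκ] at hb1
    have hb0 : b ≠ 0 := by
      rintro rfl
      rw [norm_zero] at hb1
      exact zero_ne_one hb1
    refine ⟨a / b, ⟨a, ha, b, hb, (J7_val_one_iff b).2 hb1, div_mul_cancel₀ _ hb0⟩, ?_⟩
    rw [map_div₀, ← hz, mul_div_assoc, div_self, mul_one]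
    rwa [Ne, map_eq_zero]

theorem gfr_equiv {A B : Type} [CommRing A] [CommRing B] [IsLocalRing A] [IsLocalRing B]
    [IsNoetherianRing A] (e : A ≃+* B) (h : GFR A) : GFR B := by
  have hnB : IsNoetherianRing B := isNoetherianRing_of_ringEquiv A e
  obtain ⟨E, hE⟩ := Imp.exists_completion_equiv e
  intro Q hQ hQ0
  have hP : (Q.comap (E : AdicCompletion (maximalIdeal A) A →+*
      AdicCompletion (maximalIdeal B) B)).IsPrime := Ideal.IsPrime.comap _
  have h1 := h (Q.comap (E : AdicCompletion (maximalIdeal A) A →+*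
      AdicCompletion (maximalIdeal B) B)) (by
    rw [eq_bot_iff]
    intro a ha
    have h2 : e a ∈ Q.comap (algebraMap B (AdicCompletion (maximalIdeal B) B)) := by
      rw [Ideal.mem_comap, ← hE]
      exact ha
    rw [hQ0, Ideal.mem_bot] at h2
    rw [Ideal.mem_bot]
    exact (map_eq_zero_iff e e.injective).1 h2)
  have h3 : Submonoid.map (E : AdicCompletion (maximalIdeal A) A →*
      AdicCompletion (maximalIdeal B) B) (Q.comap (E : AdicCompletion (maximalIdeal A) A →+*
      AdicCompletion (maximalIdeal B) B)).primeCompl = Q.primeCompl := by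
    ext x
    constructor
    · rintro ⟨y, hy, rfl⟩
      exact hy
    · intro hx
      refine ⟨E.symm x, ?_, E.apply_symm_apply x⟩
      change E.symm x ∉ Q.comap _
      rw [Ideal.mem_comap]
      change E (E.symm x) ∉ Q
      rw [E.apply_symm_apply]
      exact hx
  exact IsRegularLocalRing.of_ringEquiv (IsLocalization.ringEquivOfRingEquiv
    (Localization.AtPrime (Q.comap (E : AdicCompletion (maximalIdeal A) A →+*
      AdicCompletion (maximalIdeal B) B))) (Localization.AtPrime Q) E h3)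

private theorem ktr_mem {A : Type} [CommRing A] [IsLocalRing A] [IsNoetherianRing A] (a : A) :
    algebraMap A (AdicCompletion (maximalIdeal A) A) a ∈
      maximalIdeal (AdicCompletion (maximalIdeal A) A) ↔ a ∈ maximalIdeal A := by
  constructor
  · intro h
    have h1 := (sameCompletion_adicCompletion A).comap_pow 1 a (by rw [pow_one]; exact h)
    rwa [pow_one] at h1
  · exact (sameCompletion_adicCompletion A).map_mem a

theorem dim_eq {K : Type} [NormedField K] [IsUltrametricDist K] {W : Type} [NormedField W]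
    [IsUltrametricDist W] {X : Subfield W} (A : Subring K) [IsLocalRing A] [IsNoetherianRing A]
    (κW : K →+* W) (hκW : ∀ z, ‖κW z‖ = ‖z‖) (hN : Nl X (A.map κW)) {L : Type} [NormedField L]
    [IsUltrametricDist L] (κ : K →+* L) (hκ : ∀ z, ‖κ z‖ = ‖z‖)
    (φ : AdicCompletion (maximalIdeal A) A →+* L) (hφ : Dom φ)
    (hφA : ∀ a : A, φ (algebraMap A (AdicCompletion (maximalIdeal A) A) a) = κ (a : K)) :
    ringKrullDim (AdicCompletion (maximalIdeal A) A ⧸ RingHom.ker φ) =
      ringKrullDim (Cp (A.map κW)) := by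
  have iTn : IsNoetherianRing (AdicCompletion (maximalIdeal A) A) := noetherian_adicCompletion A
  have hdom : ∀ a : A, ‖(a : K)‖ ≤ 1 ∧ (a ∈ maximalIdeal A ↔ ‖(a : K)‖ < 1) := by
    intro a
    have h1 := hφ (algebraMap A (AdicCompletion (maximalIdeal A) A) a)
    rw [hφA, hκ, ktr_mem] at h1
    exact h1
  let iN : NontriviallyNormedField X :=
    { (inferInstance : NormedField X) with
      non_trivial := by
        obtain ⟨z, hz, hz0, hz1⟩ := hN.nt
        refine ⟨⟨z⁻¹, X.inv_mem hz⟩, ?_⟩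
        change 1 < ‖z⁻¹‖
        rw [norm_inv]
        exact (one_lt_inv₀ (norm_pos_iff.2 hz0)).2 hz1 }
  have iU : IsUltrametricDist X := ⟨fun x y z => IsUltrametricDist.dist_triangle_max (x : W) y z⟩
  have iC : CompleteSpace X := hN.comp.completeSpace_coe
  obtain ⟨φ0, hφ0, hφ1⟩ := exists_lift_ball A
    (L := X) (RingHom.codRestrict (κW.comp A.subtype) X
      (fun b => hN.le _ ⟨b, b.2, rfl⟩)) (by
      intro b
      have h1 : ‖RingHom.codRestrict (κW.comp A.subtype) X
        (fun b => hN.le _ ⟨b, b.2, rfl⟩) b‖ = ‖(b : K)‖ := hκW b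
      rw [h1]
      exact hdom b)
  have hφW : Dom (X.subtype.comp φ0) := fun t => hφ0 t
  have hφWA : ∀ b : A, (X.subtype.comp φ0) (algebraMap A (AdicCompletion (maximalIdeal A) A) b) =
      κW b := by
    intro b
    have h1 := congrArg (fun g => g b) hφ1
    simp only [RingHom.comp_apply] at h1
    rw [RingHom.comp_apply, h1]
    rfl
  obtain ⟨φW, hφWd, hφWA⟩ : ∃ φW : AdicCompletion (maximalIdeal A) A →+* W, Dom φW ∧
      ∀ b : A, φW (algebraMap A (AdicCompletion (maximalIdeal A) A) b) = κW b :=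
    ⟨_, hφW, hφWA⟩
  obtain ⟨q, hq0, hq1, hq⟩ := S13_pow_norm φ hφ
  obtain ⟨q', hq'0, hq'1, hq'⟩ := S13_pow_norm φW hφWd
  have hnorm : ∀ t, ‖φ t‖ = ‖φW t‖ := by
    intro t
    have h1 : ∀ n : ℕ, |‖φ t‖ - ‖φW t‖| ≤ q ^ n + q' ^ n := by
      intro n
      obtain ⟨a, ha⟩ := Imp.IR_approx _ (sameCompletion_adicCompletion A) t n
      have h2 := hq n _ ha
      have h3 := hq' n _ ha
      rw [map_sub, hφA] at h2
      rw [map_sub, hφWA] at h3
      have h4 := (abs_norm_sub_norm_le (φ t) (κ a)).trans h2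
      have h5 := (abs_norm_sub_norm_le (φW t) (κW a)).trans h3
      rw [hκ] at h4
      rw [hκW] at h5
      calc |‖φ t‖ - ‖φW t‖| = |(‖φ t‖ - ‖(a : K)‖) - (‖φW t‖ - ‖(a : K)‖)| := by
            congr 1; ring
        _ ≤ |‖φ t‖ - ‖(a : K)‖| + |‖φW t‖ - ‖(a : K)‖| := abs_sub _ _
        _ ≤ q ^ n + q' ^ n := add_le_add h4 h5
    have h2 : Filter.Tendsto (fun n : ℕ => q ^ n + q' ^ n) Filter.atTop (nhds (0 + 0)) :=
      (tendsto_pow_atTop_nhds_zero_of_lt_one hq0 hq1).add
        (tendsto_pow_atTop_nhds_zero_of_lt_one hq'0 hq'1)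
    rw [add_zero] at h2
    have h3 : |‖φ t‖ - ‖φW t‖| ≤ 0 := ge_of_tendsto' h2 h1
    exact sub_eq_zero.1 (abs_nonpos_iff.1 h3)
  have hker : RingHom.ker φ = RingHom.ker φW := by
    ext t
    rw [RingHom.mem_ker, RingHom.mem_ker, ← norm_eq_zero, hnorm, norm_eq_zero]
  have hrange : φW.range = Cp (A.map κW) := range_eq_Cp hN φW hφWd
    (fun c => by rw [hφWA]; exact ⟨c, c.2, rfl⟩)
    (by
      rintro _ ⟨c, hc, rfl⟩
      exact ⟨⟨c, hc⟩, hφWA _⟩)
  rw [hker, ← hrange]
  exact ringKrullDim_eq_of_ringEquiv (RingHom.quotientKerEquivRange φW)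

end Pool.Agent.Lib.TQ
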