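import Pool.Agent.Lib.TQ.StgM
import Pool.Agent.Lib.TQ.StgG
import Pool.Agent.Lib.TQ.CpC
import Pool.Agent.Lib.TQ.CpH
import Pool.Agent.Lib.TQ.HCst

/-!
# Module StgS: one stage, for a local ring `A` with the completion of a model
`A` and the model `(x', G)` of `c` have the same completion `D`; `c → c'` is a stage.  We construct a local blowing up `A'`
of `A` with the same completion as a (large) model `(x'', G'')` of `c'`.

PROOF. Let `e, B, w, g, T` be the data of the stage (`St`).  `D = Cp A = Cp (Bu c x' G) ≤ HC c ≤ HC c'`.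
1. Choose a monomial `N` (exponent for `c'.x`) with `‖mon c'.x N‖ < ‖x' l‖, ‖c.y‖`, `n0 ≥ 2` from `mP_tiny` (for the stage
`c → c'`, `c'' := c'`) and `X l, Y ∈ A` with `x' l - X l, c.y - Y ∈ mP D n0` (`Cp_dens`).  So `X l = x' l * (1 + q l)`, `Y = c.y * (1 + q')`
with `q l, q' ∈ QC c'` (`x' l` and `c.y` are `MoH c'`, the quotients are in `QC`).  The `X l, Y` generate the maximal ideal
of `D` (the `x' l, c.y` do: `Cp_max`, `Mdl.gen`; congruence modulo the square, Nakayama, `Nl.cp`).  `ξ := (X, Y)`.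
2. Choose the model `(x'', G'')` of `c'` by `exists_modelC`, with `ZO` replaced by `ZO ∪ {x' l, G, c.y, w}` ∪ generators of `c.C`
(all in `HO c'`, `St.inH`), `Z` replaced by `Z ∪ {1 + q l, 1 + q', h's}`, and `Y` by `Yx ∪ ` the exponents (for `c'.x`) of the
`MoH`-expressions of `x' l`, `c.y`, `mon`s occurring in the `q`'s; so `Bu c x' G ≤ Bu c' x'' G''` (`Bu_le`) and `D ≤ Cp (Bu c' x'' G'') =: D''`,
and `q l, q' ∈ ∑ x'' i * D''`, all `b l i ≥ 1`, `bY i ≥ 1` below.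
3. `stg_mon` (for `x := c.x, x1 := c'.x`): exponents `a, j, av, jv, b, n, bY, nY`.  `U i := mon X (a i) * Y ^ (j i)`,
`v := mon X av * Y ^ jv`.  So `U i = x'' i * unit`, `v = w * unit`, the units of `D''` being congruent to `1` modulo `(x'')`.
As `x' l = mon x'' (b l) * w ^ (n l)` has norm less than one and is also `mon c'.x _ * w ^ _ = monN x'' β * w ^ _` with
`1 ≤ β i`, `b l = β` (independence), so `X l = mon U (b l) * v ^ (n l) ∈ (∏ U i) A'`, same for `Y`.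
4. `g' ∈ A[T]` monic of the same degree as `g` with coefficients congruent to those of `g` (`c.C ≤ D`, `Cp_dens`).
`y1 := g'(v)`: `y1 - c'.y = ∑ (g'_i - g_i) v ^ i + (g(v) - g(w))`, `g'_i - g_i` is in the maximal ideal of `D`, so in `QC c'`
(`HC_lt_one`), in fact in `∑ x' l D + c.y D ⊆ (x'') D''`; `v - w ∈ (x'') D''`.  So `y1 ≡ c'.y` modulo `(x'') D''`.
5. `stg_gen` for `g'`: `hmin`: `R ∈ A[T]` of degree less than `deg g`, `‖R(v)‖ < 1`: replace the coefficients by congruent elements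
of `c.C` (every element of `D` is congruent to an element of `c.C`, `Mdl.dec_all`) : `R0 ∈ c.C[T]`, `‖R0(w)‖ < 1`; if `R0 ≠ 0`, it is coprime to the irreducible `g`, so
`1 = a(w) R0(w) + b(w) g(w)` is small, contradiction; so `R0 = 0` and the coefficients of `R` are small.
6. `A' := locV (closure (A ∪ {v} ∪ range U)) ≤ D''`.  `cp_eq_of_surj`: `hmax`: the maximal ideal of `D''` is generated by `x'' i, c'.y`
(`Cp_max`, `Mdl.gen`), so by `U i, y1`.  `hres`: elements of `D''` are congruent to elements of `c'.C`, so (`St.lift`) to elements of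
`Rw c.C w`, fractions of polynomials in `w` over `c.C`; `w ≡ v`, elements of `c.C` are congruent to elements of `A`.
7. `g`-set: `{v} ∪ {U i}`; numerators and denominators are products of the `X l, Y ∈ A`, which are `MoC c'`, and, by 3., monomials
in `U` times powers of the unit `v` of `A'` (`MonV`).
-/

namespace Pool.Agent.Lib.TQ

open Pool.Agent.Lib.MP_3029eb_ag Pool.Agent.Lib.MP_3029eb_ag.Abh Pool.Agent.Lib.TDO
  Pool.Agent.Lib.TU


/-! ### units congruent to one -/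

/-- the elements `1 + P * t` -/
private def sgsU {W : Type} [NormedField W] (D : Subring W) (P z : W) : Prop :=
  ∃ t ∈ D, z = 1 + P * t

section
variable {W : Type} [NormedField W] {D : Subring W} {P : W}

private theorem sgsU_one : sgsU D P 1 := ⟨0, zero_mem _, by ring⟩

private theorem sgsU_mul (hP : P ∈ D) {z z' : W} (h : sgsU D P z) (h' : sgsU D P z') :
    sgsU D P (z * z') := by
  obtain ⟨t, ht, rfl⟩ := h
  obtain ⟨t', ht', rfl⟩ := h'
  exact ⟨t + t' + P * t * t', add_mem (add_mem ht ht') (mul_mem (mul_mem hP ht) ht'), by ring⟩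

private theorem sgsU_mem (hP : P ∈ D) {z : W} (h : sgsU D P z) : z ∈ D := by
  obtain ⟨t, ht, rfl⟩ := h
  exact add_mem (one_mem _) (mul_mem hP ht)

variable [IsUltrametricDist W] {X : Subfield W}

private theorem sgsU_norm (hD : Nl X D) (hP1 : ‖P‖ < 1) {z : W} (h : sgsU D P z) : ‖z‖ = 1 := by
  obtain ⟨t, ht, rfl⟩ := h
  have h1 : ‖P * t‖ < ‖(1 : W)‖ := by
    rw [norm_one, norm_mul]
    exact lt_of_le_of_lt (mul_le_of_le_one_right (norm_nonneg _) (hD.one t ht)) hP1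
  rw [IsUltrametricDist.norm_add_eq_max_of_norm_ne_norm h1.ne', max_eq_left h1.le, norm_one]

private theorem sgsU_inv (hD : Nl X D) (hP : P ∈ D) (hP1 : ‖P‖ < 1) {z : W} (h : sgsU D P z) :
    sgsU D P z⁻¹ := by
  have h1 := sgsU_norm hD hP1 h
  have h0 : z ≠ 0 := norm_pos_iff.1 (by rw [h1]; exact one_pos)
  have hinv : z⁻¹ ∈ D := hD.inv z (sgsU_mem hP h) h1
  obtain ⟨t, ht, hz⟩ := h
  refine ⟨-(t * z⁻¹), neg_mem (mul_mem ht hinv), ?_⟩
  have h2 : z * z⁻¹ = 1 := mul_inv_cancel₀ h0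
  have h3 : (1 + P * t) * z⁻¹ = 1 := by rw [← hz]; exact h2
  linear_combination h3

private theorem sgsU_zpow (hD : Nl X D) (hP : P ∈ D) (hP1 : ‖P‖ < 1) {z : W} (h : sgsU D P z)
    (n : ℤ) : sgsU D P (z ^ n) := by
  have h1 : ∀ (n : ℕ) {z : W}, sgsU D P z → sgsU D P (z ^ n) := by
    intro n z hz
    induction n with
    | zero => rw [pow_zero]; exact sgsU_one
    | succ n ih => rw [pow_succ]; exact sgsU_mul hP ih hz
  obtain ⟨n, rfl | rfl⟩ := n.eq_nat_or_neg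
  · rw [zpow_natCast]; exact h1 n h
  · rw [zpow_neg, zpow_natCast]; exact sgsU_inv hD hP hP1 (h1 n h)

private theorem sgsU_mon (hD : Nl X D) (hP : P ∈ D) (hP1 : ‖P‖ < 1) {r : ℕ} {q : Fin r → W}
    (h : ∀ i, sgsU D P (q i)) (a : Fin r → ℤ) : sgsU D P (mon q a) := by
  unfold mon
  exact Finset.prod_induction _ (fun z => sgsU D P z) (fun _ _ => sgsU_mul hP) sgsU_one
    fun i _ => sgsU_zpow hD hP hP1 (h i) _

private theorem sgs_mon_mul {W : Type} [Field W] {r : ℕ} (x y : Fin r → W) (a : Fin r → ℤ) :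
    mon (fun i => x i * y i) a = mon x a * mon y a := by
  unfold mon
  rw [← Finset.prod_mul_distrib]
  exact Finset.prod_congr rfl fun i _ => mul_zpow _ _ _

private theorem sgs_monN {W : Type} [Field W] {r : ℕ} (x : Fin r → W) (β : Fin r → ℕ) :
    monN x β = mon x (fun i => (β i : ℤ)) := by
  unfold monN mon
  exact Finset.prod_congr rfl fun i _ => (zpow_natCast _ _).symm

private theorem sgs_monN_pos {W : Type} [Field W] {r : ℕ} (x : Fin r → W) (β : Fin r → ℕ)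
    (h : ∀ i, 1 ≤ β i) : monN x β = (∏ i, x i) * monN x (fun i => β i - 1) := by
  unfold monN
  rw [← Finset.prod_mul_distrib]
  refine Finset.prod_congr rfl fun i _ => ?_
  rw [← pow_succ', Nat.sub_add_cancel (h i)]

end

/-! ### Nakayama -/

private theorem sgs_nak {W : Type} [NormedField W] [IsUltrametricDist W] {X : Subfield W}
    {D : Subring W} (hD : Nl X D) {n : ℕ} (x x1 : Fin n → W)
    (hx : ∀ z ∈ D, ‖z‖ < 1 → z ∈ Submodule.span D (Set.range x))
    (h : ∀ i, x i - x1 i ∈ mP D 2) :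
    ∀ z ∈ D, ‖z‖ < 1 → z ∈ Submodule.span D (Set.range x1) := by
  have := hD.isLocal
  have h1 : Submodule.span D (Set.range x) ≤ Submodule.span D (Set.range x1) := by
    refine Submodule.le_of_le_smul_of_le_jacobson_bot (I := mI D) ?_ ?_ ?_
    · exact Submodule.fg_span (Set.finite_range x)
    · rw [hD.mI_eq]; exact IsLocalRing.maximalIdeal_le_jacobson _
    · rw [Submodule.span_le]
      rintro _ ⟨i, rfl⟩
      have h2 : x i = x1 i + (x i - x1 i) := by ring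
      rw [SetLike.mem_coe, h2]
      refine add_mem (Submodule.mem_sup_left (Submodule.subset_span ⟨i, rfl⟩))
        (Submodule.mem_sup_right ?_)
      obtain ⟨t, ht, ht'⟩ := h i
      rw [← ht']
      rw [pow_two] at ht
      refine Submodule.mul_induction_on ht ?_ ?_
      · intro a ha b hb
        have h3 : ((a * b : D) : W) = a • (b : W) := rfl
        rw [h3]
        exact Submodule.smul_mem_smul ha (hx b b.2 ((hD.mem_mI b).1 hb))
      · intro a b ha hb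
        have h3 : ((a + b : D) : W) = (a : W) + (b : W) := rfl
        rw [h3]
        exact add_mem ha hb
  exact fun z hz hz1 => h1 (hx z hz hz1)

/-! ### polynomials -/

private theorem sgs_eval {W : Type} [NormedField W] {D : Subring W} (I : Submodule D W)
    (F1 F2 : Polynomial W) (h1 : ∀ j, F1.coeff j ∈ D) (h2 : ∀ j, F2.coeff j ∈ D)
    (h : ∀ j, F1.coeff j - F2.coeff j ∈ I) {a b : W} (ha : a ∈ D) (hb : b ∈ D)
    (hab : a - b ∈ I) : F1.eval a - F2.eval b ∈ I := by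
  have hpow : ∀ i : ℕ, a ^ i - b ^ i ∈ I := by
    intro i
    induction i with
    | zero => rw [pow_zero, pow_zero, sub_self]; exact zero_mem _
    | succ i ih =>
      have h3 : a ^ (i + 1) - b ^ (i + 1) = a * (a ^ i - b ^ i) + b ^ i * (a - b) := by ring
      rw [h3]
      exact add_mem (I.smul_mem (⟨a, ha⟩ : D) ih) (I.smul_mem (⟨b ^ i, pow_mem hb i⟩ : D) hab)
  have e1 : F1.natDegree < max F1.natDegree F2.natDegree + 1 :=
    Nat.lt_succ_of_le (le_max_left _ _)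
  have e2 : F2.natDegree < max F1.natDegree F2.natDegree + 1 :=
    Nat.lt_succ_of_le (le_max_right _ _)
  rw [Polynomial.eval_eq_sum_range' e1, Polynomial.eval_eq_sum_range' e2,
    ← Finset.sum_sub_distrib]
  refine sum_mem fun i _ => ?_
  have h3 : F1.coeff i * a ^ i - F2.coeff i * b ^ i =
      a ^ i * (F1.coeff i - F2.coeff i) + F2.coeff i * (a ^ i - b ^ i) := by ring
  rw [h3]
  exact add_mem (I.smul_mem (⟨a ^ i, pow_mem ha i⟩ : D) (h i))
    (I.smul_mem (⟨F2.coeff i, h2 i⟩ : D) (hpow i))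

/-- the elements of norm less than one -/
private def sgsB {W : Type} [NormedField W] [IsUltrametricDist W] (D : Subring W)
    (hD : ∀ z ∈ D, ‖z‖ ≤ 1) : Submodule D W where
  carrier := {z | ‖z‖ < 1}
  add_mem' := fun {a b} ha hb => lt_of_le_of_lt (IsUltrametricDist.norm_add_le_max a b) (max_lt ha hb)
  zero_mem' := by
    change ‖(0 : W)‖ < 1
    rw [norm_zero]
    exact one_pos
  smul_mem' := fun a z hz => by
    change ‖(a : W) * z‖ < 1
    rw [norm_mul]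
    exact lt_of_le_of_lt (mul_le_of_le_one_left (norm_nonneg _) (hD a a.2)) hz

private theorem sgs_poly {R : Type} [CommRing R] (f : ℕ → R) (n : ℕ) :
    ∃ F : Polynomial R, ∀ j, F.coeff j = if j < n then f j else 0 := by
  refine ⟨∑ i ∈ Finset.range n, Polynomial.monomial i (f i), fun j => ?_⟩
  rw [Polynomial.finsetSum_coeff]
  simp only [Polynomial.coeff_monomial]
  rw [Finset.sum_ite_eq' (Finset.range n) j]
  simp only [Finset.mem_range]

private theorem sgs_monic {R : Type} [CommRing R] [Nontrivial R] (f : ℕ → R) (n : ℕ)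
    (hn : f n = 1) : ∃ F : Polynomial R, F.Monic ∧ F.natDegree = n ∧
      ∀ j, F.coeff j = if j < n + 1 then f j else 0 := by
  obtain ⟨F, hF⟩ := sgs_poly f (n + 1)
  have h1 : F.coeff n = 1 := by rw [hF, if_pos (Nat.lt_succ_self n), hn]
  have h2 : F.natDegree = n := by
    refine Polynomial.natDegree_eq_of_le_of_coeff_ne_zero ?_ (by rw [h1]; exact one_ne_zero)
    rw [Polynomial.natDegree_le_iff_coeff_eq_zero]
    intro N hN
    rw [hF, if_neg (by omega)]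
  exact ⟨F, by rw [Polynomial.Monic, Polynomial.leadingCoeff, h2, h1], h2, hF⟩

private theorem sgs_aeval {k W : Type} [Field k] [NormedField W] [IsUltrametricDist W]
    [Algebra k W] (C : IntermediateField k W) (hC : ∀ e ∈ C, ‖e‖ ≤ 1) {w : W} (hw : ‖w‖ = 1)
    (F : Polynomial C) : ‖Polynomial.aeval w F‖ ≤ 1 := by
  rw [Polynomial.aeval_eq_sum_range]
  refine IsUltrametricDist.norm_sum_le_of_forall_le_of_nonneg zero_le_one fun i _ => ?_
  have h1 : F.coeff i • w ^ i = ((F.coeff i : C) : W) * w ^ i := rfl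
  rw [h1, norm_mul, norm_pow, hw, one_pow, mul_one]
  exact hC _ (F.coeff i).2

private theorem sgs_min {k W : Type} [Field k] [NormedField W] [IsUltrametricDist W]
    [Algebra k W] (C : IntermediateField k W) (hC : ∀ e ∈ C, ‖e‖ ≤ 1) {w : W} (hw : ‖w‖ = 1)
    {g R0 : Polynomial C} (gi : Irreducible g) (hdeg : R0.degree < g.degree)
    (hg : ‖Polynomial.aeval w g‖ < 1) (hR : ‖Polynomial.aeval w R0‖ < 1) : R0 = 0 := by
  by_contra h0
  obtain ⟨a, b, hab⟩ := (gi.coprime_iff_not_dvd).2 (Polynomial.not_dvd_of_degree_lt h0 hdeg)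
  have h1 := congrArg (Polynomial.aeval w) hab
  rw [map_add, map_mul, map_mul, map_one] at h1
  have h2 : ‖(1 : W)‖ < 1 := by
    rw [← h1]
    refine lt_of_le_of_lt (IsUltrametricDist.norm_add_le_max _ _) (max_lt ?_ ?_)
    · rw [norm_mul]
      exact lt_of_le_of_lt (mul_le_of_le_one_left (norm_nonneg _) (sgs_aeval C hC hw a)) hg
    · rw [norm_mul]
      exact lt_of_le_of_lt (mul_le_of_le_one_left (norm_nonneg _) (sgs_aeval C hC hw b)) hR
  rw [norm_one] at h2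
  exact lt_irrefl _ h2

/-! ### residues -/

private theorem sgs_locV_le {W : Type} [NormedField W] [IsUltrametricDist W] {s : Set W}
    (E : Subring W) (hs : ∀ z ∈ s, z ∈ E) (hinv : ∀ z ∈ E, ‖z‖ = 1 → z⁻¹ ∈ E) {z : W}
    (hz : z ∈ locV (ball W) (Subring.closure s)) : z ∈ E := by
  obtain ⟨a, ha, b, hb, hb1, hab⟩ := hz
  have hs' : Subring.closure s ≤ E := Subring.closure_le.2 hs
  have h1 : ‖b‖ = 1 := (ball_val_eq_one b).1 hb1
  have hb0 : b ≠ 0 := norm_pos_iff.1 (by rw [h1]; exact one_pos)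
  have h2 : z = a * b⁻¹ := by rw [← hab, mul_inv_cancel_right₀ hb0]
  rw [h2]
  exact mul_mem (hs' ha) (hinv b (hs' hb) h1)

/-- the elements which are congruent to elements of `A'` -/
private def sgsE {W : Type} [NormedField W] [IsUltrametricDist W] (A' : Subring W)
    (hA : ∀ z ∈ A', ‖z‖ ≤ 1) : Subring W where
  carrier := {z | ‖z‖ ≤ 1 ∧ ∃ b ∈ A', ‖z - b‖ < 1}
  mul_mem' := by
    rintro z w ⟨hz, b, hb, hzb⟩ ⟨hw, d, hd, hwd⟩
    refine ⟨by rw [norm_mul]; exact mul_le_one₀ hz (norm_nonneg _) hw, b * d, mul_mem hb hd, ?_⟩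
    have h1 : z * w - b * d = z * (w - d) + d * (z - b) := by ring
    rw [h1]
    refine lt_of_le_of_lt (IsUltrametricDist.norm_add_le_max _ _) (max_lt ?_ ?_)
    · rw [norm_mul]
      exact lt_of_le_of_lt (mul_le_of_le_one_left (norm_nonneg _) hz) hwd
    · rw [norm_mul]
      exact lt_of_le_of_lt (mul_le_of_le_one_left (norm_nonneg _) (hA d hd)) hzb
  one_mem' := ⟨norm_one.le, 1, one_mem _, by rw [sub_self, norm_zero]; exact one_pos⟩
  add_mem' := by
    rintro z w ⟨hz, b, hb, hzb⟩ ⟨hw, d, hd, hwd⟩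
    refine ⟨(IsUltrametricDist.norm_add_le_max _ _).trans (max_le hz hw), b + d, add_mem hb hd, ?_⟩
    rw [add_sub_add_comm]
    exact lt_of_le_of_lt (IsUltrametricDist.norm_add_le_max _ _) (max_lt hzb hwd)
  zero_mem' := ⟨by rw [norm_zero]; exact zero_le_one, 0, zero_mem _,
    by rw [sub_self, norm_zero]; exact one_pos⟩
  neg_mem' := by
    rintro z ⟨hz, b, hb, hzb⟩
    refine ⟨by rw [norm_neg]; exact hz, -b, neg_mem hb, ?_⟩
    have h1 : -z - -b = -(z - b) := by ring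
    rw [h1, norm_neg]
    exact hzb

private theorem sgsE_inv {W : Type} [NormedField W] [IsUltrametricDist W] {A' : Subring W}
    (hA : ∀ z ∈ A', ‖z‖ ≤ 1) (hinv : ∀ z ∈ A', ‖z‖ = 1 → z⁻¹ ∈ A') {z : W}
    (hz : z ∈ sgsE A' hA) (h1 : ‖z‖ = 1) : z⁻¹ ∈ sgsE A' hA := by
  obtain ⟨-, b, hb, hzb⟩ := hz
  have hb1 : ‖b‖ = 1 := by
    have h2 : b = z + -(z - b) := by ring
    have h3 : ‖-(z - b)‖ < ‖z‖ := by rw [norm_neg, h1]; exact hzb
    rw [h2, IsUltrametricDist.norm_add_eq_max_of_norm_ne_norm h3.ne', max_eq_left h3.le, h1]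
  have hz0 : z ≠ 0 := norm_pos_iff.1 (by rw [h1]; exact one_pos)
  have hb0 : b ≠ 0 := norm_pos_iff.1 (by rw [hb1]; exact one_pos)
  refine ⟨by rw [norm_inv, h1, inv_one], b⁻¹, hinv b hb hb1, ?_⟩
  have h2 : z⁻¹ - b⁻¹ = (z⁻¹ * b⁻¹) * (-(z - b)) := by
    field_simp
    ring
  rw [h2, norm_mul, norm_mul, norm_inv, norm_inv, h1, hb1, norm_neg]
  simpa using hzb

/-! ### models -/

section
variable {k W : Type} [Field k] [NormedField W] [IsUltrametricDist W] [Algebra k W] {r m : ℕ}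
  {M L : IntermediateField k W} {c c' : Tri k W r}

private theorem sgs_sum_lt {n : ℕ} (f : Fin n → W) (h : ∀ i, ‖f i‖ < 1) : ‖∑ i, f i‖ < 1 :=
  Finset.sum_induction f (fun z => ‖z‖ < 1)
    (fun a b ha hb => lt_of_le_of_lt (IsUltrametricDist.norm_add_le_max a b) (max_lt ha hb))
    (by rw [norm_zero]; exact one_pos) fun i _ => h i

private theorem sgs_res (hr : 0 < r) (hL : IsComplete (L : Set W)) (hML : M ≤ L) (hok : Ok m M c)
    {x' : Fin r → W} {G : Finset W} (hM : Mdl M c x' G) {z : W} (hz : z ∈ Cp (Bu c x' G)) :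
    ∃ e ∈ c.C, ‖z - e‖ < 1 := by
  have hN := Bu_Nl hr hL hML hok hM
  obtain ⟨b, hb, hb1⟩ := Cp_dens hN hz 1
  have h1 := (hN.cp.mP_one_iff.1 hb1).2
  obtain ⟨e, he, d, d0, hd, hd0, h2⟩ := Mdl.dec_all hok hM hb
  refine ⟨e, he, ?_⟩
  have h3 : z - e = (z - b) + (∑ i, d i * x' i + d0 * c.y) := by rw [h2]; ring
  rw [h3]
  refine lt_of_le_of_lt (IsUltrametricDist.norm_add_le_max _ _) (max_lt h1 ?_)
  refine lt_of_le_of_lt (IsUltrametricDist.norm_add_le_max _ _) (max_lt ?_ ?_)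
  · refine sgs_sum_lt _ fun i => ?_
    rw [norm_mul]
    exact lt_of_le_of_lt (mul_le_of_le_one_left (norm_nonneg _) (hN.one _ (hd i)))
      (hM.mt.ind.lt i)
  · rw [norm_mul]
    exact lt_of_le_of_lt (mul_le_of_le_one_left (norm_nonneg _) (hN.one _ hd0)) hok.par.y1

private theorem sgs_cons (hr : 0 < r) (hL : IsComplete (L : Set W)) (hML : M ≤ L)
    (hok : Ok m M c) {x' : Fin r → W} {G : Finset W} (hM : Mdl M c x' G) (l : Fin (r + 1)) :
    (Fin.cons c.y x' : Fin (r + 1) → W) l ∈ Cp (Bu c x' G) ∧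
      ‖(Fin.cons c.y x' : Fin (r + 1) → W) l‖ < 1 := by
  have hx' : Indep x' := hM.mt.ind
  have hG : ∀ g ∈ G, ‖g‖ ≤ 1 := fun g hg => (hM.gM g hg).2
  refine Fin.cases ?_ (fun i => ?_) l
  · rw [Fin.cons_zero]
    exact ⟨le_Cp (y_mem_Bu hok hx' hG), hok.par.y1⟩
  · rw [Fin.cons_succ]
    exact ⟨le_Cp (x_mem_Bu hok hx' hG i), hx'.lt i⟩

private theorem sgs_gen (hr : 0 < r) (hL : IsComplete (L : Set W)) (hML : M ≤ L)
    (hok : Ok m M c) {x' : Fin r → W} {G : Finset W} (hM : Mdl M c x' G) :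
    ∀ z ∈ Cp (Bu c x' G), ‖z‖ < 1 → z ∈ Submodule.span (Cp (Bu c x' G))
      (Set.range (Fin.cons c.y x' : Fin (r + 1) → W)) := by
  intro v hv hv1
  refine Submodule.span_le.2 ?_ (Cp_max (Bu_Nl hr hL hML hok hM) hv hv1)
  rintro u ⟨hu, hu1⟩
  obtain ⟨d, d0, hd, hd0, rfl⟩ := Mdl.gen hok hM hu hu1
  refine add_mem (sum_mem fun i _ => ?_) ?_
  · have h1 : x' i ∈ Submodule.span (Cp (Bu c x' G))
        (Set.range (Fin.cons c.y x' : Fin (r + 1) → W)) :=
      Submodule.subset_span ⟨i.succ, by rw [Fin.cons_succ]⟩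
    exact Submodule.smul_mem _ (⟨d i, le_Cp (hd i)⟩ : Cp (Bu c x' G)) h1
  · have h1 : c.y ∈ Submodule.span (Cp (Bu c x' G))
        (Set.range (Fin.cons c.y x' : Fin (r + 1) → W)) :=
      Submodule.subset_span ⟨0, by rw [Fin.cons_zero]⟩
    exact Submodule.smul_mem _ (⟨d0, le_Cp hd0⟩ : Cp (Bu c x' G)) h1

omit [IsUltrametricDist W] in
/-- elements of a trivially normed field generated by elements of a subring closed under inverses
of elements of norm one -/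
private theorem sgs_field_mem (C : IntermediateField k W) (hC : ∀ e ∈ C, e ≠ 0 → ‖e‖ = 1)
    (B : Subring W) (hinv : ∀ z ∈ B, ‖z‖ = 1 → z⁻¹ ∈ B) (hk : ∀ c : k, algebraMap k W c ∈ B)
    (gs : Set W) (hgs : IntermediateField.adjoin k gs = C) (hB : ∀ g ∈ gs, g ∈ B) {z : W}
    (hz : z ∈ C) : z ∈ B := by
  subst hgs
  refine IntermediateField.adjoin_induction k (p := fun z _ => z ∈ B) (fun x hx => hB x hx)
    hk (fun x y _ _ h1 h2 => B.add_mem h1 h2) (fun x hx h1 => ?_)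
    (fun x y _ _ h1 h2 => B.mul_mem h1 h2) hz
  by_cases h0 : x = 0
  · rw [h0, inv_zero]; exact B.zero_mem
  · exact hinv x h1 (hC x hx h0)

private theorem sgs_model (hr : 0 < r) (hL : IsComplete (L : Set W)) (hML : M ≤ L)
    (hok : Ok m M c) (hok' : Ok m M c') (hle : ∀ z ∈ HO M c, z ∈ HO M c') {x' : Fin r → W}
    {G : Finset W} (hM : Mdl M c x' G) (ZO : Finset W) (hZO : ∀ z ∈ ZO, z ∈ HO M c')
    (Z : Finset W) (hZ : ∀ z ∈ Z, z ∈ HC M c') (Y : Finset (Fin r → ℤ))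
    (hY : ∀ a ∈ Y, ‖mon c'.x a‖ ≤ 1) :
    ∃ (x'' : Fin r → W) (G'' : Finset W), Mdl M c' x'' G'' ∧ Bu c x' G ≤ Bu c' x'' G'' ∧
      (∀ z ∈ ZO, z ∈ Bu c' x'' G'') ∧ (∀ z ∈ Z, z ∈ Cp (Bu c' x'' G'')) ∧
      ∀ a ∈ Y, ∃ β : Fin r → ℕ, mon c'.x a = monN x'' β ∧
        (‖mon c'.x a‖ < 1 → ∀ i, 1 ≤ β i) := by
  classical
  obtain ⟨gs, hgs⟩ := hok.cst.fg
  have hB : ∀ z ∈ Bu c x' G, z ∈ HO M c' := fun z hz =>
    hle z ((mem_HO_iff hok z).2 ⟨x', G, hM, hz⟩)
  have hG : ∀ g ∈ G, ‖g‖ ≤ 1 := fun g hg => (hM.gM g hg).2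
  obtain ⟨x'', G'', hM'', h1, h2, h3⟩ := exists_modelC hr hL hML hok'
    (ZO ∪ (gs ∪ Finset.univ.image x' ∪ {c.y} ∪ G))
    (by
      intro z hz
      rcases Finset.mem_union.1 hz with hz | hz
      · exact hZO z hz
      simp only [Finset.mem_union, Finset.mem_image, Finset.mem_univ, true_and,
        Finset.mem_singleton] at hz
      rcases hz with ((h | ⟨i, rfl⟩) | rfl) | h
      · exact hB z (C_mem_Bu hok hM.mt.ind hG (hgs ▸ IntermediateField.subset_adjoin k _ h))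
      · exact hB _ (x_mem_Bu hok hM.mt.ind hG i)
      · exact hB _ (y_mem_Bu hok hM.mt.ind hG)
      · exact hB _ (G_mem_Bu hok hM.mt.ind hG h)) Z hZ Y hY
  have h1' : ∀ z ∈ gs ∪ Finset.univ.image x' ∪ {c.y} ∪ G, z ∈ Bu c' x'' G'' :=
    fun z hz => h1 z (Finset.mem_union_right _ hz)
  refine ⟨x'', G'', hM'', fun z hz => ?_, fun z hz => h1 z (Finset.mem_union_left _ hz), h2, h3⟩
  have hG'' : ∀ g ∈ G'', ‖g‖ ≤ 1 := fun g hg => (hM''.gM g hg).2
  refine Bu_le (c := c) (x' := x') (G := G) (Bu c' x'' G'') (fun w hw => ?_) (fun i => ?_) ?_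
    (fun g hg => ?_) (fun w hw h => inv_mem_Bu hw h) hz
  · exact sgs_field_mem c.C hok.cst.unit _ (fun w hw h => inv_mem_Bu hw h)
      (fun a => C_mem_Bu hok' hM''.mt.ind hG'' (c'.C.algebraMap_mem a)) gs hgs
      (fun g hg => h1' g (by simp [Finset.mem_coe.1 hg])) hw
  · exact h1' _ (by simp)
  · exact h1' _ (by simp)
  · exact h1' _ (by simp [hg])

end

section
variable {k W : Type} [Field k] [NormedField W] [IsUltrametricDist W] [Algebra k W] {r m : ℕ}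
  {S L : IntermediateField k W} {c c' : Tri k W r}

private theorem sgs_ok (h : StR m S L c c') : Ch m S L c ∧ Ch m S L c' := by
  obtain ⟨e, B, w, g, T, h⟩ := h
  exact ⟨h.ch, h.ch'⟩

/-- the parameters of the first model are monomial for `c'` -/
private theorem sgs_cons_moC (hr : 0 < r) (hL : IsComplete (L : Set W)) (hst : StR m S L c c')
    {x' : Fin r → W} {G : Finset W} (hM : Mdl (S ⊓ L) c x' G) (l : Fin (r + 1)) :
    MoC (S ⊓ L) c' ((Fin.cons c.y x' : Fin (r + 1) → W) l) := by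
  have hML : S ⊓ L ≤ L := inf_le_right
  obtain ⟨hch, hch'⟩ := sgs_ok hst
  refine Fin.cases ?_ (fun i => ?_) l
  · rw [Fin.cons_zero]
    exact MoC.of_MoH hr hL hML hch'.ok hst.y_moH
  · rw [Fin.cons_succ]
    obtain ⟨a, ha⟩ := Mt.mon_eq' hch.ok.par.ind hM.mt (Pi.single i 1)
    rw [mon_single] at ha
    rw [ha]
    exact MoC.of_MoH hr hL hML hch'.ok
      (RfS.moH hr hch (Relation.ReflTransGen.single hst) (MoH.of_mon hch.ok a))

private theorem sgs_xi (hr : 0 < r) (hL : IsComplete (L : Set W)) (hst : StR m S L c c')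
    (A : Subring W) (hAN : Nl L.toSubfield A) {x' : Fin r → W} {G : Finset W}
    (hsyn : Syn (S ⊓ L) c A x' G) :
    ∃ (ξ q : Fin (r + 1) → W), (∀ l, ξ l ∈ A) ∧ (∀ l, q l ∈ QC (S ⊓ L) c') ∧
      (∀ l, ξ l = (Fin.cons c.y x' : Fin (r + 1) → W) l * (1 + q l)) ∧
      ∀ z ∈ Cp A, ‖z‖ < 1 → z ∈ Submodule.span (Cp A) (Set.range ξ) := by
  have hML : S ⊓ L ≤ L := inf_le_right
  obtain ⟨hch, hch'⟩ := sgs_ok hst
  have hok := hch.ok
  have hok' := hch'.ok
  have hM := hsyn.mdl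
  have hmo := sgs_cons_moC hr hL hst hM
  have hne : ∀ l, (Fin.cons c.y x' : Fin (r + 1) → W) l ≠ 0 := fun l => (hmo l).ne hok'
  obtain ⟨l0, hl0⟩ := Finite.exists_min (fun l => ‖(Fin.cons c.y x' : Fin (r + 1) → W) l‖)
  obtain ⟨N, -, hN⟩ := exists_mon_lt hr hok'.par.ind _ (norm_pos_iff.2 (hne l0))
  obtain ⟨n, hn⟩ := mP_tiny hr hL hst Relation.ReflTransGen.refl hM N
  have h1 : ∀ l, ∃ b ∈ A, (Fin.cons c.y x' : Fin (r + 1) → W) l - b ∈ mP (Cp A) (max n 2) := by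
    intro l
    refine Cp_dens hAN ?_ _
    rw [hsyn.eq]
    exact (sgs_cons hr hL hML hok hM l).1
  choose ξ hξA hξ using h1
  have h2 : ∀ l, ∃ h ∈ HC (S ⊓ L) c', (Fin.cons c.y x' : Fin (r + 1) → W) l - ξ l =
      mon c'.x N * h := by
    intro l
    refine hn _ ?_
    rw [← hsyn.eq]
    exact mP_anti (le_max_left _ _) (hξ l)
  choose h hh hξh using h2
  refine ⟨ξ, fun l => (mon c'.x N * ((Fin.cons c.y x' : Fin (r + 1) → W) l)⁻¹) * (-h l), hξA,
    fun l => ?_, fun l => ?_, ?_⟩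
  · refine QC_mul ?_ (neg_mem (hh l))
    refine MoC.mem_QC hr hL hML hok' (MoC.mul hok' (MoC.of_mon hok' N)
      ((hmo l).inv hr hL hML hok')) ?_
    rw [norm_mul, norm_inv, ← div_eq_mul_inv, div_lt_one (norm_pos_iff.2 (hne l))]
    exact lt_of_lt_of_le hN (hl0 l)
  · have h3 := hne l
    have h4 := hξh l
    have h5 : ξ l = (Fin.cons c.y x' : Fin (r + 1) → W) l - mon c'.x N * h l := by
      rw [← h4]; ring
    have h6 : (Fin.cons c.y x' : Fin (r + 1) → W) l *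
        ((Fin.cons c.y x' : Fin (r + 1) → W) l)⁻¹ = 1 := mul_inv_cancel₀ h3
    rw [h5]
    linear_combination (mon c'.x N * h l) * h6
  · refine sgs_nak hAN.cp (Fin.cons c.y x' : Fin (r + 1) → W) ξ ?_ fun l =>
      mP_anti (le_max_right _ _) (hξ l)
    rw [hsyn.eq]
    exact sgs_gen hr hL hML hok hM

/-- numerators and denominators -/
private theorem sgs_frac (A : Subring W) (Q : W → Prop) (hone : Q 1)
    (hm : ∀ u u', Q u → Q u' → Q (u * u')) (hne : ∀ u, Q u → u ≠ 0) (X : Fin r → W) (Y : W)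
    (hX : ∀ l, X l ∈ A ∧ Q (X l)) (hY : Y ∈ A ∧ Q Y) (a : Fin r → ℤ) (j : ℤ) :
    ∃ n ∈ A, ∃ d ∈ A, Q d ∧ mon X a * Y ^ j * d = n := by
  have hmul : ∀ u u' : W, (∃ n ∈ A, ∃ d ∈ A, Q n ∧ Q d ∧ u * d = n) →
      (∃ n ∈ A, ∃ d ∈ A, Q n ∧ Q d ∧ u' * d = n) →
      ∃ n ∈ A, ∃ d ∈ A, Q n ∧ Q d ∧ u * u' * d = n := by
    rintro u u' ⟨n, hn, d, hd, hn1, hd1, rfl⟩ ⟨n', hn', d', hd', hn1', hd1', rfl⟩
    exact ⟨_, mul_mem hn hn', d * d', mul_mem hd hd', hm _ _ hn1 hn1', hm _ _ hd1 hd1',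
      by ring⟩
  have hpow : ∀ (u : W) (n : ℕ), Q u → Q (u ^ n) := by
    intro u n hu
    induction n with
    | zero => rw [pow_zero]; exact hone
    | succ n ih => rw [pow_succ]; exact hm _ _ ih hu
  have hz : ∀ u : W, u ∈ A ∧ Q u → ∀ j : ℤ,
      ∃ n ∈ A, ∃ d ∈ A, Q n ∧ Q d ∧ u ^ j * d = n := by
    rintro u ⟨hu, hu1⟩ j
    obtain ⟨n, rfl | rfl⟩ := j.eq_nat_or_neg
    · exact ⟨u ^ n, pow_mem hu n, 1, one_mem _, hpow u n hu1, hone, by
        rw [zpow_natCast, mul_one]⟩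
    · refine ⟨1, one_mem _, u ^ n, pow_mem hu n, hone, hpow u n hu1, ?_⟩
      rw [zpow_neg, zpow_natCast]
      exact inv_mul_cancel₀ (pow_ne_zero _ (hne u hu1))
  obtain ⟨n, hn, d, hd, -, hd1, hnd⟩ := hmul (mon X a) (Y ^ j) (by
    unfold mon
    refine Finset.prod_induction _ (fun u => ∃ n ∈ A, ∃ d ∈ A, Q n ∧ Q d ∧ u * d = n)
      hmul ?_ fun i _ => hz _ (hX i) _
    exact ⟨1, one_mem _, 1, one_mem _, hone, hone, mul_one _⟩) (hz Y hY j)
  exact ⟨n, hn, d, hd, hd1, hnd⟩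

private theorem sgs_monV_mul {A' : Subring W} {U : Fin r → W} {f f' : W}
    (h : MonV (ball W) A' U f) (h' : MonV (ball W) A' U f') : MonV (ball W) A' U (f * f') := by
  obtain ⟨w, hw, hw1, β, rfl⟩ := h
  obtain ⟨w', hw', hw1', β', rfl⟩ := h'
  refine ⟨w * w', mul_mem hw hw', by rw [map_mul, hw1, hw1', one_mul], β + β', ?_⟩
  have h1 : monN U (β + β') = monN U β * monN U β' := by
    unfold monN
    rw [← Finset.prod_mul_distrib]
    exact Finset.prod_congr rfl fun i _ => pow_add _ _ _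
  rw [h1]
  ring

end

theorem stage_syn {k W : Type} [Field k] [PerfectField k] [NormedField W] [IsUltrametricDist W]
    [Algebra k W] {r m : ℕ} (hr : 0 < r) (S L : IntermediateField k W)
    (hL : IsComplete (L : Set W)) {c c' : Tri k W r} (hst : StR m S L c c') (A : Subring W)
    (hAN : Nl L.toSubfield A) {x' : Fin r → W} {G : Finset W} (hsyn : Syn (S ⊓ L) c A x' G)
    (ZO : Finset W) (hZO : ∀ z ∈ ZO, z ∈ HO (S ⊓ L) c') (Z : Finset W)
    (hZ : ∀ z ∈ Z, z ∈ HC (S ⊓ L) c') (Yx : Finset (Fin r → ℤ))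
    (hYx : ∀ a ∈ Yx, ‖mon c'.x a‖ ≤ 1) :
    ∃ (g : Finset W) (U : Fin r → W) (y1 : W) (ξ : Fin (r + 1) → W) (x'' : Fin r → W)
      (G'' : Finset W) (A' : Subring W),
      A' = locV (ball W) (Subring.closure ((A : Set W) ∪ (g : Set W))) ∧
      (∀ u ∈ g, ‖u‖ ≤ 1 ∧ ∃ n ∈ A, ∃ d ∈ A, MoC (S ⊓ L) c' d ∧ MonV (ball W) A' U d ∧
        u * d = n) ∧
      Syn (S ⊓ L) c' A' x'' G'' ∧ (∀ z ∈ ZO, z ∈ Bu c' x'' G'') ∧
      (∀ z ∈ Z, z ∈ Cp (Bu c' x'' G'')) ∧
      (∀ a ∈ Yx, ∃ β : Fin r → ℕ, mon c'.x a = monN x'' β ∧ (‖mon c'.x a‖ < 1 → ∀ i, 1 ≤ β i)) ∧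
      (∀ i, U i ∈ A' ∧ ∃ u ∈ Cp A', ‖u‖ = 1 ∧ U i = x'' i * u) ∧ y1 ∈ A' ∧ ‖y1‖ < 1 ∧
      (∀ z ∈ A', ‖z‖ < 1 →
        z ∈ Submodule.span A' ({a : W | a ∈ A ∧ ‖a‖ < 1} ∪ (Set.range U ∪ {y1}))) ∧
      (∀ l, ξ l ∈ A ∧ ‖ξ l‖ < 1) ∧
      (∀ z ∈ Cp A, ‖z‖ < 1 → z ∈ Submodule.span (Cp A) (Set.range ξ)) ∧
      ∀ l, ∃ b ∈ A', ξ l = (∏ i, U i) * b := by
  classical
  have hML : S ⊓ L ≤ L := inf_le_right
  obtain ⟨e, B, w, g, T, h⟩ := id hst
  have hok := h.ch.ok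
  have hok' := h.ch'.ok
  have hM := hsyn.mdl
  obtain ⟨ξ, q, hξA, hq, hξq, hgen⟩ := sgs_xi hr hL hst A hAN hsyn
  have hmo := sgs_cons_moC hr hL hst hM
  have hcons := sgs_cons hr hL hML hok hM
  have hqM : ∀ l, MoC (S ⊓ L) c' (ξ l) := fun l => by
    rw [hξq]
    exact (MoC.perturb hr hL hML hok' (hmo l) (hq l)).1
  have hqn : ∀ l, ‖ξ l‖ < 1 := fun l => by
    have h0 : ‖(1 : W) + q l‖ ≤ 1 :=
      (IsUltrametricDist.norm_add_le_max _ _).trans
        (max_le norm_one.le (QC_norm hr hL hML hok' (hq l)).le)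
    rw [hξq, norm_mul]
    exact lt_of_le_of_lt (mul_le_of_le_one_right (norm_nonneg _) h0) (hcons l).2
  choose qa hqa qh hqh hqe using hq
  -- the exponents of the parameters
  have hα : ∀ l, ∃ (α : Fin r → ℤ) (ν : ℤ),
      (Fin.cons c.y x' : Fin (r + 1) → W) l = mon c'.x α * w ^ ν := by
    intro l
    refine Fin.cases ?_ (fun i => ?_) l
    · refine ⟨(T (0, 1)).1, (T (0, 1)).2, ?_⟩
      rw [Fin.cons_zero, ← h.hm, TDO.mon_zero, one_mul, zpow_one]
    · obtain ⟨a, ha⟩ := Mt.mon_eq' hok.par.ind hM.mt (Pi.single i 1)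
      rw [mon_single] at ha
      refine ⟨(T (a, 0)).1, (T (a, 0)).2, ?_⟩
      rw [Fin.cons_succ, ← h.hm, zpow_zero, mul_one, ha]
  choose α ν hαν using hα
  have hαn : ∀ l, ‖mon c'.x (α l)‖ < 1 := by
    intro l
    have h1 := (hcons l).2
    rw [hαν, norm_mul, norm_zpow, h.w1, one_zpow, mul_one] at h1
    exact h1
  obtain ⟨x'', G'', hM'', hBB, h1, h2, h3⟩ := sgs_model hr hL hML hok hok'
    (fun z hz => hst.HO_le hr hz) hM (ZO ∪ {w}) (by
      intro z hz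
      rcases Finset.mem_union.1 hz with hz | hz
      · exact hZO z hz
      · rw [Finset.mem_singleton.1 hz]; exact h.inH.2)
    (Z ∪ Finset.univ.image qh) (by
      intro z hz
      rcases Finset.mem_union.1 hz with hz | hz
      · exact hZ z hz
      · obtain ⟨l, -, rfl⟩ := Finset.mem_image.1 hz
        exact hqh l)
    (Yx ∪ (Finset.univ.image qa ∪ Finset.univ.image α)) (by
      intro a ha
      rcases Finset.mem_union.1 ha with ha | ha
      · exact hYx a ha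
      rcases Finset.mem_union.1 ha with ha | ha
      · obtain ⟨l, -, rfl⟩ := Finset.mem_image.1 ha
        exact (hqa l).le
      · obtain ⟨l, -, rfl⟩ := Finset.mem_image.1 ha
        exact (hαn l).le)
  have hNB := Bu_Nl hr hL hML hok hM
  have hNB' := Bu_Nl hr hL hML hok' hM''
  have hD' := hNB'.cp
  have hG : ∀ g ∈ G, ‖g‖ ≤ 1 := fun g hg => (hM.gM g hg).2
  have hG'' : ∀ g ∈ G'', ‖g‖ ≤ 1 := fun g hg => (hM''.gM g hg).2
  have hDD : Cp (Bu c x' G) ≤ Cp (Bu c' x'' G'') := Cp_mono hNB hNB' (hBB.trans le_Cp)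
  have hx''D : ∀ i, x'' i ∈ Cp (Bu c' x'' G'') := fun i =>
    le_Cp (x_mem_Bu hok' hM''.mt.ind hG'' i)
  have hx''1 : ∀ i, ‖x'' i‖ < 1 := hM''.mt.ind.lt
  obtain ⟨P, hP⟩ : ∃ P : W, P = ∏ i, x'' i := ⟨_, rfl⟩
  have hPD : P ∈ Cp (Bu c' x'' G'') := by rw [hP]; exact prod_mem fun i _ => hx''D i
  have hPf : ∃ t ∈ Cp (Bu c' x'' G''), P = t * x'' ⟨0, hr⟩ := by
    refine ⟨∏ i ∈ Finset.univ.erase ⟨0, hr⟩, x'' i, prod_mem fun i _ => hx''D i, ?_⟩
    rw [hP, Finset.prod_erase_mul _ _ (Finset.mem_univ _)]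
  have hP1 : ‖P‖ < 1 := by
    obtain ⟨t, ht, h4⟩ := hPf
    rw [h4, norm_mul]
    exact lt_of_le_of_lt (mul_le_of_le_one_left (norm_nonneg _) (hD'.one t ht)) (hx''1 _)
  have hmon : ∀ a ∈ Yx ∪ (Finset.univ.image qa ∪ Finset.univ.image α), ‖mon c'.x a‖ < 1 →
      ∃ t ∈ Cp (Bu c' x'' G''), mon c'.x a = P * t := by
    intro a ha ha1
    obtain ⟨β, hβ, hβ1⟩ := h3 a ha
    refine ⟨monN x'' (fun i => β i - 1), le_Cp (monN_mem_Bu hok' hM''.mt.ind hG'' _), ?_⟩
    rw [hβ, hP, sgs_monN_pos x'' β (hβ1 ha1)]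
  have hqU : ∀ l, sgsU (Cp (Bu c' x'' G'')) P (1 + q l) := by
    intro l
    obtain ⟨t, ht, h4⟩ := hmon (qa l) (Finset.mem_union_right _ (Finset.mem_union_left _
      (Finset.mem_image_of_mem _ (Finset.mem_univ l)))) (hqa l)
    refine ⟨t * qh l, mul_mem ht (h2 _ (Finset.mem_union_right _
      (Finset.mem_image_of_mem _ (Finset.mem_univ l)))), ?_⟩
    rw [hqe l, h4, mul_assoc]
  have hwD : w ∈ Cp (Bu c' x'' G'') :=
    le_Cp (h1 w (Finset.mem_union_right _ (Finset.mem_singleton_self w)))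
  have hwz : ∀ n : ℤ, w ^ n ∈ Cp (Bu c' x'' G'') := by
    intro n
    obtain ⟨n, rfl | rfl⟩ := n.eq_nat_or_neg
    · rw [zpow_natCast]; exact pow_mem hwD n
    · rw [zpow_neg, zpow_natCast, ← inv_pow]; exact pow_mem (hD'.inv w hwD h.w1) n
  have hξP : ∀ l, ∃ t ∈ Cp (Bu c' x'' G''),
      (Fin.cons c.y x' : Fin (r + 1) → W) l = P * t := by
    intro l
    obtain ⟨t, ht, h4⟩ := hmon (α l) (Finset.mem_union_right _ (Finset.mem_union_right _
      (Finset.mem_image_of_mem _ (Finset.mem_univ l)))) (hαn l)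
    exact ⟨t * w ^ ν l, mul_mem ht (hwz _), by rw [hαν, h4, mul_assoc]⟩
  obtain ⟨I, hI⟩ : ∃ I : Submodule (Cp (Bu c' x'' G'')) W, I = Submodule.span _ {P} := ⟨_, rfl⟩
  have hIm : ∀ z, (∃ t ∈ Cp (Bu c' x'' G''), z = P * t) → z ∈ I := by
    rintro z ⟨t, ht, rfl⟩
    rw [hI, Submodule.mem_span_singleton]
    exact ⟨⟨t, ht⟩, mul_comm _ _⟩
  have hIm' : ∀ z ∈ I, ∃ t ∈ Cp (Bu c' x'' G''), z = P * t := by
    intro z hz
    rw [hI, Submodule.mem_span_singleton] at hz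
    obtain ⟨t, ht⟩ := hz
    exact ⟨t, t.2, by rw [← ht]; exact mul_comm _ _⟩
  have hI1 : ∀ z ∈ I, ‖z‖ < 1 := by
    intro z hz
    obtain ⟨t, ht, rfl⟩ := hIm' z hz
    rw [norm_mul]
    exact lt_of_le_of_lt (mul_le_of_le_one_right (norm_nonneg _) (hD'.one t ht)) hP1
  have hmD : ∀ z ∈ Cp (Bu c x' G), ‖z‖ < 1 → z ∈ I := by
    intro z hz hz1
    refine Submodule.span_induction (p := fun v _ => v ∈ I) ?_ (zero_mem _)
      (fun _ _ _ _ ha hb => add_mem ha hb) ?_ (sgs_gen hr hL hML hok hM z hz hz1)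
    · rintro _ ⟨l, rfl⟩
      exact hIm _ (hξP l)
    · intro a v _ hv
      exact I.smul_mem (⟨a, hDD a.2⟩ : Cp (Bu c' x'' G'')) hv
  -- the monomials
  have hy0 : c.y ≠ 0 := by
    have h4 := (hmo 0).ne hok'
    rwa [Fin.cons_zero] at h4
  obtain ⟨a, j, av, jv, b, n, bY, nY, e1, e2, e3, e4, e5⟩ :=
    stg_mon hok.par.ind hok'.par.ind hy0 h.w1 hM.mt hM''.mt T h.hm
  have hξne : ∀ l, ξ l ≠ 0 := fun l => (hqM l).ne hok'
  obtain ⟨e6, e7⟩ := e5 (fun l => ξ l.succ) (ξ 0) (fun l => hξne _) (hξne _)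
  obtain ⟨U, hU⟩ : ∃ U : Fin r → W, U = fun i => mon (fun l => ξ l.succ) (a i) * ξ 0 ^ (j i) :=
    ⟨_, rfl⟩
  obtain ⟨v, hv⟩ : ∃ v : W, v = mon (fun l => ξ l.succ) av * ξ 0 ^ jv := ⟨_, rfl⟩
  rw [← hU, ← hv] at e7
  have e6' : ∀ l : Fin r, ξ l.succ = mon U (b l) * v ^ (n l) := by
    intro l
    rw [hU, hv]
    exact e6 l
  have hξs : ∀ l : Fin r, ξ l.succ = x' l * (1 + q l.succ) := fun l => by
    rw [hξq, Fin.cons_succ]
  have hξ0 : ξ 0 = c.y * (1 + q 0) := by rw [hξq, Fin.cons_zero]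
  have key : ∀ (a : Fin r → ℤ) (j : ℤ), ∃ u, sgsU (Cp (Bu c' x'' G'')) P u ∧
      mon (fun l => ξ l.succ) a * ξ 0 ^ j = mon x' a * c.y ^ j * u := by
    intro a j
    refine ⟨mon (fun l => 1 + q l.succ) a * (1 + q 0) ^ j,
      sgsU_mul hPD (sgsU_mon hD' hPD hP1 (fun l => hqU _) a)
        (sgsU_zpow hD' hPD hP1 (hqU 0) j), ?_⟩
    have h4 : (fun l : Fin r => ξ l.succ) = fun l => x' l * (1 + q l.succ) := funext hξs
    rw [h4, sgs_mon_mul, hξ0, mul_zpow]
    ring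
  have hU' : ∀ i, ∃ u, sgsU (Cp (Bu c' x'' G'')) P u ∧ U i = x'' i * u := by
    intro i
    obtain ⟨u, hu, h4⟩ := key (a i) (j i)
    refine ⟨u, hu, ?_⟩
    rw [hU]
    change mon (fun l => ξ l.succ) (a i) * ξ 0 ^ (j i) = _
    rw [h4, ← e1]
  obtain ⟨uv, huv, hv'⟩ : ∃ u, sgsU (Cp (Bu c' x'' G'')) P u ∧ v = w * u := by
    obtain ⟨u, hu, h4⟩ := key av jv
    exact ⟨u, hu, by rw [hv, h4, ← e2]⟩
  have hpos : ∀ (l : Fin (r + 1)) (bb : Fin r → ℤ) (nn : ℤ),
      (Fin.cons c.y x' : Fin (r + 1) → W) l = mon x'' bb * w ^ nn → ∀ i, 1 ≤ bb i := by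
    intro l bb nn h4
    obtain ⟨β, hβ, hβ1⟩ := h3 (α l) (Finset.mem_union_right _ (Finset.mem_union_right _
      (Finset.mem_image_of_mem _ (Finset.mem_univ l))))
    have h5 : ‖mon x'' bb‖ = ‖mon x'' (fun i => (β i : ℤ))‖ := by
      have h6 : ‖(Fin.cons c.y x' : Fin (r + 1) → W) l‖ = ‖mon x'' bb‖ := by
        rw [h4, norm_mul, norm_zpow, h.w1, one_zpow, mul_one]
      have h7 : ‖(Fin.cons c.y x' : Fin (r + 1) → W) l‖ = ‖mon c'.x (α l)‖ := by
        rw [hαν, norm_mul, norm_zpow, h.w1, one_zpow, mul_one]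
      rw [← h6, h7, hβ, sgs_monN]
    have h6 := norm_mon_inj hM''.mt.ind h5
    intro i
    rw [h6]
    have h7 := hβ1 (hαn l) i
    change (1 : ℤ) ≤ (β i : ℤ)
    exact_mod_cast h7
  have hξU : ∀ l, ∃ (bb : Fin r → ℤ) (nn : ℤ), ξ l = mon U bb * v ^ nn ∧ ∀ i, 1 ≤ bb i := by
    intro l
    refine Fin.cases ?_ (fun i => ?_) l
    · exact ⟨bY, nY, e7, hpos 0 bY nY (by rw [Fin.cons_zero]; exact e4)⟩
    · exact ⟨b i, n i, e6' i, hpos i.succ (b i) (n i) (by rw [Fin.cons_succ]; exact e3 i)⟩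
  have hvD : v ∈ Cp (Bu c' x'' G'') := by rw [hv']; exact mul_mem hwD (sgsU_mem hPD huv)
  have hvn : ‖v‖ = 1 := by rw [hv', norm_mul, h.w1, sgsU_norm hD' hP1 huv, one_mul]
  have hUD : ∀ i, U i ∈ Cp (Bu c' x'' G'') := by
    intro i
    obtain ⟨u, hu, h4⟩ := hU' i
    rw [h4]
    exact mul_mem (hx''D i) (sgsU_mem hPD hu)
  have hUn : ∀ i, ‖U i‖ < 1 := by
    intro i
    obtain ⟨u, hu, h4⟩ := hU' i
    rw [h4, norm_mul, sgsU_norm hD' hP1 hu, mul_one]
    exact hx''1 i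
  have hcoe : ((insert v (Finset.univ.image U) : Finset W) : Set W) =
      insert v (Set.range U) := by simp
  have hA'N := hAN.adjoin (insert v (Finset.univ.image U)) (by
    intro u hu
    rcases Finset.mem_insert.1 hu with rfl | hu
    · exact ⟨hD'.le _ hvD, hvn.le⟩
    · obtain ⟨i, -, rfl⟩ := Finset.mem_image.1 hu
      exact ⟨hD'.le _ (hUD i), (hUn i).le⟩)
  obtain ⟨A', hA'⟩ : ∃ A' : Subring W, A' = locV (ball W) (Subring.closure ((A : Set W) ∪
      ((insert v (Finset.univ.image U) : Finset W) : Set W))) := ⟨_, rfl⟩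
  rw [← hA'] at hA'N
  have hsub : ∀ z, z ∈ (A : Set W) ∪ ((insert v (Finset.univ.image U) : Finset W) : Set W) →
      z ∈ A' := by
    intro z hz
    rw [hA']
    exact ⟨z, Subring.subset_closure hz, 1, one_mem _, map_one _, mul_one _⟩
  have hAA' : A ≤ A' := fun z hz => hsub z (Or.inl hz)
  have hvA' : v ∈ A' := hsub v (Or.inr (by rw [hcoe]; exact Or.inl rfl))
  have hUA' : ∀ i, U i ∈ A' := fun i => hsub _ (Or.inr (by rw [hcoe]; exact Or.inr ⟨i, rfl⟩))
  have hAD : A ≤ Cp (Bu c' x'' G'') := by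
    intro z hz
    refine hDD ?_
    rw [← hsyn.eq]
    exact le_Cp hz
  have hA'D : A' ≤ Cp (Bu c' x'' G'') := by
    intro z hz
    rw [hA'] at hz
    refine sgs_locV_le _ ?_ hD'.inv hz
    rintro u (hu | hu)
    · exact hAD hu
    · rw [hcoe] at hu
      rcases hu with rfl | ⟨i, rfl⟩
      · exact hvD
      · exact hUD i
  -- the polynomial
  have hC1 : ∀ e ∈ c.C, ‖e‖ ≤ 1 := by
    intro e he
    by_cases h0 : e = 0
    · rw [h0, norm_zero]; exact zero_le_one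
    · exact (hok.cst.unit e he h0).le
  have hCD : ∀ e ∈ c.C, e ∈ Cp A := by
    intro e he
    rw [hsyn.eq]
    exact le_Cp (C_mem_Bu hok hM.mt.ind hG he)
  have hcg : ∀ e ∈ c.C, ∃ b ∈ A, ‖e - b‖ < 1 := by
    intro e he
    obtain ⟨b, hb, hb1⟩ := Cp_dens hAN (hCD e he) 1
    exact ⟨b, hb, (hAN.cp.mP_one_iff.1 hb1).2⟩
  have hf : ∀ i : ℕ, ∃ b ∈ A, ‖((g.coeff i : c.C) : W) - b‖ < 1 ∧ (i = g.natDegree → b = 1) := by
    intro i
    by_cases hi : i = g.natDegree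
    · refine ⟨1, one_mem _, ?_, fun _ => rfl⟩
      have h4 : g.coeff i = 1 := by rw [hi]; exact h.gm
      rw [h4]
      change ‖(1 : W) - 1‖ < 1
      rw [sub_self, norm_zero]
      exact one_pos
    · obtain ⟨b, hb, hb1⟩ := hcg _ (g.coeff i).2
      exact ⟨b, hb, hb1, fun h4 => absurd h4 hi⟩
  choose f hfA hf1 hf2 using hf
  obtain ⟨g', hg'm, hg'd, hg'c⟩ := sgs_monic f g.natDegree (hf2 _ rfl)
  have hg'A : ∀ i, g'.coeff i ∈ A := by
    intro i
    rw [hg'c]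
    split_ifs
    · exact hfA i
    · exact zero_mem _
  have hgW : ∀ i, (g.map (algebraMap c.C W)).coeff i = ((g.coeff i : c.C) : W) := fun i =>
    Polynomial.coeff_map _ _
  have hgWD : ∀ i, (g.map (algebraMap c.C W)).coeff i ∈ Cp (Bu c' x'' G'') := by
    intro i
    rw [hgW]
    refine hDD ?_
    rw [← hsyn.eq]
    exact hCD _ (g.coeff i).2
  have hgg : ∀ i, g'.coeff i - (g.map (algebraMap c.C W)).coeff i ∈ I := by
    intro i
    have h4 : ‖g'.coeff i - (g.map (algebraMap c.C W)).coeff i‖ < 1 := by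
      rw [hgW, hg'c]
      split_ifs with h5
      · rw [norm_sub_rev]; exact hf1 i
      · rw [Polynomial.coeff_eq_zero_of_natDegree_lt (by omega)]
        change ‖(0 : W) - 0‖ < 1
        rw [sub_self, norm_zero]
        exact one_pos
    refine hmD _ (sub_mem ?_ ?_) h4
    · rw [← hsyn.eq]; exact le_Cp (hg'A i)
    · rw [hgW, ← hsyn.eq]; exact hCD _ (g.coeff i).2
  have hvw : v - w ∈ I := by
    obtain ⟨t, ht, h4⟩ := huv
    exact hIm _ ⟨w * t, mul_mem hwD ht, by rw [hv', h4]; ring⟩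
  have hgw : (g.map (algebraMap c.C W)).eval w = c'.y := by
    rw [h.hy, Polynomial.eval_map, Polynomial.aeval_def]
  have hy1 : g'.eval v - c'.y ∈ I := by
    rw [← hgw]
    exact sgs_eval I _ _ (fun i => hAD (hg'A i)) hgWD hgg hvD hwD hvw
  have hy1n : ‖g'.eval v‖ < 1 := by
    have h4 : g'.eval v = (g'.eval v - c'.y) + c'.y := by ring
    rw [h4]
    exact lt_of_le_of_lt (IsUltrametricDist.norm_add_le_max _ _)
      (max_lt (hI1 _ hy1) hok'.par.y1)
  have hmin : ∀ R : Polynomial W, (∀ i, R.coeff i ∈ A) → R.degree < g'.degree →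
      ‖R.eval v‖ < 1 → ∀ i, ‖R.coeff i‖ < 1 := by
    intro R hRA hRd hRv
    have hd : g'.degree = (g.natDegree : WithBot ℕ) := by
      rw [Polynomial.degree_eq_natDegree hg'm.ne_zero, hg'd]
    rw [hd] at hRd
    have hR0 : ∀ i, g.natDegree ≤ i → R.coeff i = 0 := fun i hi =>
      Polynomial.coeff_eq_zero_of_degree_lt (lt_of_lt_of_le hRd (by exact_mod_cast hi))
    have h4 : ∀ i, ∃ e : c.C, ‖R.coeff i - (e : W)‖ < 1 := by
      intro i
      obtain ⟨e, he, he1⟩ := sgs_res hr hL hML hok hM (z := R.coeff i) (by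
        rw [← hsyn.eq]; exact le_Cp (hRA i))
      exact ⟨⟨e, he⟩, he1⟩
    choose ec hec using h4
    obtain ⟨R0, hR0c⟩ := sgs_poly ec g.natDegree
    have h5 : R0.degree < g.degree := by
      rw [Polynomial.degree_eq_natDegree h.gm.ne_zero, Polynomial.degree_lt_iff_coeff_zero]
      intro i hi
      rw [hR0c, if_neg (by omega)]
    have h6 : ∀ i, ‖R.coeff i - ((R0.coeff i : c.C) : W)‖ < 1 := by
      intro i
      rw [hR0c]
      split_ifs with h7
      · exact hec i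
      · rw [hR0 i (by omega)]
        change ‖(0 : W) - 0‖ < 1
        rw [sub_self, norm_zero]
        exact one_pos
    have h7 : ∀ i, (R0.map (algebraMap c.C W)).coeff i = ((R0.coeff i : c.C) : W) := fun i =>
      Polynomial.coeff_map _ _
    have h8 : R.eval v - (R0.map (algebraMap c.C W)).eval w ∈
        sgsB (Cp (Bu c' x'' G'')) hD'.one := by
      refine sgs_eval _ _ _ (fun i => hAD (hRA i)) (fun i => ?_) (fun i => ?_) hvD hwD
        (hI1 _ hvw)
      · rw [h7]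
        refine hDD ?_
        rw [← hsyn.eq]
        exact hCD _ (R0.coeff i).2
      · rw [h7]
        exact h6 i
    have h9 : ‖Polynomial.aeval w R0‖ < 1 := by
      have h10 : Polynomial.aeval w R0 =
          R.eval v + -(R.eval v - (R0.map (algebraMap c.C W)).eval w) := by
        rw [Polynomial.eval_map, ← Polynomial.aeval_def]
        ring
      rw [h10]
      refine lt_of_le_of_lt (IsUltrametricDist.norm_add_le_max _ _) (max_lt hRv ?_)
      rw [norm_neg]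
      exact h8
    have h10 : R0 = 0 := sgs_min c.C hC1 h.w1 h.gi h5 (by rw [← h.hy]; exact hok'.par.y1) h9
    intro i
    have h11 := h6 i
    rw [h10, Polynomial.coeff_zero] at h11
    have h12 : R.coeff i - ((0 : c.C) : W) = R.coeff i := sub_zero _
    rwa [h12] at h11
  obtain ⟨hy1A, hgen'⟩ := stg_gen A hAN U hUn v hvn g' hg'A hg'm hy1n hmin A'
    (by rw [hA', hcoe])
  -- the completion of the new ring
  have hres : ∀ z ∈ Cp (Bu c' x'' G''), ∃ b ∈ A', ‖z - b‖ < 1 := by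
    intro z hz
    obtain ⟨e', he', hze⟩ := sgs_res hr hL hML hok' hM'' hz
    obtain ⟨z1, hz1, hz1e⟩ := h.lift e' he'
    have hE : z1 ∈ sgsE A' hA'N.one := by
      refine sgs_locV_le _ ?_ (fun z hz => sgsE_inv _ hA'N.inv hz) hz1
      rintro u (hu | hu)
      · obtain ⟨b, hb, hb1⟩ := hcg u hu
        exact ⟨hC1 u hu, b, hAA' hb, hb1⟩
      · rw [Set.mem_singleton_iff] at hu
        rw [hu]
        exact ⟨h.w1.le, v, hvA', by rw [norm_sub_rev]; exact hI1 _ hvw⟩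
    obtain ⟨-, b, hb, hb1⟩ := hE
    refine ⟨b, hb, ?_⟩
    have h4 : z - b = (z - e') + (-(z1 - e') + (z1 - b)) := by ring
    rw [h4]
    refine lt_of_le_of_lt (IsUltrametricDist.norm_add_le_max _ _) (max_lt hze ?_)
    refine lt_of_le_of_lt (IsUltrametricDist.norm_add_le_max _ _) (max_lt ?_ hb1)
    rw [norm_neg]
    exact hz1e
  have hx''s : ∀ i, x'' i ∈ Submodule.span (Cp (Bu c' x'' G''))
      {b : W | b ∈ A' ∧ ‖b‖ < 1} := by
    intro i
    obtain ⟨u, hu, h4⟩ := hU' i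
    have hu1 := sgsU_norm hD' hP1 hu
    have hu0 : u ≠ 0 := norm_pos_iff.1 (by rw [hu1]; exact one_pos)
    have h5 : x'' i = u⁻¹ * U i := by
      rw [h4, mul_comm (x'' i) u, inv_mul_cancel_left₀ hu0]
    rw [h5]
    exact Submodule.smul_mem _
      (⟨u⁻¹, hD'.inv u (sgsU_mem hPD hu) hu1⟩ : Cp (Bu c' x'' G''))
      (Submodule.subset_span ⟨hUA' i, hUn i⟩)
  have hmax : ∀ z ∈ Cp (Bu c' x'' G''), ‖z‖ < 1 → z ∈ Submodule.span (Cp (Bu c' x'' G''))
      {b : W | b ∈ A' ∧ ‖b‖ < 1} := by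
    intro z hz hz1
    refine Submodule.span_le.2 ?_ (sgs_gen hr hL hML hok' hM'' z hz hz1)
    rintro _ ⟨l, rfl⟩
    rw [SetLike.mem_coe]
    refine Fin.cases ?_ (fun i => ?_) l
    · rw [Fin.cons_zero]
      obtain ⟨t, ht, h4⟩ := hIm' _ hy1
      obtain ⟨t', ht', h5⟩ := hPf
      have h6 : c'.y = g'.eval v - (t * t') * x'' ⟨0, hr⟩ := by
        rw [h5] at h4
        linear_combination -h4
      rw [h6]
      refine sub_mem (Submodule.subset_span ⟨hy1A, hy1n⟩) ?_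
      exact Submodule.smul_mem _ (⟨t * t', mul_mem ht ht'⟩ : Cp (Bu c' x'' G'')) (hx''s _)
    · rw [Fin.cons_succ]
      exact hx''s i
  have hCp : Cp A' = Cp (Bu c' x'' G'') := cp_eq_of_surj hA'N hNB' hA'D hres hmax
  refine ⟨insert v (Finset.univ.image U), U, g'.eval v, ξ, x'', G'', A', hA', ?_, ⟨hM'', hCp⟩,
    fun z hz => h1 z (Finset.mem_union_left _ hz), fun z hz => h2 z (Finset.mem_union_left _ hz),
    fun a ha => h3 a (Finset.mem_union_left _ ha), fun i => ⟨hUA' i, ?_⟩, hy1A, hy1n, hgen',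
    fun l => ⟨hξA l, hqn l⟩, hgen, fun l => ?_⟩
  · intro u hu
    have hU0 : ∀ i, U i ≠ 0 := by
      intro i
      obtain ⟨u, hu, h4⟩ := hU' i
      rw [h4]
      exact mul_ne_zero (hM''.mt.ind.ne i)
        (norm_pos_iff.1 (by rw [sgsU_norm hD' hP1 hu]; exact one_pos))
    have hone : MoC (S ⊓ L) c' (1 : W) ∧ MonV (ball W) A' U 1 :=
      ⟨⟨0, 1, one_mem _, norm_one, by rw [TDO.mon_zero, one_mul]⟩,
        1, one_mem _, map_one _, 0, by unfold monN; simp⟩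
    have hQ : ∀ l, ξ l ∈ A ∧ (MoC (S ⊓ L) c' (ξ l) ∧ MonV (ball W) A' U (ξ l)) := by
      intro l
      refine ⟨hξA l, hqM l, ?_⟩
      obtain ⟨bb, nn, h4, h5⟩ := hξU l
      refine ⟨v ^ nn, ?_, ?_, fun i => (bb i).toNat, ?_⟩
      · obtain ⟨n', rfl | rfl⟩ := nn.eq_nat_or_neg
        · rw [zpow_natCast]; exact pow_mem hvA' n'
        · rw [zpow_neg, zpow_natCast, ← inv_pow]
          exact pow_mem (hA'N.inv v hvA' hvn) n'
      · exact (ball_val_eq_one _).2 (by rw [norm_zpow, hvn, one_zpow])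
      · rw [h4, sgs_monN, mul_comm]
        congr 2
        funext i
        exact (Int.toNat_of_nonneg (by have := h5 i; omega)).symm
    have hfr := fun a j => sgs_frac A (fun z => MoC (S ⊓ L) c' z ∧ MonV (ball W) A' U z)
      hone (fun u u' h h' => ⟨MoC.mul hok' h.1 h'.1, sgs_monV_mul h.2 h'.2⟩)
      (fun u h => h.1.ne hok') (fun l => ξ l.succ) (ξ 0) (fun l => hQ _) (hQ 0) a j
    rcases Finset.mem_insert.1 hu with rfl | hu
    · refine ⟨hvn.le, ?_⟩
      obtain ⟨n, hn, d, hd, ⟨hd1, hd2⟩, hnd⟩ := hfr av jv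
      exact ⟨n, hn, d, hd, hd1, hd2, by rw [← hnd]; congr 1⟩
    · obtain ⟨i, -, rfl⟩ := Finset.mem_image.1 hu
      refine ⟨(hUn i).le, ?_⟩
      obtain ⟨n, hn, d, hd, ⟨hd1, hd2⟩, hnd⟩ := hfr (a i) (j i)
      exact ⟨n, hn, d, hd, hd1, hd2, by rw [← hnd, hU]⟩
  · obtain ⟨u, hu, h4⟩ := hU' i
    exact ⟨u, by rw [hCp]; exact sgsU_mem hPD hu, sgsU_norm hD' hP1 hu, h4⟩
  · obtain ⟨bb, nn, h4, h5⟩ := hξU l
    have h6 : ∀ i, ((bb i).toNat : ℤ) = bb i := fun i => Int.toNat_of_nonneg (by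
      have := h5 i
      omega)
    have h7 : mon U bb = monN U (fun i => (bb i).toNat) := by
      rw [sgs_monN]
      congr 1
      funext i
      exact (h6 i).symm
    have h8 : ∀ i, 1 ≤ (bb i).toNat := by
      intro i
      have h9 := h5 i
      have h10 := h6 i
      omega
    refine ⟨monN U (fun i => (bb i).toNat - 1) * v ^ nn, mul_mem ?_ ?_, ?_⟩
    · unfold monN
      exact prod_mem fun i _ => pow_mem (hUA' i) _
    · obtain ⟨n', rfl | rfl⟩ := nn.eq_nat_or_neg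
      · rw [zpow_natCast]; exact pow_mem hvA' n'
      · rw [zpow_neg, zpow_natCast, ← inv_pow]
        exact pow_mem (hA'N.inv v hvA' hvn) n'
    · rw [h4, h7, sgs_monN_pos U _ h8, mul_assoc]

end Pool.Agent.Lib.TQ
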